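import Pool.Agent.Run7.h985.Ind

/-!
# Adding generators (MP_5f0082_gt, helper985)
-/

set_option autoImplicit false
set_option maxHeartbeats 400000

namespace Run7.h985

open Pool.H582SA

section deg

variable {ι : Type} {p : ι → ℕ}

/-- homogeneous elements of word length at least `l` and degree `n` -/
noncomputable def Hom (p : ι → ℕ) (l n : ℕ) : Submodule ℚ (FGC (sg p)) :=
  spanOf (sg p) (fun L => l ≤ L.length ∧ (L.map p).sum = n)

theorem hom_mul {l l' n n' : ℕ} {a b : FGC (sg p)} (ha : a ∈ Hom p l n) (hb : b ∈ Hom p l' n') :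
    a * b ∈ Hom p (l + l') (n + n') := by
  refine spanOf_mul ?_ ha hb
  rintro L M ⟨h1, h2⟩ ⟨h3, h4⟩
  simp only [List.length_append, List.map_append, List.sum_append]
  omega

theorem hom_gen (i : ι) : gen (sg p) i ∈ Hom p 1 (p i) := by
  rw [← mono_single]; exact mono_mem (by simp)

theorem hom_one : (1 : FGC (sg p)) ∈ Hom p 0 0 := by
  rw [← mono_nil]; exact mono_mem (by simp)

theorem hom_pow {l n : ℕ} {a : FGC (sg p)} (ha : a ∈ Hom p l n) (k : ℕ) :
    a ^ k ∈ Hom p (k * l) (k * n) := by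
  induction k with
  | zero => rw [pow_zero, zero_mul, zero_mul]; exact hom_one
  | succ k ih =>
    rw [pow_succ, add_mul, add_mul, one_mul, one_mul]
    exact hom_mul ih ha

theorem hom_le {l l' n : ℕ} (h : l' ≤ l) {a : FGC (sg p)} (ha : a ∈ Hom p l n) :
    a ∈ Hom p l' n := spanOf_mono (fun _ hL => ⟨h.trans hL.1, hL.2⟩) ha

theorem hom_par {l n : ℕ} {a : FGC (sg p)} (ha : a ∈ Hom p l n) : a ∈ Par p n :=
  spanOf_mono (fun _ hL => by rw [hL.2]) ha

theorem hom_congr {l n n' : ℕ} (h : n = n') {a : FGC (sg p)} (ha : a ∈ Hom p l n) :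
    a ∈ Hom p l n' := h ▸ ha

theorem hom_emb {ι' : Type} {p' : ι' → ℕ} (e : ι → ι') (he : ∀ i, p' (e i) = p i) {l n : ℕ}
    {a : FGC (sg p)} (ha : a ∈ Hom p l n) : emb e he a ∈ Hom p' l n :=
  emb_mem e he (fun L hL => by rw [map_deg_sum e he, List.length_map]; exact hL) ha

end deg

namespace Sul

section add

variable {ι κ : Type} (s : Sul ι) (q : κ → ℕ)

/-- degrees of the extended algebra -/
abbrev ad : ι ⊕ κ → ℕ := Sum.elim s.deg q

/-- the embedding into the extended algebra -/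
noncomputable def aem : FGC (sg s.deg) →ₐ[ℚ] FGC (sg (s.ad q)) :=
  emb (p := s.deg) Sum.inl (fun _ => rfl)

theorem aem_gen (i : ι) : s.aem q (gen _ i) = gen _ (Sum.inl i) := emb_gen _ _ i

theorem aem_hom {l n : ℕ} {a : FGC (sg s.deg)} (ha : a ∈ Hom s.deg l n) :
    s.aem q a ∈ Hom (s.ad q) l n := hom_emb _ _ ha

theorem aem_par {n : ℕ} {a : FGC (sg s.deg)} (ha : a ∈ Par s.deg n) :
    s.aem q a ∈ Par (s.ad q) n := emb_par _ _ ha

variable (e : κ → FGC (sg (s.ad q)))

/-- differentials of the extended algebra -/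
noncomputable def adif : ι ⊕ κ → FGC (sg (s.ad q)) :=
  Sum.elim (fun i => s.aem q (s.d i)) e

variable {e} (hg : ∀ k, e k ∈ Hom (s.ad q) 2 (q k + 1))

include hg in
theorem adif_good (x : ι ⊕ κ) : s.adif q e x ∈ Hom (s.ad q) 2 (s.ad q x + 1) := by
  rcases x with i | k
  · exact s.aem_hom q (s.good i)
  · exact hg k

include hg in
theorem adif_par (x : ι ⊕ κ) : s.adif q e x ∈ Par (s.ad q) (s.ad q x + 1) :=
  hom_par (s.adif_good q hg x)

/-- the differential of the extended algebra -/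
noncomputable def AD : FGC (sg (s.ad q)) →ₗ[ℚ] FGC (sg (s.ad q)) :=
  mkD (s.adif q e) (s.adif_par q hg)

theorem AD_isDer : IsDer (s.AD q hg) := isDer_mkD _ _

theorem AD_inr (k : κ) : s.AD q hg (gen _ (Sum.inr k)) = e k := mkD_gen _ _ _

theorem AD_inl (a : FGC (sg s.deg)) :
    s.AD q hg (s.aem q a) = s.aem q (s.D a) := by
  refine der_emb (p := s.deg) s.isDer (s.AD_isDer q hg) _ _ ?_ a
  intro i
  rw [s.D_gen]
  exact mkD_gen _ _ _

/-- the extended algebra -/
noncomputable def add (h2 : ∀ k, 2 ≤ q k) (hsq : ∀ k, s.AD q hg (e k) = 0) : Sul (ι ⊕ κ) where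
  deg := s.ad q
  two_le := by
    rintro (i | k)
    · exact s.two_le i
    · exact h2 k
  d := s.adif q e
  good := s.adif_good q hg
  sq := by
    rintro (i | k)
    · change s.AD q hg (s.aem q (s.d i)) = 0
      rw [AD_inl, ← s.D_gen, s.D_D, map_zero]
    · exact hsq k

theorem add_ext (h2 : ∀ k, 2 ≤ q k) (hsq : ∀ k, s.AD q hg (e k) = 0) :
    s.IsExt (s.add q hg h2 hsq) := ⟨fun _ => rfl, fun _ => rfl⟩

end add

section assoc

variable {ι κ₁ κ₂ : Type}

/-- reindexing -/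
noncomputable def congr {ι ι' : Type} (s : Sul ι) (e : ι ≃ ι') : Sul ι' where
  deg := fun i => s.deg (e.symm i)
  two_le := fun i => s.two_le _
  d := fun i => emb (p := s.deg) e (fun i => by simp) (s.d (e.symm i))
  good := fun i => hom_emb _ _ (s.good _)
  sq := by
    intro i
    have h : ∀ a, mkD (p := fun i => s.deg (e.symm i))
        (fun i => emb (p := s.deg) e (fun i => by simp) (s.d (e.symm i)))
        (fun i => hom_par (hom_emb _ _ (s.good _)))
        (emb (p := s.deg) e (fun i => by simp) a)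
        = emb (p := s.deg) e (fun i => by simp) (s.D a) := by
      refine der_emb s.isDer (isDer_mkD _ _) _ _ ?_
      intro j
      rw [mkD_gen, s.D_gen]
      simp
    rw [h, ← s.D_gen, s.D_D, map_zero]

theorem congr_D {ι ι' : Type} (s : Sul ι) (e : ι ≃ ι') (a : FGC (sg s.deg)) :
    (s.congr e).D (emb (p := s.deg) e (fun i => by simp [congr]) a)
      = emb (p := s.deg) e (fun i => by simp [congr]) (s.D a) := by
  refine der_emb s.isDer (s.congr e).isDer _ _ ?_ a
  intro j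
  rw [D_gen, s.D_gen]
  simp [congr]
  rfl

theorem congr_ell {ι ι' : Type} (s : Sul ι) (e : ι ≃ ι') (h : s.Elliptic) :
    (s.congr e).Elliptic := by
  intro i
  have h1 : ∀ i, (s.congr e).deg (e i) = s.deg i := fun i => by simp [congr]
  have h2 := ideal_emb (s.congr e).isDer (e : ι → ι') h1 (D := s.D) ?_
    ⟨e.symm i.1, i.2⟩ (h ⟨e.symm i.1, i.2⟩)
  · simpa using h2
  · intro j
    rw [← s.congr_D e, emb_gen]

theorem anick_assoc (s : Sul ι) (t : Sul (ι ⊕ κ₁)) (u : Sul ((ι ⊕ κ₁) ⊕ κ₂)) (hst : s.IsExt t)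
    (htu : t.IsExt u) [Finite κ₁] [Finite κ₂] {n : ℕ} (h1 : ∀ k, n ≤ t.deg (Sum.inr k))
    (h2 : ∀ k, n ≤ u.deg (Sum.inr k)) (hell : u.Elliptic) : s.Anick n := by
  obtain ⟨hd1, hst⟩ := hst
  obtain ⟨hd2, htu⟩ := htu
  refine ⟨κ₁ ⊕ κ₂, inferInstance, u.congr (Equiv.sumAssoc ι κ₁ κ₂), ⟨?_, ?_⟩, ?_,
    u.congr_ell _ hell⟩
  · intro i
    change u.deg (Sum.inl (Sum.inl i)) = _
    rw [hd2, hd1]
  · intro i
    change emb (p := u.deg) (Equiv.sumAssoc ι κ₁ κ₂) _ (u.d (Sum.inl (Sum.inl i))) = _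
    rw [htu, hst, emb_emb, emb_emb]
    rfl
  · rintro (k | k)
    · change n ≤ u.deg (Sum.inl (Sum.inr k))
      rw [hd2]; exact h1 k
    · exact h2 k

end assoc

end Sul

end Run7.h985
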