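import Pool.Agent.H582SA.Alg

/-!
# Basic facts on free graded commutative algebras (MP_5f0082_gt, helper985)
-/

set_option autoImplicit false

namespace Run7.h985

open Pool.H582SA

section basic

variable {ι : Type} {p : ι → ℕ}

theorem par_mul {m n : ℕ} {a b : FGC (sg p)} (ha : a ∈ Par p m) (hb : b ∈ Par p n) :
    a * b ∈ Par p (m + n) := by
  refine spanOf_mul ?_ ha hb
  intro L M hL hM
  simp only [List.map_append, List.sum_append]
  omega

theorem par_cong {m n : ℕ} (h : m % 2 = n % 2) {a : FGC (sg p)} (ha : a ∈ Par p m) :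
    a ∈ Par p n := spanOf_mono (fun _ hL => hL.trans h) ha

theorem par_one : (1 : FGC (sg p)) ∈ Par p 0 := by
  rw [← mono_nil]
  exact mono_mem (by simp)

theorem par_gen (i : ι) : gen (sg p) i ∈ Par p (p i) := by
  rw [← mono_single]
  exact mono_mem (by simp)

theorem par_mono (L : List ι) : mono (sg p) L ∈ Par p ((L.map p).sum) := mono_mem rfl

theorem par_comm {m n : ℕ} {a b : FGC (sg p)} (ha : a ∈ Par p m) (hb : b ∈ Par p n) :
    a * b = ((-1 : ℚ) ^ (m * n)) • (b * a) := by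
  have key : ∀ L : List ι, mono (sg p) L * b
      = ((-1 : ℚ) ^ ((L.map p).sum * n)) • (b * mono (sg p) L) := by
    intro L
    induction L with
    | nil => simp
    | cons i L ih =>
      rw [mono_cons, mul_assoc, ih, mul_smul_comm, ← mul_assoc, gen_mul_par hb, smul_mul_assoc,
        smul_smul, mul_assoc]
      congr 1
      simp only [List.map_cons, List.sum_cons]
      rw [← pow_add]
      congr 1
      ring
  refine spanOf_induct (P := fun a => a * b = ((-1 : ℚ) ^ (m * n)) • (b * a)) ?_ ?_ ?_ ?_ ha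
  · intro L hL
    rw [key]
    congr 1
    rw [mul_comm _ n, mul_comm m n, pow_mul, pow_mul]
    rcases Nat.even_or_odd n with h | h
    · rw [h.neg_one_pow]; simp
    · rw [h.neg_one_pow]; exact neg_one_pow_mod hL
  · simp
  · intro a b h1 h2; rw [add_mul, h1, h2, mul_add, smul_add]
  · intro r a h1; rw [smul_mul_assoc, h1, mul_smul_comm, smul_comm]

theorem even_comm {a : FGC (sg p)} (ha : a ∈ Par p 0) (b : FGC (sg p)) : a * b = b * a := by
  refine mono_induct (P := fun b => a * b = b * a) ?_ ?_ ?_ ?_ b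
  · intro L
    rw [par_comm ha (par_mono L)]
    simp
  · simp
  · intro a b h1 h2; rw [mul_add, h1, h2, add_mul]
  · intro r a h1; rw [mul_smul_comm, h1, smul_mul_assoc]

theorem odd_comm {a b : FGC (sg p)} (ha : a ∈ Par p 1) (hb : b ∈ Par p 1) :
    a * b = -(b * a) := by
  rw [par_comm ha hb]; simp

theorem odd_sq {a : FGC (sg p)} (ha : a ∈ Par p 1) : a * a = 0 := by
  have h := odd_comm ha ha
  have h2 : (2 : ℚ) • (a * a) = 0 := by
    rw [two_smul]; nth_rw 1 [h]; simp
  exact (smul_eq_zero.mp h2).resolve_left (by norm_num)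

theorem tau_even {a : FGC (sg p)} (ha : a ∈ Par p 0) : tau p a = a := by
  rw [tau_par ha]; simp

theorem tau_odd {a : FGC (sg p)} (ha : a ∈ Par p 1) : tau p a = -a := by
  rw [tau_par ha]; simp

theorem par_tau {n : ℕ} {a : FGC (sg p)} (ha : a ∈ Par p n) : tau p a ∈ Par p n := by
  rw [tau_par ha]; exact Submodule.smul_mem _ _ ha

theorem tau_tau (a : FGC (sg p)) : tau p (tau p a) = a := by
  refine mono_induct (P := fun a => tau p (tau p a) = a) ?_ ?_ ?_ ?_ a
  · intro L
    rw [tau_mono, map_smul, tau_mono, smul_smul, ← pow_add, Even.neg_one_pow ⟨_, rfl⟩, one_smul]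
  · simp
  · intro a b h1 h2; rw [map_add, map_add, h1, h2]
  · intro r a h1; rw [map_smul, map_smul, h1]

/-- two maps with the same twisted Leibniz rule agree when they agree on generators -/
theorem der_ext {σ : ι → ι → ℚ} {B : Type} [Ring B] [Algebra ℚ B] (F G : FGC σ →ₗ[ℚ] B)
    (φ ψ : FGC σ → B) (hF : ∀ a b, F (a * b) = F a * φ b + ψ a * F b)
    (hG : ∀ a b, G (a * b) = G a * φ b + ψ a * G b) (h1 : F 1 = G 1)
    (hg : ∀ i, F (gen σ i) = G (gen σ i)) : F = G := by
  ext a
  refine FGC.induct (P := fun a => F a = G a) ?_ hg ?_ ?_ a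
  · intro r; rw [Algebra.algebraMap_eq_smul_one, map_smul, map_smul, h1]
  · intro a b h1 h2; rw [hF, hG, h1, h2]
  · intro a b h1 h2; rw [map_add, map_add, h1, h2]

theorem alg_ext {σ : ι → ι → ℚ} {B : Type} [Ring B] [Algebra ℚ B] (F G : FGC σ →ₐ[ℚ] B)
    (hg : ∀ i, F (gen σ i) = G (gen σ i)) : F = G := by
  ext a
  refine FGC.induct (P := fun a => F a = G a) ?_ hg ?_ ?_ a
  · intro r; rw [AlgHom.commutes, AlgHom.commutes]
  · intro a b h1 h2; rw [map_mul, map_mul, h1, h2]
  · intro a b h1 h2; rw [map_add, map_add, h1, h2]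

end basic

section evenDer

variable {ι : Type} {p : ι → ℕ}

/-- auxiliary homomorphism to upper triangular matrices for even derivations -/
noncomputable def ThetaE (D : ι → FGC (sg p)) (hD : ∀ i, D i ∈ Par p (p i)) :
    FGC (sg p) →ₐ[ℚ] Matrix (Fin 2) (Fin 2) (FGC (sg p)) :=
  lift (fun i => !![gen (sg p) i, D i; 0, gen (sg p) i]) (by
    intro i j
    have e2 : gen (sg p) i * D j + D i * gen (sg p) j
        = sg p i j • (gen (sg p) j * D i + D j * gen (sg p) i) := by
      rw [gen_mul_par (hD j), gen_mul_par (hD i), smul_add, smul_smul, add_comm]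
      congr 1
      have : sg p i j * (-1 : ℚ) ^ (p j * p i) = 1 := by
        unfold sg
        rw [← pow_add]
        apply Even.neg_one_pow
        refine ⟨p i * p j, by ring⟩
      rw [this, one_smul]
    ext a b
    fin_cases a <;> fin_cases b
    · simpa [Matrix.mul_apply, Fin.sum_univ_two] using gen_comm i j
    · simpa [Matrix.mul_apply, Fin.sum_univ_two] using e2
    · simp [Matrix.mul_apply, Fin.sum_univ_two]
    · simpa [Matrix.mul_apply, Fin.sum_univ_two] using gen_comm i j)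

theorem ThetaE_spec (D : ι → FGC (sg p)) (hD : ∀ i, D i ∈ Par p (p i)) (a : FGC (sg p)) :
    ThetaE D hD a 0 0 = a ∧ ThetaE D hD a 1 0 = 0 ∧ ThetaE D hD a 1 1 = a := by
  refine FGC.induct (P := fun a => ThetaE D hD a 0 0 = a ∧ ThetaE D hD a 1 0 = 0
    ∧ ThetaE D hD a 1 1 = a) ?_ ?_ ?_ ?_ a
  · intro r
    rw [AlgHom.commutes]
    simp [Matrix.algebraMap_matrix_apply]
  · intro i
    simp [ThetaE]
  · rintro a b ⟨h1, h2, h3⟩ ⟨g1, g2, g3⟩
    simp [Matrix.mul_apply, Fin.sum_univ_two, h1, h2, h3, g1, g2, g3]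
  · rintro a b ⟨h1, h2, h3⟩ ⟨g1, g2, g3⟩
    simp [h1, h2, h3, g1, g2, g3]

/-- the even derivation with prescribed values on generators -/
noncomputable def mkE (D : ι → FGC (sg p)) (hD : ∀ i, D i ∈ Par p (p i)) :
    FGC (sg p) →ₗ[ℚ] FGC (sg p) where
  toFun a := ThetaE D hD a 0 1
  map_add' a b := by simp
  map_smul' r a := by simp

theorem mkE_gen (D : ι → FGC (sg p)) (hD : ∀ i, D i ∈ Par p (p i)) (i : ι) :
    mkE D hD (gen (sg p) i) = D i := by
  simp [mkE, ThetaE]

theorem mkE_mul (D : ι → FGC (sg p)) (hD : ∀ i, D i ∈ Par p (p i)) (a b : FGC (sg p)) :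
    mkE D hD (a * b) = mkE D hD a * b + a * mkE D hD b := by
  obtain ⟨h1, h2, h3⟩ := ThetaE_spec D hD a
  obtain ⟨g1, g2, g3⟩ := ThetaE_spec D hD b
  simp only [mkE, LinearMap.coe_mk, AddHom.coe_mk, map_mul, Matrix.mul_apply, Fin.sum_univ_two,
    h1, g3]
  rw [add_comm]

theorem mkE_one (D : ι → FGC (sg p)) (hD : ∀ i, D i ∈ Par p (p i)) :
    mkE D hD 1 = 0 := by
  simp [mkE]

end evenDer

section spans

variable {ι : Type} {p : ι → ℕ}

/-- `W` is obtained from `L` by replacing one letter `i` by a word with property `S i` -/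
def Repl (S : ι → List ι → Prop) (L W : List ι) : Prop :=
  ∃ (L1 : List ι) (i : ι) (L2 M : List ι), L = L1 ++ i :: L2 ∧ S i M ∧ W = L1 ++ M ++ L2

theorem der_mono_mem (S : ι → List ι → Prop) (F : FGC (sg p) →ₗ[ℚ] FGC (sg p))
    (ψ : FGC (sg p) → FGC (sg p)) (hF : ∀ a b, F (a * b) = F a * b + ψ a * F b)
    (hψ : ∀ i, ∃ c : ℚ, ψ (gen (sg p) i) = c • gen (sg p) i) (h1 : F 1 = 0)
    (hS : ∀ i, F (gen (sg p) i) ∈ spanOf (sg p) (S i)) (L : List ι) :
    F (mono (sg p) L) ∈ spanOf (sg p) (Repl S L) := by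
  induction L with
  | nil => rw [mono_nil, h1]; exact zero_mem _
  | cons i L ih =>
    rw [mono_cons, hF]
    refine add_mem ?_ ?_
    · refine spanOf_mul (S := S i) (T := fun M => M = L) ?_ (hS i) (mono_mem rfl)
      rintro M _ hM rfl
      exact ⟨[], i, _, M, rfl, hM, by simp⟩
    · obtain ⟨c, hc⟩ := hψ i
      rw [hc, smul_mul_assoc]
      refine Submodule.smul_mem _ _ ?_
      rw [← mono_single]
      refine spanOf_mul (S := fun M => M = [i]) (T := Repl S L) ?_ (mono_mem rfl) ih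
      rintro _ W rfl ⟨L1, j, L2, M, h1, h2, h3⟩
      exact ⟨i :: L1, j, L2, M, by simp [h1], h2, by simp [h3]⟩

theorem der_mem (S : ι → List ι → Prop) (F : FGC (sg p) →ₗ[ℚ] FGC (sg p))
    (ψ : FGC (sg p) → FGC (sg p)) (hF : ∀ a b, F (a * b) = F a * b + ψ a * F b)
    (hψ : ∀ i, ∃ c : ℚ, ψ (gen (sg p) i) = c • gen (sg p) i) (h1 : F 1 = 0)
    (hS : ∀ i, F (gen (sg p) i) ∈ spanOf (sg p) (S i)) {S0 T : List ι → Prop}
    (h : ∀ L, S0 L → ∀ W, Repl S L W → T W) {a : FGC (sg p)} (ha : a ∈ spanOf (sg p) S0) :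
    F a ∈ spanOf (sg p) T := by
  refine spanOf_induct (P := fun a => F a ∈ spanOf (sg p) T) ?_ ?_ ?_ ?_ ha
  · intro L hL
    exact spanOf_mono (h L hL) (der_mono_mem S F ψ hF hψ h1 hS L)
  · rw [map_zero]; exact zero_mem _
  · intro a b h1 h2; rw [map_add]; exact add_mem h1 h2
  · intro r a h1; rw [map_smul]; exact Submodule.smul_mem _ _ h1

theorem mkD_mem {D : ι → FGC (sg p)} {hD : ∀ i, D i ∈ Par p (p i + 1)} (S : ι → List ι → Prop)
    (hS : ∀ i, D i ∈ spanOf (sg p) (S i)) {S0 T : List ι → Prop}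
    (h : ∀ L, S0 L → ∀ W, Repl S L W → T W) {a : FGC (sg p)} (ha : a ∈ spanOf (sg p) S0) :
    mkD D hD a ∈ spanOf (sg p) T :=
  der_mem S (mkD D hD) (tau p) (mkD_mul D hD) (fun i => ⟨_, tau_gen i⟩) (mkD_one D hD)
    (fun i => by rw [mkD_gen]; exact hS i) h ha

theorem mkE_mem {D : ι → FGC (sg p)} {hD : ∀ i, D i ∈ Par p (p i)} (S : ι → List ι → Prop)
    (hS : ∀ i, D i ∈ spanOf (sg p) (S i)) {S0 T : List ι → Prop}
    (h : ∀ L, S0 L → ∀ W, Repl S L W → T W) {a : FGC (sg p)} (ha : a ∈ spanOf (sg p) S0) :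
    mkE D hD a ∈ spanOf (sg p) T :=
  der_mem S (mkE D hD) id (fun a b => by simpa using mkE_mul D hD a b)
    (fun i => ⟨1, by simp⟩) (mkE_one D hD)
    (fun i => by rw [mkE_gen]; exact hS i) h ha

theorem mkD_par {D : ι → FGC (sg p)} {hD : ∀ i, D i ∈ Par p (p i + 1)} {n : ℕ}
    {a : FGC (sg p)} (ha : a ∈ Par p n) : mkD D hD a ∈ Par p (n + 1) := by
  refine mkD_mem (fun i M => (M.map p).sum % 2 = (p i + 1) % 2) hD ?_ ha
  rintro L hL W ⟨L1, i, L2, M, rfl, hM, rfl⟩
  simp only [List.map_append, List.map_cons, List.sum_append, List.sum_cons] at hL ⊢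
  omega

theorem mkE_par {D : ι → FGC (sg p)} {hD : ∀ i, D i ∈ Par p (p i)} {n : ℕ}
    {a : FGC (sg p)} (ha : a ∈ Par p n) : mkE D hD a ∈ Par p n := by
  refine mkE_mem (fun i M => (M.map p).sum % 2 = (p i) % 2) hD ?_ ha
  rintro L hL W ⟨L1, i, L2, M, rfl, hM, rfl⟩
  simp only [List.map_append, List.map_cons, List.sum_append, List.sum_cons] at hL ⊢
  omega

end spans

section weights

open Polynomial

variable {ι : Type} {σ : ι → ι → ℚ}

/-- the coaction attached to a weight function -/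
noncomputable def delta (σ : ι → ι → ℚ) (w : ι → ℕ) : FGC σ →ₐ[ℚ] Polynomial (FGC σ) :=
  lift (fun i => C (gen σ i) * X ^ (w i)) (by
    intro i j
    have h1 : C (gen σ i) * X ^ (w i) * (C (gen σ j) * X ^ (w j))
        = C (gen σ i * gen σ j) * X ^ (w i + w j) := by
      rw [mul_assoc, ← mul_assoc (X ^ (w i)), X_pow_mul_C, mul_assoc (C (gen σ j)), ← pow_add,
        ← mul_assoc, ← C_mul]
    have h2 : C (gen σ j) * X ^ (w j) * (C (gen σ i) * X ^ (w i))
        = C (gen σ j * gen σ i) * X ^ (w i + w j) := by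
      rw [mul_assoc, ← mul_assoc (X ^ (w j)), X_pow_mul_C, mul_assoc (C (gen σ i)), ← pow_add,
        ← mul_assoc, ← C_mul, add_comm]
    rw [h1, h2, gen_comm, ← smul_C, smul_mul_assoc])

theorem delta_mono (w : ι → ℕ) (L : List ι) :
    delta σ w (mono σ L) = C (mono σ L) * X ^ ((L.map w).sum) := by
  induction L with
  | nil => simp
  | cons i L ih =>
    rw [mono_cons, map_mul, ih, delta, lift_gen, mul_assoc, ← mul_assoc (X ^ (w i)), X_pow_mul_C,
      mul_assoc (C (mono σ L)), ← pow_add, ← mul_assoc, ← C_mul]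
    simp

/-- projection to the part of weight `m` -/
noncomputable def prj (σ : ι → ι → ℚ) (w : ι → ℕ) (m : ℕ) : FGC σ →ₗ[ℚ] FGC σ where
  toFun a := (delta σ w a).coeff m
  map_add' a b := by simp
  map_smul' r a := by simp

theorem prj_mono (w : ι → ℕ) (m : ℕ) (L : List ι) :
    prj σ w m (mono σ L) = if (L.map w).sum = m then mono σ L else 0 := by
  change (delta σ w (mono σ L)).coeff m = _
  rw [delta_mono, coeff_C_mul_X_pow]
  by_cases h : (L.map w).sum = m
  · rw [if_pos h, if_pos h.symm]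
  · rw [if_neg h, if_neg (fun h' => h h'.symm)]

theorem prj_mem {S : List ι → Prop} (w : ι → ℕ) (m : ℕ) {a : FGC σ} (ha : a ∈ spanOf σ S) :
    prj σ w m a ∈ spanOf σ (fun L => S L ∧ (L.map w).sum = m) := by
  refine spanOf_induct (P := fun a => prj σ w m a ∈ spanOf σ (fun L => S L ∧ (L.map w).sum = m))
    ?_ ?_ ?_ ?_ ha
  · intro L hL
    rw [prj_mono]
    split_ifs with h
    · exact mono_mem ⟨hL, h⟩
    · exact zero_mem _
  · rw [map_zero]; exact zero_mem _
  · intro a b h1 h2; rw [map_add]; exact add_mem h1 h2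
  · intro r a h1; rw [map_smul]; exact Submodule.smul_mem _ _ h1

theorem prj_sum (w : ι → ℕ) (a : FGC σ) :
    ∃ N : ℕ, ∀ N', N ≤ N' → a = ∑ m ∈ Finset.range N', prj σ w m a := by
  refine mono_induct (P := fun a => ∃ N : ℕ, ∀ N', N ≤ N' →
    a = ∑ m ∈ Finset.range N', prj σ w m a) ?_ ?_ ?_ ?_ a
  · intro L
    refine ⟨(L.map w).sum + 1, fun N' hN' => ?_⟩
    rw [Finset.sum_eq_single_of_mem (L.map w).sum (Finset.mem_range.2 (by omega))]
    · rw [prj_mono, if_pos rfl]
    · intro b _ hb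
      rw [prj_mono, if_neg (fun h => hb h.symm)]
  · exact ⟨0, fun N' _ => by simp⟩
  · rintro a b ⟨N1, h1⟩ ⟨N2, h2⟩
    refine ⟨max N1 N2, fun N' hN' => ?_⟩
    simp only [map_add, Finset.sum_add_distrib]
    rw [← h1 N' (by omega), ← h2 N' (by omega)]
  · rintro r a ⟨N1, h1⟩
    refine ⟨N1, fun N' hN' => ?_⟩
    simp only [map_smul, ← Finset.smul_sum]
    rw [← h1 N' hN']

theorem prj_zero_of {S : List ι → Prop} (w : ι → ℕ) (m : ℕ) (h : ∀ L, S L → (L.map w).sum ≠ m)
    {a : FGC σ} (ha : a ∈ spanOf σ S) : prj σ w m a = 0 := by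
  refine spanOf_induct (P := fun a => prj σ w m a = 0) ?_ ?_ ?_ ?_ ha
  · intro L hL
    rw [prj_mono, if_neg (h L hL)]
  · rw [map_zero]
  · intro a b h1 h2; rw [map_add, h1, h2, add_zero]
  · intro r a h1; rw [map_smul, h1, smul_zero]

/-- a span of words can be cut by a condition on a weight -/
theorem spanOf_inter {S : List ι → Prop} (w : ι → ℕ) (T : ℕ → Prop) {a : FGC σ}
    (ha : a ∈ spanOf σ S) (hb : a ∈ spanOf σ (fun L => T (L.map w).sum)) :
    a ∈ spanOf σ (fun L => S L ∧ T (L.map w).sum) := by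
  obtain ⟨N, hN⟩ := prj_sum w a
  rw [hN N le_rfl]
  refine Submodule.sum_mem _ (fun m _ => ?_)
  by_cases hm : T m
  · exact spanOf_mono (fun L h => ⟨h.1, by rw [h.2]; exact hm⟩) (prj_mem w m ha)
  · rw [prj_zero_of w m (fun L hL h => hm (h ▸ hL)) hb]
    exact zero_mem _

theorem spanOf_false {S : List ι → Prop} (h : ∀ L, ¬ S L) {a : FGC σ} (ha : a ∈ spanOf σ S) :
    a = 0 :=
  spanOf_induct (P := fun a => a = 0) (fun L hL => absurd hL (h L)) rfl
    (fun a b h1 h2 => by rw [h1, h2, add_zero]) (fun r a h => by rw [h, smul_zero]) ha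

/-- an even generator is not a zero divisor -/
theorem gen_regular {p : ι → ℕ} (i : ι) (hi : Even (p i)) {a : FGC (sg p)}
    (h : gen (sg p) i * a = 0) : a = 0 := by
  classical
  let tr : FGC (sg p) →ₐ[ℚ] Polynomial (FGC (sg p)) :=
    lift (fun j => C (gen (sg p) j) + if j = i then X else 0) (by
      intro j k
      have hX : ∀ q : Polynomial (FGC (sg p)), X * q = q * X := fun q => X_mul
      have hs1 : ∀ k, sg p i k = 1 := fun k => by
        unfold sg; exact Even.neg_one_pow (hi.mul_right _)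
      have hs2 : ∀ k, sg p k i = 1 := fun k => by
        unfold sg; exact Even.neg_one_pow (hi.mul_left _)
      by_cases hj : j = i <;> by_cases hk : k = i
      · subst hj; subst hk
        rw [hs1, one_smul]
      · subst hj
        rw [if_pos rfl, if_neg hk, hs1, one_smul, add_zero, add_mul, mul_add, ← C_mul, ← C_mul,
          hX, gen_comm, hs1, one_smul]
      · subst hk
        rw [if_pos rfl, if_neg hj, hs2, one_smul, add_zero, add_mul, mul_add, ← C_mul, ← C_mul,
          hX, gen_comm, hs2, one_smul]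
      · rw [if_neg hj, if_neg hk, add_zero, add_zero, ← C_mul, ← C_mul, gen_comm, ← smul_C])
  have h1 : tr a = 0 := by
    have h2 : (X + C (gen (sg p) i)) * tr a = 0 := by
      have : tr (gen (sg p) i) = X + C (gen (sg p) i) := by
        simp [tr, add_comm]
      rw [← this, ← map_mul, h, map_zero]
    exact ((monic_X_add_C _).isRegular.left) (by simpa using h2)
  have h3 : ∀ b, (tr b).coeff 0 = b := by
    intro b
    refine FGC.induct (P := fun b => (tr b).coeff 0 = b) ?_ ?_ ?_ ?_ b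
    · intro r
      rw [AlgHom.commutes]
      rw [Polynomial.algebraMap_apply, coeff_C_zero]
    · intro j
      simp only [tr, lift_gen, coeff_add, coeff_C_zero]
      split_ifs <;> simp
    · intro a b h1 h2
      rw [map_mul, mul_coeff_zero, h1, h2]
    · intro a b h1 h2
      rw [map_add, coeff_add, h1, h2]
  rw [← h3 a, h1, coeff_zero]

end weights

end Run7.h985
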