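import Pool.Agent.Run7.h985.Add

/-!
# Algebras all whose even generators are closed (MP_5f0082_gt, helper985)
-/

set_option autoImplicit false
set_option maxHeartbeats 400000

namespace Run7.h985

open Pool.H582SA

theorem IsDer.pow_closed {ι : Type} {p : ι → ℕ} {D : FGC (sg p) →ₗ[ℚ] FGC (sg p)} (h : IsDer D)
    {a : FGC (sg p)} (ha : a ∈ Par p 0) (hD : D a = 0) (k : ℕ) : D (a ^ k) = 0 := by
  induction k with
  | zero => rw [pow_zero, h.one]
  | succ k ih => rw [pow_succ, h.even_mul (par_pow0 ha k), ih, hD, zero_mul, mul_zero, add_zero]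

theorem base0 (ι : Type) [Finite ι] (s : Sul ι) (h : ∀ i, Even (s.deg i) → s.d i = 0) (n : ℕ) :
    s.Anick n := by
  let N := n + 2
  let q : Ev s.deg → ℕ := fun x => N * s.deg x.1 - 1
  have hq : ∀ x, q x + 1 = N * s.deg x.1 := by
    intro x
    have := s.two_le x.1
    have : 1 ≤ N * s.deg x.1 := by simp only [N]; nlinarith
    simp only [q]
    omega
  have hqn : ∀ x, n + 2 ≤ q x := by
    intro x
    have h1 := s.two_le x.1
    have h2 := hq x
    have h3 : (n + 2) * 2 ≤ N * s.deg x.1 := Nat.mul_le_mul_left _ h1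
    omega
  let e : Ev s.deg → FGC (sg (s.ad q)) := fun x => (gen _ (Sum.inl x.1)) ^ N
  have he : ∀ x, e x ∈ Hom (s.ad q) 2 (q x + 1) := by
    intro x
    refine hom_le (l := N * 1) (by simp [N]) (hom_congr (n := N * s.deg x.1) (hq x).symm ?_)
    exact hom_pow (hom_gen (p := s.ad q) (Sum.inl x.1)) N
  have hsq : ∀ x, s.AD q he (e x) = 0 := by
    intro x
    refine (s.AD_isDer q he).pow_closed
      (par_gen_even (p := s.ad q) (i := Sum.inl x.1) x.2) ?_ N
    have h1 := s.AD_inl q he (gen _ x.1)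
    rw [s.D_gen, h _ x.2, s.aem_gen, map_zero] at h1
    exact h1
  refine ⟨Ev s.deg, inferInstance, s.add q he (fun k => by have := hqn k; omega) hsq,
    s.add_ext q he _ hsq, fun k => by have := hqn k; change n ≤ q k; omega, ?_⟩
  rintro ⟨i | x, hi⟩
  · refine ⟨N, Ideal.subset_span ⟨Sum.inr ⟨i, hi⟩, ?_, ?_⟩⟩
    · change ¬ Even (q ⟨i, hi⟩)
      have h1 := hq ⟨i, hi⟩
      have h2 : Even (N * s.deg i) := Even.mul_left hi N
      rw [← h1] at h2
      intro h3
      exact (Nat.not_even_iff_odd.2 h3.add_one) h2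
    · rw [Sul.D_gen]
      change _ = pr (s.ad q) (e ⟨i, hi⟩)
      rw [map_pow, pr_even (p := s.ad q) (i := Sum.inl i) hi]
      rfl
  · exfalso
    change Even (q x) at hi
    have h1 := hq x
    have h2 : Even (N * s.deg x.1) := Even.mul_left x.2 N
    rw [← h1] at h2
    exact (Nat.not_even_iff_odd.2 hi.add_one) h2

/-- Anick's conjecture for two-stage-like algebras -/
theorem anick0 (ι : Type) [Finite ι] (s : Sul ι) (V : ι → Prop) (h : Cls s V (fun _ => False))
    (n : ℕ) : s.Anick n := by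
  refine anick_ind 0 ?_ _ ι s V (fun _ => False) h le_rfl (by simp) n
  intro ι _ s Z _ _ h3 h4 n
  refine base0 ι s (fun i hi => ?_) n
  refine spanOf_false ?_ (h3 i hi)
  rintro L ⟨j, _, hj⟩
  have h5 := Finite.card_pos_iff.2 (⟨⟨j, hj⟩⟩ : Nonempty {i // Z i})
  omega

end Run7.h985
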