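import Pool.Agent.Run7.h985.Hto

/-!
# The block attached to Koszul tuples (MP_5f0082_gt, helper985)
-/

set_option autoImplicit false
set_option maxHeartbeats 400000

namespace Run7.h985

open Pool.H582SA

/-- a homogeneous Koszul tuple of large degree with respect to three even cocycles -/
structure Blk {ι : Type} (s : Sul ι) (n : ℕ) where
  /-- even cocycles -/
  φ : Fin 3 → Zc s.deg
  /-- degrees -/
  d : Fin 3 → ℕ
  /-- parity -/
  de : ∀ k, Even (d k)
  /-- degrees -/
  hφ : ∀ k, zv _ (φ k) ∈ Hom s.deg 1 (d k)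
  /-- cocycles -/
  cφ : ∀ k, s.D (zv _ (φ k)) = 0
  /-- the tuple -/
  T : Tup (gd s.isDer) φ
  /-- the degree -/
  m : ℕ
  /-- the length -/
  l : ℕ
  /-- parity -/
  me : Even m
  /-- the length is large -/
  hl : 3 ≤ l
  /-- the degree is large -/
  hm : d 0 + d 1 + d 2 + n + 2 ≤ m
  /-- homogeneous -/
  hT : HT T d l m

namespace Blk

variable {ι η : Type} {s : Sul ι} {n : ℕ}

/-- sum of the degrees of the cocycles -/
def dd (b : Blk s n) : ℕ := b.d 0 + b.d 1 + b.d 2

theorem d_le (b : Blk s n) (k : Fin 3) : b.d k ≤ b.dd := by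
  have := dsum b.d k
  unfold dd
  omega

theorem d_sum (b : Blk s n) (k : Fin 3) : b.d k + b.d (k + 1) + b.d (k + 2) = b.dd :=
  dsum b.d k

theorem hm' (b : Blk s n) : b.dd + n + 2 ≤ b.m := b.hm

theorem dd_even (b : Blk s n) : Even b.dd := ((b.de 0).add (b.de 1)).add (b.de 2)

variable (b : η → Blk s n)

/-- degrees of the first set of generators -/
def q1 (x : η × Option (Fin 3)) : ℕ :=
  match x.2 with
  | none => 2 * (b x.1).m + 2 - (b x.1).dd
  | some k => 2 * (b x.1).m + 1 - (b x.1).dd + (b x.1).d k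

/-- differentials of the first set of generators -/
noncomputable def e1 (x : η × Option (Fin 3)) : FGC (sg (s.ad (q1 b))) :=
  match x.2 with
  | none => s.aem (q1 b) (b x.1).T.ga
  | some k => s.aem (q1 b) (zv _ ((b x.1).T.nu k))
      - gen _ (Sum.inr (x.1, none)) * s.aem (q1 b) (zv _ ((b x.1).φ k))

theorem e1_good (x : η × Option (Fin 3)) : e1 b x ∈ Hom (s.ad (q1 b)) 2 (q1 b x + 1) := by
  obtain ⟨j, x⟩ := x
  have h1 := (b j).hm'
  have h2 := (b j).hl
  rcases x with _ | k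
  · refine s.aem_hom (q1 b) (wh_hom ?_ ?_ (b j).hT.ga)
    · omega
    · change (b j).m + (b j).m + 3 = (2 * (b j).m + 2 - (b j).dd + 1) + (b j).dd
      omega
  · have h3 := (b j).d_le k
    have h4 := (b j).d_sum k
    change s.aem (q1 b) (zv _ ((b j).T.nu k))
      - gen _ (Sum.inr (j, none)) * s.aem (q1 b) (zv _ ((b j).φ k))
      ∈ Hom (s.ad (q1 b)) 2 ((2 * (b j).m + 1 - (b j).dd + (b j).d k) + 1)
    refine sub_mem ?_ ?_
    · have h5 : zv _ ((b j).T.nu k)
          ∈ Hom s.deg 2 ((2 * (b j).m + 1 - (b j).dd + (b j).d k) + 1) :=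
        wh_hom (by omega) (by omega) ((b j).hT.nu k)
      exact s.aem_hom (q1 b) h5
    · have h6 := hom_mul (hom_gen (p := s.ad (q1 b)) (Sum.inr (j, none)))
        (s.aem_hom (q1 b) ((b j).hφ k))
      have h7 : s.ad (q1 b) (Sum.inr (j, none)) + (b j).d k
          = (2 * (b j).m + 1 - (b j).dd + (b j).d k) + 1 := by
        change (2 * (b j).m + 2 - (b j).dd) + (b j).d k = _
        omega
      exact hom_congr h7 (hom_le (by omega : 2 ≤ 1 + 1) h6)

theorem q1_two (x : η × Option (Fin 3)) : 2 ≤ q1 b x := by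
  obtain ⟨j, x⟩ := x
  have h1 := (b j).hm'
  rcases x with _ | k
  · change 2 ≤ 2 * (b j).m + 2 - (b j).dd
    omega
  · change 2 ≤ 2 * (b j).m + 1 - (b j).dd + (b j).d k
    omega

theorem q1_n (x : η × Option (Fin 3)) : n ≤ q1 b x := by
  obtain ⟨j, x⟩ := x
  have h1 := (b j).hm'
  rcases x with _ | k
  · change n ≤ 2 * (b j).m + 2 - (b j).dd
    omega
  · change n ≤ 2 * (b j).m + 1 - (b j).dd + (b j).d k
    omega

theorem ds_even (j : η) : Even (s.ad (q1 b) (Sum.inr (j, none))) := by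
  have h1 := (b j).hm'
  have h2 := (b j).dd_even
  have h3 := (b j).me
  change Even (2 * (b j).m + 2 - (b j).dd)
  rw [Nat.even_iff] at h2 h3 ⊢
  omega

theorem dp_odd (j : η) (k : Fin 3) : ¬ Even (s.ad (q1 b) (Sum.inr (j, some k))) := by
  have h1 := (b j).hm'
  have h2 := (b j).dd_even
  have h3 := (b j).me
  have h4 := (b j).de k
  change ¬ Even (2 * (b j).m + 1 - (b j).dd + (b j).d k)
  rw [Nat.even_iff] at h2 h3 h4 ⊢
  omega

theorem e1_sq (x : η × Option (Fin 3)) : s.AD (q1 b) (e1_good b) (e1 b x) = 0 := by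
  obtain ⟨j, x⟩ := x
  have hga : s.D (b j).T.ga = 0 := (b j).T.d_ga
  have hs : s.AD (q1 b) (e1_good b) (gen _ (Sum.inr (j, none))) = s.aem (q1 b) (b j).T.ga :=
    s.AD_inr (q1 b) (e1_good b) (j, none)
  rcases x with _ | k
  · change s.AD (q1 b) (e1_good b) (s.aem (q1 b) (b j).T.ga) = 0
    rw [Sul.AD_inl, hga, map_zero]
  · have h1 : s.D (zv _ ((b j).T.nu k)) = (b j).φ k • (b j).T.ga := by
      have := (b j).T.d_nu k
      rw [gd_D, zsmul_one] at this
      exact this
    change s.AD (q1 b) (e1_good b) (s.aem (q1 b) (zv _ ((b j).T.nu k))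
      - gen _ (Sum.inr (j, none)) * s.aem (q1 b) (zv _ ((b j).φ k))) = 0
    rw [map_sub, (s.AD_isDer (q1 b) (e1_good b)).mul, Sul.AD_inl, Sul.AD_inl, h1, (b j).cφ, hs,
      map_zero, mul_zero, add_zero, zsmul_def, map_mul,
      even_comm (s.aem_par (q1 b) (zv_par _)), sub_self]

/-- the first extension -/
noncomputable def E1 : Sul (ι ⊕ η × Option (Fin 3)) :=
  s.add (q1 b) (e1_good b) (q1_two b) (e1_sq b)

/-- the map on indices -/
def i1 : ι → ι ⊕ η × Option (Fin 3) := Sum.inl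

theorem i1_deg (i : ι) : (E1 b).deg (i1 i) = s.deg i := rfl

theorem E1_emb (a : FGC (sg s.deg)) :
    (E1 b).D (emb i1 (i1_deg b) a) = emb i1 (i1_deg b) (s.D a) :=
  s.AD_inl (q1 b) (e1_good b) a

/-- the cocycles in the first extension -/
noncomputable def φ1 (j : η) (k : Fin 3) : Zc (E1 b).deg := zemb i1 (i1_deg b) ((b j).φ k)

/-- the tuple in the first extension -/
noncomputable def T1 (j : η) : Tup (gd (E1 b).isDer) (φ1 b j) :=
  tmap s.isDer (E1 b).isDer i1 (i1_deg b) (E1_emb b) (b j).T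

/-- the even generators -/
noncomputable def s1 (j : η) : Zc (E1 b).deg :=
  zm (gen _ (Sum.inr (j, none))) (par_gen_even (ds_even b j))

/-- the odd generators -/
noncomputable def p1 (j : η) (k : Fin 3) : FGC (sg (E1 b).deg) := gen _ (Sum.inr (j, some k))

theorem p1_odd (j : η) (k : Fin 3) : p1 b j k ∈ (gd (E1 b).isDer).O :=
  par_cong (by
    have := dp_odd b j k
    rw [Nat.even_iff] at this
    change s.ad (q1 b) (Sum.inr (j, some k)) % 2 = 1 % 2
    omega) (par_gen (p := (E1 b).deg) (Sum.inr (j, some k)))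

theorem cφ1 (j : η) (k : Fin 3) : (gd (E1 b).isDer).D (φ1 b j k • (1 : FGC _)) = 0 := by
  rw [gd_D, zsmul_one]
  unfold φ1
  rw [zv_zemb, E1_emb, (b j).cφ, map_zero]

theorem ds1 (j : η) : (gd (E1 b).isDer).D (s1 b j • (1 : FGC _)) = (T1 b j).ga := by
  have h1 : (T1 b j).ga = emb i1 (i1_deg b) ((b j).T.ga) :=
    tmap_ga s.isDer (E1 b).isDer i1 (i1_deg b) (E1_emb b) (b j).T
  rw [gd_D, zsmul_one, h1]
  exact s.AD_inr (q1 b) (e1_good b) (j, none)

theorem dp1 (j : η) (k : Fin 3) : (gd (E1 b).isDer).D (p1 b j k)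
    = ((T1 b j).nu k - s1 b j * φ1 b j k) • (1 : FGC _) := by
  rw [gd_D, zsmul_one, map_sub, map_mul]
  have h1 : (T1 b j).nu k = zemb i1 (i1_deg b) ((b j).T.nu k) :=
    tmap_nu s.isDer (E1 b).isDer i1 (i1_deg b) (E1_emb b) (b j).T k
  rw [h1]
  exact s.AD_inr (q1 b) (e1_good b) (j, some k)

end Blk

end Run7.h985
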