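import Pool.Agent.Run7.h985.Blk

/-!
# The second stage of the block (MP_5f0082_gt, helper985)
-/

set_option autoImplicit false
set_option maxHeartbeats 400000

namespace Run7.h985

open Pool.H582SA

section

variable {ι : Type} {p : ι → ℕ}

/-- homogeneous elements -/
noncomputable def DG (p : ι → ℕ) (n : ℕ) : Submodule ℚ (FGC (sg p)) :=
  spanOf (sg p) (fun L => (L.map p).sum = n)

theorem dg_mul {m n : ℕ} {a b : FGC (sg p)} (ha : a ∈ DG p m) (hb : b ∈ DG p n) :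
    a * b ∈ DG p (m + n) := by
  refine spanOf_mul ?_ ha hb
  intro L M h1 h2
  rw [List.map_append, List.sum_append, h1, h2]

theorem dg_gen (i : ι) : gen (sg p) i ∈ DG p (p i) := by
  rw [← mono_single]
  exact mono_mem (by simp)

theorem dg_eq {m n : ℕ} (h : m = n) {a : FGC (sg p)} (ha : a ∈ DG p m) : a ∈ DG p n := h ▸ ha

theorem wh_dg {j e l m n : ℕ} (h : m + j = n + e) {a : FGC (sg p)} (ha : a ∈ WH p j e l m) :
    a ∈ DG p n := spanOf_mono (fun L hL => by omega) ha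

theorem hom_dg {l n : ℕ} {a : FGC (sg p)} (ha : a ∈ Hom p l n) : a ∈ DG p n :=
  spanOf_mono (fun _ hL => hL.2) ha

theorem emb_dg {ι' : Type} {p' : ι' → ℕ} (e : ι → ι') (he : ∀ i, p' (e i) = p i) {n : ℕ}
    {a : FGC (sg p)} (ha : a ∈ DG p n) : emb e he a ∈ DG p' n :=
  emb_mem e he (fun L hL => by rw [map_deg_sum e he]; exact hL) ha

end

namespace Blk

variable {ι η : Type} {s : Sul ι} {n : ℕ} (b : η → Blk s n)

theorem T1_ht (j : η) : HT (T1 b j) (b j).d (b j).l (b j).m :=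
  tmap_ht s.isDer (E1 b).isDer i1 (i1_deg b) (E1_emb b) (b j).hT

theorem φ1_hom (j : η) (k : Fin 3) : zv _ (φ1 b j k) ∈ Hom (E1 b).deg 1 ((b j).d k) :=
  hom_emb i1 (i1_deg b) ((b j).hφ k)

theorem s1_deg (j : η) : (E1 b).deg (Sum.inr (j, none)) = 2 * (b j).m + 2 - (b j).dd := rfl

theorem p1_deg (j : η) (k : Fin 3) : (E1 b).deg (Sum.inr (j, some k))
    = 2 * (b j).m + 1 - (b j).dd + (b j).d k := rfl

theorem s1_dg (j : η) : zv _ (s1 b j) ∈ DG (E1 b).deg (2 * (b j).m + 2 - (b j).dd) :=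
  dg_gen (p := (E1 b).deg) (Sum.inr (j, none))

theorem p1_dg (j : η) (k : Fin 3) :
    p1 b j k ∈ DG (E1 b).deg (2 * (b j).m + 1 - (b j).dd + (b j).d k) :=
  dg_gen (p := (E1 b).deg) (Sum.inr (j, some k))

theorem rr_dg (j : η) (k : Fin 3) :
    (T1 b j).rr (p1 b j) k ∈ DG (E1 b).deg (2 * (b j).m + 1 - (b j).d k) := by
  have h1 := (b j).hm'
  have h2 := (b j).d_le k
  have h3 := (b j).d_sum k
  unfold Tup.rr
  simp only [zsmul_def]
  refine sub_mem ?_ (sub_mem ?_ ?_)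
  · exact wh_dg (by omega) (wh_mul (T1_ht b j).hX ((T1_ht b j).hM k))
  · exact dg_eq (by omega) (dg_mul (hom_dg (φ1_hom b j (k + 2))) (p1_dg b j (k + 1)))
  · exact dg_eq (by omega) (dg_mul (hom_dg (φ1_hom b j (k + 1))) (p1_dg b j (k + 2)))

theorem m_dg (j : η) (k : Fin 3) :
    (T1 b j).m (s1 b j) (p1 b j) k
      ∈ DG (E1 b).deg (3 * (b j).m + 3 - (b j).dd - (b j).d k) := by
  have h1 := (b j).hm'
  have h2 := (b j).d_le k
  have h3 := (b j).d_sum k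
  have hM : (T1 b j).M k ∈ DG (E1 b).deg ((b j).m + 1 - (b j).d k) :=
    wh_dg (by omega) ((T1_ht b j).hM k)
  have hn1 : zv _ ((T1 b j).n (k + 1))
      ∈ DG (E1 b).deg ((b j).m + 2 - (b j).d (k + 2) - (b j).d k) := by
    have h4 := (T1_ht b j).hn (k + 1)
    rw [f3a, f3b] at h4
    exact wh_dg (by omega) h4
  have hn2 : zv _ ((T1 b j).n (k + 2))
      ∈ DG (E1 b).deg ((b j).m + 2 - (b j).d k - (b j).d (k + 1)) := by
    have h4 := (T1_ht b j).hn (k + 2)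
    rw [f3c, f3d] at h4
    exact wh_dg (by omega) h4
  unfold Tup.m
  simp only [zsmul_def]
  refine add_mem ?_ (sub_mem ?_ ?_)
  · exact dg_eq (by omega) (dg_mul (s1_dg b j) hM)
  · exact dg_eq (by omega) (dg_mul hn1 (p1_dg b j (k + 2)))
  · exact dg_eq (by omega) (dg_mul hn2 (p1_dg b j (k + 1)))

/-- degrees of the second set of generators -/
def q2 (x : η × Option (Fin 3 ⊕ Fin 3)) : ℕ :=
  match x.2 with
  | none => (b x.1).m + 2 - (b x.1).dd
  | some (Sum.inl k) => 2 * (b x.1).m - (b x.1).d k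
  | some (Sum.inr k) => 3 * (b x.1).m + 2 - (b x.1).dd - (b x.1).d k

/-- differentials of the second set of generators -/
noncomputable def e2 (x : η × Option (Fin 3 ⊕ Fin 3)) :
    FGC (sg ((E1 b).toQ.ad (q2 b))) :=
  match x.2 with
  | none => (E1 b).toQ.aem (q2 b) (T1 b x.1).C
  | some (Sum.inl k) => (E1 b).toQ.aem (q2 b) ((T1 b x.1).rr (p1 b x.1) k)
  | some (Sum.inr k) => (E1 b).toQ.aem (q2 b) ((T1 b x.1).m (s1 b x.1) (p1 b x.1) k)
      - gen _ (Sum.inr (x.1, none)) * (E1 b).toQ.aem (q2 b) ((T1 b x.1).rr (p1 b x.1) k)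

theorem q2_two (x : η × Option (Fin 3 ⊕ Fin 3)) : 2 ≤ q2 b x := by
  obtain ⟨j, x⟩ := x
  have h1 := (b j).hm'
  rcases x with _ | k | k
  · change 2 ≤ (b j).m + 2 - (b j).dd
    omega
  · have h2 := (b j).d_le k
    change 2 ≤ 2 * (b j).m - (b j).d k
    omega
  · have h2 := (b j).d_le k
    change 2 ≤ 3 * (b j).m + 2 - (b j).dd - (b j).d k
    omega

theorem q2_even (x : η × Option (Fin 3 ⊕ Fin 3)) : Even (q2 b x) := by
  obtain ⟨j, x⟩ := x
  have h1 := (b j).hm'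
  have h3 := (b j).me
  have h4 := (b j).dd_even
  rw [Nat.even_iff] at h3 h4 ⊢
  rcases x with _ | k | k
  · change ((b j).m + 2 - (b j).dd) % 2 = 0
    omega
  · have h2 := (b j).d_le k
    have h5 := (b j).de k
    rw [Nat.even_iff] at h5
    change (2 * (b j).m - (b j).d k) % 2 = 0
    omega
  · have h2 := (b j).d_le k
    have h5 := (b j).de k
    rw [Nat.even_iff] at h5
    change (3 * (b j).m + 2 - (b j).dd - (b j).d k) % 2 = 0
    omega

theorem aem_dg {N : ℕ} {a : FGC (sg (E1 b).deg)} (ha : a ∈ DG (E1 b).deg N) :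
    (E1 b).toQ.aem (q2 b) a ∈ DG ((E1 b).toQ.ad (q2 b)) N :=
  emb_dg _ _ ha

theorem e2_good (x : η × Option (Fin 3 ⊕ Fin 3)) :
    e2 b x ∈ spanOf (sg ((E1 b).toQ.ad (q2 b)))
      (fun L => (L.map ((E1 b).toQ.ad (q2 b))).sum = q2 b x + 1) := by
  obtain ⟨j, x⟩ := x
  have h1 := (b j).hm'
  rcases x with _ | k | k
  · have h2 : (T1 b j).C ∈ DG (E1 b).deg ((b j).m + 2 - (b j).dd + 1) := by
      have h3 := (T1_ht b j).hC
      refine wh_dg ?_ h3
      change (b j).m + 3 = (b j).m + 2 - (b j).dd + 1 + (b j).dd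
      omega
    exact aem_dg b h2
  · have h2 := (b j).d_le k
    have h3 : (T1 b j).rr (p1 b j) k ∈ DG (E1 b).deg (2 * (b j).m - (b j).d k + 1) :=
      dg_eq (by omega) (rr_dg b j k)
    exact aem_dg b h3
  · have h2 := (b j).d_le k
    have h3 : (T1 b j).m (s1 b j) (p1 b j) k
        ∈ DG (E1 b).deg (3 * (b j).m + 2 - (b j).dd - (b j).d k + 1) :=
      dg_eq (by omega) (m_dg b j k)
    have h4 : gen _ (Sum.inr (j, none)) * (E1 b).toQ.aem (q2 b) ((T1 b j).rr (p1 b j) k)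
        ∈ DG ((E1 b).toQ.ad (q2 b)) (3 * (b j).m + 2 - (b j).dd - (b j).d k + 1) := by
      refine dg_eq ?_ (dg_mul (dg_gen (p := (E1 b).toQ.ad (q2 b)) (Sum.inr (j, none)))
        (aem_dg b (rr_dg b j k)))
      change (b j).m + 2 - (b j).dd + (2 * (b j).m + 1 - (b j).d k) = _
      omega
    exact sub_mem (aem_dg b h3) h4

theorem e2_sq (x : η × Option (Fin 3 ⊕ Fin 3)) :
    (E1 b).toQ.AD (q2 b) (e2_good b) (e2 b x) = 0 := by
  obtain ⟨j, x⟩ := x
  have hR : ∀ k, (E1 b).toQ.D ((T1 b j).rr (p1 b j) k) = 0 :=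
    fun k => (T1 b j).d_rr (cφ1 b j) (s1 b j) (p1 b j) (dp1 b j) k
  rcases x with _ | k | k
  · change (E1 b).toQ.AD (q2 b) (e2_good b) ((E1 b).toQ.aem (q2 b) (T1 b j).C) = 0
    have h1 : (E1 b).toQ.D (T1 b j).C = 0 := (T1 b j).dC
    rw [Qul.AD_inl, h1, map_zero]
  · change (E1 b).toQ.AD (q2 b) (e2_good b)
      ((E1 b).toQ.aem (q2 b) ((T1 b j).rr (p1 b j) k)) = 0
    rw [Qul.AD_inl, hR, map_zero]
  · change (E1 b).toQ.AD (q2 b) (e2_good b)
      ((E1 b).toQ.aem (q2 b) ((T1 b j).m (s1 b j) (p1 b j) k)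
      - gen _ (Sum.inr (j, none)) * (E1 b).toQ.aem (q2 b) ((T1 b j).rr (p1 b j) k)) = 0
    have h2 : (E1 b).toQ.D ((T1 b j).m (s1 b j) (p1 b j) k)
        = (T1 b j).C * (T1 b j).rr (p1 b j) k :=
      (T1 b j).d_m (s1 b j) (p1 b j) (ds1 b j) (dp1 b j) k
    have h3 : (E1 b).toQ.AD (q2 b) (e2_good b) (gen _ (Sum.inr (j, none)))
        = (E1 b).toQ.aem (q2 b) (T1 b j).C := (E1 b).toQ.AD_inr (q2 b) (e2_good b) (j, none)
    have h4 : (E1 b).toQ.aem (q2 b) ((T1 b j).C * (T1 b j).rr (p1 b j) k)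
        = (E1 b).toQ.aem (q2 b) (T1 b j).C * (E1 b).toQ.aem (q2 b) ((T1 b j).rr (p1 b j) k) :=
      map_mul _ _ _
    rw [map_sub, ((E1 b).toQ.AD_isDer (q2 b) (e2_good b)).mul, Qul.AD_inl, Qul.AD_inl,
      h2, hR, map_zero, mul_zero, add_zero, h3, h4, sub_self]

/-- the second extension -/
noncomputable def B2 : Qul ((ι ⊕ η × Option (Fin 3)) ⊕ η × Option (Fin 3 ⊕ Fin 3)) :=
  (E1 b).toQ.add (q2 b) (e2_good b) (q2_two b) (e2_sq b)

/-- the map on indices -/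
def i2 : ι ⊕ η × Option (Fin 3) → (ι ⊕ η × Option (Fin 3)) ⊕ η × Option (Fin 3 ⊕ Fin 3) :=
  Sum.inl

theorem i2_deg (i : ι ⊕ η × Option (Fin 3)) : (B2 b).deg (i2 i) = (E1 b).deg i := rfl

theorem B2_emb (a : FGC (sg (E1 b).deg)) :
    (B2 b).D (emb i2 (i2_deg b) a) = emb i2 (i2_deg b) ((E1 b).D a) :=
  (E1 b).toQ.AD_inl (q2 b) (e2_good b) a

/-- the cocycles in the second extension -/
noncomputable def φ2 (j : η) (k : Fin 3) : Zc (B2 b).deg := zemb i2 (i2_deg b) (φ1 b j k)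

/-- the tuple in the second extension -/
noncomputable def T2 (j : η) : Tup (gd (B2 b).isDer) (φ2 b j) :=
  tmap (E1 b).isDer (B2 b).isDer i2 (i2_deg b) (B2_emb b) (T1 b j)

/-- the even generators -/
noncomputable def s2 (j : η) : Zc (B2 b).deg := zemb i2 (i2_deg b) (s1 b j)

/-- the odd generators -/
noncomputable def p2 (j : η) (k : Fin 3) : FGC (sg (B2 b).deg) := emb i2 (i2_deg b) (p1 b j k)

/-- the generators killing `C` -/
noncomputable def c2 (j : η) : Zc (B2 b).deg :=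
  zm (gen _ (Sum.inr (j, none))) (par_gen_even (q2_even b (j, none)))

/-- the generators `r` -/
noncomputable def r2 (j : η) (k : Fin 3) : Zc (B2 b).deg :=
  zm (gen _ (Sum.inr (j, some (Sum.inl k)))) (par_gen_even (q2_even b (j, some (Sum.inl k))))

/-- the generators `μ` -/
noncomputable def μ2 (j : η) (k : Fin 3) : Zc (B2 b).deg :=
  zm (gen _ (Sum.inr (j, some (Sum.inr k)))) (par_gen_even (q2_even b (j, some (Sum.inr k))))

theorem cφ2 (j : η) (k : Fin 3) : (gd (B2 b).isDer).D (φ2 b j k • (1 : FGC _)) = 0 := by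
  have h := cφ1 b j k
  rw [gd_D, zsmul_one] at h ⊢
  unfold φ2
  rw [zv_zemb, B2_emb, h, map_zero]

theorem T2_rr (j : η) (k : Fin 3) :
    (T2 b j).rr (p2 b j) k = emb i2 (i2_deg b) ((T1 b j).rr (p1 b j) k) :=
  tmap_rr (E1 b).isDer (B2 b).isDer i2 (i2_deg b) (B2_emb b) (T1 b j) (p1 b j) k

theorem T2_m (j : η) (k : Fin 3) :
    (T2 b j).m (s2 b j) (p2 b j) k = emb i2 (i2_deg b) ((T1 b j).m (s1 b j) (p1 b j) k) :=
  tmap_m (E1 b).isDer (B2 b).isDer i2 (i2_deg b) (B2_emb b) (T1 b j) (s1 b j) (p1 b j) k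

theorem ds2 (j : η) : (gd (B2 b).isDer).D (s2 b j • (1 : FGC _)) = (T2 b j).ga := by
  have h := ds1 b j
  have h1 : (T2 b j).ga = emb i2 (i2_deg b) ((T1 b j).ga) :=
    tmap_ga (E1 b).isDer (B2 b).isDer i2 (i2_deg b) (B2_emb b) (T1 b j)
  rw [gd_D, zsmul_one] at h ⊢
  unfold s2
  rw [zv_zemb, B2_emb, h, h1]

theorem dc2 (j : η) : (gd (B2 b).isDer).D (c2 b j • (1 : FGC _)) = (T2 b j).C := by
  rw [gd_D, zsmul_one]
  exact (E1 b).toQ.AD_inr (q2 b) (e2_good b) (j, none)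

theorem dr2 (j : η) (k : Fin 3) :
    (gd (B2 b).isDer).D (r2 b j k • (1 : FGC _)) = (T2 b j).rr (p2 b j) k := by
  rw [gd_D, zsmul_one, T2_rr]
  exact (E1 b).toQ.AD_inr (q2 b) (e2_good b) (j, some (Sum.inl k))

theorem dμ2 (j : η) (k : Fin 3) :
    (gd (B2 b).isDer).D (μ2 b j k • (1 : FGC _))
      = (T2 b j).m (s2 b j) (p2 b j) k - c2 b j • (T2 b j).rr (p2 b j) k := by
  rw [gd_D, zsmul_one, T2_rr, T2_m, zsmul_def]
  exact (E1 b).toQ.AD_inr (q2 b) (e2_good b) (j, some (Sum.inr k))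

theorem dP1 (j : η) : (B2 b).D (zv _ ((T2 b j).P1 (r2 b j))) = 0 := by
  have h := (T2 b j).d_P1 (cφ2 b j) (p2 b j) (r2 b j) (dr2 b j)
  rw [gd_D, zsmul_one] at h
  exact h

theorem dP3 (j : η) : (B2 b).D (zv _ ((T2 b j).P3 (s2 b j) (c2 b j) (μ2 b j))) = 0 := by
  have h := (T2 b j).d_P3 (cφ2 b j) (s2 b j) (p2 b j) (ds2 b j) (c2 b j) (μ2 b j)
    (dc2 b j) (dμ2 b j)
  rw [gd_D, zsmul_one] at h
  exact h

end Blk

end Run7.h985
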