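import Pool.Agent.Run7.h985.Blk2

/-!
# The block theorem (MP_5f0082_gt, helper985)
-/

set_option autoImplicit false
set_option maxHeartbeats 400000

namespace Run7.h985

open Pool.H582SA

section

variable {β : Type} {p : β → ℕ} {S : β → Prop}

/-- homogeneous elements in the ideal generated by the letters outside `S` -/
noncomputable def DI (p : β → ℕ) (S : β → Prop) (n : ℕ) : Submodule ℚ (FGC (sg p)) :=
  spanOf (sg p) (fun L => (L.map p).sum = n ∧ 1 ≤ (L.map (ind S)).sum)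

theorem di_mul {m n : ℕ} {a b : FGC (sg p)} (ha : a ∈ DI p S m) (hb : b ∈ DG p n) :
    a * b ∈ DI p S (m + n) := by
  refine spanOf_mul ?_ ha hb
  rintro L M ⟨h1, h2⟩ h3
  rw [List.map_append, List.sum_append, List.map_append, List.sum_append, h1, h3]
  exact ⟨rfl, by omega⟩

theorem mul_di {m n : ℕ} {a b : FGC (sg p)} (ha : a ∈ DG p m) (hb : b ∈ DI p S n) :
    a * b ∈ DI p S (m + n) := by
  refine spanOf_mul ?_ ha hb
  rintro L M h1 ⟨h2, h3⟩
  rw [List.map_append, List.sum_append, List.map_append, List.sum_append, h1, h2]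
  exact ⟨rfl, by omega⟩

theorem di_dg {n : ℕ} {a : FGC (sg p)} (ha : a ∈ DI p S n) : a ∈ DG p n :=
  spanOf_mono (fun _ hL => hL.1) ha

theorem di_eq {m n : ℕ} (h : m = n) {a : FGC (sg p)} (ha : a ∈ DI p S m) : a ∈ DI p S n :=
  h ▸ ha

theorem emb_di {ι : Type} {p' : ι → ℕ} (e : ι → β) (he : ∀ i, p (e i) = p' i)
    (hS : ∀ i, ¬ S (e i)) {l n : ℕ} (hl : 1 ≤ l) {a : FGC (sg p')} (ha : a ∈ Hom p' l n) :
    emb e he a ∈ DI p S n := by
  refine emb_mem e he ?_ ha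
  rintro L ⟨h1, h2⟩
  refine ⟨by rw [map_deg_sum e he, h2], ?_⟩
  have h3 : ∀ L : List ι, ((L.map e).map (ind S)).sum = L.length := by
    intro L
    induction L with
    | nil => rfl
    | cons a L ih =>
      rw [List.map_cons, List.map_cons, List.sum_cons, ih, List.length_cons]
      have : ind S (e a) = 1 := by simp [ind, hS]
      omega
  rw [h3]
  omega

end

namespace Blk

variable {ι η : Type} {s : Sul ι} {n : ℕ} (b : η → Blk s n)

/-- the second set of generators -/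
def SS (x : (ι ⊕ η × Option (Fin 3)) ⊕ η × Option (Fin 3 ⊕ Fin 3)) : Prop := ∃ y, x = Sum.inr y

theorem SS_i2 (i : ι ⊕ η × Option (Fin 3)) : ¬ SS (i2 i) := by
  rintro ⟨y, hy⟩
  exact Sum.inl_ne_inr hy

theorem X2_di (j : η) : zv _ (T2 b j).X ∈ DI (B2 b).deg SS (b j).m := by
  have h1 := (T1_ht b j).hX
  have h2 := (b j).hl
  exact emb_di i2 (i2_deg b) SS_i2 (l := 1) le_rfl (wh_hom (by omega) (by omega) h1)

theorem φ2_di (j : η) (k : Fin 3) : zv _ (φ2 b j k) ∈ DI (B2 b).deg SS ((b j).d k) :=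
  emb_di i2 (i2_deg b) SS_i2 (l := 1) le_rfl (φ1_hom b j k)

theorem s2_di (j : η) : zv _ (s2 b j) ∈ DI (B2 b).deg SS (2 * (b j).m + 2 - (b j).dd) :=
  emb_di i2 (i2_deg b) SS_i2 (l := 1) le_rfl (hom_gen (p := (E1 b).deg) (Sum.inr (j, none)))

theorem n2_di (j : η) (k : Fin 3) : zv _ ((T2 b j).n k)
    ∈ DI (B2 b).deg SS ((b j).m + 2 - (b j).d (k + 1) - (b j).d (k + 2)) := by
  have h1 := (T1_ht b j).hn k
  have h2 := (b j).hl
  have h3 := (b j).hm'
  have h4 := (b j).d_sum k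
  exact emb_di i2 (i2_deg b) SS_i2 (l := 1) le_rfl (wh_hom (by omega) (by omega) h1)

theorem c2_dg (j : η) : zv _ (c2 b j) ∈ DG (B2 b).deg ((b j).m + 2 - (b j).dd) :=
  dg_gen (p := (B2 b).deg) (Sum.inr (j, none))

theorem r2_dg (j : η) (k : Fin 3) : zv _ (r2 b j k) ∈ DG (B2 b).deg (2 * (b j).m - (b j).d k) :=
  dg_gen (p := (B2 b).deg) (Sum.inr (j, some (Sum.inl k)))

theorem μ2_dg (j : η) (k : Fin 3) :
    zv _ (μ2 b j k) ∈ DG (B2 b).deg (3 * (b j).m + 2 - (b j).dd - (b j).d k) :=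
  dg_gen (p := (B2 b).deg) (Sum.inr (j, some (Sum.inr k)))

theorem two_mul_mem {p : (ι ⊕ η × Option (Fin 3)) ⊕ η × Option (Fin 3 ⊕ Fin 3) → ℕ} {m : ℕ}
    {z : Zc p} (h : zv _ z ∈ DI p SS m) : zv _ (2 * z) ∈ DI p SS m := by
  rw [two_mul, map_add]
  exact add_mem h h

theorem P1_di (j : η) : zv _ ((T2 b j).P1 (r2 b j)) ∈ DI (B2 b).deg SS (2 * (b j).m) := by
  have h1 := (b j).hm'
  unfold Tup.P1
  rw [map_sub, map_mul]
  refine sub_mem ?_ (two_mul_mem ?_)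
  · exact di_eq (by omega) (di_mul (X2_di b j) (di_dg (X2_di b j)))
  · rw [map_sum]
    refine Submodule.sum_mem _ (fun k _ => ?_)
    have h2 := (b j).d_le k
    rw [map_mul]
    exact di_eq (by omega) (di_mul (φ2_di b j k) (r2_dg b j k))

theorem P3_di (j : η) : zv _ ((T2 b j).P3 (s2 b j) (c2 b j) (μ2 b j))
    ∈ DI (B2 b).deg SS (2 * (2 * (b j).m + 2 - (b j).dd)) := by
  have h1 := (b j).hm'
  have h5 : zv _ (s2 b j - c2 b j * (T2 b j).X)
      ∈ DI (B2 b).deg SS (2 * (b j).m + 2 - (b j).dd) := by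
    rw [map_sub, map_mul]
    refine sub_mem (s2_di b j) ?_
    exact di_eq (by omega) (mul_di (c2_dg b j) (X2_di b j))
  unfold Tup.P3
  rw [map_sub, map_mul]
  refine sub_mem ?_ (two_mul_mem ?_)
  · exact di_eq (by omega) (di_mul h5 (di_dg h5))
  · rw [map_sum]
    refine Submodule.sum_mem _ (fun k _ => ?_)
    have h2 := (b j).d_le k
    have h3 := (b j).d_sum k
    rw [map_mul]
    have h6 : zv _ ((T2 b j).n k - c2 b j * φ2 b j k)
        ∈ DI (B2 b).deg SS ((b j).m + 2 - (b j).d (k + 1) - (b j).d (k + 2)) := by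
      rw [map_sub, map_mul]
      refine sub_mem (n2_di b j k) ?_
      exact di_eq (by omega) (mul_di (c2_dg b j) (φ2_di b j k))
    exact di_eq (by omega) (di_mul h6 (μ2_dg b j k))

/-- the cocycles -/
noncomputable def PP : η ⊕ η → FGC (sg (B2 b).deg)
  | Sum.inl j => zv _ ((T2 b j).P1 (r2 b j))
  | Sum.inr j => zv _ ((T2 b j).P3 (s2 b j) (c2 b j) (μ2 b j))

/-- the ideal -/
noncomputable def II : Ideal (MvPolynomial (Ev (B2 b).deg) ℚ) :=
  Ideal.span {q | (∃ j, q = pr (B2 b).deg (PP b j)) ∨ ∃ i, SS i ∧ q = pr (B2 b).deg (gen _ i)}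

theorem ss_mem (y : η × Option (Fin 3 ⊕ Fin 3)) :
    pr (B2 b).deg (gen _ (Sum.inr y)) ∈ II b :=
  Ideal.subset_span (Or.inr ⟨Sum.inr y, ⟨y, rfl⟩, rfl⟩)

theorem X2_rad (j : η) : pr (B2 b).deg (zv _ (T2 b j).X) ∈ (II b).radical := by
  refine ⟨2, ?_⟩
  have h1 : pr (B2 b).deg (PP b (Sum.inl j)) ∈ II b := Ideal.subset_span (Or.inl ⟨_, rfl⟩)
  have h2 : ∀ k, pr (B2 b).deg (zv _ (r2 b j k)) ∈ II b := fun k => ss_mem b _
  have h3 : pr (B2 b).deg (zv _ (T2 b j).X) ^ 2 = pr (B2 b).deg (PP b (Sum.inl j))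
      + 2 * ∑ k, pr (B2 b).deg (zv _ (φ2 b j k)) * pr (B2 b).deg (zv _ (r2 b j k)) := by
    change _ = pr (B2 b).deg (zv _ ((T2 b j).P1 (r2 b j))) + _
    unfold Tup.P1
    rw [map_sub, map_sub, map_mul, map_mul, map_mul, map_mul, map_sum, map_sum]
    simp only [map_mul, map_ofNat]
    ring
  rw [h3]
  refine add_mem h1 (Ideal.mul_mem_left _ _ (Submodule.sum_mem _ (fun k _ => ?_)))
  exact Ideal.mul_mem_left _ _ (h2 k)

theorem s2_rad (j : η) : pr (B2 b).deg (zv _ (s2 b j)) ∈ (II b).radical := by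
  refine ⟨2, ?_⟩
  have h1 : pr (B2 b).deg (PP b (Sum.inr j)) ∈ II b := Ideal.subset_span (Or.inl ⟨_, rfl⟩)
  have h2 : ∀ k, pr (B2 b).deg (zv _ (μ2 b j k)) ∈ II b := fun k => ss_mem b _
  have h4 : pr (B2 b).deg (zv _ (c2 b j)) ∈ II b := ss_mem b _
  have h3 : pr (B2 b).deg (zv _ (s2 b j)) ^ 2 = pr (B2 b).deg (PP b (Sum.inr j))
      + 2 * (∑ k, pr (B2 b).deg (zv _ ((T2 b j).n k - c2 b j * φ2 b j k))
        * pr (B2 b).deg (zv _ (μ2 b j k)))
      + (2 * pr (B2 b).deg (zv _ (s2 b j)) * pr (B2 b).deg (zv _ (T2 b j).X)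
        - pr (B2 b).deg (zv _ (c2 b j)) * pr (B2 b).deg (zv _ (T2 b j).X) ^ 2)
        * pr (B2 b).deg (zv _ (c2 b j)) := by
    change _ = pr (B2 b).deg (zv _ ((T2 b j).P3 (s2 b j) (c2 b j) (μ2 b j))) + _ + _
    unfold Tup.P3
    rw [map_sub, map_sub, map_mul, map_mul, map_mul, map_mul, map_sum, map_sum]
    simp only [map_mul, map_ofNat, map_sub]
    ring
  rw [h3]
  refine add_mem (add_mem h1 (Ideal.mul_mem_left _ _ (Submodule.sum_mem _ (fun k _ => ?_)))) ?_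
  · exact Ideal.mul_mem_left _ _ (h2 k)
  · exact Ideal.mul_mem_left _ _ h4

end Blk

end Run7.h985
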