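import Pool.Agent.Run7.h985.Blk3

/-!
# The block theorem, conclusion (MP_5f0082_gt, helper985)
-/

set_option autoImplicit false
set_option maxHeartbeats 400000

namespace Run7.h985

open Pool.H582SA

theorem rad_map {R R' : Type} [CommRing R] [CommRing R'] (f : R →+* R') (G : Set R)
    (I : Ideal R') (h : ∀ q ∈ G, f q ∈ I.radical) {x : R} (hx : x ∈ (Ideal.span G).radical) :
    f x ∈ I.radical := by
  have h1 : ∀ y ∈ Ideal.span G, f y ∈ I.radical := by
    intro y hy
    induction hy using Submodule.span_induction with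
    | mem x hx => exact h x hx
    | zero => rw [map_zero]; exact zero_mem _
    | add x y _ _ hx hy => rw [map_add]; exact add_mem hx hy
    | smul r x _ hx => rw [smul_eq_mul, map_mul]; exact Ideal.mul_mem_left _ _ hx
  obtain ⟨N, hN⟩ := hx
  have h2 := h1 _ hN
  rw [map_pow] at h2
  obtain ⟨M, hM⟩ := h2
  exact ⟨N * M, by rw [pow_mul]; exact hM⟩

namespace Blk

variable {ι η : Type} {s : Sul ι} {n : ℕ} (b : η → Blk s n)

theorem i21_deg (i : ι) : (B2 b).deg (i2 (i1 i)) = s.deg i := rfl

theorem X2_eq (j : η) : zv _ (T2 b j).X = emb (fun i => i2 (i1 i)) (i21_deg b) (zv _ (b j).T.X) :=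
  emb_emb i1 (i1_deg b) i2 (i2_deg b) _

theorem main [Finite ι] [Finite η] (hrad : ∀ i : Ev s.deg,
    (MvPolynomial.X i : MvPolynomial (Ev s.deg) ℚ) ∈
      (Ideal.span {q | ∃ j, q = pr s.deg (zv _ (b j).T.X)}).radical) : s.Anick n := by
  have h0 : (E1 b).AnickOdd n := by
    refine Sul.anick_crit (E1 b) (B2 b) SS i2 (fun x y h => Sum.inl_injective h) ?_
      (i2_deg b) ?_ ?_ (PP b) (Sum.elim (fun j => 2 * (b j).m)
        (fun j => 2 * (2 * (b j).m + 2 - (b j).dd))) ?_ ?_ ?_ ?_ ?_ n
    · rintro (x | y)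
      · exact ⟨fun _ => ⟨x, rfl⟩, fun _ => SS_i2 x⟩
      · constructor
        · intro h
          exact absurd ⟨y, rfl⟩ h
        · rintro ⟨i, hi⟩
          exact absurd hi Sum.inl_ne_inr
    · intro x
      rfl
    · rintro _ ⟨y, rfl⟩
      exact q2_even b y
    · rintro (j | j)
      · have h1 := (b j).hm'
        simp only [Sum.elim_inl]
        omega
      · have h1 := (b j).hm'
        simp only [Sum.elim_inr]
        omega
    · rintro (j | j)
      · exact even_two_mul _
      · exact even_two_mul _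
    · rintro (j | j)
      · exact P1_di b j
      · exact P3_di b j
    · rintro (j | j)
      · exact dP1 b j
      · exact dP3 b j
    · intro x hx
      change _ ∈ (II b).radical
      rcases x with (i | ⟨j, _ | k⟩) | y
      · by_cases hi : Even (s.deg i)
        · have h1 := rad_map (pemb (fun i => i2 (i1 i)) (i21_deg b)).toRingHom _ (II b).radical ?_
            (hrad ⟨i, hi⟩)
          · rw [Ideal.radical_idem] at h1
            have h2 : pr (B2 b).deg (gen _ (Sum.inl (Sum.inl i)))
                = pemb (fun i => i2 (i1 i)) (i21_deg b) (MvPolynomial.X ⟨i, hi⟩) := by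
              have h3 := pemb_pr (fun i => i2 (i1 i)) (i21_deg b) (gen (sg s.deg) i)
              rw [pr_even hi, emb_gen] at h3
              exact h3.symm
            rw [h2]
            exact h1
          · rintro _ ⟨j, rfl⟩
            rw [Ideal.radical_idem]
            have h4 := X2_rad b j
            rw [X2_eq, ← pemb_pr] at h4
            exact h4
        · have h2 : pr (B2 b).deg (gen _ (Sum.inl (Sum.inl i))) = 0 := pr_odd hi
          rw [h2]
          exact zero_mem _
      · have h4 : zv _ (s2 b j) = gen (sg (B2 b).deg) (Sum.inl (Sum.inr (j, none))) :=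
          emb_gen i2 (i2_deg b) _
        rw [← h4]
        exact s2_rad b j
      · have h2 : pr (B2 b).deg (gen _ (Sum.inl (Sum.inr (j, some k)))) = 0 :=
          pr_odd (dp_odd b j k)
        rw [h2]
        exact zero_mem _
      · exact absurd ⟨y, rfl⟩ hx
  obtain ⟨κ, hκ, u, h1, h2, -, h3⟩ := h0
  exact Sul.anick_assoc s (E1 b) u (s.add_ext (q1 b) (e1_good b) (q1_two b) (e1_sq b)) h1
    (fun k => q1_n b k) h2 h3

end Blk

/-- a homogeneous Koszul tuple with respect to three even cocycles -/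
structure Kos {ι : Type} (s : Sul ι) where
  /-- even cocycles -/
  φ : Fin 3 → Zc s.deg
  /-- degrees -/
  d : Fin 3 → ℕ
  /-- parity -/
  de : ∀ k, Even (d k)
  /-- degrees -/
  hφ : ∀ k, zv _ (φ k) ∈ Hom s.deg 1 (d k)
  /-- cocycles -/
  cφ : ∀ k, s.D (zv _ (φ k)) = 0
  /-- the tuple -/
  T : Tup (gd s.isDer) φ
  /-- the degree -/
  m : ℕ
  /-- parity -/
  me : Even m
  /-- the degree is positive -/
  hm : 1 ≤ m
  /-- homogeneous -/
  hT : HT T d 1 m

/-- a power of a tuple -/
noncomputable def Kos.blk {ι : Type} {s : Sul ι} (K : Kos s) (n l : ℕ)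
    (hl : K.d 0 + K.d 1 + K.d 2 + n + 2 ≤ l) : Blk s n where
  φ := K.φ
  d := K.d
  de := K.de
  hφ := K.hφ
  cφ := K.cφ
  T := pw K.T l
  m := (l + 1) * K.m
  l := (l + 1) * 1
  me := K.me.mul_left _
  hl := by omega
  hm := by
    have h1 : (l + 1) * 1 ≤ (l + 1) * K.m := Nat.mul_le_mul_left _ K.hm
    omega
  hT := K.hT.pw l

/-- Anick's conjecture from Koszul tuples -/
theorem anick_kos {ι η : Type} [Finite ι] [Finite η] (s : Sul ι) (K : η → Kos s)
    (hrad : ∀ i : Ev s.deg, (MvPolynomial.X i : MvPolynomial (Ev s.deg) ℚ) ∈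
      (Ideal.span {q | ∃ j, q = pr s.deg (zv _ (K j).T.X)}).radical) (n : ℕ) : s.Anick n := by
  obtain ⟨M, hM⟩ := Set.finite_range (fun j => (K j).d 0 + (K j).d 1 + (K j).d 2) |>.bddAbove
  have hle : ∀ j, (K j).d 0 + (K j).d 1 + (K j).d 2 + n + 2 ≤ M + n + 2 := by
    intro j
    have := hM ⟨j, rfl⟩
    simp only at this
    omega
  refine Blk.main (fun j => (K j).blk n (M + n + 2) (hle j)) ?_
  intro i
  refine rad_map (RingHom.id _) _ _ ?_ (hrad i)
  rintro _ ⟨j, rfl⟩
  refine ⟨M + n + 2 + 1, Ideal.subset_span ⟨j, ?_⟩⟩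
  change _ = pr s.deg (zv _ (pw (K j).T (M + n + 2)).X)
  rw [pw_X, map_pow, map_pow]
  rfl

end Run7.h985
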