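import Pool.Agent.Run7.h985.Elim

/-!
# The criterion (MP_5f0082_gt, helper985)
-/

set_option autoImplicit false
set_option maxHeartbeats 400000

namespace Run7.h985

open Pool.H582SA

section pemb

variable {ι ι' : Type} {p : ι → ℕ} {p' : ι' → ℕ}

/-- the map on polynomials induced by an embedding -/
noncomputable def pemb (e : ι → ι') (he : ∀ i, p' (e i) = p i) :
    MvPolynomial (Ev p) ℚ →ₐ[ℚ] MvPolynomial (Ev p') ℚ :=
  MvPolynomial.aeval (fun i => MvPolynomial.X ⟨e i.1, by rw [he]; exact i.2⟩)

theorem pemb_pr (e : ι → ι') (he : ∀ i, p' (e i) = p i) (a : FGC (sg p)) :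
    pemb e he (pr p a) = pr p' (emb e he a) := by
  have : (pemb e he).comp (pr p) = (pr p').comp (emb e he) := by
    apply alg_ext
    intro j
    rw [AlgHom.comp_apply, AlgHom.comp_apply, emb_gen]
    by_cases hj : Even (p j)
    · rw [pr_even hj, pr_even (by rw [he]; exact hj)]
      simp [pemb]
    · rw [pr_odd hj, pr_odd (by rw [he]; exact hj), map_zero]
  exact DFunLike.congr_fun this a

end pemb

namespace Qul

section start

variable {β : Type} (B : Qul β) (S : β → Prop)

theorem two_ind_le_wt (L : List β) :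
    2 * (L.map (ind S)).sum ≤ (L.map (wt B.deg S)).sum := by
  induction L with
  | nil => simp
  | cons a L ih =>
    simp only [List.map_cons, List.sum_cons]
    have h := B.two_le a
    have h1 : 2 * ind S a ≤ wt B.deg S a := by
      unfold ind wt
      split_ifs <;> omega
    omega

theorem pow_ind_mem {m : ℕ} {a : FGC (sg B.deg)}
    (ha : a ∈ spanOf (sg B.deg) (fun L => (L.map B.deg).sum = m ∧ 1 ≤ (L.map (ind S)).sum))
    (K : ℕ) : a ^ K ∈ spanOf (sg B.deg)
      (fun L => (L.map B.deg).sum = K * m ∧ K ≤ (L.map (ind S)).sum) := by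
  induction K with
  | zero => rw [pow_zero, ← mono_nil]; exact mono_mem (by simp)
  | succ K ih =>
    rw [pow_succ]
    refine spanOf_mul ?_ ih ha
    rintro L M ⟨h1, h2⟩ ⟨h3, h4⟩
    have h5 : (K + 1) * m = K * m + m := by ring
    simp only [List.map_append, List.sum_append]
    omega

theorem rel_of_cocycles {η : Type} [Finite η] (P : η → FGC (sg B.deg)) (m : η → ℕ)
    (hm : ∀ j, 1 ≤ m j) (hme : ∀ j, Even (m j))
    (hP : ∀ j, P j ∈ spanOf (sg B.deg)
      (fun L => (L.map B.deg).sum = m j ∧ 1 ≤ (L.map (ind S)).sum))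
    (hD : ∀ j, B.D (P j) = 0)
    (hrad : ∀ i, ¬ S i → pr B.deg (gen _ i) ∈ (Ideal.span {q | (∃ j, q = pr B.deg (P j)) ∨
      ∃ i, S i ∧ q = pr B.deg (gen _ i)}).radical) (n : ℕ) : B.Rel S n := by
  let K := n + 2
  let q : η → ℕ := fun j => K * m j - 1
  have hq : ∀ j, q j + 1 = K * m j := by
    intro j
    have h1 : K * 1 ≤ K * m j := Nat.mul_le_mul_left _ (hm j)
    simp only [q]
    omega
  have hqn : ∀ j, n + 2 ≤ q j := by
    intro j
    have h0 : 2 ≤ m j := by
      have h1 := hm j
      have h2 := hme j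
      rw [Nat.even_iff] at h2
      omega
    have h1 : K * 2 ≤ K * m j := Nat.mul_le_mul_left _ h0
    have h2 := hq j
    simp only [K] at h1 h2
    omega
  let e : η → FGC (sg (B.ad q)) := fun j => B.aem q (P j ^ K)
  have he : ∀ j, e j ∈ spanOf (sg (B.ad q)) (fun L => (L.map (B.ad q)).sum = q j + 1) := by
    intro j
    refine emb_mem (p := B.deg) _ _ ?_ (B.pow_ind_mem S (hP j) K)
    rintro L ⟨h1, -⟩
    rw [map_deg_sum (p := B.deg) (p' := B.ad q) Sum.inl (fun _ => rfl), h1, hq]
  have hPe : ∀ j, P j ∈ Par B.deg 0 := fun j => spanOf_mono (fun L hL => by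
    have h2 := hme j
    rw [Nat.even_iff] at h2
    rw [hL.1, h2]) (hP j)
  have hsq : ∀ j, B.AD q he (e j) = 0 := by
    intro j
    simp only [e]
    rw [AD_inl, B.isDer.pow_closed (hPe j) (hD j), map_zero]
  have hodd : ∀ j, ¬ Even (q j) := by
    intro j h1
    have h2 : Even (K * m j) := Even.mul_left (hme j) K
    rw [← hq j] at h2
    exact (Nat.not_even_iff_odd.2 h1.add_one) h2
  refine ⟨η, inferInstance, B.add q he (fun k => by have := hqn k; omega) hsq,
    B.add_ext q he _ hsq, fun k => by have := hqn k; change n ≤ q k; omega, hodd, ?_, ?_⟩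
  · intro j
    change B.aem q (P j ^ K) ∈ _
    refine emb_mem (p := B.deg) _ _ ?_ (B.pow_ind_mem S (hP j) K)
    rintro L ⟨-, h2⟩
    have h3 := B.two_ind_le_wt S L
    refine ⟨?_, Or.inr ?_⟩
    · rw [List.map_map]
      change 2 ≤ (L.map (ind S)).sum
      simp only [K] at h2
      omega
    · rw [List.map_map]
      change n ≤ (L.map (wt B.deg S)).sum
      simp only [K] at h2
      omega
  · intro i hi
    have key : ∀ x ∈ Ideal.span {q | (∃ j, q = pr B.deg (P j)) ∨
        ∃ i, S i ∧ q = pr B.deg (gen _ i)},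
        pemb (p := B.deg) (p' := B.ad q) Sum.inl (fun _ => rfl) x
          ∈ (JS (B.AD q he) S).radical := by
      intro x hx
      induction hx using Submodule.span_induction with
      | mem x hx =>
        rcases hx with ⟨j, rfl⟩ | ⟨i, hi, rfl⟩
        · refine ⟨K, ?_⟩
          rw [← map_pow, ← map_pow, pemb_pr]
          refine Submodule.mem_sup_left ?_
          have h1 : emb (p := B.deg) (p' := B.ad q) Sum.inl (fun _ => rfl) (P j ^ K)
              = B.AD q he (gen _ (Sum.inr j)) := (B.AD_inr q he j).symm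
          rw [h1]
          exact Ideal.subset_span ⟨Sum.inr j, hodd j, rfl⟩
        · refine Ideal.le_radical ?_
          rw [pemb_pr, emb_gen]
          exact Submodule.mem_sup_right (Ideal.subset_span ⟨i, hi, rfl⟩)
      | zero => rw [map_zero]; exact zero_mem _
      | add x y _ _ hx hy => rw [map_add]; exact add_mem hx hy
      | smul r x _ hx => rw [smul_eq_mul, map_mul]; exact Ideal.mul_mem_left _ _ hx
    obtain ⟨N, hN⟩ := hrad i hi
    have h1 := key _ hN
    rw [map_pow, pemb_pr, emb_gen] at h1
    obtain ⟨M, hM⟩ := h1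
    rw [← pow_mul] at hM
    exact ⟨N * M, hM⟩

end start

section congr

variable {α α' : Type} (t : Qul α) (E : α ≃ α')

/-- reindexing -/
noncomputable def congr : Qul α' where
  deg := fun i => t.deg (E.symm i)
  two_le := fun i => t.two_le _
  d := fun i => emb (p := t.deg) E (fun i => by simp) (t.d (E.symm i))
  good := by
    intro i
    refine emb_mem (p := t.deg) _ _ ?_ (t.good _)
    intro L hL
    rw [map_deg_sum (p := t.deg) E (fun i => by simp), hL]
  sq := by
    intro i
    have h : ∀ a, mkD (p := fun i => t.deg (E.symm i))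
        (fun i => emb (p := t.deg) E (fun i => by simp) (t.d (E.symm i)))
        (fun i => emb_par (p := t.deg) _ _ (t.par _))
        (emb (p := t.deg) E (fun i => by simp) a)
        = emb (p := t.deg) E (fun i => by simp) (t.D a) := by
      refine der_emb t.isDer (isDer_mkD _ _) _ _ ?_
      intro j
      rw [mkD_gen, t.D_gen]
      simp
    rw [h, ← t.D_gen, t.D_D, map_zero]

theorem congr_deg (i : α) : (t.congr E).deg (E i) = t.deg i := by simp [congr]

theorem congr_D (a : FGC (sg t.deg)) :
    (t.congr E).D (emb E (t.congr_deg E) a) = emb E (t.congr_deg E) (t.D a) := by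
  refine der_emb t.isDer (t.congr E).isDer _ _ ?_ a
  intro j
  rw [D_gen, t.D_gen]
  simp [congr]
  rfl

/-- a minimal algebra -/
noncomputable def toSul (h : ∀ x, t.d x ∈ spanOf (sg t.deg) (fun L => 2 ≤ L.length)) :
    Sul α where
  deg := t.deg
  two_le := t.two_le
  d := t.d
  good := by
    intro x
    have h1 := spanOf_inter t.deg (fun m => m = t.deg x + 1) (h x) (t.good x)
    exact h1
  sq := t.sq

end congr

end Qul

theorem emb_has {ι β : Type} {p : ι → ℕ} {p' : β → ℕ} {e : ι → β} (he : ∀ i, p' (e i) = p i)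
    {S : β → Prop} (hr : ∀ i, ¬ S (e i)) (a : FGC (sg p)) :
    emb e he a ∈ spanOf (sg p') (fun L => ∀ j ∈ L, ¬ S j) := by
  refine emb_mem _ _ ?_ (mem_top_span a)
  rintro L - j hj
  obtain ⟨i, -, rfl⟩ := List.mem_map.1 hj
  exact hr i

/-- existence of an elliptic extension by finitely many odd generators of degree at least `n` -/
def Sul.AnickOdd {ι : Type} (s : Sul ι) (n : ℕ) : Prop :=
  ∃ (κ : Type) (_ : Finite κ) (t : Sul (ι ⊕ κ)), s.IsExt t ∧ (∀ k, n ≤ t.deg (Sum.inr k)) ∧
    (∀ k, ¬ Even (t.deg (Sum.inr k))) ∧ t.Elliptic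

theorem Sul.AnickOdd.anick {ι : Type} {s : Sul ι} {n : ℕ} (h : s.AnickOdd n) : s.Anick n := by
  obtain ⟨κ, hκ, t, h1, h2, -, h3⟩ := h
  exact ⟨κ, hκ, t, h1, h2, h3⟩

theorem crit_ind (N : ℕ) : ∀ {ι : Type} (s : Sul ι) {β : Type} [Finite β] (B : Qul β)
    (S : β → Prop) (e : ι → β) (_ : Function.Injective e) (_ : ∀ b, ¬ S b ↔ ∃ i, e i = b)
    (hdeg : ∀ i, B.deg (e i) = s.deg i) (_ : ∀ i, B.d (e i) = emb e hdeg (s.d i))
    (_ : ∀ b, S b → Even (B.deg b)) (_ : ∀ n, B.Rel S n),
    Nat.card {b // S b} ≤ N → ∀ n, s.AnickOdd n := by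
  classical
  induction N with
  | zero =>
    intro ι s β _ B S e hinj hr hdeg hd hSe hrel hN n
    have hS : ∀ b, ¬ S b := by
      intro b hb
      have h1 := Finite.card_pos_iff.2 (⟨⟨b, hb⟩⟩ : Nonempty {b // S b})
      omega
    let ε : ι ≃ β := Equiv.ofBijective e ⟨hinj, fun b => (hr b).1 (hS b)⟩
    obtain ⟨κ, hκ, t, ⟨ht, htd⟩, htdeg, hodd, hwd, hnil⟩ := hrel n
    let E : β ⊕ κ ≃ ι ⊕ κ := (ε.symm).sumCongr (Equiv.refl κ)
    have hmin : ∀ x, (t.congr E).d x ∈ spanOf (sg (t.congr E).deg) (fun L => 2 ≤ L.length) := by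
      intro x
      have key : ∀ y, t.d y ∈ spanOf (sg t.deg) (fun L => 2 ≤ L.length) := by
        rintro (b | k)
        · obtain ⟨i, rfl⟩ := (hr b).1 (hS b)
          rw [htd, hd, emb_emb]
          exact emb_mem _ _ (fun L hL => by rw [List.length_map]; exact hL.1) (s.good i)
        · refine spanOf_mono ?_ (hwd k)
          rintro L ⟨h1, -⟩
          have h2 := El.sum_mono_le (Sum.elim (ind S) (fun _ => 1) : β ⊕ κ → ℕ)
            (fun _ => 1) (by
              rintro (b | k)
              · simp only [Sum.elim_inl, ind]; split_ifs <;> omega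
              · simp) L
          simp only [List.map_const', List.sum_replicate, smul_eq_mul, mul_one] at h2
          omega
      exact emb_mem (p := t.deg) _ _ (fun L hL => by rw [List.length_map]; exact hL)
        (key (E.symm x))
    refine ⟨κ, hκ, (t.congr E).toSul hmin, ⟨?_, ?_⟩, ?_, fun k => hodd k, ?_⟩
    · intro i
      change t.deg (Sum.inl (e i)) = _
      rw [ht, hdeg]
    · intro i
      change emb (p := t.deg) E _ (t.d (Sum.inl (e i))) = _
      rw [htd, hd, emb_emb, emb_emb]
      have h1 : ∀ i, E (Sum.inl (e i)) = Sum.inl i := by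
        intro i
        change Sum.inl (ε.symm (ε i)) = _
        rw [Equiv.symm_apply_apply]
      simp only [h1]
      rfl
    · intro k
      exact htdeg k
    · rintro ⟨x, hx⟩
      rcases x with i | k
      · have hb : Even (t.deg (Sum.inl (e i))) := hx
        have h1 := hnil (e i) (hS _)
        rw [pr_even hb] at h1
        have h2 : JS t.D S = J t.D := by
          unfold JS
          rw [sup_eq_left, Ideal.span_le]
          rintro q ⟨b, hb', -⟩
          exact absurd hb' (hS b)
        rw [h2] at h1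
        have h3 := ideal_emb (t.congr E).isDer E (t.congr_deg E) (D := t.D) ?_
          ⟨Sum.inl (e i), hb⟩ h1
        · have h4 : E (Sum.inl (e i)) = Sum.inl i := by
            change Sum.inl (ε.symm (ε i)) = _
            rw [Equiv.symm_apply_apply]
          simp only [h4] at h3
          exact h3
        · intro j
          rw [← t.congr_D E, emb_gen]
      · exact absurd hx (hodd k)
  | succ N ih =>
    intro ι s β _ B S e hinj hr hdeg hd hSe hrel hN n
    by_cases hne : Nonempty {b // S b}
    · obtain ⟨⟨u, hu⟩, hmax⟩ := Finite.exists_max (fun b : {b // S b} => B.deg b.1)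
      have hrS : ∀ i, ¬ S (e i) := fun i => (hr _).2 ⟨i, rfl⟩
      have hnu : ∀ b, B.d b ∈ spanOf (sg B.deg) (fun L => u ∉ L) := by
        intro b
        by_cases hb : S b
        · refine spanOf_mono ?_ (B.good b)
          intro L hL huL
          obtain ⟨A, C, rfl⟩ := List.append_of_mem huL
          have h1 := P1.le_sum_of_le B.deg 2 A (fun x _ => B.two_le x)
          have h2 := P1.le_sum_of_le B.deg 2 C (fun x _ => B.two_le x)
          have h3 := hmax ⟨b, hb⟩
          have h4 := hSe b hb
          have h5 := hSe u hu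
          simp only [List.map_append, List.map_cons, List.sum_append, List.sum_cons] at hL h3
          rw [Nat.even_iff] at h4 h5
          have h6 : A.length = 0 := by omega
          have h7 : C.length = 0 := by omega
          rw [List.length_eq_zero_iff] at h6 h7
          subst h6; subst h7
          simp only [List.map_nil, List.sum_nil] at hL
          omega
        · obtain ⟨i, rfl⟩ := (hr b).1 hb
          rw [hd]
          exact spanOf_mono (fun L hL h => hL u h hu) (emb_has hdeg hrS _)
      have hne' : ∀ i, e i ≠ u := fun i h => hrS i (h ▸ hu)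
      refine ih s (B.res u hnu) (fun b => S b.1) (fun i => ⟨e i, hne' i⟩) ?_ ?_ hdeg ?_ ?_ ?_ ?_ n
      · intro i j hij
        exact hinj (congrArg Subtype.val hij)
      · rintro ⟨b, hb⟩
        constructor
        · intro h
          obtain ⟨i, hi⟩ := (hr b).1 h
          exact ⟨i, Subtype.ext hi⟩
        · rintro ⟨i, hi⟩
          exact (hr b).2 ⟨i, congrArg Subtype.val hi⟩
      · intro i
        change qmap B.deg u (B.d (e i)) = _
        rw [hd]
        have : (qmap B.deg u).comp (emb e hdeg) = emb (p' := qd B.deg u)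
            (fun i => (⟨e i, hne' i⟩ : {b : β // b ≠ u})) hdeg := by
          apply alg_ext
          intro j
          rw [AlgHom.comp_apply, emb_gen, q_ne (hne' j), emb_gen]
        exact DFunLike.congr_fun this _
      · intro b hb
        exact hSe b.1 hb
      · exact B.rel_res S hSe u hu hnu hrel
      · have h1 : Nat.card {j : {b // S b} // j ≠ ⟨u, hu⟩} < Nat.card {b // S b} :=
          Finite.card_subtype_lt (x := ⟨u, hu⟩) (by simp)
        have h2 : Nat.card {b : {b : β // b ≠ u} // S b.1}
            ≤ Nat.card {j : {b // S b} // j ≠ ⟨u, hu⟩} := by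
          refine Nat.card_le_card_of_injective
            (fun b => ⟨⟨b.1.1, b.2⟩, fun hc => b.1.2 (congrArg Subtype.val hc)⟩) ?_
          intro a b hab
          apply Subtype.ext
          apply Subtype.ext
          exact congrArg (fun x => x.1.1) hab
        omega
    · refine ih s B S e hinj hr hdeg hd hSe hrel ?_ n
      have : IsEmpty {b // S b} := not_nonempty_iff.1 hne
      simp

/-- The criterion: cocycles in the ideal generated by the algebra, after adjoining even
generators, suffice. -/
theorem Sul.anick_crit {ι : Type} (s : Sul ι) {β : Type} [Finite β] (B : Qul β)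
    (S : β → Prop) (e : ι → β) (hinj : Function.Injective e) (hr : ∀ b, ¬ S b ↔ ∃ i, e i = b)
    (hdeg : ∀ i, B.deg (e i) = s.deg i) (hd : ∀ i, B.d (e i) = emb e hdeg (s.d i))
    (hSe : ∀ b, S b → Even (B.deg b)) {η : Type} [Finite η] (P : η → FGC (sg B.deg))
    (m : η → ℕ) (hm : ∀ j, 1 ≤ m j) (hme : ∀ j, Even (m j))
    (hP : ∀ j, P j ∈ spanOf (sg B.deg)
      (fun L => (L.map B.deg).sum = m j ∧ 1 ≤ (L.map (ind S)).sum))
    (hD : ∀ j, B.D (P j) = 0)
    (hrad : ∀ i, ¬ S i → pr B.deg (gen _ i) ∈ (Ideal.span {q | (∃ j, q = pr B.deg (P j)) ∨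
      ∃ i, S i ∧ q = pr B.deg (gen _ i)}).radical) (n : ℕ) : s.AnickOdd n :=
  crit_ind _ s B S e hinj hr hdeg hd hSe (B.rel_of_cocycles S P m hm hme hP hD hrad) le_rfl n

end Run7.h985
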