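import Pool.Agent.Run7.h985.Blk4

/-!
# Koszul tuples of even generators (MP_5f0082_gt, helper985)
-/

set_option autoImplicit false
set_option maxHeartbeats 400000

namespace Run7.h985

open Pool.H582SA

section kill

variable {ι : Type} {p : ι → ℕ}

open Classical in
/-- the map killing the generators in `T` -/
noncomputable def kill (p : ι → ℕ) (T : ι → Prop) : FGC (sg p) →ₐ[ℚ] FGC (sg p) :=
  lift (fun i => if T i then 0 else gen _ i) (by
    intro i j
    by_cases hi : T i <;> by_cases hj : T j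
    · rw [if_pos hj]; simp
    · rw [if_pos hi]; simp
    · rw [if_pos hj]; simp
    · rw [if_neg hi, if_neg hj, gen_comm])

theorem kill_T {T : ι → Prop} {i : ι} (h : T i) : kill p T (gen _ i) = 0 := by
  unfold kill
  rw [lift_gen, if_pos h]

theorem kill_nT {T : ι → Prop} {i : ι} (h : ¬ T i) : kill p T (gen _ i) = gen _ i := by
  unfold kill
  rw [lift_gen, if_neg h]

theorem kill_mono (T : ι → Prop) (L : List ι) :
    (Has T L ∧ kill p T (mono _ L) = 0) ∨ (¬ Has T L ∧ kill p T (mono _ L) = mono _ L) := by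
  induction L with
  | nil =>
    right
    refine ⟨?_, by simp⟩
    rintro ⟨i, hi, -⟩
    simp at hi
  | cons i L ih =>
    by_cases hi : T i
    · left
      refine ⟨⟨i, by simp, hi⟩, ?_⟩
      rw [mono_cons, map_mul, kill_T hi, zero_mul]
    · rcases ih with ⟨⟨j, hj, hT⟩, h2⟩ | ⟨h1, h2⟩
      · left
        refine ⟨⟨j, by simp [hj], hT⟩, ?_⟩
        rw [mono_cons, map_mul, h2, mul_zero]
      · right
        refine ⟨?_, ?_⟩
        · rintro ⟨j, hj, hT⟩
          rcases List.mem_cons.1 hj with rfl | hj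
          · exact hi hT
          · exact h1 ⟨j, hj, hT⟩
        · rw [mono_cons, map_mul, h2, kill_nT hi]

theorem kill_sub (T : ι → Prop) (a : FGC (sg p)) : a - kill p T a ∈ spanOf (sg p) (Has T) := by
  refine mono_induct (P := fun a => a - kill p T a ∈ spanOf (sg p) (Has T)) ?_ ?_ ?_ ?_ a
  · intro L
    rcases kill_mono (p := p) T L with ⟨h1, h2⟩ | ⟨h1, h2⟩
    · rw [h2, sub_zero]; exact mono_mem h1
    · rw [h2, sub_self]; exact zero_mem _
  · rw [map_zero, sub_self]; exact zero_mem _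
  · intro a b h1 h2
    rw [map_add, add_sub_add_comm]
    exact add_mem h1 h2
  · intro r a h1
    rw [map_smul, ← smul_sub]
    exact Submodule.smul_mem _ _ h1

theorem kill_zero {T : ι → Prop} {a : FGC (sg p)} (ha : a ∈ spanOf (sg p) (Has T)) :
    kill p T a = 0 := by
  refine spanOf_induct (P := fun a => kill p T a = 0) ?_ ?_ ?_ ?_ ha
  · intro L hL
    rcases kill_mono (p := p) T L with ⟨-, h2⟩ | ⟨h1, -⟩
    · exact h2
    · exact absurd hL h1
  · rw [map_zero]
  · intro a b h1 h2; rw [map_add, h1, h2, add_zero]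
  · intro r a h1; rw [map_smul, h1, smul_zero]

theorem has_of_kill {T : ι → Prop} {a : FGC (sg p)} (h : kill p T a = 0) :
    a ∈ spanOf (sg p) (Has T) := by
  have := kill_sub T a
  rwa [h, sub_zero] at this

/-- division by an even generator -/
theorem has_of_mul {T : ι → Prop} {i : ι} (hi : Even (p i)) (hT : ¬ T i) {a : FGC (sg p)}
    (h : gen _ i * a ∈ spanOf (sg p) (Has T)) : a ∈ spanOf (sg p) (Has T) := by
  have h1 := kill_zero h
  rw [map_mul, kill_nT hT] at h1
  exact has_of_kill (gen_regular i hi h1)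

theorem has_mul {T : ι → Prop} {i : ι} (hT : T i) (a : FGC (sg p)) :
    gen _ i * a ∈ spanOf (sg p) (Has T) := by
  refine has_of_kill ?_
  rw [map_mul, kill_T hT, zero_mul]

/-- homogeneous elements with an offset -/
noncomputable def DH (p : ι → ℕ) (e N : ℕ) : Submodule ℚ (FGC (sg p)) :=
  spanOf (sg p) (fun L => (L.map p).sum + e = N)

theorem dh_eq {e N e' N' : ℕ} (h : N + e' = N' + e) {a : FGC (sg p)} (ha : a ∈ DH p e N) :
    a ∈ DH p e' N' := spanOf_mono (fun L hL => by omega) ha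

/-- extraction of even generators -/
theorem extract {r : ℕ} (a : Fin r → ι) (ha : ∀ k, Even (p (a k))) {e N : ℕ} {y : FGC (sg p)}
    (h1 : y ∈ spanOf (sg p) (Has (fun i => ∃ k, i = a k))) (h2 : y ∈ DH p e N) :
    ∃ M : Fin r → FGC (sg p), y = ∑ k, gen _ (a k) * M k ∧ ∀ k, M k ∈ DH p (e + p (a k)) N := by
  have h3 := spanOf_inter p (fun m => m + e = N) h1 h2
  refine spanOf_induct (P := fun y => ∃ M : Fin r → FGC (sg p), y = ∑ k, gen _ (a k) * M k ∧
    ∀ k, M k ∈ DH p (e + p (a k)) N) ?_ ?_ ?_ ?_ h3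
  · rintro L ⟨⟨i, hi, k, rfl⟩, h5⟩
    obtain ⟨A, B, rfl⟩ := List.append_of_mem hi
    refine ⟨fun j => if j = k then mono _ (A ++ B) else 0, ?_, ?_⟩
    · rw [Finset.sum_eq_single k]
      · dsimp only
        rw [if_pos rfl, mono_append, mono_append, mono_cons, ← mul_assoc, ← mul_assoc,
          even_comm (par_gen_even (ha k))]
      · intro j _ hj
        dsimp only
        rw [if_neg hj, mul_zero]
      · intro h; exact absurd (Finset.mem_univ _) h
    · intro j
      dsimp only
      by_cases hj : j = k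
      · subst hj
        rw [if_pos rfl]
        refine mono_mem ?_
        simp only [List.map_append, List.map_cons, List.sum_append, List.sum_cons] at h5 ⊢
        omega
      · rw [if_neg hj]; exact zero_mem _
  · exact ⟨fun _ => 0, by simp, fun _ => zero_mem _⟩
  · rintro y z ⟨M, h4, h5⟩ ⟨M', h6, h7⟩
    refine ⟨fun k => M k + M' k, ?_, fun k => add_mem (h5 k) (h7 k)⟩
    rw [h4, h6, ← Finset.sum_add_distrib]
    simp only [mul_add]
  · rintro c y ⟨M, h4, h5⟩
    refine ⟨fun k => c • M k, ?_, fun k => Submodule.smul_mem _ _ (h5 k)⟩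
    rw [h4, Finset.smul_sum]
    simp only [mul_smul_comm]

end kill

section tup

variable {ι : Type} (s : Sul ι)

theorem D_dh {e N : ℕ} {a : FGC (sg s.deg)} (ha : a ∈ DH s.deg e N) :
    s.D a ∈ DH s.deg e (N + 1) := by
  refine mkD_mem (fun i M => (M.map s.deg).sum = s.deg i + 1)
    (fun i => spanOf_mono (fun _ hL => hL.2) (s.good i)) ?_ ha
  rintro L hL W ⟨L1, i, L2, M, rfl, hM, rfl⟩
  simp only [List.map_append, List.map_cons, List.sum_append, List.sum_cons] at hL ⊢
  omega

theorem dh_par {e N m : ℕ} (h : (N + e) % 2 = m % 2) {a : FGC (sg s.deg)}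
    (ha : a ∈ DH s.deg e N) : a ∈ Par s.deg m :=
  spanOf_mono (fun L hL => by omega) ha

theorem dh_wh {j e m : ℕ} (hj : 1 ≤ j) {a : FGC (sg s.deg)} (ha : a ∈ DH s.deg e (m + j)) :
    a ∈ WH s.deg j e 1 m :=
  spanOf_mono (fun L hL => ⟨by omega, hL⟩) ha

theorem kos_of (x : ι) (hx : Even (s.deg x)) (φ : Fin 3 → FGC (sg s.deg)) (d : Fin 3 → ℕ)
    (de : ∀ k, Even (d k)) (hφ : ∀ k, φ k ∈ Hom s.deg 1 (d k)) (cφ : ∀ k, s.D (φ k) = 0)
    (M n : Fin 3 → FGC (sg s.deg)) (C : FGC (sg s.deg)) (hX : s.d x = ∑ k, φ k * M k)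
    (hM : ∀ k, M k ∈ DH s.deg (d k) (s.deg x + 1))
    (hn : ∀ k, n k ∈ DH s.deg (d (k + 1) + d (k + 2)) (s.deg x + 2))
    (hC : C ∈ DH s.deg (d 0 + d 1 + d 2) (s.deg x + 3))
    (dM : ∀ k, s.D (M k) = n (k + 1) * φ (k + 2) - n (k + 2) * φ (k + 1))
    (dn : ∀ k, s.D (n k) = φ k * C) (dC : s.D C = 0) :
    ∃ K : Kos s, zv _ K.T.X = gen _ x := by
  have hφe : ∀ k, φ k ∈ Par s.deg 0 := fun k => by
    have h1 := de k
    rw [Nat.even_iff] at h1
    exact par_cong (by omega) (hom_par (hφ k))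
  have hne : ∀ k, n k ∈ Par s.deg 0 := fun k => by
    have h1 := de (k + 1)
    have h2 := de (k + 2)
    rw [Nat.even_iff] at h1 h2 hx
    exact dh_par s (by omega) (hn k)
  have hMo : ∀ k, M k ∈ Par s.deg 1 := fun k => by
    have h1 := de k
    rw [Nat.even_iff] at h1 hx
    exact dh_par s (by omega) (hM k)
  have hCo : C ∈ Par s.deg 1 := by
    have h0 := de 0
    have h1 := de 1
    have h2 := de 2
    rw [Nat.even_iff] at h0 h1 h2 hx
    exact dh_par s (by omega) hC
  let Φ : Fin 3 → Zc s.deg := fun k => zm (φ k) (hφe k)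
  let T : Tup (gd s.isDer) Φ :=
    { X := zm (gen _ x) (par_gen_even hx)
      M := M
      n := fun k => zm (n k) (hne k)
      C := C
      hM := hMo
      hC := hCo
      dX := by
        rw [gd_D, zsmul_one, zv_zm, s.D_gen, hX]
        simp only [zsmul_def]
        rfl
      dM := by
        intro k
        rw [gd_D, zsmul_one, map_sub, map_mul, map_mul]
        exact dM k
      dn := by
        intro k
        rw [gd_D, zsmul_one, zv_zm, zsmul_def]
        exact dn k
      dC := dC }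
  refine ⟨{ φ := Φ, d := d, de := de, hφ := hφ, cφ := cφ, T := T, m := s.deg x, me := hx,
            hm := by have := s.two_le x; omega, hT := ⟨?_, ?_, ?_, ?_⟩ }, rfl⟩
  · change gen _ x ∈ _
    rw [← mono_single]
    exact mono_mem ⟨by simp, by simp⟩
  · exact fun k => dh_wh s (by omega) (hM k)
  · exact fun k => dh_wh s (by omega) (hn k)
  · exact dh_wh s (by omega) hC

theorem D_even_mul {i : ι} (hi : Even (s.deg i)) (hc : s.d i = 0) (a : FGC (sg s.deg)) :
    s.D (gen _ i * a) = gen _ i * s.D a := by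
  rw [s.isDer.mul, s.D_gen, hc, zero_mul, zero_add, tau_even (par_gen_even hi)]

end tup

end Run7.h985
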