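import Pool.Agent.Run7.h985.Pol

/-!
# Words with at most two odd letters, and exponential sums (MP_5f0082_gt, helper985)
-/

set_option autoImplicit false
set_option maxHeartbeats 400000

namespace Run7.h985

open Pool.H582SA

section words

variable {ι : Type} {p : ι → ℕ}

theorem par_odd_gen {v : ι} (hv : ¬ Even (p v)) : gen (sg p) v ∈ Par p 1 :=
  par_cong (by rw [Nat.even_iff] at hv; omega) (par_gen v)

theorem par_zero_one {a : FGC (sg p)} (h0 : a ∈ Par p 0) (h1 : a ∈ Par p 1) : a = 0 := by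
  refine spanOf_false ?_ (spanOf_inter p (fun m => m % 2 = 1 % 2) h0 h1)
  rintro L ⟨h2, h3⟩
  omega

/-- decomposition of elements with at most two odd letters -/
theorem two_dec {v w : ι} (hv : ¬ Even (p v)) (hw : ¬ Even (p w)) {a : FGC (sg p)}
    (ha : a ∈ spanOf (sg p) (fun L => ∀ i ∈ L, ¬ Even (p i) → i = v ∨ i = w)) :
    ∃ a0 a1 a2 a3 : MvPolynomial (Ev p) ℚ, a = ev p a0 + ev p a1 * gen _ v + ev p a2 * gen _ w
      + ev p a3 * (gen _ v * gen _ w) := by
  have hvv := odd_sq (par_odd_gen hv)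
  have hww := odd_sq (par_odd_gen hw)
  have hwv := odd_comm (par_odd_gen hw) (par_odd_gen hv)
  have hc : ∀ (q : MvPolynomial (Ev p) ℚ) (b : FGC (sg p)), b * ev p q = ev p q * b :=
    fun q b => (even_comm (ev_par q) b).symm
  refine spanOf_induct (P := fun a => ∃ a0 a1 a2 a3 : MvPolynomial (Ev p) ℚ,
    a = ev p a0 + ev p a1 * gen _ v + ev p a2 * gen _ w
      + ev p a3 * (gen _ v * gen _ w)) ?_ ?_ ?_ ?_ ha
  · intro L hL
    induction L with
    | nil => exact ⟨1, 0, 0, 0, by simp⟩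
    | cons i L ih =>
      obtain ⟨a0, a1, a2, a3, h⟩ := ih (fun j hj => hL j (List.mem_cons_of_mem _ hj))
      by_cases hi : Even (p i)
      · refine ⟨MvPolynomial.X ⟨i, hi⟩ * a0, MvPolynomial.X ⟨i, hi⟩ * a1,
          MvPolynomial.X ⟨i, hi⟩ * a2, MvPolynomial.X ⟨i, hi⟩ * a3, ?_⟩
        rw [mono_cons, h, map_mul, map_mul, map_mul, map_mul, ev_X]
        simp only [mul_add, mul_assoc]
      · rcases hL i (by simp) hi with rfl | rfl
        · refine ⟨0, a0, 0, a2, ?_⟩
          rw [mono_cons, h, mul_add, mul_add, mul_add, hc a0, ← mul_assoc _ (ev p a1), hc a1,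
            ← mul_assoc _ (ev p a2), hc a2, ← mul_assoc _ (ev p a3), hc a3, mul_assoc, hvv,
            mul_assoc (ev p a3), ← mul_assoc (gen _ i) (gen _ i), hvv, map_zero]
          simp only [mul_zero, zero_mul, add_zero, zero_add, mul_assoc]
        · refine ⟨0, 0, a0, -a1, ?_⟩
          rw [mono_cons, h, mul_add, mul_add, mul_add, hc a0, ← mul_assoc _ (ev p a1), hc a1,
            ← mul_assoc _ (ev p a2), hc a2, ← mul_assoc _ (ev p a3), hc a3, mul_assoc (ev p a1),
            hwv, mul_assoc (ev p a2), hww, mul_assoc (ev p a3), ← mul_assoc (gen _ i) (gen _ v),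
            hwv, map_zero, map_neg, neg_mul, mul_assoc (gen _ v), hww]
          simp
  · exact ⟨0, 0, 0, 0, by simp⟩
  · rintro a b ⟨a0, a1, a2, a3, h⟩ ⟨b0, b1, b2, b3, h'⟩
    refine ⟨a0 + b0, a1 + b1, a2 + b2, a3 + b3, ?_⟩
    rw [h, h', map_add, map_add, map_add, map_add]
    simp only [add_mul]
    abel
  · rintro r a ⟨a0, a1, a2, a3, h⟩
    refine ⟨r • a0, r • a1, r • a2, r • a3, ?_⟩
    rw [h, map_smul, map_smul, map_smul, map_smul]
    simp only [smul_add, smul_mul_assoc]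

theorem two_odd {v w : ι} (hv : ¬ Even (p v)) (hw : ¬ Even (p w)) {a : FGC (sg p)}
    (ha : a ∈ spanOf (sg p) (fun L => ∀ i ∈ L, ¬ Even (p i) → i = v ∨ i = w))
    (h1 : a ∈ Par p 1) :
    ∃ a1 a2 : MvPolynomial (Ev p) ℚ, a = ev p a1 * gen _ v + ev p a2 * gen _ w := by
  obtain ⟨a0, a1, a2, a3, h⟩ := two_dec hv hw ha
  refine ⟨a1, a2, sub_eq_zero.1 ?_⟩
  refine par_zero_one ?_ ?_
  · have h2 : a - (ev p a1 * gen _ v + ev p a2 * gen _ w)
        = ev p a0 + ev p a3 * (gen _ v * gen _ w) := by rw [h]; abel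
    rw [h2]
    exact add_mem (ev_par _)
      (par_mul0 (ev_par _) (par_mul_odd_odd (par_odd_gen hv) (par_odd_gen hw)))
  · exact sub_mem h1 (add_mem (par_mul_even_odd (ev_par _) (par_odd_gen hv))
      (par_mul_even_odd (ev_par _) (par_odd_gen hw)))

theorem one_even {v : ι} (hv : ¬ Even (p v)) {a : FGC (sg p)}
    (ha : a ∈ spanOf (sg p) (fun L => ∀ i ∈ L, ¬ Even (p i) → i = v))
    (h1 : a ∈ Par p 0) : a = ev p (pr p a) := by
  obtain ⟨a0, a1, a2, a3, h⟩ := two_dec hv hv
    (spanOf_mono (fun L hL i hi hi' => Or.inl (hL i hi hi')) ha)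
  rw [odd_sq (par_odd_gen hv), mul_zero, add_zero] at h
  have h2 : a = ev p a0 := by
    refine sub_eq_zero.1 (par_zero_one (sub_mem h1 (ev_par _)) ?_)
    have h3 : a - ev p a0 = ev p a1 * gen _ v + ev p a2 * gen _ v := by rw [h]; abel
    rw [h3]
    exact add_mem (par_mul_even_odd (ev_par _) (par_odd_gen hv))
      (par_mul_even_odd (ev_par _) (par_odd_gen hv))
  rw [h2, pr_ev]

theorem none_odd {a : FGC (sg p)}
    (ha : a ∈ spanOf (sg p) (fun L => ∀ i ∈ L, Even (p i))) (h1 : a ∈ Par p 1) : a = 0 := by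
  refine spanOf_false ?_ (spanOf_inter p (fun m => m % 2 = 1 % 2) ha h1)
  rintro L ⟨h2, h3⟩
  obtain ⟨i, hi, hi'⟩ := exists_odd_of_sum h3
  exact hi' (h2 i hi)

theorem none_even {a : FGC (sg p)}
    (ha : a ∈ spanOf (sg p) (fun L => ∀ i ∈ L, Even (p i))) : a = ev p (pr p a) := by
  refine spanOf_induct (P := fun a => a = ev p (pr p a)) ?_ ?_ ?_ ?_ ha
  · intro L hL
    induction L with
    | nil => simp
    | cons i L ih =>
      rw [mono_cons, map_mul, map_mul, pr_even (hL i (by simp)), ev_X,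
        ← ih (fun j hj => hL j (List.mem_cons_of_mem _ hj))]
  · simp
  · intro a b h1 h2; rw [map_add, map_add, ← h1, ← h2]
  · intro r a h1; rw [map_smul, map_smul, ← h1]

theorem pd_ev {v : ι} (hv : ¬ Even (p v)) (f : MvPolynomial (Ev p) ℚ) : pd hv (ev p f) = 0 := by
  induction f using MvPolynomial.induction_on with
  | C a =>
    rw [← MvPolynomial.algebraMap_eq, AlgHom.commutes, Algebra.algebraMap_eq_smul_one, map_smul,
      (pd_isDer hv).one, smul_zero]
  | add q1 q2 h1 h2 => rw [map_add, map_add, h1, h2, add_zero]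
  | mul_X q i h =>
    rw [map_mul, (pd_isDer hv).mul, h, ev_X, pd_ne hv (fun hi => hv (hi ▸ i.2)), zero_mul,
      mul_zero, add_zero]

theorem pd_ev_mul {v : ι} (hv : ¬ Even (p v)) (f : MvPolynomial (Ev p) ℚ) (a : FGC (sg p)) :
    pd hv (ev p f * a) = ev p f * pd hv a := by
  rw [(pd_isDer hv).mul, pd_ev, zero_mul, zero_add, tau_even (ev_par f)]

theorem pd_dh {v : ι} (hv : ¬ Even (p v)) {e N : ℕ} {a : FGC (sg p)} (ha : a ∈ DH p e N) :
    pd hv a ∈ DH p (e + p v) N := by
  unfold pd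
  refine mkD_mem (fun j M => j = v ∧ M = []) ?_ ?_ ha
  · intro j
    by_cases hj : j = v
    · subst hj
      rw [if_pos rfl, ← mono_nil]
      exact mono_mem ⟨rfl, rfl⟩
    · rw [if_neg hj]; exact zero_mem _
  · rintro L hL W ⟨L1, j, L2, M, rfl, ⟨rfl, rfl⟩, rfl⟩
    simp only [List.map_append, List.map_cons, List.sum_append, List.sum_cons, List.map_nil,
      List.sum_nil] at hL ⊢
    omega

theorem ev_inj {f : MvPolynomial (Ev p) ℚ} (h : ev p f = 0) : f = 0 := by
  have h1 := congrArg (pr p) h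
  rwa [pr_ev, map_zero] at h1

theorem hd_even {e N : ℕ} {f : MvPolynomial (Ev p) ℚ} (h0 : f ≠ 0) (h : Hd p e N f) :
    (N + e) % 2 = 0 := by
  by_contra hc
  refine h0 (ev_inj (par_zero_one (ev_par f) ?_))
  exact spanOf_mono (fun L hL => by omega) (hd_ev h)

theorem ev_len {f : MvPolynomial (Ev p) ℚ} (h : MvPolynomial.constantCoeff f = 0) :
    ev p f ∈ spanOf (sg p) (fun L => 1 ≤ L.length) := by
  have key : ∀ f : MvPolynomial (Ev p) ℚ, ev p f - algebraMap ℚ _
      (MvPolynomial.constantCoeff f) ∈ spanOf (sg p) (fun L => 1 ≤ L.length) := by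
    intro f
    induction f using MvPolynomial.induction_on with
    | C a =>
      rw [← MvPolynomial.algebraMap_eq, AlgHom.commutes, MvPolynomial.algebraMap_eq,
        MvPolynomial.constantCoeff_C, sub_self]
      exact zero_mem _
    | add q1 q2 h1 h2 =>
      rw [map_add, map_add, map_add, add_sub_add_comm]
      exact add_mem h1 h2
    | mul_X q i h =>
      rw [map_mul, map_mul, MvPolynomial.constantCoeff_X, mul_zero, map_zero, sub_zero, ev_X,
        ← mono_single]
      refine spanOf_mul (S := fun _ => True) (T := fun L => L = [i.1]) ?_ (mem_top_span _)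
        (mono_mem rfl)
      rintro L M - rfl
      simp
  have h1 := key f
  rwa [h, map_zero, sub_zero] at h1

theorem ev_dh_len {e N : ℕ} {f : MvPolynomial (Ev p) ℚ}
    (h : MvPolynomial.constantCoeff f = 0) (hf : Hd p e N f) :
    ev p f ∈ spanOf (sg p) (fun L => (L.map p).sum + e = N ∧ 1 ≤ L.length) := by
  refine spanOf_mono ?_ (spanOf_inter (fun _ => 1) (fun m => 1 ≤ m) (hd_ev hf)
    (spanOf_mono (fun L hL => by simpa using hL) (ev_len h)))
  rintro L ⟨h1, h2⟩
  exact ⟨h1, by simpa using h2⟩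

end words

section dixmier

variable {ι : Type} {p : ι → ℕ} {D : FGC (sg p) →ₗ[ℚ] FGC (sg p)}

theorem D_pow (hD : IsDer D) {t α : FGC (sg p)} (ht : t ∈ Par p 0) (hDt : D t = α) (k : ℕ) :
    D (t ^ (k + 1)) = ((k : ℚ) + 1) • (t ^ k * α) := by
  induction k with
  | zero => simp [hDt]
  | succ k ih =>
    rw [pow_succ, hD.even_mul (par_pow0 ht _), ih, hDt, smul_mul_assoc, mul_assoc,
      ← even_comm ht α, ← mul_assoc, ← pow_succ]
    push_cast
    module

/-- exponential sums -/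
noncomputable def xs (t : FGC (sg p)) (y : ℕ → FGC (sg p)) (K : ℕ) : FGC (sg p) :=
  ∑ k ∈ Finset.range (K + 1), (((-1 : ℚ) ^ k) / (k.factorial : ℚ)) • (t ^ k * y k)

theorem xs_D (hD : IsDer D) {t α : FGC (sg p)} (ht : t ∈ Par p 0) (hDt : D t = α)
    {y : ℕ → FGC (sg p)} (hy : ∀ k, y k ∈ Par p 0) (hDy : ∀ k, D (y k) = y (k + 1) * α)
    (K : ℕ) : D (xs t y K) = (((-1 : ℚ) ^ K) / (K.factorial : ℚ)) • (t ^ K * y (K + 1) * α) := by
  induction K with
  | zero => simp [xs, hDy]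
  | succ K ih =>
    have h1 : xs t y (K + 1) = xs t y K
        + (((-1 : ℚ) ^ (K + 1)) / ((K + 1).factorial : ℚ)) • (t ^ (K + 1) * y (K + 1)) := by
      unfold xs
      rw [Finset.sum_range_succ]
    rw [h1, map_add, ih, map_smul, hD.even_mul (par_pow0 ht _), D_pow hD ht hDt, hDy,
      smul_mul_assoc, mul_assoc (t ^ K) α, ← even_comm (hy (K + 1)) α, ← mul_assoc, ← mul_assoc,
      smul_add, smul_smul, ← add_assoc, ← add_smul]
    have h2 : ((-1 : ℚ) ^ K) / (K.factorial : ℚ)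
        + ((-1 : ℚ) ^ (K + 1)) / ((K + 1).factorial : ℚ) * ((K : ℚ) + 1) = 0 := by
      rw [Nat.factorial_succ]
      have h3 : (K.factorial : ℚ) ≠ 0 := by exact_mod_cast Nat.factorial_ne_zero K
      have h4 : (K : ℚ) + 1 ≠ 0 := by positivity
      push_cast
      field_simp
      ring
    rw [h2, zero_smul, zero_add]

theorem xs_pr (t : FGC (sg p)) (y : ℕ → FGC (sg p)) (K : ℕ) :
    ∃ q, pr p (xs t y K) = pr p (y 0) + pr p t * q := by
  refine ⟨∑ k ∈ Finset.range K, (((-1 : ℚ) ^ (k + 1)) / ((k + 1).factorial : ℚ)) •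
    (pr p t ^ k * pr p (y (k + 1))), ?_⟩
  unfold xs
  rw [Finset.sum_range_succ', map_add, map_sum, Finset.mul_sum, add_comm]
  congr 1
  · simp
  · refine Finset.sum_congr rfl (fun k _ => ?_)
    rw [map_smul, map_mul, map_pow, pow_succ' (pr p t), mul_smul_comm, mul_assoc]

theorem xs_mem {t : FGC (sg p)} {y : ℕ → FGC (sg p)} {K : ℕ} (T : List ι → Prop)
    (h : ∀ k, t ^ k * y k ∈ spanOf (sg p) T) : xs t y K ∈ spanOf (sg p) T := by
  unfold xs
  exact Submodule.sum_mem _ (fun k _ => Submodule.smul_mem _ _ (h k))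

end dixmier

end Run7.h985
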