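import Pool.Agent.Run7.h985.Red

/-!
# Elimination of even generators which kill odd cocycles (MP_5f0082_gt, helper985)
-/

set_option autoImplicit false
set_option maxHeartbeats 400000

namespace Run7.h985

open Pool.H582SA

open Classical in
/-- counts the letters outside `S` -/
noncomputable def ind {ι : Type} (S : ι → Prop) (i : ι) : ℕ := if S i then 0 else 1

open Classical in
/-- the degree of the letters outside `S` -/
noncomputable def wt {ι : Type} (p : ι → ℕ) (S : ι → Prop) (i : ι) : ℕ := if S i then 0 else p i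

/-- words with two letters outside `S`, with a new letter or of large degree outside `S` -/
def Wd {ι κ : Type} (p : ι → ℕ) (S : ι → Prop) (n : ℕ) (L : List (ι ⊕ κ)) : Prop :=
  2 ≤ (L.map (Sum.elim (ind S) (fun _ => 1))).sum ∧
    ((∃ k, Sum.inr k ∈ L) ∨ n ≤ (L.map (Sum.elim (wt p S) (fun _ => 0))).sum)

/-- the pure ideal together with the generators in `S` -/
noncomputable def JS {ι κ : Type} {p : ι ⊕ κ → ℕ} (D : FGC (sg p) →ₗ[ℚ] FGC (sg p))
    (S : ι → Prop) : Ideal (MvPolynomial (Ev p) ℚ) :=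
  J D ⊔ Ideal.span {q | ∃ i : ι, S i ∧ q = pr p (gen (sg p) (Sum.inl i))}

/-- an extension by odd generators in which the generators outside `S` are nilpotent modulo
the pure ideal and `S` -/
structure Qul.RelExt {ι κ : Type} (B : Qul ι) (S : ι → Prop) (n : ℕ) (t : Qul (ι ⊕ κ)) :
    Prop where
  /-- an extension -/
  ext : B.IsExt t
  /-- degrees -/
  deg : ∀ k, n ≤ t.deg (Sum.inr k)
  /-- parity -/
  odd : ∀ k, ¬ Even (t.deg (Sum.inr k))
  /-- words -/
  wd : ∀ k, t.d (Sum.inr k) ∈ spanOf (sg t.deg) (Wd B.deg S n)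
  /-- nilpotency -/
  nil : ∀ i, ¬ S i → pr t.deg (gen _ (Sum.inl i)) ∈ (JS t.D S).radical

/-- restriction to the generators other than `u`, when `u` does not occur in the differentials -/
theorem inc_qmap {ι : Type} {p : ι → ℕ} {u : ι} {a : FGC (sg p)}
    (ha : a ∈ spanOf (sg p) (fun L => u ∉ L)) : inc p u (qmap p u a) = a := by
  refine spanOf_induct (P := fun a => inc p u (qmap p u a) = a) ?_ ?_ ?_ ?_ ha
  · intro L hL
    have : ∃ L' : List {i : ι // i ≠ u}, L'.map Subtype.val = L := by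
      refine ⟨L.pmap (fun a ha => ⟨a, ha⟩) (fun a ha hav => hL (hav ▸ ha)), ?_⟩
      rw [List.map_pmap]; simp
    obtain ⟨L', rfl⟩ := this
    rw [q_mono, emb_mono]
  · simp
  · intro a b h1 h2; rw [map_add, map_add, h1, h2]
  · intro r a h1; rw [map_smul, map_smul, h1]

namespace Qul

variable {ι : Type} (B : Qul ι) (u : ι)

/-- the differentials of the restriction -/
noncomputable def rdif (i : {i : ι // i ≠ u}) : FGC (sg (qd B.deg u)) := qmap B.deg u (B.d i.1)

theorem rdif_good (i : {i : ι // i ≠ u}) : B.rdif u i ∈ spanOf (sg (qd B.deg u))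
    (fun L => (L.map (qd B.deg u)).sum = qd B.deg u i + 1) := by
  refine q_mem ?_ (B.good i.1)
  intro L h2
  rw [List.map_map] at h2
  exact h2

theorem rdif_par (i : {i : ι // i ≠ u}) :
    B.rdif u i ∈ Par (qd B.deg u) (qd B.deg u i + 1) :=
  spanOf_mono (fun _ hL => by rw [hL]) (B.rdif_good u i)

/-- the differential of the restriction -/
noncomputable def RD : FGC (sg (qd B.deg u)) →ₗ[ℚ] FGC (sg (qd B.deg u)) :=
  mkD (B.rdif u) (B.rdif_par u)

theorem RD_isDer : IsDer (B.RD u) := isDer_mkD _ _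

variable (hnu : ∀ i, B.d i ∈ spanOf (sg B.deg) (fun L => u ∉ L))

include hnu in
theorem D_inc_res (a : FGC (sg (qd B.deg u))) : B.D (inc B.deg u a) = inc B.deg u (B.RD u a) := by
  refine der_emb (B.RD_isDer u) B.isDer _ _ ?_ a
  intro i
  rw [B.D_gen]
  have h1 : B.RD u (gen _ i) = B.rdif u i := mkD_gen _ _ _
  rw [h1]
  exact (inc_qmap (hnu i.1)).symm

/-- the restriction -/
noncomputable def res : Qul {i : ι // i ≠ u} where
  deg := qd B.deg u
  two_le := fun i => B.two_le i.1
  d := B.rdif u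
  good := B.rdif_good u
  sq := by
    intro i
    have h1 : B.RD u (B.rdif u i) = B.RD u (B.RD u (gen _ i)) := by
      congr 1
      exact (mkD_gen _ _ _).symm
    have h2 := congrArg (qmap B.deg u) (B.D_D (inc B.deg u (gen _ i)))
    rw [B.D_inc_res u hnu, B.D_inc_res u hnu, q_inc, map_zero, ← h1] at h2
    exact h2

end Qul

namespace El

variable {ι κ : Type} (B : Qul ι) (u : ι) (t : Qul (ι ⊕ κ)) (n0 : ℕ)

/-- index set of the new generators -/
abbrev KK (B : Qul ι) (u : ι) (t : Qul (ι ⊕ κ)) (n0 : ℕ) : Type :=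
  {kj : κ × ℕ // n0 + kj.2 * B.deg u ≤ t.deg (Sum.inr kj.1)}

/-- degrees of all generators -/
def pE (B : Qul ι) (u : ι) (t : Qul (ι ⊕ κ)) (n0 : ℕ) : ι ⊕ KK B u t n0 → ℕ :=
  Sum.elim B.deg (fun x => t.deg (Sum.inr x.1.1) - x.1.2 * B.deg u)

open Classical in
/-- the new generators, zero out of range -/
noncomputable def yy (B : Qul ι) (u : ι) (t : Qul (ι ⊕ κ)) (n0 : ℕ)
    (k : κ) (j : ℕ) : FGC (sg (pE B u t n0)) :=
  if h : n0 + j * B.deg u ≤ t.deg (Sum.inr k) then gen _ (Sum.inr ⟨(k, j), h⟩) else 0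

/-- embedding of the base -/
noncomputable def em0 (B : Qul ι) (u : ι) (t : Qul (ι ⊕ κ)) (n0 : ℕ) :
    FGC (sg B.deg) →ₐ[ℚ] FGC (sg (pE B u t n0)) :=
  emb Sum.inl (fun _ => rfl)

open Classical in
/-- values of the even derivation on generators -/
noncomputable def thE (B : Qul ι) (u : ι) (t : Qul (ι ⊕ κ)) (n0 : ℕ) :
    ι ⊕ KK B u t n0 → FGC (sg (pE B u t n0))
  | Sum.inl i => if i = u then 1 else 0
  | Sum.inr x => yy B u t n0 x.1.1 (x.1.2 + 1)

/-- the pattern of the even derivation -/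
def SE (B : Qul ι) (u : ι) (t : Qul (ι ⊕ κ)) (n0 : ℕ) (x : ι ⊕ KK B u t n0)
    (M : List (ι ⊕ KK B u t n0)) : Prop :=
  (M.map (pE B u t n0)).sum + B.deg u = pE B u t n0 x ∧
    ((x = Sum.inl u ∧ M = []) ∨ ∃ y z, x = Sum.inr y ∧ M = [Sum.inr z])

theorem thE_mem (x : ι ⊕ KK B u t n0) :
    thE B u t n0 x ∈ spanOf (sg (pE B u t n0)) (SE B u t n0 x) := by
  rcases x with i | ⟨⟨k, j⟩, hx⟩
  · by_cases h : i = u
    · subst h
      simp only [thE, if_true]
      rw [← mono_nil]
      exact mono_mem ⟨by simp [pE], Or.inl ⟨rfl, rfl⟩⟩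
    · simp only [thE, if_neg h]
      exact zero_mem _
  · simp only [thE, yy]
    split_ifs with h
    · rw [← mono_single]
      refine mono_mem ⟨?_, Or.inr ⟨_, _, rfl, rfl⟩⟩
      have h4 : pE B u t n0 (Sum.inr ⟨(k, j), hx⟩) = t.deg (Sum.inr k) - j * B.deg u := rfl
      have h5 : pE B u t n0 (Sum.inr ⟨(k, j + 1), h⟩)
        = t.deg (Sum.inr k) - (j + 1) * B.deg u := rfl
      have h6 : (j + 1) * B.deg u = j * B.deg u + B.deg u := by ring
      simp only [List.map_cons, List.map_nil, List.sum_cons, List.sum_nil]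
      rw [h4, h5]
      omega
    · exact zero_mem _

variable {u} (hu : Even (B.deg u))

include hu in
theorem thE_par (x : ι ⊕ KK B u t n0) :
    thE B u t n0 x ∈ Par (pE B u t n0) (pE B u t n0 x) := by
  refine spanOf_mono ?_ (thE_mem B u t n0 x)
  rintro L ⟨h, -⟩
  rw [Nat.even_iff] at hu
  omega

/-- the even derivation -/
noncomputable def ThE : FGC (sg (pE B u t n0)) →ₗ[ℚ] FGC (sg (pE B u t n0)) :=
  mkE (thE B u t n0) (thE_par B t n0 hu)

theorem ThE_mul (a b : FGC (sg (pE B u t n0))) :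
    ThE B t n0 hu (a * b) = ThE B t n0 hu a * b + a * ThE B t n0 hu b := mkE_mul _ _ a b

theorem ThE_gen (x : ι ⊕ KK B u t n0) : ThE B t n0 hu (gen _ x) = thE B u t n0 x :=
  mkE_gen _ _ x

theorem ThE_one : ThE B t n0 hu 1 = 0 := mkE_one _ _

theorem ThE_tau (a : FGC (sg (pE B u t n0))) :
    ThE B t n0 hu (tau _ a) = tau _ (ThE B t n0 hu a) := by
  refine mono_induct (P := fun a => ThE B t n0 hu (tau _ a) = tau _ (ThE B t n0 hu a)) ?_ ?_ ?_ ?_ a
  · intro L
    have h1 : ThE B t n0 hu (mono _ L) ∈ Par (pE B u t n0) ((L.map (pE B u t n0)).sum) :=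
      mkE_par (par_mono L)
    rw [tau_mono, map_smul, tau_par h1]
  · simp
  · intro a b h1 h2; rw [map_add, map_add, h1, h2, map_add, map_add]
  · intro r a h1; rw [map_smul, map_smul, h1, map_smul, map_smul]

/-- the even derivation vanishes on words in the base without `u` -/
theorem ThE_em0 {a : FGC (sg B.deg)} (ha : a ∈ spanOf (sg B.deg) (fun L => u ∉ L)) :
    ThE B t n0 hu (em0 B u t n0 a) = 0 := by
  refine spanOf_induct (P := fun a => ThE B t n0 hu (em0 B u t n0 a) = 0) ?_ ?_ ?_ ?_ ha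
  · intro L hL
    unfold em0
    rw [emb_mono]
    induction L with
    | nil => simp [ThE_one]
    | cons i L ih =>
      rw [List.map_cons, mono_cons, ThE_mul, ih (fun h => hL (List.mem_cons_of_mem _ h)), ThE_gen]
      have hi : i ≠ u := fun h => hL (by rw [h]; simp)
      simp only [thE, if_neg hi, zero_mul, mul_zero, add_zero]
  · simp
  · intro a b h1 h2; rw [map_add, map_add, h1, h2, add_zero]
  · intro r a h1; rw [map_smul, map_smul, h1, smul_zero]

variable {n0} (hn : ∀ k, n0 ≤ t.deg (Sum.inr k)) (ht : ∀ i, t.deg (Sum.inl i) = B.deg i)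

/-- the map of indices of the given extension -/
def eix (u : ι) (hn : ∀ k, n0 ≤ t.deg (Sum.inr k)) : ι ⊕ κ → ι ⊕ KK B u t n0
  | Sum.inl i => Sum.inl i
  | Sum.inr k => Sum.inr ⟨(k, 0), by simpa using hn k⟩

include ht in
theorem eix_deg (x : ι ⊕ κ) : pE B u t n0 (eix B t u hn x) = t.deg x := by
  rcases x with i | k
  · rw [ht]; rfl
  · simp [eix, pE]

/-- the embedding of the given extension -/
noncomputable def eE : FGC (sg t.deg) →ₐ[ℚ] FGC (sg (pE B u t n0)) :=
  emb (eix B t u hn) (eix_deg B t hn ht)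

variable {S : ι → Prop} {n1 : ℕ}

/-- the pattern of the iterated derivatives -/
def PP (B : Qul ι) (u : ι) (t : Qul (ι ⊕ κ)) (n0 : ℕ) (S : ι → Prop) (n1 : ℕ) (k : κ) (j : ℕ)
    (L : List (ι ⊕ KK B u t n0)) : Prop :=
  (L.map (pE B u t n0)).sum + j * B.deg u = t.deg (Sum.inr k) + 1 ∧ Wd B.deg S n1 L

theorem wd_map {κ' : Type} (p : ι → ℕ) (f : κ → κ') {L : List (ι ⊕ κ)} (h : Wd p S n1 L) :
    Wd p S n1 (L.map (Sum.map id f)) := by
  obtain ⟨h1, h2⟩ := h
  refine ⟨?_, ?_⟩
  · rw [List.map_map]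
    convert h1 using 3
    ext x; rcases x with i | k <;> rfl
  · rcases h2 with ⟨k, hk⟩ | h2
    · exact Or.inl ⟨f k, List.mem_map.2 ⟨_, hk, rfl⟩⟩
    · right
      rw [List.map_map]
      convert h2 using 3
      ext x; rcases x with i | k <;> rfl

theorem iter_mem (hS : S u) (htW : ∀ k, t.d (Sum.inr k) ∈ spanOf (sg t.deg) (Wd B.deg S n1))
    (k : κ) (j : ℕ) : (ThE B t n0 hu)^[j] (eE B t hn ht (t.d (Sum.inr k)))
      ∈ spanOf (sg (pE B u t n0)) (PP B u t n0 S n1 k j) := by
  induction j with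
  | zero =>
    have h0 := spanOf_inter t.deg (fun m => m = t.deg (Sum.inr k) + 1) (htW k) (t.good (Sum.inr k))
    refine emb_mem _ _ ?_ h0
    rintro L ⟨h1, h2⟩
    refine ⟨?_, ?_⟩
    · rw [map_deg_sum (p := t.deg) _ (eix_deg B t hn ht), h2]; simp
    · have h3 := wd_map B.deg (fun k : κ => (⟨(k, 0), by simpa using hn k⟩ : KK B u t n0)) h1
      convert h3 using 2
      ext x; rcases x with i | k <;> rfl
  | succ j ih =>
    rw [Function.iterate_succ_apply']
    refine mkE_mem (SE B u t n0) (thE_mem B u t n0) ?_ ih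
    rintro L ⟨h1, h2, h3⟩ W ⟨L1, x, L2, M, rfl, ⟨h4, h5⟩, rfl⟩
    have h7 : (j + 1) * B.deg u = j * B.deg u + B.deg u := by ring
    simp only [List.map_append, List.map_cons, List.sum_append, List.sum_cons] at h1 h2 h3
    have hi : ind S u = 0 := by simp [ind, hS]
    have hw : wt B.deg S u = 0 := by simp [wt, hS]
    refine ⟨?_, ?_, ?_⟩
    · simp only [List.map_append, List.sum_append]
      omega
    · simp only [List.map_append, List.sum_append]
      rcases h5 with ⟨rfl, rfl⟩ | ⟨y, z, rfl, rfl⟩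
      · simp only [Sum.elim_inl, hi] at h2
        simpa using h2
      · simp only [Sum.elim_inr] at h2
        simp only [List.map_cons, List.map_nil, List.sum_cons, List.sum_nil, Sum.elim_inr]
        omega
    · rcases h5 with ⟨rfl, rfl⟩ | ⟨y, z, rfl, rfl⟩
      · rcases h3 with ⟨k', hk'⟩ | h3
        · left
          refine ⟨k', ?_⟩
          simp only [List.mem_append, List.mem_cons, reduceCtorEq, false_or] at hk'
          simpa using hk'
        · right
          simp only [Sum.elim_inl, hw] at h3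
          simpa using h3
      · left
        exact ⟨z, by simp⟩

theorem pE_two (h2 : 2 ≤ n0) (x : ι ⊕ KK B u t n0) : 2 ≤ pE B u t n0 x := by
  rcases x with i | ⟨⟨k, j⟩, hx⟩
  · exact B.two_le i
  · have h4 : pE B u t n0 (Sum.inr ⟨(k, j), hx⟩) = t.deg (Sum.inr k) - j * B.deg u := rfl
    rw [h4]
    simp only at hx
    omega

theorem pE_n0 (x : KK B u t n0) : n0 ≤ pE B u t n0 (Sum.inr x) := by
  obtain ⟨⟨k, j⟩, hx⟩ := x
  have h4 : pE B u t n0 (Sum.inr ⟨(k, j), hx⟩) = t.deg (Sum.inr k) - j * B.deg u := rfl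
  rw [h4]
  simp only at hx
  omega

theorem sum_mono_le {α : Type} (f g : α → ℕ) (h : ∀ x, f x ≤ g x) (L : List α) :
    (L.map f).sum ≤ (L.map g).sum := by
  induction L with
  | nil => simp
  | cons a L ih =>
    simp only [List.map_cons, List.sum_cons]
    exact add_le_add (h a) ih

theorem two_ind_le (h2 : 2 ≤ n0) (L : List (ι ⊕ KK B u t n0)) :
    2 * (L.map (Sum.elim (ind S) (fun _ => 1))).sum ≤ (L.map (pE B u t n0)).sum := by
  induction L with
  | nil => simp
  | cons a L ih =>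
    simp only [List.map_cons, List.sum_cons]
    have h3 := pE_two B t h2 a
    have h4 : Sum.elim (ind S) (fun _ => 1) a ≤ 1 := by
      rcases a with i | k
      · simp only [Sum.elim_inl, ind]; split_ifs <;> omega
      · simp
    omega

theorem iter_zero (hS : S u) (htW : ∀ k, t.d (Sum.inr k) ∈ spanOf (sg t.deg) (Wd B.deg S n1))
    (h2 : 2 ≤ n0) (h1 : n0 + 1 ≤ n1)
    (k : κ) (j : ℕ) (hj : ¬ n0 + j * B.deg u ≤ t.deg (Sum.inr k)) :
    (ThE B t n0 hu)^[j] (eE B t hn ht (t.d (Sum.inr k))) = 0 := by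
  refine spanOf_false ?_ (iter_mem B t hu hn ht hS htW k j)
  rintro L ⟨h3, h4, h5⟩
  have h6 : (L.map (pE B u t n0)).sum ≤ n0 := by omega
  rcases h5 with ⟨x, hx⟩ | h5
  · obtain ⟨A, C, rfl⟩ := List.append_of_mem hx
    have h8 := two_ind_le (S := S) B t h2 A
    have h9 := two_ind_le (S := S) B t h2 C
    have h10 := pE_n0 B t x
    simp only [List.map_append, List.map_cons,
      List.sum_append, List.sum_cons, Sum.elim_inr] at h4 h6
    omega
  · have h8 := sum_mono_le (Sum.elim (wt B.deg S) (fun _ => 0)) (pE B u t n0) (by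
      rintro (i | k)
      · simp only [Sum.elim_inl, wt, pE]; split_ifs <;> omega
      · simp) L
    omega

section diff

variable (htd : ∀ i, t.d (Sum.inl i) = emb Sum.inl ht (B.d i))

/-- the differential of the coinduced algebra, on generators -/
noncomputable def d2 : ι ⊕ KK B u t n0 → FGC (sg (pE B u t n0))
  | Sum.inl i => em0 B u t n0 (B.d i)
  | Sum.inr x => (ThE B t n0 hu)^[x.1.2] (eE B t hn ht (t.d (Sum.inr x.1.1)))

variable (hS : S u) (htW : ∀ k, t.d (Sum.inr k) ∈ spanOf (sg t.deg) (Wd B.deg S n1))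

include hS htW in
theorem d2_mem (x : ι ⊕ KK B u t n0) : d2 B t hu hn ht x ∈ spanOf (sg (pE B u t n0))
    (fun L => (L.map (pE B u t n0)).sum = pE B u t n0 x + 1) := by
  rcases x with i | x
  · refine emb_mem (p := B.deg) _ _ ?_ (B.good i)
    intro L h2
    rw [map_deg_sum (p := B.deg) (p' := pE B u t n0) Sum.inl (fun _ => rfl), h2]
    rfl
  · refine spanOf_mono ?_ (iter_mem B t hu hn ht hS htW x.1.1 x.1.2)
    rintro L ⟨h4, -⟩
    have h5 : pE B u t n0 (Sum.inr x) = t.deg (Sum.inr x.1.1) - x.1.2 * B.deg u := rfl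
    have h6 := x.2
    rw [h5]
    omega

include hS htW in
theorem d2_par (x : ι ⊕ KK B u t n0) :
    d2 B t hu hn ht x ∈ Par (pE B u t n0) (pE B u t n0 x + 1) :=
  spanOf_mono (fun _ hL => by rw [hL]) (d2_mem B t hu hn ht hS htW x)

/-- the differential of the coinduced algebra -/
noncomputable def D2 : FGC (sg (pE B u t n0)) →ₗ[ℚ] FGC (sg (pE B u t n0)) :=
  mkD (d2 B t hu hn ht) (d2_par B t hu hn ht hS htW)

theorem D2_isDer : IsDer (D2 B t hu hn ht hS htW) := isDer_mkD _ _

theorem D2_gen (x : ι ⊕ KK B u t n0) :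
    D2 B t hu hn ht hS htW (gen _ x) = d2 B t hu hn ht x := mkD_gen _ _ x

theorem D2_em0 (a : FGC (sg B.deg)) :
    D2 B t hu hn ht hS htW (em0 B u t n0 a) = em0 B u t n0 (B.D a) := by
  refine der_emb B.isDer (D2_isDer B t hu hn ht hS htW) _ _ ?_ a
  intro i
  rw [D2_gen, B.D_gen]
  rfl

include htd in
theorem D2_eE (a : FGC (sg t.deg)) :
    D2 B t hu hn ht hS htW (eE B t hn ht a) = eE B t hn ht (t.D a) := by
  refine der_emb t.isDer (D2_isDer B t hu hn ht hS htW) _ _ ?_ a
  intro i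
  rw [D2_gen, t.D_gen]
  rcases i with i | k
  · rw [htd, emb_emb]
    rfl
  · rfl

variable (h2 : 2 ≤ n0) (h1 : n0 + 1 ≤ n1)
  (hnu : ∀ i, B.d i ∈ spanOf (sg B.deg) (fun L => u ∉ L))

include h2 h1 hnu in
theorem comm_gen (x : ι ⊕ KK B u t n0) :
    D2 B t hu hn ht hS htW (thE B u t n0 x) = ThE B t n0 hu (d2 B t hu hn ht x) := by
  rcases x with i | ⟨⟨k, j⟩, hx⟩
  · simp only [d2]
    rw [ThE_em0 B t n0 hu (hnu i)]
    by_cases h : i = u
    · simp only [thE, if_pos h, (D2_isDer B t hu hn ht hS htW).one]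
    · simp only [thE, if_neg h, map_zero]
  · simp only [thE, d2, yy]
    split_ifs with h
    · rw [D2_gen]
      simp only [d2]
      rw [Function.iterate_succ_apply']
    · rw [map_zero, ← Function.iterate_succ_apply' (ThE B t n0 hu),
        iter_zero B t hu hn ht hS htW h2 h1 k (j + 1) h]

include h2 h1 hnu in
theorem comm (a : FGC (sg (pE B u t n0))) :
    D2 B t hu hn ht hS htW (ThE B t n0 hu a) = ThE B t n0 hu (D2 B t hu hn ht hS htW a) := by
  have : (D2 B t hu hn ht hS htW ∘ₗ ThE B t n0 hu) - (ThE B t n0 hu ∘ₗ D2 B t hu hn ht hS htW)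
      = 0 := by
    refine der_ext _ _ id (tau _) ?_ ?_ ?_ ?_
    · intro a b
      simp only [LinearMap.sub_apply, LinearMap.comp_apply, id]
      rw [(D2_isDer B t hu hn ht hS htW).mul, ThE_mul, map_add, map_add, ThE_mul, ThE_mul,
        (D2_isDer B t hu hn ht hS htW).mul, (D2_isDer B t hu hn ht hS htW).mul, ThE_tau]
      simp only [sub_mul, mul_sub]
      abel
    · intro a b; simp
    · simp [ThE_one, (D2_isDer B t hu hn ht hS htW).one]
    · intro x
      simp only [LinearMap.sub_apply, LinearMap.comp_apply, LinearMap.zero_apply]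
      rw [ThE_gen, D2_gen, comm_gen B t hu hn ht hS htW h2 h1 hnu, sub_self]
  exact sub_eq_zero.1 (DFunLike.congr_fun this a)

include h2 h1 hnu in
theorem comm_iter (j : ℕ) (a : FGC (sg (pE B u t n0))) :
    D2 B t hu hn ht hS htW ((ThE B t n0 hu)^[j] a)
      = (ThE B t n0 hu)^[j] (D2 B t hu hn ht hS htW a) := by
  induction j with
  | zero => rfl
  | succ j ih =>
    rw [Function.iterate_succ_apply', comm B t hu hn ht hS htW h2 h1 hnu, ih,
      Function.iterate_succ_apply']

theorem iter_map_zero (j : ℕ) : (ThE B t n0 hu)^[j] 0 = 0 := by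
  induction j with
  | zero => rfl
  | succ j ih => rw [Function.iterate_succ_apply', ih, map_zero]

include htd h2 h1 hnu in
theorem D2_D2 (a : FGC (sg (pE B u t n0))) :
    D2 B t hu hn ht hS htW (D2 B t hu hn ht hS htW a) = 0 := by
  refine (D2_isDer B t hu hn ht hS htW).sq ?_ a
  intro x
  rw [D2_gen]
  rcases x with i | ⟨⟨k, j⟩, hx⟩
  · simp only [d2]
    rw [D2_em0, ← B.D_gen, B.D_D, map_zero]
  · simp only [d2]
    rw [comm_iter B t hu hn ht hS htW h2 h1 hnu, D2_eE B t hu hn ht htd, ← t.D_gen, t.D_D,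
      map_zero, iter_map_zero]

/-- the odd cocycle killed by `u` -/
noncomputable def om (B : Qul ι) (u : ι) (t : Qul (ι ⊕ κ)) (n0 : ℕ) : FGC (sg (pE B u t n0)) :=
  em0 B u t n0 (B.d u)

include hu in
theorem om_par : om B u t n0 ∈ Par (pE B u t n0) 1 := by
  refine par_cong ?_ (emb_par _ _ (B.par u))
  rw [Nat.even_iff] at hu
  omega

/-- the differential on generators -/
noncomputable def dE (x : ι ⊕ KK B u t n0) : FGC (sg (pE B u t n0)) :=
  d2 B t hu hn ht x - om B u t n0 * thE B u t n0 x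

include hS htW in
theorem dE_good (x : ι ⊕ KK B u t n0) : dE B t hu hn ht x ∈ spanOf (sg (pE B u t n0))
    (fun L => (L.map (pE B u t n0)).sum = pE B u t n0 x + 1) := by
  refine sub_mem (d2_mem B t hu hn ht hS htW x) ?_
  refine spanOf_mul ?_ (d2_mem B t hu hn ht hS htW (Sum.inl u)) (thE_mem B u t n0 x)
  rintro L M h3 ⟨h4, -⟩
  have h5 : pE B u t n0 (Sum.inl u) = B.deg u := rfl
  rw [List.map_append, List.sum_append]
  omega

include hS htW in
theorem dE_par (x : ι ⊕ KK B u t n0) :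
    dE B t hu hn ht x ∈ Par (pE B u t n0) (pE B u t n0 x + 1) :=
  spanOf_mono (fun _ hL => by rw [hL]) (dE_good B t hu hn ht hS htW x)

/-- the differential -/
noncomputable def DE : FGC (sg (pE B u t n0)) →ₗ[ℚ] FGC (sg (pE B u t n0)) :=
  mkD (dE B t hu hn ht) (dE_par B t hu hn ht hS htW)

theorem DE_isDer : IsDer (DE B t hu hn ht hS htW) := isDer_mkD _ _

theorem DE_eq (a : FGC (sg (pE B u t n0))) : DE B t hu hn ht hS htW a
    = D2 B t hu hn ht hS htW a - om B u t n0 * ThE B t n0 hu a := by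
  let G : FGC (sg (pE B u t n0)) →ₗ[ℚ] FGC (sg (pE B u t n0)) := D2 B t hu hn ht hS htW
    - (LinearMap.mulLeft ℚ (om B u t n0)) ∘ₗ (ThE B t n0 hu)
  have hG : ∀ a, G a = D2 B t hu hn ht hS htW a - om B u t n0 * ThE B t n0 hu a :=
    fun a => rfl
  have : DE B t hu hn ht hS htW = G := by
    refine der_ext _ _ id (tau _) ?_ ?_ ?_ ?_
    · intro a b
      rw [(DE_isDer B t hu hn ht hS htW).mul]; rfl
    · intro a b
      rw [hG, hG, hG, (D2_isDer B t hu hn ht hS htW).mul, ThE_mul]
      have h1 := odd_mul_tau (om_par B t (n0 := n0) hu) a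
      simp only [id]
      rw [mul_add, sub_mul, mul_sub, ← mul_assoc (om B u t n0) a, h1]
      simp only [mul_assoc]
      abel
    · rw [hG, (DE_isDer B t hu hn ht hS htW).one, (D2_isDer B t hu hn ht hS htW).one, ThE_one,
        mul_zero, sub_zero]
    · intro x
      rw [hG, D2_gen, ThE_gen]
      exact mkD_gen _ _ x
  rw [this, hG]

theorem D2_om : D2 B t hu hn ht hS htW (om B u t n0) = 0 := by
  unfold om
  rw [D2_em0, ← B.D_gen, B.D_D, map_zero]

include hnu in
theorem ThE_om : ThE B t n0 hu (om B u t n0) = 0 := ThE_em0 B t n0 hu (hnu u)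

include htd h2 h1 hnu in
theorem DE_DE (a : FGC (sg (pE B u t n0))) :
    DE B t hu hn ht hS htW (DE B t hu hn ht hS htW a) = 0 := by
  rw [DE_eq, DE_eq, map_sub, map_sub, D2_D2 B t hu hn ht htd hS htW h2 h1 hnu,
    (D2_isDer B t hu hn ht hS htW).odd_mul (om_par B t hu), D2_om, ThE_mul,
    ThE_om B t hu hnu, comm B t hu hn ht hS htW h2 h1 hnu, zero_mul]
  simp only [zero_sub, zero_add, neg_neg, mul_sub]
  rw [← mul_assoc (om B u t n0) (om B u t n0), odd_sq (om_par B t hu), zero_mul, sub_zero,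
    sub_self]

theorem DE_u : DE B t hu hn ht hS htW (gen _ (Sum.inl u)) = 0 := by
  unfold DE
  rw [mkD_gen]
  simp only [dE, d2, thE, om, if_true, mul_one, sub_self]

/-- the differential of the result, on generators -/
noncomputable def dF (x : {i : ι // i ≠ u} ⊕ KK B u t n0) : FGC (sg (rd (pE B u t n0) u)) :=
  rq (pE B u t n0) u (dE B t hu hn ht (Sum.map Subtype.val id x))

include hS htW in
theorem dF_good (x : {i : ι // i ≠ u} ⊕ KK B u t n0) :
    dF B t hu hn ht x ∈ spanOf (sg (rd (pE B u t n0) u))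
    (fun L => (L.map (rd (pE B u t n0) u)).sum = rd (pE B u t n0) u x + 1) := by
  refine rq_mem ?_ (dE_good B t hu hn ht hS htW _)
  intro L hL
  rw [rd_sum] at hL
  exact hL

include hS htW in
theorem dF_par (x : {i : ι // i ≠ u} ⊕ KK B u t n0) :
    dF B t hu hn ht x ∈ Par (rd (pE B u t n0) u) (rd (pE B u t n0) u x + 1) :=
  spanOf_mono (fun _ hL => by rw [hL]) (dF_good B t hu hn ht hS htW x)

/-- the differential of the result -/
noncomputable def DF : FGC (sg (rd (pE B u t n0) u)) →ₗ[ℚ] FGC (sg (rd (pE B u t n0) u)) :=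
  mkD (dF B t hu hn ht) (dF_par B t hu hn ht hS htW)

theorem DF_isDer : IsDer (DF B t hu hn ht hS htW) := isDer_mkD _ _

theorem DF_rq (a : FGC (sg (pE B u t n0))) :
    DF B t hu hn ht hS htW (rq _ u a) = rq _ u (DE B t hu hn ht hS htW a) := by
  refine rq_D (DE_isDer B t hu hn ht hS htW) (DF_isDer B t hu hn ht hS htW) ?_ ?_ a
  · rw [DE_u, map_zero]
  · intro x
    have h3 : DF B t hu hn ht hS htW (gen _ x) = dF B t hu hn ht x := mkD_gen _ _ x
    have h4 : ∀ y, DE B t hu hn ht hS htW (gen _ y) = dE B t hu hn ht y :=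
      fun y => mkD_gen _ _ y
    rw [h3, h4]
    rfl

include htd h2 h1 hnu in
theorem DF_DF (a : FGC (sg (rd (pE B u t n0) u))) :
    DF B t hu hn ht hS htW (DF B t hu hn ht hS htW a) = 0 := by
  have h3 := rq_ri (p := pE B u t n0) (u := u) a
  rw [← h3, DF_rq, DF_rq, DE_DE B t hu hn ht htd hS htW h2 h1 hnu, map_zero]

/-- the resulting algebra -/
noncomputable def FS (htd : ∀ i, t.d (Sum.inl i) = emb Sum.inl ht (B.d i))
    (hS : S u) (htW : ∀ k, t.d (Sum.inr k) ∈ spanOf (sg t.deg) (Wd B.deg S n1))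
    (h2 : 2 ≤ n0) (h1 : n0 + 1 ≤ n1)
    (hnu : ∀ i, B.d i ∈ spanOf (sg B.deg) (fun L => u ∉ L)) :
    Qul ({i : ι // i ≠ u} ⊕ KK B u t n0) where
  deg := rd (pE B u t n0) u
  two_le := fun x => pE_two B t h2 _
  d := dF B t hu hn ht
  good := dF_good B t hu hn ht hS htW
  sq := by
    intro x
    have h := DF_DF B t hu hn ht htd hS htW h2 h1 hnu (gen _ x)
    unfold DF at h
    rw [mkD_gen] at h
    exact h

theorem FS_ext : (B.res u hnu).IsExt (FS B t hu hn ht htd hS htW h2 h1 hnu) := by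
  refine ⟨fun _ => rfl, ?_⟩
  intro i
  change dF B t hu hn ht (Sum.inl i)
    = emb (p := qd B.deg u) (p' := rd (pE B u t n0) u) Sum.inl _ (qmap B.deg u (B.d i.1))
  unfold dF dE
  have h3 : ∀ a : FGC (sg B.deg), rq (pE B u t n0) u (em0 B u t n0 a)
      = emb (p := qd B.deg u) (p' := rd (pE B u t n0) u) Sum.inl (fun _ => rfl)
        (qmap B.deg u a) := by
    intro a
    have : (rq (pE B u t n0) u).comp (em0 B u t n0)
        = (emb (p := qd B.deg u) (p' := rd (pE B u t n0) u) Sum.inl (fun _ => rfl)).comp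
          (qmap B.deg u) := by
      apply alg_ext
      intro j
      rw [AlgHom.comp_apply, AlgHom.comp_apply, em0, emb_gen]
      by_cases hj : j ≠ u
      · rw [rq_inl hj, q_ne hj, emb_gen]
      · push Not at hj
        subst hj
        rw [rq_u, q_v, map_zero]
    exact DFunLike.congr_fun this a
  simp only [Sum.map_inl, d2, thE, if_neg i.2, mul_zero, sub_zero]
  exact h3 _

theorem rq_par {m : ℕ} {a : FGC (sg (pE B u t n0))} (ha : a ∈ Par (pE B u t n0) m) :
    rq _ u a ∈ Par (rd (pE B u t n0) u) m := by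
  refine rq_mem ?_ ha
  intro L hL
  rw [rd_sum] at hL
  exact hL

/-- the comparison map -/
noncomputable def HH : FGC (sg t.deg) →ₐ[ℚ] FGC (sg (rd (pE B u t n0) u)) :=
  (rq (pE B u t n0) u).comp (eE B t hn ht)

include htd in
theorem pr_HH_D (a : FGC (sg t.deg)) : pr _ (HH B t hn ht (t.D a))
    = pr _ (DF B t hu hn ht hS htW (HH B t hn ht a)) := by
  unfold HH
  rw [AlgHom.comp_apply, AlgHom.comp_apply, DF_rq, DE_eq, D2_eE B t hu hn ht htd, map_sub,
    map_sub, map_mul, map_mul, pr_par_odd (rq_par B t (om_par B t hu)), zero_mul, sub_zero]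

/-- the map on polynomials -/
noncomputable def rho : MvPolynomial (Ev t.deg) ℚ →ₐ[ℚ]
    MvPolynomial (Ev (rd (pE B u t n0) u)) ℚ :=
  MvPolynomial.aeval (fun i => pr _ (HH B t hn ht (gen _ i.1)))

theorem rho_pr (a : FGC (sg t.deg)) : rho (u := u) B t hn ht (pr t.deg a)
    = pr (rd (pE B u t n0) u) (HH B t hn ht a) := by
  have : (rho (u := u) B t hn ht).comp (pr t.deg)
      = (pr (rd (pE B u t n0) u)).comp (HH B t hn ht) := by
    apply alg_ext
    intro x
    rw [AlgHom.comp_apply, AlgHom.comp_apply]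
    by_cases hx : Even (t.deg x)
    · rw [pr_even hx]
      simp [rho]
    · rw [pr_odd hx, map_zero]
      symm
      refine pr_par_odd (rq_par B t (emb_par _ _ (par_cong ?_ (par_gen x))))
      rw [Nat.even_iff] at hx
      omega
  exact DFunLike.congr_fun this a

include htd in
theorem rho_J {q : MvPolynomial (Ev t.deg) ℚ} (hq : q ∈ J t.D) :
    rho B t hn ht q ∈ J (DF B t hu hn ht hS htW) := by
  unfold J at hq
  induction hq using Submodule.span_induction with
  | mem x hx =>
    obtain ⟨i, hi, rfl⟩ := hx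
    rw [rho_pr, pr_HH_D B t hu hn ht htd hS htW]
    exact pr_D_mem (DF_isDer B t hu hn ht hS htW) _
  | zero => rw [map_zero]; exact zero_mem _
  | add x y _ _ hx hy => rw [map_add]; exact add_mem hx hy
  | smul r x _ hx => rw [smul_eq_mul, map_mul]; exact Ideal.mul_mem_left _ _ hx

include htd in
theorem rho_JS {q : MvPolynomial (Ev t.deg) ℚ} (hq : q ∈ JS t.D S) :
    rho B t hn ht q ∈ JS (DF B t hu hn ht hS htW) (fun i => S i.1) := by
  unfold JS at hq
  obtain ⟨q1, h3, q2, h4, rfl⟩ := Submodule.mem_sup.1 hq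
  rw [map_add]
  refine add_mem (Submodule.mem_sup_left (rho_J B t hu hn ht htd hS htW h3)) ?_
  clear hq h3
  induction h4 using Submodule.span_induction with
  | mem x hx =>
    obtain ⟨i, hi, rfl⟩ := hx
    rw [rho_pr]
    have h5 : eE (u := u) B t hn ht (gen _ (Sum.inl i)) = gen _ (Sum.inl i) := emb_gen _ _ _
    unfold HH
    rw [AlgHom.comp_apply, h5]
    by_cases h6 : i ≠ u
    · rw [rq_inl h6]
      exact Submodule.mem_sup_right (Ideal.subset_span ⟨⟨i, h6⟩, hi, rfl⟩)
    · push Not at h6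
      subst h6
      rw [rq_u, map_zero]
      exact zero_mem _
  | zero => rw [map_zero]; exact zero_mem _
  | add x y _ _ hx hy => rw [map_add]; exact add_mem hx hy
  | smul r x _ hx => rw [smul_eq_mul, map_mul]; exact Ideal.mul_mem_left _ _ hx

end diff

theorem KK_finite [Finite κ] : Finite (KK B u t n0) := by
  have := Fintype.ofFinite κ
  let C := ∑ k : κ, t.deg (Sum.inr k)
  have : Finite (κ × Fin (C + 1)) := inferInstance
  refine Finite.of_injective (fun x : KK B u t n0 => ((x.1.1, ⟨x.1.2, ?_⟩) : κ × Fin (C + 1))) ?_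
  · have h4 := x.2
    have h5 : t.deg (Sum.inr x.1.1) ≤ C :=
      Finset.single_le_sum (f := fun k => t.deg (Sum.inr k)) (fun _ _ => Nat.zero_le _)
        (Finset.mem_univ _)
    have h6 : 1 ≤ B.deg u := by have := B.two_le u; omega
    have h7 : x.1.2 * 1 ≤ x.1.2 * B.deg u := Nat.mul_le_mul_left _ h6
    omega
  · rintro ⟨⟨k, j⟩, hx⟩ ⟨⟨k', j'⟩, hx'⟩ h
    simp only [Prod.mk.injEq, Fin.mk.injEq] at h
    obtain ⟨rfl, rfl⟩ := h
    rfl

end El

/-- relative elliptic extensions by odd generators -/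
def Qul.Rel {ι : Type} (B : Qul ι) (S : ι → Prop) (n : ℕ) : Prop :=
  ∃ (κ : Type) (_ : Finite κ) (t : Qul (ι ⊕ κ)), B.RelExt S n t

/-- elimination of the generator `u` -/
theorem Qul.rel_res {ι : Type} (B : Qul ι) (S : ι → Prop) (hSe : ∀ i, S i → Even (B.deg i))
    (u : ι) (hS : S u) (hnu : ∀ i, B.d i ∈ spanOf (sg B.deg) (fun L => u ∉ L))
    (h : ∀ n, B.Rel S n) (n : ℕ) : (B.res u hnu).Rel (fun i => S i.1) n := by
  obtain ⟨κ, hκ, t, ⟨ht, htd⟩, hdeg, hodd, hwd, hnil⟩ := h (n + 3)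
  have hu := hSe u hS
  have hn : ∀ k, n + 2 ≤ t.deg (Sum.inr k) := fun k => le_trans (by omega) (hdeg k)
  have h2 : 2 ≤ n + 2 := by omega
  have h1 : n + 2 + 1 ≤ n + 3 := by omega
  refine ⟨El.KK B u t (n + 2), El.KK_finite B t,
    El.FS B t hu hn ht htd hS hwd h2 h1 hnu, El.FS_ext B t hu hn ht htd hS hwd h2 h1 hnu,
    ?_, ?_, ?_, ?_⟩
  · intro k
    have := El.pE_n0 B t k
    exact le_trans (by omega) this
  · intro x
    obtain ⟨⟨k, j⟩, hx⟩ := x
    change ¬ Even (t.deg (Sum.inr k) - j * B.deg u)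
    have h3 := hodd k
    rw [Nat.even_iff] at hu h3 ⊢
    have h4 : (j * B.deg u) % 2 = 0 := by rw [Nat.mul_mod, hu]; simp
    simp only at hx
    omega
  · intro x
    have key : El.dE B t hu hn ht (Sum.inr x) ∈ spanOf (sg (El.pE B u t (n + 2)))
        (Wd B.deg S (n + 3)) := by
      refine sub_mem ?_ ?_
      · exact spanOf_mono (fun _ hL => hL.2)
          (El.iter_mem B t hu hn ht hS hwd x.1.1 x.1.2)
      · have h3 : El.om B u t (n + 2) ∈ spanOf (sg (El.pE B u t (n + 2)))
            (fun L => 1 ≤ (L.map (Sum.elim (ind S) (fun _ => 1))).sum) := by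
          refine emb_mem (p := B.deg) _ _ ?_ (B.par u)
          intro L hL
          rw [Nat.even_iff] at hu
          obtain ⟨i, hi, hio⟩ := exists_odd_of_sum (p := B.deg) (L := L) (by omega)
          have hiS : ¬ S i := fun hi' => hio (hSe i hi')
          have h4 : ind S i = 1 := by simp [ind, hiS]
          rw [List.map_map]
          have h5 : ind S i ≤ (L.map (ind S)).sum :=
            List.single_le_sum (by simp) _ (List.mem_map_of_mem hi)
          change 1 ≤ (L.map (ind S)).sum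
          omega
        refine spanOf_mul ?_ h3 (El.thE_mem B u t (n + 2) (Sum.inr x))
        rintro L M h4 ⟨-, h5 | ⟨y, z, -, rfl⟩⟩
        · exact absurd h5.1 (by simp)
        · refine ⟨?_, Or.inl ⟨z, by simp⟩⟩
          rw [List.map_append, List.sum_append]
          simp only [List.map_cons, List.map_nil, List.sum_cons, List.sum_nil, Sum.elim_inr]
          omega
    refine rq_mem ?_ key
    rintro L ⟨h3, h4⟩
    refine ⟨?_, ?_⟩
    · rw [List.map_map] at h3
      convert h3 using 3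
      ext y; rcases y with i | k <;> rfl
    · rcases h4 with ⟨k, hk⟩ | h4
      · left
        obtain ⟨y, hy, hyk⟩ := List.mem_map.1 hk
        rcases y with i | k'
        · simp at hyk
        · exact ⟨k', hy⟩
      · right
        rw [List.map_map] at h4
        refine le_trans (by omega) (le_trans h4 (le_of_eq ?_))
        congr 2
        ext y; rcases y with i | k <;> rfl
  · intro i hi
    obtain ⟨N, hN⟩ := hnil i.1 hi
    refine ⟨N, ?_⟩
    have h3 := El.rho_JS B t hu hn ht htd hS hwd hN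
    rw [map_pow, El.rho_pr] at h3
    have h5 : El.HH (u := u) B t hn ht (gen _ (Sum.inl i.1)) = gen _ (Sum.inl i) := by
      unfold El.HH
      rw [AlgHom.comp_apply]
      have h6 : El.eE (u := u) B t hn ht (gen _ (Sum.inl i.1)) = gen _ (Sum.inl i.1) :=
        emb_gen _ _ _
      rw [h6, rq_inl i.2]
    rw [h5] at h3
    exact h3

end Run7.h985
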