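import Pool.Agent.Run7.h985.Base

/-!
# The pure ideal and finiteness of the cohomology (MP_5f0082_gt, helper985)
-/

set_option autoImplicit false
set_option maxHeartbeats 400000

namespace Run7.h985

open Pool.H582SA MvPolynomial

variable {ι : Type} {p : ι → ℕ}

/-- the even generators -/
abbrev Ev (p : ι → ℕ) : Type := {i : ι // Even (p i)}

/-- reduction modulo the odd generators -/
noncomputable def pr (p : ι → ℕ) : FGC (sg p) →ₐ[ℚ] MvPolynomial (Ev p) ℚ :=
  lift (fun i => if h : Even (p i) then X ⟨i, h⟩ else 0) (by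
    intro i j
    by_cases hi : Even (p i) <;> by_cases hj : Even (p j)
    · rw [dif_pos hi, dif_pos hj]
      have : sg p i j = 1 := by unfold sg; exact Even.neg_one_pow (hi.mul_right _)
      rw [this, one_smul, mul_comm]
    · rw [dif_neg hj]; simp
    · rw [dif_neg hi]; simp
    · rw [dif_neg hi]; simp)

theorem pr_even {i : ι} (h : Even (p i)) : pr p (gen (sg p) i) = X ⟨i, h⟩ := by
  simp [pr, h]

theorem pr_odd {i : ι} (h : ¬ Even (p i)) : pr p (gen (sg p) i) = 0 := by
  simp only [pr, lift_gen, dif_neg h]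

theorem pr_mono_odd {L : List ι} (h : ∃ i ∈ L, ¬ Even (p i)) : pr p (mono (sg p) L) = 0 := by
  induction L with
  | nil => simp at h
  | cons j L ih =>
    rw [mono_cons, map_mul]
    obtain ⟨i, hi, hodd⟩ := h
    rcases List.mem_cons.1 hi with rfl | hi
    · rw [pr_odd hodd, zero_mul]
    · rw [ih ⟨i, hi, hodd⟩, mul_zero]

theorem exists_odd_of_sum {L : List ι} (h : (L.map p).sum % 2 = 1) : ∃ i ∈ L, ¬ Even (p i) := by
  by_contra hc
  push Not at hc
  have : Even (L.map p).sum := by
    clear h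
    induction L with
    | nil => simp
    | cons j L ih =>
      simp only [List.map_cons, List.sum_cons]
      exact (hc j (by simp)).add (ih (fun i hi => hc i (by simp [hi])))
  rw [Nat.even_iff] at this
  omega

theorem pr_par_odd {a : FGC (sg p)} (ha : a ∈ Par p 1) : pr p a = 0 := by
  refine spanOf_induct (P := fun a => pr p a = 0) ?_ ?_ ?_ ?_ ha
  · intro L hL; exact pr_mono_odd (exists_odd_of_sum hL)
  · simp
  · intro a b h1 h2; rw [map_add, h1, h2, add_zero]
  · intro r a h1; rw [map_smul, h1, smul_zero]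

theorem pr_tau (a : FGC (sg p)) : pr p (tau p a) = pr p a := by
  have : (pr p).comp (tau p) = pr p := by
    apply alg_ext
    intro i
    rw [AlgHom.comp_apply, tau_gen, map_smul]
    by_cases h : Even (p i)
    · rw [h.neg_one_pow, one_smul]
    · rw [pr_odd h, smul_zero]
  exact DFunLike.congr_fun this a

theorem even_center {a : FGC (sg p)} (ha : a ∈ Par p 0) : a ∈ Subalgebra.center ℚ (FGC (sg p)) := by
  rw [Subalgebra.mem_center_iff]
  intro b
  exact (even_comm ha b).symm

theorem par_gen_even {i : ι} (h : Even (p i)) : gen (sg p) i ∈ Par p 0 :=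
  par_cong (by rw [Nat.even_iff] at h; omega) (par_gen i)

/-- polynomials in the even generators, in the centre -/
noncomputable def evc (p : ι → ℕ) :
    MvPolynomial (Ev p) ℚ →ₐ[ℚ] Subalgebra.center ℚ (FGC (sg p)) :=
  aeval (fun i => ⟨gen (sg p) i.1, even_center (par_gen_even i.2)⟩)

/-- polynomials in the even generators -/
noncomputable def ev (p : ι → ℕ) : MvPolynomial (Ev p) ℚ →ₐ[ℚ] FGC (sg p) :=
  (Subalgebra.val _).comp (evc p)

theorem ev_X (i : Ev p) : ev p (X i) = gen (sg p) i.1 := by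
  simp [ev, evc]

theorem par_smul {n : ℕ} {a : FGC (sg p)} (r : ℚ) (ha : a ∈ Par p n) : r • a ∈ Par p n :=
  Submodule.smul_mem _ _ ha

theorem par_algebraMap (r : ℚ) : algebraMap ℚ (FGC (sg p)) r ∈ Par p 0 := by
  rw [Algebra.algebraMap_eq_smul_one]
  exact par_smul r par_one

theorem par_mul0 {a b : FGC (sg p)} (ha : a ∈ Par p 0) (hb : b ∈ Par p 0) : a * b ∈ Par p 0 :=
  par_cong (m := 0 + 0) (by norm_num) (par_mul ha hb)

theorem par_mul_even_odd {a b : FGC (sg p)} (ha : a ∈ Par p 0) (hb : b ∈ Par p 1) :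
    a * b ∈ Par p 1 :=
  par_cong (m := 0 + 1) (by norm_num) (par_mul ha hb)

theorem par_mul_odd_even {a b : FGC (sg p)} (ha : a ∈ Par p 1) (hb : b ∈ Par p 0) :
    a * b ∈ Par p 1 :=
  par_cong (m := 1 + 0) (by norm_num) (par_mul ha hb)

theorem par_mul_odd_odd {a b : FGC (sg p)} (ha : a ∈ Par p 1) (hb : b ∈ Par p 1) :
    a * b ∈ Par p 0 :=
  par_cong (m := 1 + 1) (by norm_num) (par_mul ha hb)

theorem par_pow0 {a : FGC (sg p)} (ha : a ∈ Par p 0) (n : ℕ) : a ^ n ∈ Par p 0 := by
  induction n with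
  | zero => rw [pow_zero]; exact par_one
  | succ n ih => rw [pow_succ]; exact par_mul0 ih ha

theorem ev_par (q : MvPolynomial (Ev p) ℚ) : ev p q ∈ Par p 0 := by
  induction q using MvPolynomial.induction_on with
  | C a => rw [← MvPolynomial.algebraMap_eq, AlgHom.commutes]; exact par_algebraMap a
  | add q1 q2 h1 h2 => rw [map_add]; exact add_mem h1 h2
  | mul_X q i h => rw [map_mul, ev_X]; exact par_mul0 h (par_gen_even i.2)

theorem pr_ev (q : MvPolynomial (Ev p) ℚ) : pr p (ev p q) = q := by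
  have : (pr p).comp (ev p) = AlgHom.id ℚ _ := by
    ext i
    rw [AlgHom.comp_apply, ev_X, pr_even i.2]
    rfl
  exact DFunLike.congr_fun this q

/-- words with an odd letter -/
def HasOdd (p : ι → ℕ) (L : List ι) : Prop := ∃ i ∈ L, ¬ Even (p i)

theorem sub_ev_pr (a : FGC (sg p)) : a - ev p (pr p a) ∈ spanOf (sg p) (HasOdd p) := by
  refine mono_induct (P := fun a => a - ev p (pr p a) ∈ spanOf (sg p) (HasOdd p)) ?_ ?_ ?_ ?_ a
  · intro L
    by_cases h : HasOdd p L
    · rw [pr_mono_odd h, map_zero, sub_zero]; exact mono_mem h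
    · have : ev p (pr p (mono (sg p) L)) = mono (sg p) L := by
        induction L with
        | nil => simp
        | cons j L ih =>
          have hj : Even (p j) := by
            by_contra hc; exact h ⟨j, by simp, hc⟩
          rw [mono_cons, map_mul, map_mul, pr_even hj, ev_X, ih]
          rintro ⟨i, hi, hc⟩
          exact h ⟨i, by simp [hi], hc⟩
      rw [this, sub_self]; exact zero_mem _
  · simp
  · intro a b h1 h2
    rw [map_add, map_add, add_sub_add_comm]; exact add_mem h1 h2
  · intro r a h1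
    rw [map_smul, map_smul, ← smul_sub]; exact Submodule.smul_mem _ _ h1

theorem mem_of_pr_eq_zero {a : FGC (sg p)} (h : pr p a = 0) : a ∈ spanOf (sg p) (HasOdd p) := by
  have := sub_ev_pr a
  rwa [h, map_zero, sub_zero] at this

/-- the weight which counts odd letters -/
noncomputable def ow (p : ι → ℕ) (i : ι) : ℕ := if Even (p i) then 0 else 1

theorem hasOdd_ow {L : List ι} (h : HasOdd p L) : 1 ≤ (L.map (ow p)).sum := by
  obtain ⟨i, hi, hodd⟩ := h
  have : ow p i ≤ (L.map (ow p)).sum :=
    List.single_le_sum (by simp) _ (List.mem_map_of_mem hi)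
  have h1 : ow p i = 1 := by simp [ow, hodd]
  omega

theorem gen_mul_mono_mul {i : ι} (hi : ¬ Even (p i)) (L : List ι) :
    gen (sg p) i * mono (sg p) L * gen (sg p) i = 0 := by
  have h1 : gen (sg p) i ∈ Par p 1 := par_cong (by rw [Nat.even_iff] at hi; omega) (par_gen i)
  rw [par_comm h1 (par_mono L), smul_mul_assoc, mul_assoc, odd_sq h1, mul_zero, smul_zero]

theorem mono_zero_of_count {i : ι} (hi : ¬ Even (p i)) [DecidableEq ι] {L : List ι}
    (h : 2 ≤ L.count i) : mono (sg p) L = 0 := by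
  induction L with
  | nil => simp at h
  | cons j L ih =>
    by_cases hj : j = i
    · subst hj
      rw [List.count_cons_self] at h
      have hmem : j ∈ L := List.count_pos_iff.1 (by omega)
      obtain ⟨A, B, rfl⟩ := List.append_of_mem hmem
      rw [mono_cons, mono_append, mono_cons, ← mul_assoc, ← mul_assoc, gen_mul_mono_mul hi,
        zero_mul]
    · rw [List.count_cons_of_ne hj] at h
      rw [mono_cons, ih h, mul_zero]

theorem mono_zero_of_ow [Fintype ι] {L : List ι} (h : Fintype.card ι < (L.map (ow p)).sum) :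
    mono (sg p) L = 0 := by
  classical
  by_contra hne
  have key : ∀ m ∈ L.toFinset, L.count m • ow p m ≤ 1 := by
    intro m _
    by_cases hm : Even (p m)
    · simp [ow, hm]
    · have : ¬ 2 ≤ L.count m := fun h2 => hne (mono_zero_of_count hm h2)
      simp only [ow, hm, if_false, smul_eq_mul, mul_one]
      omega
  rw [Finset.sum_list_map_count] at h
  have h1 := Finset.sum_le_sum key
  rw [Finset.sum_const, smul_eq_mul, mul_one] at h1
  have h2 := Finset.card_le_univ L.toFinset
  omega

theorem pow_mem_ow {a : FGC (sg p)} (ha : a ∈ spanOf (sg p) (HasOdd p)) (k : ℕ) :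
    a ^ k ∈ spanOf (sg p) (fun L => k ≤ (L.map (ow p)).sum) := by
  induction k with
  | zero => exact spanOf_mono (fun _ _ => Nat.zero_le _) (mem_top_span _)
  | succ k ih =>
    rw [pow_succ]
    refine spanOf_mul ?_ ih ha
    intro L M hL hM
    have := hasOdd_ow hM
    simp only [List.map_append, List.sum_append]
    omega

theorem nilp_of_pr [Finite ι] {a : FGC (sg p)} (h : pr p a = 0) : ∃ k, a ^ k = 0 := by
  have := Fintype.ofFinite ι
  refine ⟨Fintype.card ι + 1, ?_⟩
  refine spanOf_induct (P := fun a => a = 0) ?_ rfl ?_ ?_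
    (pow_mem_ow (mem_of_pr_eq_zero h) (Fintype.card ι + 1))
  · intro L hL; exact mono_zero_of_ow (by omega)
  · intro a b h1 h2; rw [h1, h2, add_zero]
  · intro r a h; rw [h, smul_zero]

/-- odd derivations -/
structure IsDer (D : FGC (sg p) →ₗ[ℚ] FGC (sg p)) : Prop where
  /-- the Leibniz rule -/
  mul : ∀ a b, D (a * b) = D a * b + tau p a * D b
  /-- parity -/
  par : ∀ n, ∀ a ∈ Par p n, D a ∈ Par p (n + 1)

theorem isDer_mkD (D : ι → FGC (sg p)) (hD : ∀ i, D i ∈ Par p (p i + 1)) : IsDer (mkD D hD) :=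
  ⟨mkD_mul D hD, fun _ _ ha => mkD_par ha⟩

variable {D : FGC (sg p) →ₗ[ℚ] FGC (sg p)}

theorem IsDer.one (h : IsDer D) : D 1 = 0 := by
  have h2 := h.mul 1 1
  rw [mul_one, mul_one, map_one (tau p), one_mul] at h2
  exact left_eq_add.mp h2

theorem IsDer.even_mul (h : IsDer D) {a : FGC (sg p)} (ha : a ∈ Par p 0) (b : FGC (sg p)) :
    D (a * b) = D a * b + a * D b := by
  rw [h.mul, tau_even ha]

theorem IsDer.odd_mul (h : IsDer D) {a : FGC (sg p)} (ha : a ∈ Par p 1) (b : FGC (sg p)) :
    D (a * b) = D a * b - a * D b := by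
  rw [h.mul, tau_odd ha, neg_mul, sub_eq_add_neg]

/-- the ideal generated by the pure parts of the differentials of the odd generators -/
noncomputable def J (D : FGC (sg p) →ₗ[ℚ] FGC (sg p)) : Ideal (MvPolynomial (Ev p) ℚ) :=
  Ideal.span {q | ∃ i, ¬ Even (p i) ∧ q = pr p (D (gen (sg p) i))}

theorem pr_D_mem (h : IsDer D) (a : FGC (sg p)) : pr p (D a) ∈ J D := by
  refine FGC.induct (P := fun a => pr p (D a) ∈ J D) ?_ ?_ ?_ ?_ a
  · intro r
    rw [Algebra.algebraMap_eq_smul_one, map_smul, h.one, smul_zero, map_zero]; exact zero_mem _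
  · intro i
    by_cases hi : Even (p i)
    · rw [pr_par_odd (par_cong rfl (h.par 0 _ (par_gen_even hi)))]; exact zero_mem _
    · exact Ideal.subset_span ⟨i, hi, rfl⟩
  · intro a b h1 h2
    rw [h.mul, map_add, map_mul, map_mul]
    exact add_mem (Ideal.mul_mem_right _ _ h1) (Ideal.mul_mem_left _ _ h2)
  · intro a b h1 h2; rw [map_add, map_add]; exact add_mem h1 h2

theorem exists_of_mem_J (h : IsDer D) {q : MvPolynomial (Ev p) ℚ} (hq : q ∈ J D) :
    ∃ η ∈ Par p 1, pr p (D η) = q := by
  unfold J at hq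
  induction hq using Submodule.span_induction with
  | mem x hx =>
    obtain ⟨i, hi, rfl⟩ := hx
    exact ⟨gen (sg p) i, par_cong (by rw [Nat.even_iff] at hi; omega) (par_gen i), rfl⟩
  | zero => exact ⟨0, zero_mem _, by simp⟩
  | add x y _ _ hx hy =>
    obtain ⟨a, ha, rfl⟩ := hx
    obtain ⟨b, hb, rfl⟩ := hy
    exact ⟨a + b, add_mem ha hb, by simp⟩
  | smul r x _ hx =>
    obtain ⟨a, ha, rfl⟩ := hx
    refine ⟨ev p r * a, par_mul_even_odd (ev_par r) ha, ?_⟩
    rw [h.even_mul (ev_par r), map_add, map_mul, map_mul, pr_par_odd ha, mul_zero, zero_add,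
      pr_ev, smul_eq_mul]

end Run7.h985
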