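import Pool.Agent.Run7.h985.Ell

/-!
# Finiteness of the cohomology (MP_5f0082_gt, helper985)
-/

set_option autoImplicit false
set_option maxHeartbeats 400000
set_option linter.style.haveILetI false

namespace Run7.h985

open Pool.H582SA MvPolynomial

variable {ι : Type} {p : ι → ℕ} {D : FGC (sg p) →ₗ[ℚ] FGC (sg p)}

/-- evaluation of polynomials at even elements, in the centre -/
noncomputable def cev (c : Ev p → FGC (sg p)) (hc : ∀ i, c i ∈ Par p 0) :
    MvPolynomial (Ev p) ℚ →ₐ[ℚ] Subalgebra.center ℚ (FGC (sg p)) :=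
  aeval (fun i => ⟨c i, even_center (hc i)⟩)

/-- evaluation of polynomials at even elements -/
noncomputable def cevE (c : Ev p → FGC (sg p)) (hc : ∀ i, c i ∈ Par p 0) :
    MvPolynomial (Ev p) ℚ →ₐ[ℚ] FGC (sg p) :=
  (Subalgebra.val _).comp (cev c hc)

theorem cevE_X (c : Ev p → FGC (sg p)) (hc : ∀ i, c i ∈ Par p 0) (i : Ev p) :
    cevE c hc (X i) = c i := by
  simp [cevE, cev]

theorem cevE_par (c : Ev p → FGC (sg p)) (hc : ∀ i, c i ∈ Par p 0)
    (q : MvPolynomial (Ev p) ℚ) : cevE c hc q ∈ Par p 0 := by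
  induction q using MvPolynomial.induction_on with
  | C a => rw [← MvPolynomial.algebraMap_eq, AlgHom.commutes]; exact par_algebraMap a
  | add q1 q2 h1 h2 => rw [map_add]; exact add_mem h1 h2
  | mul_X q i h => rw [map_mul, cevE_X]; exact par_mul0 h (hc i)

theorem cevE_D (h : IsDer D) (c : Ev p → FGC (sg p)) (hc : ∀ i, c i ∈ Par p 0)
    (hD : ∀ i, D (c i) = 0) (q : MvPolynomial (Ev p) ℚ) : D (cevE c hc q) = 0 := by
  induction q using MvPolynomial.induction_on with
  | C a =>
    rw [← MvPolynomial.algebraMap_eq, AlgHom.commutes, Algebra.algebraMap_eq_smul_one, map_smul,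
      h.one, smul_zero]
  | add q1 q2 h1 h2 => rw [map_add, map_add, h1, h2, add_zero]
  | mul_X q i h1 =>
    rw [map_mul, cevE_X, h.even_mul (cevE_par c hc q), h1, hD, zero_mul, mul_zero, add_zero]

/-- the module structure on the algebra given by the elements `c` -/
noncomputable abbrev cmod (c : Ev p → FGC (sg p)) (hc : ∀ i, c i ∈ Par p 0) :
    Module (MvPolynomial (Ev p) ℚ) (FGC (sg p)) :=
  Module.compHom (FGC (sg p)) (cevE c hc).toRingHom

theorem cmod_finite [Finite ι] (c : Ev p → FGC (sg p)) (hc : ∀ i, c i ∈ Par p 0)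
    (N : Ev p → ℕ) (hN : ∀ i, 1 ≤ N i) (hpr : ∀ i, pr p (c i) = X i ^ (N i)) :
    letI := cmod c hc
    Module.Finite (MvPolynomial (Ev p) ℚ) (FGC (sg p)) := by
  classical
  letI := cmod c hc
  have := Fintype.ofFinite ι
  letI : Algebra (MvPolynomial (Ev p) ℚ) (Subalgebra.center ℚ (FGC (sg p))) :=
    (cev c hc).toRingHom.toAlgebra
  have hsm : ∀ (q : MvPolynomial (Ev p) ℚ) (a : FGC (sg p)), q • a = cevE c hc q * a :=
    fun q a => rfl
  have hsm2 : ∀ (q : MvPolynomial (Ev p) ℚ) (z : Subalgebra.center ℚ (FGC (sg p))),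
      ((q • z : Subalgebra.center ℚ (FGC (sg p))) : FGC (sg p)) = cevE c hc q * (z : FGC (sg p)) :=
    fun q z => rfl
  let x : Ev p → Subalgebra.center ℚ (FGC (sg p)) :=
    fun i => ⟨gen (sg p) i.1, even_center (par_gen_even i.2)⟩
  have hx : ∀ i, IsIntegral (MvPolynomial (Ev p) ℚ) (x i) := by
    intro i
    have h1 : pr p (gen (sg p) i.1 ^ (N i) - c i) = 0 := by
      rw [map_sub, map_pow, pr_even i.2, hpr, sub_self]
    obtain ⟨k, hk⟩ := nilp_of_pr h1
    refine ⟨(Polynomial.X ^ (N i) - Polynomial.C (X i)) ^ k,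
      (Polynomial.monic_X_pow_sub_C _ (by have := hN i; omega)).pow k, ?_⟩
    rw [Polynomial.eval₂_pow, Polynomial.eval₂_sub, Polynomial.eval₂_X_pow, Polynomial.eval₂_C]
    apply Subtype.ext
    have h2 : ((algebraMap (MvPolynomial (Ev p) ℚ) (Subalgebra.center ℚ (FGC (sg p))) (X i) :
        Subalgebra.center ℚ (FGC (sg p))) : FGC (sg p)) = c i := cevE_X c hc i
    rw [SubmonoidClass.coe_pow, AddSubgroupClass.coe_sub, SubmonoidClass.coe_pow, h2]
    exact hk
  obtain ⟨F, hF⟩ := fg_adjoin_of_finite (Set.finite_range x) (by rintro _ ⟨i, rfl⟩; exact hx i)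
  let Odd : List ι → Prop := fun O => ∀ i ∈ O, ¬ Even (p i)
  let S : Set (FGC (sg p)) := {y | ∃ z ∈ F, ∃ O : List ι, O.length ≤ Fintype.card ι ∧ Odd O ∧
    y = (z : FGC (sg p)) * mono (sg p) O}
  have hS : S.Finite := by
    have h1 : ((fun zO : (Subalgebra.center ℚ (FGC (sg p))) × List ι =>
        (zO.1 : FGC (sg p)) * mono (sg p) zO.2) ''
        ((F : Set (Subalgebra.center ℚ (FGC (sg p)))) ×ˢ
          {O : List ι | O.length ≤ Fintype.card ι})).Finite :=
      (F.finite_toSet.prod (List.finite_length_le ι _)).image _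
    refine h1.subset ?_
    rintro _ ⟨z, hz, O, hO, -, rfl⟩
    exact ⟨(z, O), ⟨hz, hO⟩, rfl⟩
  let T := Submodule.span (MvPolynomial (Ev p) ℚ) S
  have c1 : ∀ z ∈ Algebra.adjoin (MvPolynomial (Ev p) ℚ) (Set.range x), ∀ O, Odd O →
      (z : FGC (sg p)) * mono (sg p) O ∈ T := by
    intro z hz O hO
    by_cases hl : O.length ≤ Fintype.card ι
    · have hz' : z ∈ Submodule.span (MvPolynomial (Ev p) ℚ)
          (F : Set (Subalgebra.center ℚ (FGC (sg p)))) := by
        rw [hF]; exact hz
      refine Submodule.span_induction (p := fun (z : Subalgebra.center ℚ (FGC (sg p))) _ =>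
        (z : FGC (sg p)) * mono (sg p) O ∈ T)
        ?_ ?_ ?_ ?_ hz'
      · intro z hz
        exact Submodule.subset_span ⟨z, hz, O, hl, hO, rfl⟩
      · rw [ZeroMemClass.coe_zero, zero_mul]; exact zero_mem _
      · intro a b _ _ h1 h2
        rw [AddMemClass.coe_add, add_mul]; exact add_mem h1 h2
      · intro q a _ h1
        rw [hsm2, mul_assoc, ← hsm]; exact Submodule.smul_mem _ _ h1
    · have : mono (sg p) O = 0 := by
        apply mono_zero_of_ow
        have : (O.map (ow p)).sum = O.length := by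
          clear hl
          induction O with
          | nil => simp
          | cons j O ih =>
            have hj : ow p j = 1 := by
              simp only [ow]; rw [if_neg (hO j (by simp))]
            simp only [List.map_cons, List.sum_cons, List.length_cons, hj]
            rw [ih (fun i hi => hO i (by simp [hi]))]
            omega
        omega
      rw [this, mul_zero]; exact zero_mem _
  have c2 : ∀ L : List ι, ∃ z ∈ Algebra.adjoin (MvPolynomial (Ev p) ℚ) (Set.range x), ∃ O, Odd O ∧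
      mono (sg p) L = (z : FGC (sg p)) * mono (sg p) O := by
    intro L
    induction L with
    | nil => exact ⟨1, one_mem _, [], by simp [Odd], by simp⟩
    | cons j L ih =>
      obtain ⟨z, hz, O, hO, hL⟩ := ih
      by_cases hj : Even (p j)
      · refine ⟨x ⟨j, hj⟩ * z, mul_mem (Algebra.subset_adjoin ⟨_, rfl⟩) hz, O, hO, ?_⟩
        rw [mono_cons, hL, MulMemClass.coe_mul, mul_assoc]
      · refine ⟨z, hz, j :: O, ?_, ?_⟩
        · intro i hi
          rcases List.mem_cons.1 hi with rfl | hi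
          · exact hj
          · exact hO i hi
        · rw [mono_cons, hL, mono_cons, ← mul_assoc, ← mul_assoc]
          congr 1
          exact (Subalgebra.mem_center_iff.1 z.2 _)
  have c3 : ∀ a : FGC (sg p), a ∈ T := by
    intro a
    refine mono_induct (P := fun a => a ∈ T) ?_ (zero_mem _) (fun a b h1 h2 => add_mem h1 h2) ?_ a
    · intro L
      obtain ⟨z, hz, O, hO, hL⟩ := c2 L
      rw [hL]; exact c1 z hz O hO
    · intro r a ha
      have : r • a = (C r : MvPolynomial (Ev p) ℚ) • a := by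
        rw [hsm, ← MvPolynomial.algebraMap_eq, AlgHom.commutes, Algebra.smul_def]
      rw [this]; exact Submodule.smul_mem _ _ ha
  rw [Module.finite_def]
  have : (⊤ : Submodule (MvPolynomial (Ev p) ℚ) (FGC (sg p))) = T := by
    rw [eq_comm, eq_top_iff]; intro a _; exact c3 a
  rw [this]
  exact Submodule.fg_span hS

/-- closed elements, as a submodule -/
noncomputable def kerP (h : IsDer D) (c : Ev p → FGC (sg p)) (hc : ∀ i, c i ∈ Par p 0)
    (hD : ∀ i, D (c i) = 0) :
    letI := cmod c hc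
    Submodule (MvPolynomial (Ev p) ℚ) (FGC (sg p)) :=
  letI := cmod c hc
  { carrier := {a | D a = 0}
    add_mem' := by
      intro a b ha hb
      change D (a + b) = 0
      rw [map_add, show D a = 0 from ha, show D b = 0 from hb, add_zero]
    zero_mem' := map_zero D
    smul_mem' := by
      intro q a ha
      change D (cevE c hc q * a) = 0
      rw [h.even_mul (cevE_par c hc q), cevE_D h c hc hD, show D a = 0 from ha, zero_mul, mul_zero,
        add_zero] }

theorem fin_aux [Finite ι] (h : IsDer D) (c : Ev p → FGC (sg p)) (hc : ∀ i, c i ∈ Par p 0)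
    (hex : ∀ i, ∃ η, D η = c i) (hD : ∀ i, D (c i) = 0)
    (N : Ev p → ℕ) (hN : ∀ i, 1 ≤ N i) (hpr : ∀ i, pr p (c i) = X i ^ (N i)) :
    ∃ G : Finset (FGC (sg p)), (∀ g ∈ G, D g = 0) ∧
      ∀ z, D z = 0 → z ∈ Submodule.span ℚ (G : Set (FGC (sg p))) ⊔ LinearMap.range D := by
  letI := cmod c hc
  have hfin : Module.Finite (MvPolynomial (Ev p) ℚ) (FGC (sg p)) := cmod_finite c hc N hN hpr
  have hnoeth : IsNoetherian (MvPolynomial (Ev p) ℚ) (FGC (sg p)) :=
    isNoetherian_of_isNoetherianRing_of_finite _ _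
  obtain ⟨G, hG⟩ := hnoeth.noetherian (kerP h c hc hD)
  refine ⟨G, ?_, ?_⟩
  · intro g hg
    have : g ∈ kerP h c hc hD := by
      rw [← hG]; exact Submodule.subset_span hg
    exact this
  · intro z hz
    have hz' : z ∈ Submodule.span (MvPolynomial (Ev p) ℚ) (G : Set (FGC (sg p))) := by
      rw [hG]; exact hz
    let V := Submodule.span ℚ (G : Set (FGC (sg p))) ⊔ LinearMap.range D
    have key : ∀ (q : MvPolynomial (Ev p) ℚ) (y : FGC (sg p)), D y = 0 → y ∈ V →
        cevE c hc q * y ∈ V := by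
      intro q y hy hyV
      induction q using MvPolynomial.induction_on with
      | C a =>
        rw [← MvPolynomial.algebraMap_eq, AlgHom.commutes, ← Algebra.smul_def]
        exact Submodule.smul_mem _ _ hyV
      | add q1 q2 h1 h2 => rw [map_add, add_mul]; exact add_mem h1 h2
      | mul_X q i _ =>
        obtain ⟨η, hη⟩ := hex i
        apply Submodule.mem_sup_right
        refine ⟨cevE c hc q * (η * y), ?_⟩
        rw [h.even_mul (cevE_par c hc q), cevE_D h c hc hD, h.mul, hy, hη, map_mul, cevE_X]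
        simp [mul_assoc]
    refine (Submodule.span_induction (p := fun y _ => D y = 0 ∧ y ∈ V) ?_ ?_ ?_ ?_ hz').2
    · intro g hg
      refine ⟨?_, Submodule.mem_sup_left (Submodule.subset_span hg)⟩
      have : g ∈ kerP h c hc hD := by
        rw [← hG]; exact Submodule.subset_span hg
      exact this
    · exact ⟨map_zero _, zero_mem _⟩
    · rintro a b _ _ ⟨h1, h2⟩ ⟨h3, h4⟩
      exact ⟨by rw [map_add, h1, h3, add_zero], add_mem h2 h4⟩
    · rintro q a _ ⟨h1, h2⟩
      refine ⟨?_, key q a h1 h2⟩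
      change D (cevE c hc q * a) = 0
      rw [h.even_mul (cevE_par c hc q), cevE_D h c hc hD, h1, zero_mul, mul_zero, add_zero]

/-- If every even generator is nilpotent modulo the pure ideal, the cohomology is finite
dimensional. -/
theorem fin_coh [Finite ι] (h : IsDer D) (hsq : ∀ a, D (D a) = 0)
    (hE : ∀ i : Ev p, (X i : MvPolynomial (Ev p) ℚ) ∈ (J D).radical) :
    Module.Finite ℚ
      (↥(LinearMap.ker D) ⧸ (LinearMap.range D).comap (LinearMap.ker D).subtype) := by
  have h1 : ∀ i : Ev p, ∃ (N : ℕ) (η : FGC (sg p)), 1 ≤ N ∧ η ∈ Par p 1 ∧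
      pr p (D η) = X i ^ N := by
    intro i
    obtain ⟨N, hN⟩ := hE i
    obtain ⟨η, h2, h3⟩ := exists_of_mem_J h (Ideal.mul_mem_left _ (X i) hN)
    exact ⟨N + 1, η, by omega, h2, by rw [h3, pow_succ, mul_comm]⟩
  choose N η hN hη hpr using h1
  obtain ⟨G, hG1, hG2⟩ := fin_aux h (fun i => D (η i))
    (fun i => par_cong (m := 1 + 1) (by norm_num) (h.par _ _ (hη i))) (fun i => ⟨η i, rfl⟩)
    (fun i => hsq _) N hN hpr
  have hle : Submodule.span ℚ (G : Set (FGC (sg p))) ≤ LinearMap.ker D := by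
    rw [Submodule.span_le]; intro g hg; exact hG1 g hg
  have : Module.Finite ℚ (Submodule.span ℚ (G : Set (FGC (sg p)))) :=
    Module.Finite.span_of_finite ℚ G.finite_toSet
  refine Module.Finite.of_surjective
    ((Submodule.mkQ ((LinearMap.range D).comap (LinearMap.ker D).subtype)).comp
      (Submodule.inclusion hle)) ?_
  intro y
  obtain ⟨⟨z, hz⟩, rfl⟩ := Submodule.mkQ_surjective _ y
  obtain ⟨v, hv, w, hw, hvw⟩ := Submodule.mem_sup.1 (hG2 z hz)
  refine ⟨⟨v, hv⟩, ?_⟩
  rw [LinearMap.comp_apply, Submodule.mkQ_apply, Submodule.mkQ_apply, Submodule.Quotient.eq]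
  change v - z ∈ LinearMap.range D
  rw [← hvw, sub_add_cancel_left]
  exact neg_mem hw

end Run7.h985
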