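import Pool.Agent.Run7.h985.Zev

/-!
# Homogeneous tuples (MP_5f0082_gt, helper985)
-/

set_option autoImplicit false
set_option maxHeartbeats 400000

namespace Run7.h985

open Pool.H582SA

section wh

variable {ι : Type} {p : ι → ℕ}

/-- homogeneous elements of word length at least `l - j` and degree `m + j - e` -/
noncomputable def WH (p : ι → ℕ) (j e l m : ℕ) : Submodule ℚ (FGC (sg p)) :=
  spanOf (sg p) (fun L => l ≤ L.length + j ∧ (L.map p).sum + e = m + j)

theorem wh_mul {j e l m j' e' l' m' : ℕ} {a b : FGC (sg p)} (ha : a ∈ WH p j e l m)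
    (hb : b ∈ WH p j' e' l' m') : a * b ∈ WH p (j + j') (e + e') (l + l') (m + m') := by
  refine spanOf_mul ?_ ha hb
  rintro L M ⟨h1, h2⟩ ⟨h3, h4⟩
  simp only [List.length_append, List.map_append, List.sum_append]
  omega

theorem wh_eq {j e l m j' e' l' m' : ℕ} (h1 : j = j') (h2 : e = e') (h3 : l = l') (h4 : m = m')
    {a : FGC (sg p)} (ha : a ∈ WH p j e l m) : a ∈ WH p j' e' l' m' := by
  subst h1; subst h2; subst h3; subst h4; exact ha

theorem wh_emb {ι' : Type} {p' : ι' → ℕ} (e : ι → ι') (he : ∀ i, p' (e i) = p i) {j d l m : ℕ}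
    {a : FGC (sg p)} (ha : a ∈ WH p j d l m) : emb e he a ∈ WH p' j d l m :=
  emb_mem e he (fun L hL => by rw [map_deg_sum e he, List.length_map]; exact hL) ha

theorem wh_hom {j e l m l' m' : ℕ} (h1 : l' + j ≤ l) (h2 : m + j = m' + e) {a : FGC (sg p)}
    (ha : a ∈ WH p j e l m) : a ∈ Hom p l' m' :=
  spanOf_mono (fun L hL => ⟨by omega, by omega⟩) ha

theorem hom_wh {j e l m l' m' : ℕ} (h1 : l ≤ l' + j) (h2 : m + j = m' + e) {a : FGC (sg p)}
    (ha : a ∈ Hom p l' m') : a ∈ WH p j e l m :=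
  spanOf_mono (fun L hL => ⟨by omega, by omega⟩) ha

variable {D : FGC (sg p) →ₗ[ℚ] FGC (sg p)} {hD : IsDer D} {φ : Fin 3 → Zc p}

/-- homogeneous tuples -/
structure HT (T : Tup (gd hD) φ) (d : Fin 3 → ℕ) (l m : ℕ) : Prop where
  /-- degrees -/
  hX : zv p T.X ∈ WH p 0 0 l m
  /-- degrees -/
  hM : ∀ k, T.M k ∈ WH p 1 (d k) l m
  /-- degrees -/
  hn : ∀ k, zv p (T.n k) ∈ WH p 2 (d (k + 1) + d (k + 2)) l m
  /-- degrees -/
  hC : T.C ∈ WH p 3 (d 0 + d 1 + d 2) l m

theorem dsum (d : Fin 3 → ℕ) (k : Fin 3) : d k + d (k + 1) + d (k + 2) = d 0 + d 1 + d 2 := by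
  rw [← sum3 d k, sum3 d 0]; rfl

theorem HT.mul {S T : Tup (gd hD) φ} {d : Fin 3 → ℕ} {l m l' m' : ℕ} (hS : HT S d l m)
    (hT : HT T d l' m') : HT (S.mul T) d (l + l') (m + m') := by
  constructor
  · change zv p (S.X * T.X) ∈ _
    rw [map_mul]
    exact wh_eq (by omega) (by omega) (by omega) (by omega) (wh_mul hS.hX hT.hX)
  · intro k
    change S.X • T.M k + T.X • S.M k ∈ _
    rw [zsmul_def, zsmul_def]
    refine add_mem ?_ ?_
    · exact wh_eq (by omega) (by omega) (by omega) (by omega) (wh_mul hS.hX (hT.hM k))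
    · exact wh_eq (by omega) (by omega) (by omega) (by omega) (wh_mul hT.hX (hS.hM k))
  · intro k
    change zv p (S.X * T.n k + S.n k * T.X + (gd hD).mm (S.M (k + 1)) (T.M (k + 2))
      - (gd hD).mm (S.M (k + 2)) (T.M (k + 1))) ∈ _
    rw [map_sub, map_add, map_add, map_mul, map_mul, gd_mm hD (S.hM _) (T.hM _),
      gd_mm hD (S.hM _) (T.hM _)]
    refine sub_mem (add_mem (add_mem ?_ ?_) ?_) ?_
    · exact wh_eq (by omega) (by omega) (by omega) (by omega) (wh_mul hS.hX (hT.hn k))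
    · exact wh_eq (by omega) (by omega) (by omega) (by omega) (wh_mul (hS.hn k) hT.hX)
    · exact wh_eq (by omega) (by omega) (by omega) (by omega) (wh_mul (hS.hM _) (hT.hM _))
    · exact wh_eq (by omega) (by omega) (by omega) (by omega) (wh_mul (hS.hM _) (hT.hM _))
  · change S.X • T.C + T.X • S.C + ∑ k, (T.n k • S.M k + S.n k • T.M k) ∈ _
    simp only [zsmul_def]
    refine add_mem (add_mem ?_ ?_) (Submodule.sum_mem _ (fun k _ => add_mem ?_ ?_))
    · exact wh_eq (by omega) (by omega) (by omega) (by omega) (wh_mul hS.hX hT.hC)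
    · exact wh_eq (by omega) (by omega) (by omega) (by omega) (wh_mul hT.hX hS.hC)
    · have := dsum d k
      exact wh_eq (by omega) (by omega) (by omega) (by omega) (wh_mul (hT.hn k) (hS.hM k))
    · have := dsum d k
      exact wh_eq (by omega) (by omega) (by omega) (by omega) (wh_mul (hS.hn k) (hT.hM k))

/-- powers of tuples -/
noncomputable def pw (T : Tup (gd hD) φ) : ℕ → Tup (gd hD) φ
  | 0 => T
  | k + 1 => (pw T k).mul T

theorem pw_X (T : Tup (gd hD) φ) (k : ℕ) : (pw T k).X = T.X ^ (k + 1) := by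
  induction k with
  | zero => simp [pw]
  | succ k ih =>
    change (pw T k).X * T.X = _
    rw [ih, ← pow_succ]

theorem HT.pw {T : Tup (gd hD) φ} {d : Fin 3 → ℕ} {l m : ℕ} (hT : HT T d l m) (k : ℕ) :
    HT (pw T k) d ((k + 1) * l) ((k + 1) * m) := by
  induction k with
  | zero => simpa [h985.pw] using hT
  | succ k ih =>
    have h := ih.mul hT
    have e1 : (k + 1) * l + l = (k + 1 + 1) * l := by ring
    have e2 : (k + 1) * m + m = (k + 1 + 1) * m := by ring
    rw [e1, e2] at h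
    exact h

theorem HT.ga {T : Tup (gd hD) φ} {d : Fin 3 → ℕ} {l m : ℕ} (hT : HT T d l m) :
    T.ga ∈ WH p 3 (d 0 + d 1 + d 2) (l + l) (m + m) := by
  unfold Tup.ga
  simp only [zsmul_def]
  refine add_mem ?_ (Submodule.sum_mem _ (fun k _ => ?_))
  · exact wh_eq (by omega) (by omega) (by omega) (by omega) (wh_mul hT.hX hT.hC)
  · have := dsum d k
    exact wh_eq (by omega) (by omega) (by omega) (by omega) (wh_mul (hT.hn k) (hT.hM k))

theorem HT.nu {T : Tup (gd hD) φ} {d : Fin 3 → ℕ} {l m : ℕ} (hT : HT T d l m) (k : Fin 3) :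
    zv p (T.nu k) ∈ WH p 2 (d (k + 1) + d (k + 2)) (l + l) (m + m) := by
  unfold Tup.nu
  rw [map_add, map_mul, gd_mm hD (T.hM _) (T.hM _)]
  refine add_mem ?_ ?_
  · exact wh_eq (by omega) (by omega) (by omega) (by omega) (wh_mul hT.hX (hT.hn k))
  · exact wh_eq (by omega) (by omega) (by omega) (by omega) (wh_mul (hT.hM _) (hT.hM _))

end wh

section tm

variable {ι ι' : Type} {p : ι → ℕ} {p' : ι' → ℕ}
  {D : FGC (sg p) →ₗ[ℚ] FGC (sg p)} {D' : FGC (sg p') →ₗ[ℚ] FGC (sg p')}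
  (hD : IsDer D) (hD' : IsDer D') (e : ι → ι') (he : ∀ i, p' (e i) = p i)
  (hc : ∀ a, D' (emb e he a) = emb e he (D a))

theorem tmap_ht {φ : Fin 3 → Zc p} {T : Tup (gd hD) φ} {d : Fin 3 → ℕ} {l m : ℕ}
    (hT : HT T d l m) : HT (tmap hD hD' e he hc T) d l m :=
  ⟨wh_emb e he hT.hX, fun k => wh_emb e he (hT.hM k), fun k => wh_emb e he (hT.hn k),
    wh_emb e he hT.hC⟩

theorem zemb_mm {u v : FGC (sg p)} (hu : u ∈ Par p 1) (hv : v ∈ Par p 1) :
    zemb e he ((gd hD).mm u v) = (gd hD').mm (emb e he u) (emb e he v) := by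
  apply zv_inj
  rw [zv_zemb, gd_mm hD hu hv, gd_mm hD' (emb_par e he hu) (emb_par e he hv), map_mul]

theorem tmap_ga {φ : Fin 3 → Zc p} (T : Tup (gd hD) φ) :
    (tmap hD hD' e he hc T).ga = emb e he T.ga := by
  unfold Tup.ga
  rw [map_add, map_sum]
  simp only [emb_smul]
  rfl

theorem tmap_nu {φ : Fin 3 → Zc p} (T : Tup (gd hD) φ) (k : Fin 3) :
    (tmap hD hD' e he hc T).nu k = zemb e he (T.nu k) := by
  unfold Tup.nu
  rw [map_add, map_mul, zemb_mm hD hD' e he (T.hM _) (T.hM _)]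
  rfl

theorem tmap_rr {φ : Fin 3 → Zc p} (T : Tup (gd hD) φ) (q : Fin 3 → FGC (sg p)) (k : Fin 3) :
    (tmap hD hD' e he hc T).rr (fun j => emb e he (q j)) k = emb e he (T.rr q k) := by
  unfold Tup.rr
  rw [map_sub, map_sub]
  simp only [emb_smul]
  rfl

theorem tmap_m {φ : Fin 3 → Zc p} (T : Tup (gd hD) φ) (s : Zc p) (q : Fin 3 → FGC (sg p))
    (k : Fin 3) :
    (tmap hD hD' e he hc T).m (zemb e he s) (fun j => emb e he (q j)) k
      = emb e he (T.m s q k) := by
  unfold Tup.m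
  rw [map_add, map_sub]
  simp only [emb_smul]
  rfl

end tm

end Run7.h985
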