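import Pool.Agent.Run7.h985.P1

/-!
# Induction on the closed odd generators (MP_5f0082_gt, helper985)
-/

set_option autoImplicit false
set_option maxHeartbeats 400000

namespace Run7.h985

open Pool.H582SA

/-- words with a letter in `T` -/
def Has {ι : Type} (T : ι → Prop) (L : List ι) : Prop := ∃ i ∈ L, T i

/-- the hypotheses on the basis: odd generators `V`, even generators `Z` -/
structure Cls {ι : Type} (s : Sul ι) (V Z : ι → Prop) : Prop where
  /-- `V` consists of odd generators -/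
  v_odd : ∀ i, V i → ¬ Even (s.deg i)
  /-- `Z` consists of even generators -/
  z_even : ∀ i, Z i → Even (s.deg i)
  /-- the ideal of `V` is stable -/
  v_d : ∀ i, V i → s.d i ∈ spanOf (sg s.deg) (Has V)
  /-- `Z` is closed modulo `V` -/
  z_d : ∀ i, Z i → s.d i ∈ spanOf (sg s.deg) (Has V)
  /-- even generators are closed modulo `V` and `Z` -/
  e_d : ∀ i, Even (s.deg i) → s.d i ∈ spanOf (sg s.deg) (Has (fun j => V j ∨ Z j))

section

variable {ι : Type} {s : Sul ι} {V Z : ι → Prop}

theorem has_q {p : ι → ℕ} {T : ι → Prop} {v : ι} {a : FGC (sg p)}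
    (ha : a ∈ spanOf (sg p) (Has T)) :
    qmap p v a ∈ spanOf (sg (qd p v)) (Has (fun i => T i.1)) := by
  refine q_mem ?_ ha
  rintro L ⟨i, hi, hT⟩
  obtain ⟨j, hj, rfl⟩ := List.mem_map.1 hi
  exact ⟨j, hj, hT⟩

theorem Cls.quo (h : Cls s V Z) (v : ι) (hd : s.d v = 0) :
    Cls (s.quo v hd) (fun i => V i.1) (fun i => Z i.1) := by
  constructor
  · exact fun i hi => h.v_odd i.1 hi
  · exact fun i hi => h.z_even i.1 hi
  · intro i hi
    change qmap s.deg v (s.d i.1) ∈ spanOf (sg (qd s.deg v)) (Has (fun i => V i.1))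
    exact has_q (T := V) (h.v_d i.1 hi)
  · intro i hi
    change qmap s.deg v (s.d i.1) ∈ spanOf (sg (qd s.deg v)) (Has (fun i => V i.1))
    exact has_q (T := V) (h.z_d i.1 hi)
  · intro i hi
    change qmap s.deg v (s.d i.1) ∈ spanOf (sg (qd s.deg v)) (Has (fun i => V i.1 ∨ Z i.1))
    exact has_q (T := fun j => V j ∨ Z j) (h.e_d i.1 hi)

theorem two_le_sum (s : Sul ι) (L : List ι) : L.length * 2 ≤ (L.map s.deg).sum :=
  P1.le_sum_of_le s.deg 2 L (fun x _ => s.two_le x)

theorem Cls.closed (h : Cls s V Z) {v : ι} (hv : V v) (hmin : ∀ w, V w → s.deg v ≤ s.deg w) :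
    s.d v = 0 := by
  have h1 := spanOf_inter s.deg (fun m => m = s.deg v + 1) (h.v_d v hv)
    (spanOf_mono (fun L hL => hL.2) (s.good v))
  have h2 := spanOf_inter (fun _ => 1) (fun m => 2 ≤ m) h1
    (spanOf_mono (fun L hL => by simpa using hL.1) (s.good v))
  refine spanOf_false ?_ h2
  rintro L ⟨⟨⟨w, hw, hVw⟩, hs⟩, hl⟩
  obtain ⟨A, B, rfl⟩ := List.append_of_mem hw
  have h3 := two_le_sum s A
  have h4 := two_le_sum s B
  have h5 := hmin w hVw
  simp only [List.map_const', List.sum_replicate,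
    List.map_append, List.map_cons, List.sum_append, List.sum_cons, smul_eq_mul, mul_one]
    at hs hl
  omega

end

theorem anick_ind (c : ℕ) (base : ∀ (ι : Type) [Finite ι] (s : Sul ι) (Z : ι → Prop),
    (∀ i, Z i → Even (s.deg i)) → (∀ i, Z i → s.d i = 0) →
    (∀ i, Even (s.deg i) → s.d i ∈ spanOf (sg s.deg) (Has Z)) →
    Nat.card {i // Z i} ≤ c → ∀ n, s.Anick n) (N : ℕ) :
    ∀ (ι : Type) [Finite ι] (s : Sul ι) (V Z : ι → Prop), Cls s V Z →
      Nat.card {i // V i} ≤ N → Nat.card {i // Z i} ≤ c → ∀ n, s.Anick n := by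
  have start : ∀ (ι : Type) [Finite ι] (s : Sul ι) (V Z : ι → Prop), Cls s V Z →
      (∀ i, ¬ V i) → Nat.card {i // Z i} ≤ c → ∀ n, s.Anick n := by
    intro ι _ s V Z h hV' hZ n
    refine base ι s Z h.z_even ?_ ?_ hZ n
    · intro i hi
      exact spanOf_false (fun L ⟨j, _, hj⟩ => hV' j hj) (h.z_d i hi)
    · intro i hi
      refine spanOf_mono ?_ (h.e_d i hi)
      rintro L ⟨j, hj, hj' | hj'⟩
      · exact absurd hj' (hV' j)
      · exact ⟨j, hj, hj'⟩
  induction N with
  | zero =>
    intro ι _ s V Z h hV hZ n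
    refine start ι s V Z h ?_ hZ n
    intro i hi
    have h1 := Finite.card_pos_iff.2 (⟨⟨i, hi⟩⟩ : Nonempty {i // V i})
    omega
  | succ N ih =>
    intro ι _ s V Z h hV hZ n
    classical
    by_cases hne : Nonempty {i // V i}
    · obtain ⟨⟨v, hv⟩, hmin⟩ := Finite.exists_min (fun i : {i // V i} => s.deg i.1)
      have hd : s.d v = 0 := h.closed hv (fun w hw => hmin ⟨w, hw⟩)
      refine s.anick_of_quo v hd (h.v_odd v hv) ?_ n
      refine ih {i : ι // i ≠ v} (s.quo v hd) (fun i => V i.1) (fun i => Z i.1) (h.quo v hd) ?_ ?_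
      · have h1 : Nat.card {j : {i // V i} // j ≠ ⟨v, hv⟩} < Nat.card {i // V i} :=
          Finite.card_subtype_lt (x := ⟨v, hv⟩) (by simp)
        have h2 : Nat.card {i : {i : ι // i ≠ v} // V i.1}
            ≤ Nat.card {j : {i // V i} // j ≠ ⟨v, hv⟩} := by
          refine Nat.card_le_card_of_injective
            (fun i => ⟨⟨i.1.1, i.2⟩, fun hc => i.1.2 (congrArg Subtype.val hc)⟩) ?_
          intro a b hab
          apply Subtype.ext
          apply Subtype.ext
          exact congrArg (fun x => x.1.1) hab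
        omega
      · refine le_trans ?_ hZ
        refine Nat.card_le_card_of_injective
          (fun i : {i : {i : ι // i ≠ v} // Z i.1} => (⟨i.1.1, i.2⟩ : {i // Z i})) ?_
        intro a b hab
        apply Subtype.ext
        apply Subtype.ext
        exact congrArg (fun x : {i // Z i} => x.1) hab
    · exact start ι s V Z h (fun i hi => hne ⟨⟨i, hi⟩⟩) hZ n

end Run7.h985
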