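import Pool.Agent.Run7.h985.Div

/-!
# Existence of Koszul tuples (MP_5f0082_gt, helper985)
-/

set_option autoImplicit false
set_option maxHeartbeats 400000

namespace Run7.h985

open Pool.H582SA

section tup

variable {ι : Type} (s : Sul ι)

theorem mul_left_cancel_gen {p : ι → ℕ} {i : ι} (hi : Even (p i)) {a b : FGC (sg p)}
    (h : gen _ i * a = gen _ i * b) : a = b := by
  have h1 : gen (sg p) i * (a - b) = 0 := by rw [mul_sub, h, sub_self]
  exact sub_eq_zero.1 (gen_regular i hi h1)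

theorem has_self {p : ι → ℕ} (i : ι) (a : FGC (sg p)) :
    gen _ i * a ∈ spanOf (sg p) (Has (fun j => j = i)) :=
  has_mul (T := fun j => j = i) (i := i) rfl a

theorem d_dh (x : ι) : s.d x ∈ DH s.deg 0 (s.deg x + 1) :=
  spanOf_mono (fun _ hL => by rw [hL.2, add_zero]) (s.good x)

theorem kos_zero (x : ι) (hx : Even (s.deg x)) (hd : s.d x = 0) :
    ∃ K : Kos s, zv _ K.T.X = gen _ x := by
  refine kos_of s x hx (fun _ => 0) (fun _ => 0) (fun _ => Even.zero) (fun _ => zero_mem _)
    (fun _ => map_zero _) (fun _ => 0) (fun _ => 0) 0 ?_ (fun _ => zero_mem _)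
    (fun _ => zero_mem _) (zero_mem _) ?_ ?_ (map_zero _)
  · rw [hd]; simp
  · intro k; simp
  · intro k; simp

theorem kos_one (x : ι) (hx : Even (s.deg x)) (a : ι) (ha : Even (s.deg a)) (hc : s.d a = 0)
    (hd : s.d x ∈ spanOf (sg s.deg) (Has (fun i => i = a))) :
    ∃ K : Kos s, zv _ K.T.X = gen _ x := by
  obtain ⟨M, h1, h2⟩ := extract (r := 1) (fun _ => a) (fun _ => ha)
    (spanOf_mono (by
      rintro L ⟨i, hi, rfl⟩
      exact ⟨i, hi, 0, rfl⟩) hd) (d_dh s x)
  rw [Fin.sum_univ_one] at h1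
  have h3 : s.D (M 0) = 0 := by
    have h4 : s.D (s.d x) = 0 := by rw [← s.D_gen, s.D_D]
    rw [h1, D_even_mul s ha hc] at h4
    exact gen_regular a ha h4
  refine kos_of s x hx ![gen _ a, 0, 0] ![s.deg a, 0, 0] ?_ ?_ ?_ ![M 0, 0, 0]
    (fun _ => 0) 0 ?_ ?_ (fun _ => zero_mem _) (zero_mem _) ?_ ?_ (map_zero _)
  · intro k; fin_cases k
    · exact ha
    · exact Even.zero
    · exact Even.zero
  · intro k; fin_cases k
    · exact hom_gen a
    · exact zero_mem _
    · exact zero_mem _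
  · intro k; fin_cases k
    · exact (s.D_gen a).trans hc
    · exact map_zero _
    · exact map_zero _
  · rw [h1, Fin.sum_univ_three]; simp
  · intro k; fin_cases k
    · exact dh_eq (by simp) (h2 0)
    · exact zero_mem _
    · exact zero_mem _
  · intro k; fin_cases k
    · simpa using h3
    · simp
    · simp
  · intro k; fin_cases k <;> simp

theorem kos_two (x : ι) (hx : Even (s.deg x)) (a b : ι) (hab : a ≠ b) (ha : Even (s.deg a))
    (hb : Even (s.deg b)) (hca : s.d a = 0) (hcb : s.d b = 0)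
    (hd : s.d x ∈ spanOf (sg s.deg) (Has (fun i => i = a ∨ i = b))) :
    ∃ K : Kos s, zv _ K.T.X = gen _ x := by
  obtain ⟨M, h1, h2⟩ := extract (r := 2) ![a, b] (by
      intro k; fin_cases k
      · exact ha
      · exact hb)
    (spanOf_mono (by
      rintro L ⟨i, hi, rfl | rfl⟩
      · exact ⟨i, hi, 0, rfl⟩
      · exact ⟨i, hi, 1, rfl⟩) hd) (d_dh s x)
  rw [Fin.sum_univ_two] at h1
  have hM0 : M 0 ∈ DH s.deg (0 + s.deg a) (s.deg x + 1) := h2 0
  have hM1 : M 1 ∈ DH s.deg (0 + s.deg b) (s.deg x + 1) := h2 1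
  change s.d x = gen _ a * M 0 + gen _ b * M 1 at h1
  have h3 : gen _ a * s.D (M 0) + gen _ b * s.D (M 1) = 0 := by
    have h4 : s.D (s.d x) = 0 := by rw [← s.D_gen, s.D_D]
    rw [h1, map_add, D_even_mul s ha hca, D_even_mul s hb hcb] at h4
    exact h4
  have h5 : s.D (M 1) ∈ spanOf (sg s.deg) (Has (fun i => i = a)) := by
    refine has_of_mul (i := b) hb (fun h => hab h.symm) ?_
    have h6 : gen _ b * s.D (M 1) = gen _ a * (-s.D (M 0)) := by
      rw [mul_neg]
      exact eq_neg_of_add_eq_zero_right h3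
    rw [h6]
    exact has_self _ _
  obtain ⟨n, h7, h8⟩ := extract (r := 1) (fun _ => a) (fun _ => ha)
    (spanOf_mono (by
      rintro L ⟨i, hi, rfl⟩
      exact ⟨i, hi, 0, rfl⟩) h5) (D_dh s hM1)
  rw [Fin.sum_univ_one] at h7
  have h9 : s.D (M 0) = -(gen _ b * n 0) := by
    have h10 : gen _ a * s.D (M 0) = gen _ a * (-(gen _ b * n 0)) := by
      have h11 : gen _ b * gen _ a = gen _ a * gen (sg s.deg) b :=
        even_comm (par_gen_even hb) _
      rw [h7, ← mul_assoc, h11, mul_assoc, ← mul_add] at h3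
      rw [mul_neg]
      rw [mul_add] at h3
      exact eq_neg_of_add_eq_zero_left h3
    exact mul_left_cancel_gen ha h10
  have h12 : s.D (n 0) = 0 := by
    have h13 : s.D (s.D (M 1)) = 0 := s.D_D _
    rw [h7, D_even_mul s ha hca] at h13
    exact gen_regular a ha h13
  have hga : ∀ z, gen (sg s.deg) a * z = z * gen _ a := fun z => even_comm (par_gen_even ha) z
  have hgb : ∀ z, gen (sg s.deg) b * z = z * gen _ b := fun z => even_comm (par_gen_even hb) z
  refine kos_of s x hx ![gen _ a, gen _ b, 0] ![s.deg a, s.deg b, 0] ?_ ?_ ?_ ![M 0, M 1, 0]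
    ![0, 0, n 0] 0 ?_ ?_ ?_ (zero_mem _) ?_ ?_ (map_zero _)
  · intro k; fin_cases k
    · exact ha
    · exact hb
    · exact Even.zero
  · intro k; fin_cases k
    · exact hom_gen a
    · exact hom_gen b
    · exact zero_mem _
  · intro k; fin_cases k
    · exact (s.D_gen a).trans hca
    · exact (s.D_gen b).trans hcb
    · exact map_zero _
  · rw [h1, Fin.sum_univ_three]; simp
  · intro k; fin_cases k
    · exact dh_eq (by simp) hM0
    · exact dh_eq (by simp) hM1
    · exact zero_mem _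
  · intro k; fin_cases k
    · exact zero_mem _
    · exact zero_mem _
    · refine dh_eq ?_ (h8 0)
      change s.deg x + 1 + 1 + (s.deg a + s.deg b) = s.deg x + 2 + (0 + s.deg b + s.deg a)
      omega
  · intro k; fin_cases k
    · change s.D (M 0) = 0 * 0 - n 0 * gen _ b
      rw [h9, hgb]; simp
    · change s.D (M 1) = n 0 * gen _ a - 0 * 0
      rw [h7, hga]; simp
    · simp
  · intro k; fin_cases k
    · simp
    · simp
    · change s.D (n 0) = 0 * 0
      rw [h12]; simp

theorem kos_three (x : ι) (hx : Even (s.deg x)) (a b c : ι) (hab : a ≠ b) (hac : a ≠ c)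
    (hbc : b ≠ c) (ha : Even (s.deg a)) (hb : Even (s.deg b)) (hc : Even (s.deg c))
    (hca : s.d a = 0) (hcb : s.d b = 0) (hcc : s.d c = 0)
    (hd : s.d x ∈ spanOf (sg s.deg) (Has (fun i => i = a ∨ i = b ∨ i = c))) :
    ∃ K : Kos s, zv _ K.T.X = gen _ x := by
  have hga : ∀ z, gen (sg s.deg) a * z = z * gen _ a := fun z => even_comm (par_gen_even ha) z
  have hgb : ∀ z, gen (sg s.deg) b * z = z * gen _ b := fun z => even_comm (par_gen_even hb) z
  have hgc : ∀ z, gen (sg s.deg) c * z = z * gen _ c := fun z => even_comm (par_gen_even hc) z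
  have hDa := D_even_mul s ha hca
  have hDb := D_even_mul s hb hcb
  have hDc := D_even_mul s hc hcc
  obtain ⟨M, h1, h2⟩ := extract (r := 3) ![a, b, c] (by
      intro k; fin_cases k
      · exact ha
      · exact hb
      · exact hc)
    (spanOf_mono (by
      rintro L ⟨i, hi, rfl | rfl | rfl⟩
      · exact ⟨i, hi, 0, rfl⟩
      · exact ⟨i, hi, 1, rfl⟩
      · exact ⟨i, hi, 2, rfl⟩) hd) (d_dh s x)
  rw [Fin.sum_univ_three] at h1
  have hM0 : M 0 ∈ DH s.deg (0 + s.deg a) (s.deg x + 1) := h2 0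
  have hM1 : M 1 ∈ DH s.deg (0 + s.deg b) (s.deg x + 1) := h2 1
  have hM2 : M 2 ∈ DH s.deg (0 + s.deg c) (s.deg x + 1) := h2 2
  change s.d x = gen _ a * M 0 + gen _ b * M 1 + gen _ c * M 2 at h1
  generalize M 0 = M0 at *
  generalize M 1 = M1 at *
  generalize M 2 = M2 at *
  clear h2 M
  have h3 : gen _ a * s.D M0 + gen _ b * s.D M1 + gen _ c * s.D M2 = 0 := by
    have h4 : s.D (s.d x) = 0 := by rw [← s.D_gen, s.D_D]
    rw [h1, map_add, map_add, hDa, hDb, hDc] at h4
    exact h4
  -- the differential of `M2`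
  have h5 : s.D M2 ∈ spanOf (sg s.deg) (Has (fun i => ∃ k, i = ![a, b] k)) := by
    refine has_of_mul (i := c) hc ?_ ?_
    · rintro ⟨k, hk⟩
      fin_cases k
      · exact hac hk.symm
      · exact hbc hk.symm
    · have h6 : gen _ c * s.D M2 = gen _ a * (-s.D M0) + gen _ b * (-s.D M1) := by
        rw [mul_neg, mul_neg, ← neg_add]
        exact eq_neg_of_add_eq_zero_right h3
      rw [h6]
      exact add_mem (has_mul (T := fun i => ∃ k, i = ![a, b] k) (i := a) ⟨0, rfl⟩ _)
        (has_mul (T := fun i => ∃ k, i = ![a, b] k) (i := b) ⟨1, rfl⟩ _)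
  obtain ⟨u, h7, h8⟩ := extract (r := 2) ![a, b] (by
      intro k; fin_cases k
      · exact ha
      · exact hb) h5 (D_dh s hM2)
  rw [Fin.sum_univ_two] at h7
  have hu0 : u 0 ∈ DH s.deg (0 + s.deg c + s.deg a) (s.deg x + 1 + 1) := h8 0
  have hu1 : u 1 ∈ DH s.deg (0 + s.deg c + s.deg b) (s.deg x + 1 + 1) := h8 1
  change s.D M2 = gen _ a * u 0 + gen _ b * u 1 at h7
  generalize u 0 = u0 at *
  generalize u 1 = u1 at *
  clear h8 u
  -- the differential of `M0`
  have h9 : gen _ a * (s.D M0 + gen _ c * u0) + gen _ b * (s.D M1 + gen _ c * u1) = 0 := by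
    rw [← h3, h7, mul_add, mul_add, mul_add, ← mul_assoc, ← mul_assoc, ← mul_assoc, ← mul_assoc,
      hga (gen _ c), hgb (gen _ c)]
    abel
  have h10 : s.D M0 + gen _ c * u0 ∈ spanOf (sg s.deg) (Has (fun i => i = b)) := by
    refine has_of_mul (i := a) ha hab ?_
    rw [eq_neg_of_add_eq_zero_left h9, ← mul_neg]
    exact has_self _ _
  have h10' : s.D M0 + gen _ c * u0 ∈ DH s.deg (0 + s.deg a) (s.deg x + 1 + 1) := by
    refine add_mem (D_dh s hM0) ?_
    refine spanOf_mul (S := fun L => L = [c]) ?_ (by rw [← mono_single]; exact mono_mem rfl) hu0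
    rintro L M' rfl h
    simp only [List.map_append, List.map_cons, List.map_nil, List.sum_append, List.sum_cons,
      List.sum_nil]
    omega
  obtain ⟨w, h11, h12⟩ := extract (r := 1) (fun _ => b) (fun _ => hb)
    (spanOf_mono (by
      rintro L ⟨i, hi, rfl⟩
      exact ⟨i, hi, 0, rfl⟩) h10) h10'
  rw [Fin.sum_univ_one] at h11
  have hw : w 0 ∈ DH s.deg (0 + s.deg a + s.deg b) (s.deg x + 1 + 1) := h12 0
  generalize w 0 = w0 at *
  clear h12 w
  have hD0 : s.D M0 = gen _ b * w0 - gen _ c * u0 := eq_sub_of_add_eq h11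
  have hD1 : s.D M1 = -(gen _ a * w0) - gen _ c * u1 := by
    rw [h11, ← mul_assoc, hga, mul_assoc, ← mul_add] at h9
    have h13 := gen_regular b hb h9
    refine eq_sub_of_add_eq ?_
    exact eq_neg_of_add_eq_zero_right h13
  -- the differentials of `n`
  have e1 : gen _ a * s.D u0 + gen _ b * s.D u1 = 0 := by
    have h14 : s.D (s.D M2) = 0 := s.D_D _
    rw [h7, map_add, hDa, hDb] at h14
    exact h14
  have e2 : gen _ b * s.D w0 - gen _ c * s.D u0 = 0 := by
    have h14 : s.D (s.D M0) = 0 := s.D_D _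
    rw [hD0, map_sub, hDb, hDc] at h14
    exact h14
  have h15 : s.D u1 ∈ spanOf (sg s.deg) (Has (fun i => i = a)) := by
    refine has_of_mul (i := b) hb (fun h => hab h.symm) ?_
    rw [eq_neg_of_add_eq_zero_right e1, ← mul_neg]
    exact has_self _ _
  obtain ⟨C, h16, h17⟩ := extract (r := 1) (fun _ => a) (fun _ => ha)
    (spanOf_mono (by
      rintro L ⟨i, hi, rfl⟩
      exact ⟨i, hi, 0, rfl⟩) h15) (D_dh s hu1)
  rw [Fin.sum_univ_one] at h16
  have hCd : C 0 ∈ DH s.deg (0 + s.deg c + s.deg b + s.deg a) (s.deg x + 1 + 1 + 1) := h17 0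
  generalize C 0 = C0 at *
  clear h17 C
  have h18 : s.D u0 = -(gen _ b * C0) := by
    rw [h16, ← mul_assoc, hgb (gen _ a), mul_assoc, ← mul_add] at e1
    exact eq_neg_of_add_eq_zero_left (gen_regular a ha e1)
  have h19 : s.D w0 = -(gen _ c * C0) := by
    have h20 : gen _ b * (s.D w0 + gen _ c * C0) = 0 := by
      rw [mul_add, ← e2, h18, ← mul_assoc, hgb (gen _ c), mul_neg, sub_neg_eq_add, mul_assoc]
    exact eq_neg_of_add_eq_zero_left (gen_regular b hb h20)
  have h21 : s.D C0 = 0 := by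
    have h22 : s.D (s.D u1) = 0 := s.D_D _
    rw [h16, hDa] at h22
    exact gen_regular a ha h22
  refine kos_of s x hx ![gen _ a, gen _ b, gen _ c] ![s.deg a, s.deg b, s.deg c] ?_ ?_ ?_
    ![M0, M1, M2] ![u1, -u0, -w0] C0 ?_ ?_ ?_ ?_ ?_ ?_ h21
  · intro k; fin_cases k
    · exact ha
    · exact hb
    · exact hc
  · intro k; fin_cases k
    · exact hom_gen a
    · exact hom_gen b
    · exact hom_gen c
  · intro k; fin_cases k
    · exact (s.D_gen a).trans hca
    · exact (s.D_gen b).trans hcb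
    · exact (s.D_gen c).trans hcc
  · rw [h1, Fin.sum_univ_three]; rfl
  · intro k; fin_cases k
    · exact dh_eq (by simp) hM0
    · exact dh_eq (by simp) hM1
    · exact dh_eq (by simp) hM2
  · intro k; fin_cases k
    · refine dh_eq ?_ hu1
      change s.deg x + 1 + 1 + (s.deg b + s.deg c) = s.deg x + 2 + (0 + s.deg c + s.deg b)
      omega
    · refine dh_eq ?_ (neg_mem hu0)
      change s.deg x + 1 + 1 + (s.deg c + s.deg a) = s.deg x + 2 + (0 + s.deg c + s.deg a)
      omega
    · refine dh_eq ?_ (neg_mem hw)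
      change s.deg x + 1 + 1 + (s.deg a + s.deg b) = s.deg x + 2 + (0 + s.deg a + s.deg b)
      omega
  · refine dh_eq ?_ hCd
    change s.deg x + 1 + 1 + 1 + (s.deg a + s.deg b + s.deg c)
      = s.deg x + 3 + (0 + s.deg c + s.deg b + s.deg a)
    omega
  · intro k; fin_cases k
    · change s.D M0 = -u0 * gen _ c - -w0 * gen _ b
      rw [hD0, hgb, hgc]
      simp only [neg_mul]
      abel
    · change s.D M1 = -w0 * gen _ a - u1 * gen _ c
      rw [hD1, hga, hgc]
      simp only [neg_mul]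
    · change s.D M2 = u1 * gen _ b - -u0 * gen _ a
      rw [h7, hga, hgb]
      simp only [neg_mul]
      abel
  · intro k; fin_cases k
    · exact h16
    · change s.D (-u0) = gen _ b * C0
      rw [map_neg, h18, neg_neg]
    · change s.D (-w0) = gen _ c * C0
      rw [map_neg, h19, neg_neg]

end tup

end Run7.h985
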