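import Pool.Agent.Run7.h985.Kos3

/-!
# Even generators closed modulo three cocycles (MP_5f0082_gt, helper985)
-/

set_option autoImplicit false
set_option maxHeartbeats 400000

namespace Run7.h985

open Pool.H582SA

theorem kos_exists {ι : Type} (s : Sul ι) (x : ι) (hx : Even (s.deg x)) (T : Finset ι)
    (hT : T.card ≤ 3) (hTe : ∀ i ∈ T, Even (s.deg i)) (hTc : ∀ i ∈ T, s.d i = 0)
    (hd : s.d x ∈ spanOf (sg s.deg) (Has (fun i => i ∈ T))) :
    ∃ K : Kos s, zv _ K.T.X = gen _ x := by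
  classical
  obtain h | h | h | h : T.card = 0 ∨ T.card = 1 ∨ T.card = 2 ∨ T.card = 3 := by omega
  · rw [Finset.card_eq_zero] at h
    subst h
    refine kos_zero s x hx (spanOf_false ?_ hd)
    rintro L ⟨i, -, hi⟩
    simp at hi
  · obtain ⟨a, rfl⟩ := Finset.card_eq_one.1 h
    refine kos_one s x hx a (hTe a (by simp)) (hTc a (by simp)) (spanOf_mono ?_ hd)
    rintro L ⟨i, hi, hi'⟩
    exact ⟨i, hi, by simpa using hi'⟩
  · obtain ⟨a, b, hab, rfl⟩ := Finset.card_eq_two.1 h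
    refine kos_two s x hx a b hab (hTe a (by simp)) (hTe b (by simp)) (hTc a (by simp))
      (hTc b (by simp)) (spanOf_mono ?_ hd)
    rintro L ⟨i, hi, hi'⟩
    exact ⟨i, hi, by simpa using hi'⟩
  · obtain ⟨a, b, c, hab, hac, hbc, rfl⟩ := Finset.card_eq_three.1 h
    refine kos_three s x hx a b c hab hac hbc (hTe a (by simp)) (hTe b (by simp))
      (hTe c (by simp)) (hTc a (by simp)) (hTc b (by simp)) (hTc c (by simp))
      (spanOf_mono ?_ hd)
    rintro L ⟨i, hi, hi'⟩
    exact ⟨i, hi, by simpa using hi'⟩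

theorem base3 (ι : Type) [Finite ι] (s : Sul ι)
    (h : ∀ x, Even (s.deg x) → ∃ T : Finset ι, T.card ≤ 3 ∧ (∀ i ∈ T, Even (s.deg i)) ∧
      (∀ i ∈ T, s.d i = 0) ∧ s.d x ∈ spanOf (sg s.deg) (Has (fun i => i ∈ T))) (n : ℕ) :
    s.Anick n := by
  have hK : ∀ x : Ev s.deg, ∃ K : Kos s, zv _ K.T.X = gen _ x.1 := by
    rintro ⟨x, hx⟩
    obtain ⟨T, h1, h2, h3, h4⟩ := h x hx
    exact kos_exists s x hx T h1 h2 h3 h4
  choose K hKX using hK
  refine anick_kos s K ?_ n
  intro i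
  refine ⟨1, Ideal.subset_span ⟨i, ?_⟩⟩
  rw [pow_one, hKX, pr_even i.2]

/-- the hypotheses on the basis -/
structure Loc {ι : Type} (s : Sul ι) (V : ι → Prop) : Prop where
  /-- `V` consists of odd generators -/
  v_odd : ∀ i, V i → ¬ Even (s.deg i)
  /-- the ideal of `V` is stable -/
  v_d : ∀ i, V i → s.d i ∈ spanOf (sg s.deg) (Has V)
  /-- even generators are closed modulo `V` and three cocycles -/
  e_d : ∀ x, Even (s.deg x) → ∃ T : Finset ι, T.card ≤ 3 ∧ (∀ i ∈ T, Even (s.deg i)) ∧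
    (∀ i ∈ T, s.d i ∈ spanOf (sg s.deg) (Has V)) ∧
    s.d x ∈ spanOf (sg s.deg) (Has (fun j => V j ∨ j ∈ T))

theorem Loc.quo {ι : Type} {s : Sul ι} {V : ι → Prop} (h : Loc s V) (v : ι) (hd : s.d v = 0) :
    Loc (s.quo v hd) (fun i => V i.1) := by
  classical
  constructor
  · exact fun i hi => h.v_odd i.1 hi
  · intro i hi
    change qmap s.deg v (s.d i.1) ∈ spanOf (sg (qd s.deg v)) (Has (fun i => V i.1))
    exact has_q (T := V) (h.v_d i.1 hi)
  · intro x hx
    obtain ⟨T, h1, h2, h3, h4⟩ := h.e_d x.1 hx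
    refine ⟨T.subtype (fun i => i ≠ v), ?_, ?_, ?_, ?_⟩
    · rw [Finset.card_subtype]
      exact le_trans (Finset.card_filter_le _ _) h1
    · intro i hi
      exact h2 i.1 (Finset.mem_subtype.1 hi)
    · intro i hi
      change qmap s.deg v (s.d i.1) ∈ spanOf (sg (qd s.deg v)) (Has (fun i => V i.1))
      exact has_q (T := V) (h3 i.1 (Finset.mem_subtype.1 hi))
    · change qmap s.deg v (s.d x.1) ∈ _
      refine spanOf_mono ?_ (has_q (T := fun j => V j ∨ j ∈ T) h4)
      rintro L ⟨i, hi, hi'⟩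
      refine ⟨i, hi, ?_⟩
      rcases hi' with hi' | hi'
      · exact Or.inl hi'
      · exact Or.inr (Finset.mem_subtype.2 hi')

theorem Loc.closed {ι : Type} {s : Sul ι} {V : ι → Prop} (h : Loc s V) {v : ι} (hv : V v)
    (hmin : ∀ w, V w → s.deg v ≤ s.deg w) : s.d v = 0 := by
  have h1 := spanOf_inter s.deg (fun m => m = s.deg v + 1) (h.v_d v hv)
    (spanOf_mono (fun L hL => hL.2) (s.good v))
  have h2 := spanOf_inter (fun _ => 1) (fun m => 2 ≤ m) h1
    (spanOf_mono (fun L hL => by simpa using hL.1) (s.good v))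
  refine spanOf_false ?_ h2
  rintro L ⟨⟨⟨w, hw, hVw⟩, hs⟩, hl⟩
  obtain ⟨A, B, rfl⟩ := List.append_of_mem hw
  have h3 := two_le_sum s A
  have h4 := two_le_sum s B
  have h5 := hmin w hVw
  simp only [List.map_const', List.sum_replicate,
    List.map_append, List.map_cons, List.sum_append, List.sum_cons, smul_eq_mul, mul_one]
    at hs hl
  omega

theorem anick_loc (N : ℕ) : ∀ (ι : Type) [Finite ι] (s : Sul ι) (V : ι → Prop), Loc s V →
    Nat.card {i // V i} ≤ N → ∀ n, s.Anick n := by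
  have start : ∀ (ι : Type) [Finite ι] (s : Sul ι) (V : ι → Prop), Loc s V →
      (∀ i, ¬ V i) → ∀ n, s.Anick n := by
    intro ι _ s V h hV' n
    refine base3 ι s ?_ n
    intro x hx
    obtain ⟨T, h1, h2, h3, h4⟩ := h.e_d x hx
    refine ⟨T, h1, h2, ?_, ?_⟩
    · intro i hi
      exact spanOf_false (fun L ⟨j, _, hj⟩ => hV' j hj) (h3 i hi)
    · refine spanOf_mono ?_ h4
      rintro L ⟨j, hj, hj' | hj'⟩
      · exact absurd hj' (hV' j)
      · exact ⟨j, hj, hj'⟩
  induction N with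
  | zero =>
    intro ι _ s V h hV n
    refine start ι s V h ?_ n
    intro i hi
    have h1 := Finite.card_pos_iff.2 (⟨⟨i, hi⟩⟩ : Nonempty {i // V i})
    omega
  | succ N ih =>
    intro ι _ s V h hV n
    classical
    by_cases hne : Nonempty {i // V i}
    · obtain ⟨⟨v, hv⟩, hmin⟩ := Finite.exists_min (fun i : {i // V i} => s.deg i.1)
      have hd : s.d v = 0 := h.closed hv (fun w hw => hmin ⟨w, hw⟩)
      refine s.anick_of_quo v hd (h.v_odd v hv) ?_ n
      refine ih {i : ι // i ≠ v} (s.quo v hd) (fun i => V i.1) (h.quo v hd) ?_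
      have h1 : Nat.card {j : {i // V i} // j ≠ ⟨v, hv⟩} < Nat.card {i // V i} :=
        Finite.card_subtype_lt (x := ⟨v, hv⟩) (by simp)
      have h2 : Nat.card {i : {i : ι // i ≠ v} // V i.1}
          ≤ Nat.card {j : {i // V i} // j ≠ ⟨v, hv⟩} := by
        refine Nat.card_le_card_of_injective
          (fun i => ⟨⟨i.1.1, i.2⟩, fun hc => i.1.2 (congrArg Subtype.val hc)⟩) ?_
        intro a b hab
        apply Subtype.ext
        apply Subtype.ext
        exact congrArg (fun x => x.1.1) hab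
      omega
    · exact start ι s V h (fun i hi => hne ⟨⟨i, hi⟩⟩) n

end Run7.h985
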