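import Pool.Agent.Run7.h985.Twist

/-!
# Reduction to algebras without closed odd elements with linear part, even rank two
(MP_5f0082_gt, helper985)
-/

set_option autoImplicit false
set_option maxHeartbeats 400000

namespace Run7.h985

open Pool.H582SA

/-- no closed odd element has a nonzero linear part -/
def NC {ι : Type} (s : Sul ι) : Prop :=
  ∀ i, ¬ Even (s.deg i) → ∀ z ∈ spanOf (sg s.deg) (Aw s.deg i), s.D (gen _ i + z) ≠ 0

/-- reduction to algebras without closed odd elements with nonzero linear part -/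
theorem anick_of_nc (Pd : ∀ (ι : Type), (ι → ℕ) → Prop)
    (hquo : ∀ (ι : Type) (p : ι → ℕ) (v : ι), ¬ Even (p v) → Pd ι p →
      Pd {i : ι // i ≠ v} (qd p v))
    (base : ∀ (ι : Type) [Finite ι] (s : Sul ι), Pd ι s.deg → NC s → ∀ n, s.Anick n) (N : ℕ) :
    ∀ (ι : Type) [Finite ι] (s : Sul ι), Pd ι s.deg → Nat.card ι ≤ N → ∀ n, s.Anick n := by
  induction N with
  | zero =>
    intro ι _ s hP hN n
    refine base ι s hP ?_ n
    intro i
    have : Nonempty ι := ⟨i⟩
    have := Finite.card_pos (α := ι)
    omega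
  | succ N ih =>
    intro ι _ s hP hN n
    by_cases hnc : NC s
    · exact base ι s hP hnc n
    · unfold NC at hnc
      push Not at hnc
      obtain ⟨i, hi, z, hz, hD⟩ := hnc
      refine s.anick_of_tw i z hz hi ?_
      have hd : (s.tw i z hz).d i = 0 := by
        change tz i (-z) (aw_neg hz) (s.D (tz i z hz (gen _ i))) = 0
        rw [tz_i, hD, map_zero]
      refine (s.tw i z hz).anick_of_quo i hd hi ?_ n
      refine ih {j : ι // j ≠ i} _ (hquo ι s.deg i hi hP) ?_
      have h1 : Nat.card {j : ι // j ≠ i} < Nat.card ι :=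
        Finite.card_subtype_lt (x := i) (by simp)
      omega

section words

variable {ι : Type} {p : ι → ℕ}

theorem mono_two {x v : ι} (hx : Even (p x)) (hv : ¬ Even (p v)) (L : List ι)
    (hL : ∀ i ∈ L, i = x ∨ i = v) : mono (sg p) L = 0 ∨
      (∃ k, mono (sg p) L = gen _ x ^ k ∧ k * p x = (L.map p).sum) ∨
      ∃ k, mono (sg p) L = gen _ x ^ k * gen _ v ∧ k * p x + p v = (L.map p).sum := by
  have hvv : gen (sg p) v * gen _ v = 0 :=
    odd_sq (par_cong (by rw [Nat.even_iff] at hv; omega) (par_gen v))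
  have hxk : ∀ k, gen (sg p) v * gen _ x ^ k = gen _ x ^ k * gen _ v :=
    fun k => (even_comm (par_pow0 (par_gen_even hx) k) _).symm
  induction L with
  | nil => exact Or.inr (Or.inl ⟨0, by simp, by simp⟩)
  | cons i L ih =>
    rcases ih (fun j hj => hL j (List.mem_cons_of_mem _ hj)) with h | ⟨k, h, hk⟩ | ⟨k, h, hk⟩
    · left; rw [mono_cons, h, mul_zero]
    · rcases hL i (by simp) with rfl | rfl
      · right; left
        refine ⟨k + 1, ?_, ?_⟩
        · rw [mono_cons, h, pow_succ']
        · rw [List.map_cons, List.sum_cons, ← hk]; ring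
      · right; right
        refine ⟨k, ?_, ?_⟩
        · rw [mono_cons, h, hxk]
        · rw [List.map_cons, List.sum_cons, ← hk]; ring
    · rcases hL i (by simp) with rfl | rfl
      · right; right
        refine ⟨k + 1, ?_, ?_⟩
        · rw [mono_cons, h, pow_succ', mul_assoc]
        · rw [List.map_cons, List.sum_cons, ← hk]; ring
      · left
        rw [mono_cons, h, ← mul_assoc, hxk, mul_assoc, hvv, mul_zero]

theorem span_even {x v : ι} (hx : Even (p x)) (hx0 : 0 < p x) (hv : ¬ Even (p v)) {N : ℕ}
    (hN : Even N) {a : FGC (sg p)}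
    (ha : a ∈ spanOf (sg p) (fun L => (∀ i ∈ L, i = x ∨ i = v) ∧ (L.map p).sum = N)) :
    ∃ c : ℚ, ∃ k, a = c • gen _ x ^ k ∧ (c ≠ 0 → k * p x = N) := by
  have key : ∃ c : ℚ, a = c • gen _ x ^ (N / p x) ∧ (c ≠ 0 → (N / p x) * p x = N) := by
    refine spanOf_induct (P := fun a => ∃ c : ℚ, a = c • gen _ x ^ (N / p x) ∧
      (c ≠ 0 → (N / p x) * p x = N)) ?_ ?_ ?_ ?_ ha
    · rintro L ⟨h1, h2⟩
      rcases mono_two hx hv L h1 with h | ⟨k, h, hk⟩ | ⟨k, h, hk⟩
      · exact ⟨0, by rw [h, zero_smul], fun h => absurd rfl h⟩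
      · rw [h2] at hk
        have h3 : N / p x = k := by rw [← hk]; exact Nat.mul_div_cancel _ hx0
        exact ⟨1, by rw [h3, one_smul, h], fun _ => by rw [h3, hk]⟩
      · exfalso
        rw [h2] at hk
        have h4 : Even (k * p x) := hx.mul_left k
        rw [Nat.even_iff] at hN h4 hv
        omega
    · exact ⟨0, by rw [zero_smul], fun h => absurd rfl h⟩
    · rintro a b ⟨c, h1, h2⟩ ⟨c', h3, h4⟩
      refine ⟨c + c', by rw [h1, h3, add_smul], ?_⟩
      intro h
      by_cases hc : c = 0
      · exact h4 (fun h' => h (by rw [hc, h', add_zero]))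
      · exact h2 hc
    · rintro r a ⟨c, h1, h2⟩
      refine ⟨r * c, by rw [h1, smul_smul], ?_⟩
      intro h
      exact h2 (fun h' => h (by rw [h', mul_zero]))
  obtain ⟨c, h1, h2⟩ := key
  exact ⟨c, _, h1, h2⟩

theorem span_odd {x v : ι} (hx : Even (p x)) (hx0 : 0 < p x) (hv : ¬ Even (p v)) {N : ℕ}
    (hN : ¬ Even N) {a : FGC (sg p)}
    (ha : a ∈ spanOf (sg p) (fun L => (∀ i ∈ L, i = x ∨ i = v) ∧ (L.map p).sum = N)) :
    ∃ c : ℚ, ∃ k, a = c • (gen _ x ^ k * gen _ v) := by
  have key : ∃ c : ℚ, a = c • (gen _ x ^ ((N - p v) / p x) * gen _ v) := by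
    refine spanOf_induct (P := fun a => ∃ c : ℚ,
      a = c • (gen _ x ^ ((N - p v) / p x) * gen _ v)) ?_ ?_ ?_ ?_ ha
    · rintro L ⟨h1, h2⟩
      rcases mono_two hx hv L h1 with h | ⟨k, h, hk⟩ | ⟨k, h, hk⟩
      · exact ⟨0, by rw [h, zero_smul]⟩
      · exfalso
        rw [h2] at hk
        exact hN (hk ▸ hx.mul_left k)
      · rw [h2] at hk
        have h3 : (N - p v) / p x = k := by
          rw [← hk, Nat.add_sub_cancel]; exact Nat.mul_div_cancel _ hx0
        exact ⟨1, by rw [h3, one_smul, h]⟩
    · exact ⟨0, by rw [zero_smul]⟩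
    · rintro a b ⟨c, h1⟩ ⟨c', h3⟩
      exact ⟨c + c', by rw [h1, h3, add_smul]⟩
    · rintro r a ⟨c, h1⟩
      exact ⟨r * c, by rw [h1, smul_smul]⟩
  obtain ⟨c, h1⟩ := key
  exact ⟨c, _, h1⟩

end words

section rank

variable {ι : Type} [Finite ι] {s : Sul ι}

theorem letter_lt (s : Sul ι) {i j : ι} {L : List ι} (hj : j ∈ L) (h2 : 2 ≤ L.length)
    (hs : (L.map s.deg).sum = s.deg i + 1) : s.deg j + 1 ≤ s.deg i := by
  obtain ⟨A, B, rfl⟩ := List.append_of_mem hj
  have h3 := two_le_sum s A
  have h4 := two_le_sum s B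
  simp only [List.length_append, List.length_cons, List.map_append, List.map_cons,
    List.sum_append, List.sum_cons] at h2 hs
  omega

/-- words of the differential of `i` all of whose letters have the property `T` -/
theorem d_letters (s : Sul ι) (i : ι) (T : ι → Prop)
    (hT : ∀ j, s.deg j + 1 ≤ s.deg i → T j) :
    s.d i ∈ spanOf (sg s.deg) (fun L => (∀ j ∈ L, T j) ∧ (L.map s.deg).sum = s.deg i + 1) :=
  spanOf_mono (fun L hL => ⟨fun j hj => hT j (letter_lt s hj hL.1 hL.2), hL.2⟩) (s.good i)

/-- odd generators are of larger degree than the smallest even generator -/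
theorem odd_gt (h : NC s) (x : ι) (hx : ∀ y, Even (s.deg y) → s.deg x ≤ s.deg y) (v : ι)
    (hv : ¬ Even (s.deg v)) : s.deg x < s.deg v := by
  have hne : Nonempty {i // ¬ Even (s.deg i)} := ⟨⟨v, hv⟩⟩
  obtain ⟨⟨w, hw⟩, hmin⟩ := Finite.exists_min (fun i : {i // ¬ Even (s.deg i)} => s.deg i.1)
  by_contra hc
  have h1 : s.deg w ≤ s.deg v := hmin ⟨v, hv⟩
  have h2 : s.d w = 0 := by
    refine spanOf_false (S := fun L => 2 ≤ L.length ∧ (L.map s.deg).sum = s.deg w + 1) ?_
      (s.good w)
    rintro L ⟨h3, h4⟩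
    obtain ⟨j, hj⟩ : ∃ j, j ∈ L := by
      cases L with
      | nil => simp at h3
      | cons a L => exact ⟨a, by simp⟩
    have h5 := letter_lt s hj h3 h4
    by_cases hje : Even (s.deg j)
    · have := hx j hje; omega
    · have : s.deg w ≤ s.deg j := hmin ⟨j, hje⟩
      omega
  have h3 := h w hw 0 (zero_mem _)
  rw [add_zero, s.D_gen] at h3
  exact h3 h2

/-- with at most two even generators, the even generators are closed -/
theorem rank_two (h : NC s) (hc : Nat.card {i // Even (s.deg i)} ≤ 2) (x : ι)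
    (hx : Even (s.deg x)) : s.d x = 0 := by
  classical
  have hne : Nonempty {i // Even (s.deg i)} := ⟨⟨x, hx⟩⟩
  obtain ⟨⟨y, hy⟩, hmin⟩ := Finite.exists_min (fun i : {i // Even (s.deg i)} => s.deg i.1)
  have hmin' : ∀ z, Even (s.deg z) → s.deg y ≤ s.deg z := fun z hz => hmin ⟨z, hz⟩
  have hodd := odd_gt h y hmin'
  -- the generators of minimal even degree are closed
  have h0 : ∀ z, Even (s.deg z) → s.deg z ≤ s.deg y → s.d z = 0 := by
    intro z hz hzy
    refine spanOf_false (S := fun L => 2 ≤ L.length ∧ (L.map s.deg).sum = s.deg z + 1) ?_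
      (s.good z)
    rintro L ⟨h3, h4⟩
    obtain ⟨j, hj⟩ : ∃ j, j ∈ L := by
      cases L with
      | nil => simp at h3
      | cons a L => exact ⟨a, by simp⟩
    have h5 := letter_lt s hj h3 h4
    by_cases hje : Even (s.deg j)
    · have := hmin' j hje; omega
    · have := hodd j hje; omega
  by_cases hxy : s.deg x ≤ s.deg y
  · exact h0 x hx hxy
  push Not at hxy
  have hyc : s.d y = 0 := h0 y hy le_rfl
  have hy0 : 0 < s.deg y := by have := s.two_le y; omega
  have hnexy : x ≠ y := fun h => by rw [h] at hxy; omega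
  -- all even generators
  have hall : ∀ z, Even (s.deg z) → z = y ∨ z = x := by
    intro z hz
    by_contra hcon
    push Not at hcon
    have : Fintype {i // Even (s.deg i)} := Fintype.ofFinite _
    have h1 : ({⟨z, hz⟩, ⟨y, hy⟩, ⟨x, hx⟩} : Finset {i // Even (s.deg i)}).card = 3 := by
      rw [Finset.card_eq_three]
      exact ⟨⟨z, hz⟩, ⟨y, hy⟩, ⟨x, hx⟩, by simpa using hcon.1, by simpa using hcon.2,
        by simpa using hnexy.symm, rfl⟩
    have h2 := Finset.card_le_univ ({⟨z, hz⟩, ⟨y, hy⟩, ⟨x, hx⟩} : Finset {i // Even (s.deg i)})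
    rw [h1, ← Nat.card_eq_fintype_card] at h2
    omega
  have hyD : s.D (gen _ y) = 0 := by rw [s.D_gen, hyc]
  have hyk : ∀ k, s.D (gen _ y ^ k) = 0 := s.isDer.pow_closed (par_gen_even hy) hyD
  by_cases hO : Nonempty {v // ¬ Even (s.deg v) ∧ s.deg v < s.deg x}
  · obtain ⟨⟨v, hv, hvx⟩, hvmin⟩ := Finite.exists_min
      (fun i : {v // ¬ Even (s.deg v) ∧ s.deg v < s.deg x} => s.deg i.1)
    have hvmin' : ∀ w, ¬ Even (s.deg w) → s.deg w < s.deg x → s.deg v ≤ s.deg w :=
      fun w h1 h2 => hvmin ⟨w, h1, h2⟩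
    have hve : Even (s.deg v + 1) := by
      rw [Nat.even_iff] at hv ⊢; omega
    obtain ⟨c, k, hcv, hck⟩ := span_even hy hy0 hv hve (d_letters s v (fun i => i = y ∨ i = v) (by
      intro j hj
      by_cases hje : Even (s.deg j)
      · rcases hall j hje with rfl | rfl
        · exact Or.inl rfl
        · omega
      · have := hvmin' j hje (by omega); omega))
    have hc0 : c ≠ 0 := by
      intro hc0
      have h3 := h v hv 0 (zero_mem _)
      rw [add_zero, s.D_gen, hcv, hc0, zero_smul] at h3
      exact h3 rfl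
    have hkv := hck hc0
    -- no other odd generator below `x`
    have huniq : ∀ w, ¬ Even (s.deg w) → s.deg w < s.deg x → w = v := by
      by_contra hcon
      push Not at hcon
      obtain ⟨w0, hw01, hw02, hw03⟩ := hcon
      have hne2 : Nonempty {w // ¬ Even (s.deg w) ∧ s.deg w < s.deg x ∧ w ≠ v} :=
        ⟨⟨w0, hw01, hw02, hw03⟩⟩
      obtain ⟨⟨w, hw, hwx, hwv⟩, hwmin⟩ := Finite.exists_min
        (fun i : {w // ¬ Even (s.deg w) ∧ s.deg w < s.deg x ∧ w ≠ v} => s.deg i.1)
      have hwe : Even (s.deg w + 1) := by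
        rw [Nat.even_iff] at hw ⊢; omega
      obtain ⟨c', k', hcw, hck'⟩ := span_even hy hy0 hv hwe
        (d_letters s w (fun i => i = y ∨ i = v) (by
          intro j hj
          by_cases hje : Even (s.deg j)
          · rcases hall j hje with rfl | rfl
            · exact Or.inl rfl
            · omega
          · by_cases hjv : j = v
            · exact Or.inr hjv
            · have h5 : s.deg w ≤ s.deg j := hwmin ⟨j, hje, by omega, hjv⟩
              omega))
      by_cases hc'0 : c' = 0
      · have h3 := h w hw 0 (zero_mem _)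
        rw [add_zero, s.D_gen, hcw, hc'0, zero_smul] at h3
        exact h3 rfl
      · have hkw := hck' hc'0
        have hvw : s.deg v ≤ s.deg w := hvmin' w hw hwx
        have hkk : k ≤ k' := by
          by_contra hcon2
          push Not at hcon2
          have h6 : k' * s.deg y < k * s.deg y := Nat.mul_lt_mul_of_pos_right hcon2 hy0
          omega
        refine h w hw (-((c' / c) • (gen _ y ^ (k' - k) * gen _ v))) ?_ ?_
        · refine neg_mem (Submodule.smul_mem _ _ ?_)
          have h7 : gen (sg s.deg) y ^ (k' - k) * gen _ v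
              = mono _ (List.replicate (k' - k) y ++ [v]) := by
            rw [mono_append, mono_single]
            congr 1
            simp [mono]
          rw [h7]
          refine mono_mem ⟨?_, ?_, ?_⟩
          · intro hm
            rcases List.mem_append.1 hm with hm | hm
            · have := (List.mem_replicate.1 hm).2
              rw [this] at hw
              exact hw hy
            · rw [List.mem_singleton] at hm
              exact hwv hm
          · simp
          · have h8 : (k' - k) * s.deg y = k' * s.deg y - k * s.deg y := Nat.sub_mul _ _ _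
            simp only [List.map_append, List.map_replicate, List.sum_append,
              List.sum_replicate, List.map_cons, List.map_nil, List.sum_cons, List.sum_nil,
              smul_eq_mul, add_zero]
            omega
        · have h9 : s.D (gen (sg s.deg) y ^ (k' - k) * gen _ v)
              = c • gen _ y ^ k' := by
            rw [s.isDer.mul, hyk, zero_mul, zero_add,
              tau_even (par_pow0 (par_gen_even hy) _), s.D_gen, hcv, mul_smul_comm, ← pow_add,
              Nat.sub_add_cancel hkk]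
          rw [map_add, map_neg, map_smul, h9, s.D_gen, hcw, smul_smul, div_mul_cancel₀ _ hc0,
            add_neg_cancel]
    have hxo : ¬ Even (s.deg x + 1) := by
      rw [Nat.even_iff] at hx ⊢; omega
    obtain ⟨c'', j, hcx⟩ := span_odd hy hy0 hv hxo (d_letters s x (fun i => i = y ∨ i = v) (by
      intro j hj
      by_cases hje : Even (s.deg j)
      · rcases hall j hje with rfl | rfl
        · exact Or.inl rfl
        · omega
      · exact Or.inr (huniq j hje (by omega))))
    have h10 : s.D (s.d x) = 0 := by rw [← s.D_gen, s.D_D]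
    rw [hcx, map_smul, s.isDer.mul, hyk, zero_mul, zero_add,
      tau_even (par_pow0 (par_gen_even hy) _), s.D_gen, hcv, mul_smul_comm, ← pow_add,
      smul_smul] at h10
    have h11 : ∀ m, gen (sg s.deg) y ^ m ≠ 0 := by
      intro m hm
      have h12 := congrArg (pr s.deg) hm
      rw [map_pow, pr_even hy, map_zero] at h12
      exact pow_ne_zero m (MvPolynomial.X_ne_zero _) h12
    rcases smul_eq_zero.1 h10 with h12 | h12
    · rcases mul_eq_zero.1 h12 with h13 | h13
      · rw [hcx, h13, zero_smul]
      · exact absurd h13 hc0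
    · exact absurd h12 (h11 _)
  · refine spanOf_false (S := fun L => (∀ j ∈ L, j = y) ∧ (L.map s.deg).sum = s.deg x + 1) ?_
      (d_letters s x (fun i => i = y) ?_)
    · rintro L ⟨h1, h2⟩
      have h3 : Even (L.map s.deg).sum := by
        clear h2
        induction L with
        | nil => simp
        | cons a L ih =>
          rw [List.map_cons, List.sum_cons]
          refine Even.add ?_ (ih (fun j hj => h1 j (List.mem_cons_of_mem _ hj)))
          rw [h1 a (by simp)]; exact hy
      rw [h2, Nat.even_iff] at h3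
      rw [Nat.even_iff] at hx
      omega
    · intro j hj
      by_cases hje : Even (s.deg j)
      · rcases hall j hje with rfl | rfl
        · rfl
        · omega
      · exact absurd ⟨⟨j, hje, by omega⟩⟩ hO

theorem anick_even_two (ι : Type) [Finite ι] (s : Sul ι)
    (h : Nat.card {i // Even (s.deg i)} ≤ 2) (n : ℕ) : s.Anick n := by
  refine anick_of_nc (fun ι p => Nat.card {i // Even (p i)} ≤ 2 ∧ Finite ι) ?_ ?_ _ ι s
    ⟨h, inferInstance⟩ le_rfl n
  · rintro ι p v hv ⟨h1, h2⟩
    refine ⟨le_trans ?_ h1, inferInstance⟩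
    refine Nat.card_le_card_of_injective
      (fun i : {i : {i : ι // i ≠ v} // Even (qd p v i)} => (⟨i.1.1, i.2⟩ : {i // Even (p i)})) ?_
    intro a b hab
    apply Subtype.ext
    apply Subtype.ext
    exact congrArg (fun x : {i // Even (p i)} => x.1) hab
  · rintro ι _ s ⟨h1, -⟩ h2 n
    exact base0 ι s (fun i hi => rank_two h2 h1 i hi) n

end rank

end Run7.h985
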