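import Pool.Agent.Run7.h985.Base0

/-!
# Anick's conjecture for Sullivan algebras whose even generators are cocycles modulo a stable
set of odd generators

Let `(ΛW, d)` be a minimal Sullivan algebra with `dim W < ∞` and `W^1 = 0`, with a homogeneous
basis which contains a subset `V₀` of odd generators such that `d V₀ ⊆ (V₀)` and
`d W^even ⊆ (V₀)`. Then for every `n` it has an elliptic relative Sullivan extension, minimal as a
Sullivan algebra, by finitely many generators of degree at least `n`.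
-/

set_option autoImplicit false

namespace Run7.h985.OddKernel

section Defs

variable {ι A : Type} [Ring A] [Algebra ℚ A]

/-- the family `v` satisfies the relations `v_i v_j = (-1)^(deg i * deg j) v_j v_i` -/
def GradedCommute (deg : ι → ℕ) (v : ι → A) : Prop :=
  ∀ i j, v i * v j = ((-1 : ℚ) ^ (deg i * deg j)) • (v j * v i)

/-- `A` is the free graded commutative algebra `ΛV` on the graded vector space `V` with
homogeneous basis `v_i` (`i : ι`), `v_i` of degree `deg i`: the universal property -/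
def IsFreeGC (deg : ι → ℕ) (v : ι → A) : Prop :=
  GradedCommute deg v ∧ ∀ (B : Type) [Ring B] [Algebra ℚ B] (f : ι → B), GradedCommute deg f →
    ∃! φ : A →ₐ[ℚ] B, ∀ i, φ (v i) = f i

/-- the span of the products `v_{i_1} ... v_{i_k}` of the words with property `P` -/
def spanWords (v : ι → A) (P : List ι → Prop) : Submodule ℚ A :=
  Submodule.span ℚ {a | ∃ L : List ι, P L ∧ a = (L.map v).prod}

/-- the homogeneous elements of degree `n` -/
def homog (deg : ι → ℕ) (v : ι → A) (n : ℕ) : Submodule ℚ A :=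
  spanWords v (fun L => (L.map deg).sum = n)

/-- `d` makes `A = ΛV` a minimal Sullivan algebra with `V^1 = 0` -/
structure IsMinimalSullivan (deg : ι → ℕ) (v : ι → A) (d : A →ₗ[ℚ] A) : Prop where
  /-- `A` is `ΛV` -/
  free : IsFreeGC deg v
  /-- all generators have degree at least 2 -/
  two_le : ∀ i, 2 ≤ deg i
  /-- the differential has degree `+1` -/
  degree : ∀ n, ∀ a ∈ homog deg v n, d a ∈ homog deg v (n + 1)
  /-- the Leibniz rule -/
  leibniz : ∀ n, ∀ a ∈ homog deg v n, ∀ b, d (a * b) = d a * b + ((-1 : ℚ) ^ n) • (a * d b)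
  /-- `d ∘ d = 0` -/
  sq : ∀ a, d (d a) = 0
  /-- minimality: `d V ⊆ Λ^{≥2} V` -/
  minimal : ∀ i, d (v i) ∈ spanWords v (fun L => 2 ≤ L.length)

/-- the ideal generated by the generators `v_j`, `j ∈ T`: the span of the products of generators
with a factor `v_j`, `j ∈ T` -/
def idealOf (v : ι → A) (T : Set ι) : Submodule ℚ A :=
  spanWords v (fun L => ∃ j ∈ L, j ∈ T)

/-- the cohomology of `(A, d)` -/
abbrev Cohomology (d : A →ₗ[ℚ] A) : Type :=
  ↥(LinearMap.ker d) ⧸ (LinearMap.range d).comap (LinearMap.ker d).subtype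

/-- the Sullivan algebra `(A, d) = (ΛW, d)`, `W` with basis `v_i` (`i : ι`), has an elliptic
relative Sullivan extension `(E, d') = (ΛW ⊗ ΛV, d')`, minimal as a Sullivan algebra, with `V` of
finite dimension and `V = V^{≥ n}`: the basis of `W ⊕ V` is indexed by `ι ⊕ κ`, and `j` is the
inclusion `(ΛW, d) → (ΛW ⊗ ΛV, d')`. -/
def HasEllipticExtension (deg : ι → ℕ) (v : ι → A) (d : A →ₗ[ℚ] A) (n : ℕ) : Prop :=
  ∃ (κ : Type) (_ : Finite κ) (E : Type) (_ : Ring E) (_ : Algebra ℚ E) (deg' : ι ⊕ κ → ℕ)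
    (v' : ι ⊕ κ → E) (d' : E →ₗ[ℚ] E) (j : A →ₐ[ℚ] E),
    IsMinimalSullivan deg' v' d' ∧ (∀ i, deg' (Sum.inl i) = deg i) ∧
    (∀ i, j (v i) = v' (Sum.inl i)) ∧ (∀ a, j (d a) = d' (j a)) ∧
    (∀ k, n ≤ deg' (Sum.inr k)) ∧ Module.Finite ℚ (Cohomology d')

end Defs

open Pool.H582SA Run7.h985

section FGC

variable {ι : Type} {p : ι → ℕ}

theorem spanWords_eq (P : List ι → Prop) : spanWords (gen (sg p)) P = spanOf (sg p) P := by
  unfold spanWords spanOf
  congr 1
  ext a
  constructor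
  · rintro ⟨L, hL, rfl⟩; exact ⟨L, hL, rfl⟩
  · rintro ⟨L, hL, rfl⟩; exact ⟨L, hL, rfl⟩

theorem free (p : ι → ℕ) : IsFreeGC p (gen (sg p)) := by
  refine ⟨fun i j => gen_comm i j, ?_⟩
  intro B _ _ f hf
  refine ⟨lift f hf, fun i => lift_gen f hf i, ?_⟩
  intro φ hφ
  exact alg_ext _ _ (fun i => by rw [lift_gen]; exact hφ i)

theorem isMin (t : Sul ι) : IsMinimalSullivan t.deg (gen (sg t.deg)) t.D := by
  refine ⟨free t.deg, t.two_le, fun n a ha => ?_, fun n a ha b => ?_, t.D_D, fun i => ?_⟩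
  · unfold homog at ha ⊢
    rw [spanWords_eq] at ha ⊢
    refine mkD_mem (fun i M => (M.map t.deg).sum = t.deg i + 1)
      (fun i => spanOf_mono (fun _ hL => hL.2) (t.good i)) ?_ ha
    rintro L hL W ⟨L1, i, L2, M, rfl, hM, rfl⟩
    simp only [List.map_append, List.map_cons, List.sum_append, List.sum_cons] at hL ⊢
    omega
  · unfold homog at ha
    rw [spanWords_eq] at ha
    rw [t.isDer.mul, tau_par (spanOf_mono (fun _ hL => by rw [hL]) ha), smul_mul_assoc]
  · rw [spanWords_eq, t.D_gen]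
    exact spanOf_mono (fun _ hL => hL.1) (t.good i)

end FGC

section transfer

variable {ι A : Type} [Ring A] [Algebra ℚ A] {deg : ι → ℕ} {v : ι → A} {d : A →ₗ[ℚ] A}

theorem iso (h : IsFreeGC deg v) : ∃ (φ : A →ₐ[ℚ] FGC (sg deg)) (ψ : FGC (sg deg) →ₐ[ℚ] A),
    (∀ i, φ (v i) = gen _ i) ∧ (∀ i, ψ (gen _ i) = v i) ∧ (∀ a, ψ (φ a) = a) ∧
    ∀ a, φ (ψ a) = a := by
  obtain ⟨φ, hφ, -⟩ := h.2 (FGC (sg deg)) (gen (sg deg)) (fun i j => gen_comm i j)
  let ψ : FGC (sg deg) →ₐ[ℚ] A := lift v h.1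
  have hψ : ∀ i, ψ (gen _ i) = v i := fun i => lift_gen v h.1 i
  refine ⟨φ, ψ, hφ, hψ, ?_, ?_⟩
  · intro a
    obtain ⟨χ, -, hχ⟩ := h.2 A v h.1
    have h1 := hχ (ψ.comp φ) (fun i => by rw [AlgHom.comp_apply, hφ, hψ])
    have h2 := hχ (AlgHom.id ℚ A) (fun i => rfl)
    exact DFunLike.congr_fun (h1.trans h2.symm) a
  · intro a
    have : φ.comp ψ = AlgHom.id ℚ _ := alg_ext _ _ (fun i => by
      rw [AlgHom.comp_apply, hψ, hφ]; rfl)
    exact DFunLike.congr_fun this a

theorem map_span {B : Type} [Ring B] [Algebra ℚ B] {v' : ι → B} (φ : A →ₐ[ℚ] B)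
    (hφ : ∀ i, φ (v i) = v' i) {P : List ι → Prop} {a : A} (ha : a ∈ spanWords v P) :
    φ a ∈ spanWords v' P := by
  unfold spanWords at ha
  induction ha using Submodule.span_induction with
  | mem x hx =>
    obtain ⟨L, hL, rfl⟩ := hx
    refine Submodule.subset_span ⟨L, hL, ?_⟩
    rw [map_list_prod, List.map_map]
    congr 1
    apply List.map_congr_left
    intro i _
    exact hφ i
  | zero => rw [map_zero]; exact zero_mem _
  | add x y _ _ hx hy => rw [map_add]; exact add_mem hx hy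
  | smul r x _ hx => rw [map_smul]; exact Submodule.smul_mem _ _ hx

theorem exists_sul (h : IsMinimalSullivan deg v d) : ∃ (s : Sul ι) (_ : s.deg = deg)
    (φ : A →ₐ[ℚ] FGC (sg s.deg)), (∀ i, φ (v i) = gen _ i) ∧ (∀ a, φ (d a) = s.D (φ a)) := by
  obtain ⟨φ, ψ, hφ, hψ, hψφ, hφψ⟩ := iso h.free
  have hv : ∀ i, v i ∈ homog deg v (deg i) := fun i => Submodule.subset_span ⟨[i], by simp, by simp⟩
  have hgood : ∀ i, φ (d (v i)) ∈ spanOf (sg deg)
      (fun L => 2 ≤ L.length ∧ (L.map deg).sum = deg i + 1) := by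
    intro i
    have h1 := map_span φ hφ (h.minimal i)
    have h2 := map_span φ hφ (h.degree _ _ (hv i))
    rw [spanWords_eq] at h1 h2
    exact spanOf_inter deg (fun m => m = deg i + 1) h1 h2
  let D0 : FGC (sg deg) →ₗ[ℚ] FGC (sg deg) := mkD (fun i => φ (d (v i)))
    (fun i => spanOf_mono (fun _ hL => by rw [hL.2]) (hgood i))
  have hD0 : D0 = φ.toLinearMap ∘ₗ d ∘ₗ ψ.toLinearMap := by
    refine der_ext _ _ id (tau _) (mkD_mul _ _) ?_ ?_ ?_
    · intro a b
      simp only [LinearMap.comp_apply, AlgHom.toLinearMap_apply, id, map_mul]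
      refine mono_induct (P := fun a => φ (d (ψ a * ψ b))
        = φ (d (ψ a)) * b + tau deg a * φ (d (ψ b))) ?_ ?_ ?_ ?_ a
      · intro L
        have h1 : ψ (mono (sg deg) L) ∈ homog deg v ((L.map deg).sum) := by
          refine map_span (v := gen (sg deg)) ψ hψ ?_
          rw [spanWords_eq]
          exact mono_mem rfl
        rw [h.leibniz _ _ h1, map_add, map_mul, map_smul, map_mul, hφψ, hφψ, tau_mono,
          smul_mul_assoc]
      · simp
      · intro a b h1 h2
        rw [map_add, add_mul, map_add, map_add, h1, h2, map_add, map_add, map_add, add_mul,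
          add_mul]
        abel
      · intro r a h1
        rw [map_smul, smul_mul_assoc, map_smul, map_smul, h1, map_smul, map_smul, map_smul,
          smul_mul_assoc, smul_mul_assoc, smul_add]
    · have h1 : d 1 = 0 := by
        have h2 := h.leibniz 0 1 (Submodule.subset_span ⟨[], by simp, by simp⟩) 1
        rw [mul_one, pow_zero, one_smul, one_mul, mul_one] at h2
        exact left_eq_add.mp h2
      change mkD _ _ 1 = φ (d (ψ 1))
      rw [mkD_one, map_one, h1, map_zero]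
    · intro i
      change mkD _ _ (gen _ i) = φ (d (ψ (gen _ i)))
      rw [mkD_gen, hψ]
  have hD1 : ∀ a, D0 a = φ (d (ψ a)) := fun a => by rw [hD0]; rfl
  refine ⟨⟨deg, h.two_le, fun i => φ (d (v i)), hgood, ?_⟩, rfl, φ, hφ, ?_⟩
  · intro i
    change D0 (φ (d (v i))) = 0
    rw [hD1, hψφ, h.sq, map_zero]
  · intro a
    change φ (d a) = D0 (φ a)
    rw [hD1, hψφ]

theorem of_sul {s : Sul ι} [Finite ι] (φ : A →ₐ[ℚ] FGC (sg s.deg))
    (hφ : ∀ i, φ (v i) = gen _ i) (hd : ∀ a, φ (d a) = s.D (φ a)) {n : ℕ} (h : s.Anick n) :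
    HasEllipticExtension s.deg v d n := by
  obtain ⟨κ, hκ, t, ⟨hdeg, hext⟩, hn, hell⟩ := h
  have hfin : Finite (ι ⊕ κ) := inferInstance
  refine ⟨κ, hκ, FGC (sg t.deg), inferInstance, inferInstance, t.deg, gen _, t.D,
    (emb (p := s.deg) Sum.inl hdeg).comp φ, isMin t, hdeg, ?_, ?_, hn,
    fin_coh t.isDer t.D_D hell⟩
  · intro i
    rw [AlgHom.comp_apply, hφ, emb_gen]
  · intro a
    rw [AlgHom.comp_apply, AlgHom.comp_apply, hd]
    refine (der_emb s.isDer t.isDer _ _ ?_ _).symm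
    intro i
    rw [t.D_gen, s.D_gen]
    exact hext i

theorem mem_has {s : Sul ι} (φ : A →ₐ[ℚ] FGC (sg s.deg))
    (hφ : ∀ i, φ (v i) = gen _ i) (hd : ∀ a, φ (d a) = s.D (φ a)) {T : Set ι} {i : ι}
    (h : d (v i) ∈ idealOf v T) : s.d i ∈ spanOf (sg s.deg) (Has (fun j => j ∈ T)) := by
  have h1 := map_span φ hφ h
  rw [spanWords_eq, hd, hφ, s.D_gen] at h1
  exact h1

end transfer

/-- Anick's conjecture (in the form: elliptic relative Sullivan extensions by generators of high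
degree exist) for the minimal Sullivan algebras `(ΛW, d)`, `dim W < ∞`, `W^1 = 0`, which have a
homogeneous basis with a subset `V₀` of odd generators such that `d V₀ ⊆ (V₀)` and
`d W^even ⊆ (V₀)`. -/
theorem result {ι A : Type} [Finite ι] [Ring A] [Algebra ℚ A] (deg : ι → ℕ) (v : ι → A)
    (d : A →ₗ[ℚ] A) (h : IsMinimalSullivan deg v d) (V₀ : Set ι)
    (hodd : ∀ i ∈ V₀, Odd (deg i)) (hV : ∀ i ∈ V₀, d (v i) ∈ idealOf v V₀)
    (hE : ∀ i, Even (deg i) → d (v i) ∈ idealOf v V₀) (n : ℕ) :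
    HasEllipticExtension deg v d n := by
  obtain ⟨s, hs, φ, hφ, hd⟩ := exists_sul h
  subst hs
  refine of_sul φ hφ hd (anick0 ι s (fun j => j ∈ V₀) ?_ n)
  refine ⟨fun i hi => Nat.not_even_iff_odd.2 (hodd i hi), fun i hi => hi.elim,
    fun i hi => mem_has φ hφ hd (hV i hi), fun i hi => hi.elim, fun i hi => ?_⟩
  refine spanOf_mono ?_ (mem_has φ hφ hd (hE i hi))
  rintro L ⟨j, hj, hT⟩
  exact ⟨j, hj, Or.inl hT⟩

end Run7.h985.OddKernel
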