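import Pool.Agent.Run7.h985.Td2

/-!
# At most two odd generators below the even generators (MP_5f0082_gt, helper985)
-/

set_option autoImplicit false
set_option maxHeartbeats 400000

namespace Run7.h985

open Pool.H582SA

theorem make_td {ι : Type} (s : Sul ι) (v w : ι) (hv : ¬ Even (s.deg v)) (hw : ¬ Even (s.deg w))
    (hvw : v ≠ w) (P1 P2 : MvPolynomial (Ev s.deg) ℚ) (h1 : s.d v = ev _ P1)
    (h2 : s.d w = ev _ P2) (n1 : P1 ≠ 0) (n2 : P2 ≠ 0)
    (hx : ∀ x : Ev s.deg, ∃ g1 g2, s.d x.1 = ev _ g1 * gen _ v + ev _ g2 * gen _ w) :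
    Nonempty (TD s) := by
  classical
  obtain ⟨p1, p2, G, rel, e1, e2⟩ := UniqueFactorizationMonoid.exists_reduced_factors P1 n1 P2
  subst e1
  subst e2
  have nG : G ≠ 0 := left_ne_zero_of_mul n1
  have np1 : p1 ≠ 0 := right_ne_zero_of_mul n1
  have np2 : p2 ≠ 0 := right_ne_zero_of_mul n2
  have key : ∀ x : Ev s.deg, ∃ h, s.d x.1
      = ev _ h * (ev _ p2 * gen _ v - ev _ p1 * gen _ w) := by
    intro x
    obtain ⟨g1, g2, hg⟩ := hx x
    have h3 : pr s.deg (s.D (s.d x.1)) = 0 := by rw [← s.D_gen, s.D_D, map_zero]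
    rw [hg, map_add, s.isDer.even_mul (ev_par _), s.isDer.even_mul (ev_par _), s.D_gen, s.D_gen,
      h1, h2] at h3
    simp only [map_add, map_mul, pr_odd hv, pr_odd hw, pr_ev, mul_zero, zero_add] at h3
    have h4 : g1 * p1 + g2 * p2 = 0 := by
      refine (mul_eq_zero.1 (?_ : G * (g1 * p1 + g2 * p2) = 0)).resolve_left nG
      linear_combination h3
    have h5 : p2 ∣ g1 := by
      refine rel.symm.dvd_of_dvd_mul_right (?_ : p2 ∣ g1 * p1)
      exact ⟨-g2, by linear_combination h4⟩
    obtain ⟨h, rfl⟩ := h5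
    have h6 : g2 = -(h * p1) := by
      refine mul_right_cancel₀ np2 ?_
      linear_combination h4
    refine ⟨h, ?_⟩
    rw [hg, h6, map_neg, neg_mul, ← sub_eq_add_neg, mul_sub, ← mul_assoc, ← mul_assoc, ← map_mul,
      ← map_mul, mul_comm p2 h]
  choose h hh using key
  exact ⟨⟨v, w, hv, hw, hvw, p1, p2, G, h, np1, np2, nG, rel, h1, h2, hh⟩⟩

theorem base_odd_two (ι : Type) [Finite ι] (s : Sul ι) (M : ℕ)
    (hM : ∀ i, Even (s.deg i) → s.deg i ≤ M)
    (hO : Nat.card {i // ¬ Even (s.deg i) ∧ s.deg i < M} ≤ 2) (h : NC s) (n : ℕ) :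
    s.Anick n := by
  classical
  have hne : ∀ v, ¬ Even (s.deg v) → s.d v = ev _ (pr _ (s.d v)) → pr _ (s.d v) ≠ 0 := by
    intro v hv h1 h2
    have h3 := h v hv 0 (zero_mem _)
    rw [add_zero, s.D_gen, h1, h2, map_zero] at h3
    exact h3 rfl
  by_cases h2 : ∃ v w, ¬ Even (s.deg v) ∧ s.deg v < M ∧ ¬ Even (s.deg w) ∧ s.deg w < M ∧ v ≠ w ∧
      s.deg v ≤ s.deg w
  · obtain ⟨v, w, hv, hvM, hw, hwM, hvw, hle⟩ := h2
    have hall : ∀ j, ¬ Even (s.deg j) → s.deg j < M → j = v ∨ j = w := by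
      intro z hz hzM
      by_contra hcon
      push Not at hcon
      have : Fintype {i // ¬ Even (s.deg i) ∧ s.deg i < M} := Fintype.ofFinite _
      have h1 : ({⟨z, hz, hzM⟩, ⟨v, hv, hvM⟩, ⟨w, hw, hwM⟩} :
          Finset {i // ¬ Even (s.deg i) ∧ s.deg i < M}).card = 3 := by
        rw [Finset.card_eq_three]
        exact ⟨⟨z, hz, hzM⟩, ⟨v, hv, hvM⟩, ⟨w, hw, hwM⟩, by simpa using hcon.1,
          by simpa using hcon.2, by simpa using hvw, rfl⟩
      have h2 := Finset.card_le_univ ({⟨z, hz, hzM⟩, ⟨v, hv, hvM⟩, ⟨w, hw, hwM⟩} :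
          Finset {i // ¬ Even (s.deg i) ∧ s.deg i < M})
      rw [h1, ← Nat.card_eq_fintype_card] at h2
      omega
    have d1 : s.d v = ev _ (pr _ (s.d v)) := by
      refine none_even (spanOf_mono (fun L hL => hL.1) (d_letters s v (fun j => Even (s.deg j)) ?_))
      intro j hj
      by_contra hc
      rcases hall j hc (by omega) with rfl | rfl <;> omega
    have d2 : s.d w = ev _ (pr _ (s.d w)) := by
      refine one_even hv (spanOf_mono (fun L hL => hL.1)
        (d_letters s w (fun j => ¬ Even (s.deg j) → j = v) ?_)) ?_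
      · intro j hj hc
        rcases hall j hc (by omega) with rfl | rfl
        · rfl
        · omega
      · rw [Nat.even_iff] at hw
        exact par_cong (by omega) (s.par w)
    obtain ⟨t⟩ := make_td s v w hv hw hvw _ _ d1 d2 (hne v hv d1) (hne w hw d2) (by
      rintro ⟨x, hx⟩
      refine two_odd hv hw (spanOf_mono (fun L hL => hL.1)
        (d_letters s x (fun j => ¬ Even (s.deg j) → j = v ∨ j = w) ?_)) ?_
      · intro j hj hc
        have := hM x hx
        exact hall j hc (by omega)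
      · rw [Nat.even_iff] at hx
        exact par_cong (by omega) (s.par x))
    exact t.anick n
  · have hsub : ∀ v w, ¬ Even (s.deg v) → s.deg v < M → ¬ Even (s.deg w) → s.deg w < M →
        w = v := by
      intro v w hv hvM hw hwM
      by_contra hc
      rcases Nat.le_total (s.deg v) (s.deg w) with h3 | h3
      · exact h2 ⟨v, w, hv, hvM, hw, hwM, Ne.symm hc, h3⟩
      · exact h2 ⟨w, v, hw, hwM, hv, hvM, hc, h3⟩
    refine base0 ι s ?_ n
    intro x hx
    have hxM := hM x hx
    have hxo : s.d x ∈ Par s.deg 1 := by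
      have hx' := hx
      rw [Nat.even_iff] at hx'
      exact par_cong (by omega) (s.par x)
    by_cases h1 : ∃ v, ¬ Even (s.deg v) ∧ s.deg v < M
    · obtain ⟨v, hv, hvM⟩ := h1
      obtain ⟨a1, a2, h3⟩ := two_odd hv hv (spanOf_mono (fun L hL => hL.1)
        (d_letters s x (fun j => ¬ Even (s.deg j) → j = v ∨ j = v) (by
          intro j hj hc
          exact Or.inl (hsub v j hv hvM hc (by omega))))) hxo
      have d1 : s.d v = ev _ (pr _ (s.d v)) := by
        refine none_even (spanOf_mono (fun L hL => hL.1)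
          (d_letters s v (fun j => Even (s.deg j)) ?_))
        intro j hj
        by_contra hc
        rw [hsub v j hv hvM hc (by omega)] at hj
        omega
      have n1 := hne v hv d1
      have h4 : pr s.deg (s.D (s.d x)) = 0 := by rw [← s.D_gen, s.D_D, map_zero]
      rw [h3, ← add_mul, ← map_add, s.isDer.even_mul (ev_par _), s.D_gen, map_add, map_mul,
        pr_odd hv, mul_zero, zero_add, map_mul, pr_ev] at h4
      have h5 := (mul_eq_zero.1 h4).resolve_right n1
      rw [h3, ← add_mul, ← map_add, h5, map_zero, zero_mul]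
    · refine none_odd (spanOf_mono (fun L hL => hL.1)
        (d_letters s x (fun j => Even (s.deg j)) ?_)) hxo
      intro j hj
      by_contra hc
      exact h1 ⟨j, hc, by omega⟩

/-- at most two odd generators below the even generators -/
def OT (ι : Type) (p : ι → ℕ) : Prop :=
  Finite ι ∧ ∃ M, (∀ i, Even (p i) → p i ≤ M) ∧ Nat.card {i // ¬ Even (p i) ∧ p i < M} ≤ 2

theorem anick_odd_two (ι : Type) [Finite ι] (s : Sul ι) (h : OT ι s.deg) (n : ℕ) :
    s.Anick n := by
  refine anick_of_nc OT ?_ ?_ _ ι s h le_rfl n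
  · rintro ι p v hv ⟨h1, M, h2, h3⟩
    refine ⟨inferInstance, M, fun i hi => h2 i.1 hi, le_trans ?_ h3⟩
    refine Nat.card_le_card_of_injective
      (fun i : {i : {i : ι // i ≠ v} // ¬ Even (qd p v i) ∧ qd p v i < M} =>
        (⟨i.1.1, i.2⟩ : {i // ¬ Even (p i) ∧ p i < M})) ?_
    intro a b hab
    apply Subtype.ext
    apply Subtype.ext
    exact congrArg (fun x : {i // ¬ Even (p i) ∧ p i < M} => x.1) hab
  · rintro ι _ s ⟨h1, M, h2, h3⟩ h4 n
    exact base_odd_two ι s M h2 h3 h4 n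

end Run7.h985
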