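import Pool.Agent.Run7.h985.Quo

/-!
# Lifting elliptic extensions along a closed odd generator (MP_5f0082_gt, helper985)
-/

set_option autoImplicit false
set_option maxHeartbeats 400000

namespace Run7.h985

open Pool.H582SA

namespace P1

variable {ι κ : Type} (s : Sul ι) {v : ι} (hv : ¬ Even (s.deg v))
  (t : Sul ({i : ι // i ≠ v} ⊕ κ)) (n0 : ℕ)

/-- the degree drop of `θ` -/
def cc (s : Sul ι) (v : ι) : ℕ := s.deg v - 1

/-- index set of the new generators -/
abbrev KK (s : Sul ι) (v : ι) (t : Sul ({i : ι // i ≠ v} ⊕ κ)) (n0 : ℕ) : Type :=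
  {kj : κ × ℕ // n0 + kj.2 * cc s v ≤ t.deg (Sum.inr kj.1)}

/-- degrees of all generators -/
def pE (s : Sul ι) (v : ι) (t : Sul ({i : ι // i ≠ v} ⊕ κ)) (n0 : ℕ) : ι ⊕ KK s v t n0 → ℕ :=
  Sum.elim s.deg (fun x => t.deg (Sum.inr x.1.1) - x.1.2 * cc s v)

open Classical in
/-- the new generators, zero out of range -/
noncomputable def yy (s : Sul ι) (v : ι) (t : Sul ({i : ι // i ≠ v} ⊕ κ)) (n0 : ℕ)
    (k : κ) (j : ℕ) : FGC (sg (pE s v t n0)) :=
  if h : n0 + j * cc s v ≤ t.deg (Sum.inr k) then gen _ (Sum.inr ⟨(k, j), h⟩) else 0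

/-- embedding of the quotient -/
noncomputable def em0 (s : Sul ι) (v : ι) (t : Sul ({i : ι // i ≠ v} ⊕ κ)) (n0 : ℕ) :
    FGC (sg (qd s.deg v)) →ₐ[ℚ] FGC (sg (pE s v t n0)) :=
  emb (fun i => Sum.inl i.1) (fun _ => rfl)

open Classical in
/-- values of the even derivation on generators -/
noncomputable def thE (s : Sul ι) {v : ι} (hv : ¬ Even (s.deg v))
    (t : Sul ({i : ι // i ≠ v} ⊕ κ)) (n0 : ℕ) : ι ⊕ KK s v t n0 → FGC (sg (pE s v t n0))
  | Sum.inl i => if h : i ≠ v then em0 s v t n0 (s.th hv ⟨i, h⟩) else 0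
  | Sum.inr x => yy s v t n0 x.1.1 (x.1.2 + 1)

/-- the pattern of the even derivation -/
def SE (s : Sul ι) (v : ι) (t : Sul ({i : ι // i ≠ v} ⊕ κ)) (n0 : ℕ) (x : ι ⊕ KK s v t n0)
    (M : List (ι ⊕ KK s v t n0)) : Prop :=
  1 ≤ M.length ∧ (M.map (pE s v t n0)).sum + cc s v = pE s v t n0 x ∧
    (∀ y, x = Sum.inr y → ∃ z, Sum.inr z ∈ M)

theorem thE_mem (x : ι ⊕ KK s v t n0) :
    thE s hv t n0 x ∈ spanOf (sg (pE s v t n0)) (SE s v t n0 x) := by
  have hdv : 1 ≤ s.deg v := by have := s.two_le v; omega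
  rcases x with i | ⟨⟨k, j⟩, hx⟩
  · by_cases h : i ≠ v
    · simp only [thE, dif_pos h]
      refine emb_mem _ _ ?_ (s.th_good hv ⟨i, h⟩)
      rintro L ⟨h1, h2⟩
      refine ⟨by rw [List.length_map]; exact h1, ?_, fun y hy => by cases hy⟩
      rw [map_deg_sum (p := qd s.deg v) (p' := pE s v t n0)
        (fun i : {i : ι // i ≠ v} => Sum.inl i.1) (fun _ => rfl)]
      have h3 : qd s.deg v ⟨i, h⟩ = s.deg i := rfl
      have h4 : pE s v t n0 (Sum.inl i) = s.deg i := rfl
      rw [h4]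
      rw [h3] at h2
      unfold cc
      omega
    · simp only [thE, dif_neg h]
      exact zero_mem _
  · simp only [thE, yy]
    split_ifs with h
    · rw [← mono_single]
      refine mono_mem ⟨by simp, ?_, fun y hy => ⟨⟨(k, j + 1), h⟩, by simp⟩⟩
      have h4 : pE s v t n0 (Sum.inr ⟨(k, j), hx⟩) = t.deg (Sum.inr k) - j * cc s v := rfl
      have h5 : pE s v t n0 (Sum.inr ⟨(k, j + 1), h⟩) = t.deg (Sum.inr k) - (j + 1) * cc s v := rfl
      have h6 : (j + 1) * cc s v = j * cc s v + cc s v := by ring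
      simp only [List.map_cons, List.map_nil, List.sum_cons, List.sum_nil]
      rw [h4, h5]
      omega
    · exact zero_mem _

theorem cc_even (hv : ¬ Even (s.deg v)) : cc s v % 2 = 0 := by
  unfold cc
  rw [Nat.not_even_iff] at hv
  omega

theorem thE_par (x : ι ⊕ KK s v t n0) : thE s hv t n0 x ∈ Par (pE s v t n0) (pE s v t n0 x) := by
  refine spanOf_mono ?_ (thE_mem s hv t n0 x)
  rintro L ⟨-, h, -⟩
  have := cc_even s hv
  omega

/-- the even derivation -/
noncomputable def ThE : FGC (sg (pE s v t n0)) →ₗ[ℚ] FGC (sg (pE s v t n0)) :=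
  mkE (thE s hv t n0) (thE_par s hv t n0)

theorem ThE_mul (a b : FGC (sg (pE s v t n0))) :
    ThE s hv t n0 (a * b) = ThE s hv t n0 a * b + a * ThE s hv t n0 b := mkE_mul _ _ a b

theorem ThE_gen (x : ι ⊕ KK s v t n0) : ThE s hv t n0 (gen _ x) = thE s hv t n0 x := mkE_gen _ _ x

theorem ThE_one : ThE s hv t n0 1 = 0 := mkE_one _ _

theorem ThE_tau (a : FGC (sg (pE s v t n0))) :
    ThE s hv t n0 (tau _ a) = tau _ (ThE s hv t n0 a) := by
  refine mono_induct (P := fun a => ThE s hv t n0 (tau _ a) = tau _ (ThE s hv t n0 a)) ?_ ?_ ?_ ?_ a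
  · intro L
    have h1 : ThE s hv t n0 (mono _ L) ∈ Par (pE s v t n0) ((L.map (pE s v t n0)).sum) :=
      mkE_par (par_mono L)
    rw [tau_mono, map_smul, tau_par h1]
  · simp
  · intro a b h1 h2; rw [map_add, map_add, h1, h2, map_add, map_add]
  · intro r a h1; rw [map_smul, map_smul, h1, map_smul, map_smul]

variable {n0} (hn : ∀ k, n0 ≤ t.deg (Sum.inr k))
  (ht : ∀ i, t.deg (Sum.inl i) = qd s.deg v i)

/-- the map of indices of the given extension -/
def eix (hn : ∀ k, n0 ≤ t.deg (Sum.inr k)) : {i : ι // i ≠ v} ⊕ κ → ι ⊕ KK s v t n0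
  | Sum.inl i => Sum.inl i.1
  | Sum.inr k => Sum.inr ⟨(k, 0), by simpa using hn k⟩

include ht in
theorem eix_deg (x : {i : ι // i ≠ v} ⊕ κ) : pE s v t n0 (eix s t hn x) = t.deg x := by
  rcases x with i | k
  · rw [ht]; rfl
  · simp [eix, pE]

/-- the embedding of the given extension -/
noncomputable def eE : FGC (sg t.deg) →ₐ[ℚ] FGC (sg (pE s v t n0)) :=
  emb (eix s t hn) (eix_deg s t hn ht)

/-- the pattern of the iterated derivatives -/
def PP (s : Sul ι) (v : ι) (t : Sul ({i : ι // i ≠ v} ⊕ κ)) (n0 : ℕ) (k : κ) (j : ℕ)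
    (L : List (ι ⊕ KK s v t n0)) : Prop :=
  2 ≤ L.length ∧ (L.map (pE s v t n0)).sum + j * cc s v = t.deg (Sum.inr k) + 1 ∧
    ((∃ x, Sum.inr x ∈ L) ∨ n0 + 1 ≤ L.length)

theorem sum_le_of_le {α : Type} (f : α → ℕ) (m : ℕ) (L : List α) (h : ∀ x ∈ L, f x ≤ m) :
    (L.map f).sum ≤ L.length * m := by
  induction L with
  | nil => simp
  | cons a L ih =>
    have h1 := h a (by simp)
    have h2 := ih (fun x hx => h x (by simp [hx]))
    simp only [List.map_cons, List.sum_cons, List.length_cons]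
    nlinarith

theorem le_sum_of_le {α : Type} (f : α → ℕ) (m : ℕ) (L : List α) (h : ∀ x ∈ L, m ≤ f x) :
    L.length * m ≤ (L.map f).sum := by
  induction L with
  | nil => simp
  | cons a L ih =>
    have h1 := h a (by simp)
    have h2 := ih (fun x hx => h x (by simp [hx]))
    simp only [List.map_cons, List.sum_cons, List.length_cons]
    nlinarith

theorem iter_mem {m : ℕ} (hm : ∀ i, s.deg i ≤ m) (hnm : ∀ k, n0 * m ≤ t.deg (Sum.inr k))
    (k : κ) (j : ℕ) :
    (ThE s hv t n0)^[j] (eE s t hn ht (t.d (Sum.inr k)))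
      ∈ spanOf (sg (pE s v t n0)) (PP s v t n0 k j) := by
  induction j with
  | zero =>
    refine emb_mem _ _ ?_ (t.good (Sum.inr k))
    rintro L ⟨h1, h2⟩
    refine ⟨by rw [List.length_map]; exact h1, ?_, ?_⟩
    · rw [map_deg_sum (p := t.deg) _ (eix_deg s t hn ht), h2]; simp
    · by_cases h : ∃ x, Sum.inr x ∈ L
      · obtain ⟨x, hx⟩ := h
        exact Or.inl ⟨_, List.mem_map.2 ⟨_, hx, rfl⟩⟩
      · right
        push Not at h
        rw [List.length_map]
        by_contra hlt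
        have h3 : ∀ x ∈ L, t.deg x ≤ m := by
          intro x hx
          rcases x with i | k'
          · rw [ht]; exact hm i.1
          · exact absurd hx (h k')
        have h4 := sum_le_of_le t.deg m L h3
        have h5 := hnm k
        have h6 : L.length * m ≤ n0 * m := Nat.mul_le_mul_right _ (by omega)
        omega
  | succ j ih =>
    rw [Function.iterate_succ_apply']
    refine mkE_mem (SE s v t n0) (thE_mem s hv t n0) ?_ ih
    rintro L ⟨h1, h2, h3⟩ W ⟨L1, x, L2, M, rfl, ⟨h4, h5, h6⟩, rfl⟩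
    simp only [List.length_append, List.length_cons, List.map_append, List.map_cons,
      List.sum_append, List.sum_cons] at h1 h2 h3 ⊢
    refine ⟨by simp only [List.length_append]; omega, ?_, ?_⟩
    · simp only [List.map_append, List.sum_append]
      have h7 : (j + 1) * cc s v = j * cc s v + cc s v := by ring
      omega
    · rcases h3 with ⟨y, hy⟩ | h3
      · left
        simp only [List.mem_append, List.mem_cons] at hy ⊢
        rcases hy with hy | hy | hy
        · exact ⟨y, Or.inl (Or.inl hy)⟩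
        · obtain ⟨z, hz⟩ := h6 y hy.symm
          exact ⟨z, Or.inl (Or.inr hz)⟩
        · exact ⟨y, Or.inr hy⟩
      · right
        simp only [List.length_append]
        omega

theorem pE_two (h2 : 2 ≤ n0) (x : ι ⊕ KK s v t n0) : 2 ≤ pE s v t n0 x := by
  rcases x with i | ⟨⟨k, j⟩, hx⟩
  · exact s.two_le i
  · have h4 : pE s v t n0 (Sum.inr ⟨(k, j), hx⟩) = t.deg (Sum.inr k) - j * cc s v := rfl
    rw [h4]
    simp only at hx
    omega

theorem pE_n0 (x : KK s v t n0) : n0 ≤ pE s v t n0 (Sum.inr x) := by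
  obtain ⟨⟨k, j⟩, hx⟩ := x
  have h4 : pE s v t n0 (Sum.inr ⟨(k, j), hx⟩) = t.deg (Sum.inr k) - j * cc s v := rfl
  rw [h4]
  simp only at hx
  omega

include hn in
theorem iter_zero (h2 : 2 ≤ n0) {m : ℕ} (hm : ∀ i, s.deg i ≤ m)
    (hnm : ∀ k, n0 * m ≤ t.deg (Sum.inr k))
    (k : κ) (j : ℕ) (hj : ¬ n0 + j * cc s v ≤ t.deg (Sum.inr k)) :
    (ThE s hv t n0)^[j] (eE s t hn ht (t.d (Sum.inr k))) = 0 := by
  refine spanOf_false ?_ (iter_mem s hv t hn ht hm hnm k j)
  rintro L ⟨h3, h4, h5⟩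
  have h6 : (L.map (pE s v t n0)).sum ≤ n0 := by omega
  have h7 := le_sum_of_le (pE s v t n0) 2 L (fun x _ => pE_two s t h2 x)
  rcases h5 with ⟨x, hx⟩ | h5
  · obtain ⟨A, B, rfl⟩ := List.append_of_mem hx
    have h8 := le_sum_of_le (pE s v t n0) 2 A (fun x _ => pE_two s t h2 x)
    have h9 := le_sum_of_le (pE s v t n0) 2 B (fun x _ => pE_two s t h2 x)
    have h10 := pE_n0 s t x
    simp only [List.length_append, List.length_cons, List.map_append, List.map_cons,
      List.sum_append, List.sum_cons] at h3 h6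
    omega
  · omega

section diff

variable (htd : ∀ i, t.d (Sum.inl i) = emb Sum.inl ht (s.qdif v i))
  {m : ℕ} (h2 : 2 ≤ n0) (hm : ∀ i, s.deg i ≤ m) (hnm : ∀ k, n0 * m ≤ t.deg (Sum.inr k))
  (hd : s.d v = 0)

open Classical in
/-- the differential modulo `v`, on generators -/
noncomputable def d2 : ι ⊕ KK s v t n0 → FGC (sg (pE s v t n0))
  | Sum.inl i => if h : i ≠ v then em0 s v t n0 (s.qdif v ⟨i, h⟩) else 0
  | Sum.inr x => (ThE s hv t n0)^[x.1.2] (eE s t hn ht (t.d (Sum.inr x.1.1)))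

include hm hnm in
theorem d2_mem (x : ι ⊕ KK s v t n0) : d2 s hv t hn ht x ∈ spanOf (sg (pE s v t n0))
    (fun L => 2 ≤ L.length ∧ (L.map (pE s v t n0)).sum = pE s v t n0 x + 1) := by
  rcases x with i | x
  · by_cases h : i ≠ v
    · simp only [d2, dif_pos h]
      refine emb_mem _ _ ?_ (s.qdif_good v ⟨i, h⟩)
      rintro L ⟨h1, h2⟩
      refine ⟨by rw [List.length_map]; exact h1, ?_⟩
      rw [map_deg_sum (p := qd s.deg v) (p' := pE s v t n0)
        (fun i : {i : ι // i ≠ v} => Sum.inl i.1) (fun _ => rfl), h2]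
      rfl
    · simp only [d2, dif_neg h]
      exact zero_mem _
  · refine spanOf_mono ?_ (iter_mem s hv t hn ht hm hnm x.1.1 x.1.2)
    rintro L ⟨h3, h4, -⟩
    refine ⟨h3, ?_⟩
    have h5 : pE s v t n0 (Sum.inr x) = t.deg (Sum.inr x.1.1) - x.1.2 * cc s v := rfl
    have h6 := x.2
    rw [h5]
    omega

include hm hnm in
theorem d2_par (x : ι ⊕ KK s v t n0) :
    d2 s hv t hn ht x ∈ Par (pE s v t n0) (pE s v t n0 x + 1) :=
  spanOf_mono (fun _ hL => by rw [hL.2]) (d2_mem s hv t hn ht hm hnm x)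

/-- the differential modulo `v` -/
noncomputable def D2 : FGC (sg (pE s v t n0)) →ₗ[ℚ] FGC (sg (pE s v t n0)) :=
  mkD (d2 s hv t hn ht) (d2_par s hv t hn ht hm hnm)

theorem D2_isDer : IsDer (D2 s hv t hn ht hm hnm) := isDer_mkD _ _

theorem D2_gen (x : ι ⊕ KK s v t n0) :
    D2 s hv t hn ht hm hnm (gen _ x) = d2 s hv t hn ht x := mkD_gen _ _ x

theorem D2_em0 (a : FGC (sg (qd s.deg v))) :
    D2 s hv t hn ht hm hnm (em0 s v t n0 a) = em0 s v t n0 (s.QD v a) := by
  refine der_emb (s.QD_isDer v) (D2_isDer s hv t hn ht hm hnm) _ _ ?_ a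
  intro i
  rw [D2_gen, s.QD_gen]
  simp only [d2, dif_pos i.2]
  rfl

theorem ThE_em0 (a : FGC (sg (qd s.deg v))) :
    ThE s hv t n0 (em0 s v t n0 a) = em0 s v t n0 (s.Th hv a) := by
  have : ThE s hv t n0 ∘ₗ (em0 s v t n0).toLinearMap
      = (em0 s v t n0).toLinearMap ∘ₗ (s.Th hv) := by
    refine der_ext _ _ (fun b => em0 s v t n0 b) (fun a => em0 s v t n0 a) ?_ ?_ ?_ ?_
    · intro a b
      simp only [LinearMap.comp_apply, AlgHom.toLinearMap_apply]
      rw [map_mul, ThE_mul]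
    · intro a b
      simp only [LinearMap.comp_apply, AlgHom.toLinearMap_apply]
      rw [s.Th_mul, map_add, map_mul, map_mul]
    · simp only [LinearMap.comp_apply, AlgHom.toLinearMap_apply, map_one, ThE_one, s.Th_one,
        map_zero]
    · intro i
      simp only [LinearMap.comp_apply, AlgHom.toLinearMap_apply]
      rw [s.Th_gen]
      have h1 : em0 s v t n0 (gen _ i) = gen _ (Sum.inl i.1) := emb_gen _ _ _
      rw [h1, ThE_gen]
      simp only [thE, dif_pos i.2]
  exact DFunLike.congr_fun this a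

include htd in
theorem D2_eE (a : FGC (sg t.deg)) :
    D2 s hv t hn ht hm hnm (eE s t hn ht a) = eE s t hn ht (t.D a) := by
  refine der_emb t.isDer (D2_isDer s hv t hn ht hm hnm) _ _ ?_ a
  intro i
  rw [D2_gen, t.D_gen]
  rcases i with i | k
  · rw [htd, emb_emb]
    simp only [eix, d2, dif_pos i.2]
    rfl
  · rfl

include h2 hd in
theorem comm_gen (x : ι ⊕ KK s v t n0) :
    D2 s hv t hn ht hm hnm (thE s hv t n0 x) = ThE s hv t n0 (d2 s hv t hn ht x) := by
  rcases x with i | ⟨⟨k, j⟩, hx⟩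
  · by_cases h : i ≠ v
    · simp only [thE, d2, dif_pos h]
      rw [D2_em0, ThE_em0, s.Th_comm hv hd]
    · simp only [thE, d2, dif_neg h, map_zero]
  · simp only [thE, d2, yy]
    split_ifs with h
    · rw [D2_gen]
      simp only [d2]
      rw [Function.iterate_succ_apply']
    · rw [map_zero, ← Function.iterate_succ_apply' (ThE s hv t n0),
        iter_zero s hv t hn ht h2 hm hnm k (j + 1) h]

include h2 hd in
theorem comm (a : FGC (sg (pE s v t n0))) :
    D2 s hv t hn ht hm hnm (ThE s hv t n0 a) = ThE s hv t n0 (D2 s hv t hn ht hm hnm a) := by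
  have : (D2 s hv t hn ht hm hnm ∘ₗ ThE s hv t n0) - (ThE s hv t n0 ∘ₗ D2 s hv t hn ht hm hnm)
      = 0 := by
    refine der_ext _ _ id (tau _) ?_ ?_ ?_ ?_
    · intro a b
      simp only [LinearMap.sub_apply, LinearMap.comp_apply, id]
      rw [(D2_isDer s hv t hn ht hm hnm).mul, ThE_mul, map_add, map_add, ThE_mul, ThE_mul,
        (D2_isDer s hv t hn ht hm hnm).mul, (D2_isDer s hv t hn ht hm hnm).mul, ThE_tau]
      simp only [sub_mul, mul_sub]
      abel
    · intro a b; simp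
    · simp [ThE_one, (D2_isDer s hv t hn ht hm hnm).one]
    · intro x
      simp only [LinearMap.sub_apply, LinearMap.comp_apply, LinearMap.zero_apply]
      rw [ThE_gen, D2_gen, comm_gen s hv t hn ht h2 hm hnm hd, sub_self]
  exact sub_eq_zero.1 (DFunLike.congr_fun this a)

include h2 hd in
theorem comm_iter (j : ℕ) (a : FGC (sg (pE s v t n0))) :
    D2 s hv t hn ht hm hnm ((ThE s hv t n0)^[j] a)
      = (ThE s hv t n0)^[j] (D2 s hv t hn ht hm hnm a) := by
  induction j with
  | zero => rfl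
  | succ j ih =>
    rw [Function.iterate_succ_apply', comm s hv t hn ht h2 hm hnm hd, ih,
      Function.iterate_succ_apply']

theorem iter_map_zero (j : ℕ) : (ThE s hv t n0)^[j] 0 = 0 := by
  induction j with
  | zero => rfl
  | succ j ih => rw [Function.iterate_succ_apply', ih, map_zero]

include htd h2 hd in
theorem D2_D2 (a : FGC (sg (pE s v t n0))) :
    D2 s hv t hn ht hm hnm (D2 s hv t hn ht hm hnm a) = 0 := by
  refine (D2_isDer s hv t hn ht hm hnm).sq ?_ a
  intro x
  rw [D2_gen]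
  rcases x with i | ⟨⟨k, j⟩, hx⟩
  · by_cases h : i ≠ v
    · simp only [d2, dif_pos h]
      rw [D2_em0, ← s.QD_gen, s.QD_QD v hd, map_zero]
    · simp only [d2, dif_neg h, map_zero]
  · simp only [d2]
    rw [comm_iter s hv t hn ht h2 hm hnm hd, D2_eE s hv t hn ht htd, ← t.D_gen, t.D_D,
      map_zero, iter_map_zero]

/-- the differential on generators -/
noncomputable def dE (x : ι ⊕ KK s v t n0) : FGC (sg (pE s v t n0)) :=
  d2 s hv t hn ht x + gen _ (Sum.inl v) * thE s hv t n0 x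

include hm hnm in
theorem dE_good (x : ι ⊕ KK s v t n0) : dE s hv t hn ht x ∈ spanOf (sg (pE s v t n0))
    (fun L => 2 ≤ L.length ∧ (L.map (pE s v t n0)).sum = pE s v t n0 x + 1) := by
  refine add_mem (d2_mem s hv t hn ht hm hnm x) ?_
  rw [← mono_single]
  refine spanOf_mul ?_ (mono_mem (S := fun L => L = [Sum.inl v]) rfl) (thE_mem s hv t n0 x)
  rintro _ M rfl ⟨h3, h4, -⟩
  have h5 : pE s v t n0 (Sum.inl v) = s.deg v := rfl
  have h6 := s.two_le v
  refine ⟨by simp; omega, ?_⟩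
  simp only [List.cons_append, List.nil_append, List.map_cons, List.sum_cons, h5]
  unfold cc at h4
  omega

include hm hnm in
theorem dE_par (x : ι ⊕ KK s v t n0) :
    dE s hv t hn ht x ∈ Par (pE s v t n0) (pE s v t n0 x + 1) :=
  spanOf_mono (fun _ hL => by rw [hL.2]) (dE_good s hv t hn ht hm hnm x)

/-- the differential -/
noncomputable def DE : FGC (sg (pE s v t n0)) →ₗ[ℚ] FGC (sg (pE s v t n0)) :=
  mkD (dE s hv t hn ht) (dE_par s hv t hn ht hm hnm)

theorem DE_isDer : IsDer (DE s hv t hn ht hm hnm) := isDer_mkD _ _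

theorem vodd (hv : ¬ Even (s.deg v)) : ¬ Even (pE s v t n0 (Sum.inl v)) := hv

theorem DE_eq (a : FGC (sg (pE s v t n0))) : DE s hv t hn ht hm hnm a
    = D2 s hv t hn ht hm hnm a + gen _ (Sum.inl v) * ThE s hv t n0 a := by
  let G : FGC (sg (pE s v t n0)) →ₗ[ℚ] FGC (sg (pE s v t n0)) := D2 s hv t hn ht hm hnm
    + (LinearMap.mulLeft ℚ (gen _ (Sum.inl v))) ∘ₗ (ThE s hv t n0)
  have hG : ∀ a, G a = D2 s hv t hn ht hm hnm a + gen _ (Sum.inl v) * ThE s hv t n0 a :=
    fun a => rfl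
  have : DE s hv t hn ht hm hnm = G := by
    refine der_ext _ _ id (tau _) ?_ ?_ ?_ ?_
    · intro a b
      rw [(DE_isDer s hv t hn ht hm hnm).mul]; rfl
    · intro a b
      rw [hG, hG, hG, (D2_isDer s hv t hn ht hm hnm).mul, ThE_mul]
      have h1 := odd_gen_mul (vodd s t (n0 := n0) hv) a
      simp only [id]
      rw [mul_add, add_mul, mul_add, ← mul_assoc (gen _ (Sum.inl v)) a, h1]
      simp only [mul_assoc]
      abel
    · rw [hG, (DE_isDer s hv t hn ht hm hnm).one, (D2_isDer s hv t hn ht hm hnm).one, ThE_one,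
        mul_zero, add_zero]
    · intro x
      rw [hG, D2_gen, ThE_gen]
      exact mkD_gen _ _ x
  rw [this, hG]

theorem ThE_v : ThE s hv t n0 (gen _ (Sum.inl v)) = 0 := by
  rw [ThE_gen]
  simp only [thE]
  rw [dif_neg (by simp)]

theorem D2_v : D2 s hv t hn ht hm hnm (gen _ (Sum.inl v)) = 0 := by
  rw [D2_gen]
  simp only [d2]
  rw [dif_neg (by simp)]

theorem v_sq (hv : ¬ Even (s.deg v)) :
    gen (sg (pE s v t n0)) (Sum.inl v) * gen (sg (pE s v t n0)) (Sum.inl v) = 0 :=
  odd_sq (par_cong (by have := vodd s t (n0 := n0) hv; rw [Nat.even_iff] at this; omega)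
    (par_gen _))

include htd h2 hd in
theorem DE_DE (a : FGC (sg (pE s v t n0))) :
    DE s hv t hn ht hm hnm (DE s hv t hn ht hm hnm a) = 0 := by
  have hodd : ((-1 : ℚ) ^ (pE s v t n0 (Sum.inl v))) = -1 :=
    Odd.neg_one_pow (Nat.not_even_iff_odd.1 (vodd s t hv))
  rw [DE_eq, DE_eq, map_add, map_add, D2_D2 s hv t hn ht htd h2 hm hnm hd,
    (D2_isDer s hv t hn ht hm hnm).mul, D2_v, ThE_mul, ThE_v, tau_gen, hodd,
    comm s hv t hn ht h2 hm hnm hd, mul_add, zero_mul]
  simp only [zero_add]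
  rw [← mul_assoc (gen _ (Sum.inl v)) (gen _ (Sum.inl v)), v_sq s t hv, zero_mul, add_zero,
    neg_smul, one_smul, neg_mul, neg_add_cancel]

include h2 hd in
theorem ThE_DE (a : FGC (sg (pE s v t n0))) :
    ThE s hv t n0 (DE s hv t hn ht hm hnm a) = DE s hv t hn ht hm hnm (ThE s hv t n0 a) := by
  rw [DE_eq, DE_eq, map_add, ThE_mul, ThE_v, comm s hv t hn ht h2 hm hnm hd, zero_mul,
    zero_add]

/-- the lifted extension -/
noncomputable def ES (htd : ∀ i, t.d (Sum.inl i) = emb Sum.inl ht (s.qdif v i))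
    (h2 : 2 ≤ n0) (hm : ∀ i, s.deg i ≤ m) (hnm : ∀ k, n0 * m ≤ t.deg (Sum.inr k))
    (hd : s.d v = 0) : Sul (ι ⊕ KK s v t n0) where
  deg := pE s v t n0
  two_le := pE_two s t h2
  d := dE s hv t hn ht
  good := dE_good s hv t hn ht hm hnm
  sq := by
    intro x
    have h := DE_DE s hv t hn ht htd h2 hm hnm hd (gen _ x)
    unfold DE at h
    rw [mkD_gen] at h
    exact h

theorem ES_ext : s.IsExt (ES s hv t hn ht htd h2 hm hnm hd) := by
  refine ⟨fun _ => rfl, ?_⟩
  intro i
  change dE s hv t hn ht (Sum.inl i) = emb (p := s.deg) (p' := pE s v t n0) Sum.inl _ (s.d i)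
  unfold dE
  by_cases h : i ≠ v
  · simp only [d2, thE, dif_pos h]
    conv_rhs => rw [decomp hv (s.d i)]
    rw [map_add, map_mul, emb_gen, emb_emb, emb_emb]
    rfl
  · simp only [d2, thE, dif_neg h]
    push Not at h
    rw [h, hd, map_zero, mul_zero, add_zero]

theorem pr_DE (a : FGC (sg (pE s v t n0))) : pr (pE s v t n0) (DE s hv t hn ht hm hnm a)
    = pr (pE s v t n0) (D2 s hv t hn ht hm hnm a) := by
  rw [DE_eq, map_add, map_mul, pr_odd (vodd s t hv), zero_mul, add_zero]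

/-- the derivation induced by `θ` on polynomials -/
noncomputable def dl : Derivation ℚ (MvPolynomial (Ev (pE s v t n0)) ℚ)
    (MvPolynomial (Ev (pE s v t n0)) ℚ) :=
  MvPolynomial.mkDerivation ℚ (fun i => pr (pE s v t n0) (ThE s hv t n0 (gen _ i.1)))

theorem dl_pr (a : FGC (sg (pE s v t n0))) :
    pr (pE s v t n0) (ThE s hv t n0 a) = dl s hv t (pr (pE s v t n0) a) := by
  refine FGC.induct (P := fun a => pr (pE s v t n0) (ThE s hv t n0 a)
    = dl s hv t (pr (pE s v t n0) a)) ?_ ?_ ?_ ?_ a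
  · intro r
    rw [AlgHom.commutes, Algebra.algebraMap_eq_smul_one, map_smul, ThE_one,
      Derivation.map_algebraMap]
    simp
  · intro x
    by_cases hx : Even (pE s v t n0 x)
    · rw [pr_even hx]
      simp [dl]
    · rw [pr_odd hx, map_zero, ThE_gen]
      refine pr_par_odd (par_cong ?_ (thE_par s hv t n0 x))
      rw [Nat.even_iff] at hx
      omega
  · intro a b h1 h2
    rw [ThE_mul, map_add, map_mul, map_mul, map_mul, Derivation.leibniz, h1, h2]
    simp only [smul_eq_mul]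
    ring
  · intro a b h1 h2
    rw [map_add, map_add, map_add, map_add, h1, h2]

include h2 hd in
theorem dl_J {q : MvPolynomial (Ev (pE s v t n0)) ℚ} (hq : q ∈ J (DE s hv t hn ht hm hnm)) :
    dl s hv t q ∈ J (DE s hv t hn ht hm hnm) := by
  unfold J at hq
  induction hq using Submodule.span_induction with
  | mem x hx =>
    obtain ⟨i, hi, rfl⟩ := hx
    rw [← dl_pr, ThE_DE s hv t hn ht h2 hm hnm hd]
    exact pr_D_mem (DE_isDer s hv t hn ht hm hnm) _
  | zero => rw [map_zero]; exact zero_mem _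
  | add x y _ _ hx hy => rw [map_add]; exact add_mem hx hy
  | smul r x hx' hx =>
    rw [smul_eq_mul, Derivation.leibniz, smul_eq_mul, smul_eq_mul]
    exact add_mem (Ideal.mul_mem_left _ _ hx) (Ideal.mul_mem_right _ _ hx')

include htd h2 hd in
theorem ES_ell (hell : t.Elliptic) : (ES s hv t hn ht htd h2 hm hnm hd).Elliptic := by
  have key : ∀ i : Ev t.deg, (MvPolynomial.X ⟨eix s t hn i.1,
      by rw [eix_deg s t hn ht]; exact i.2⟩ : MvPolynomial (Ev (pE s v t n0)) ℚ)
      ∈ (J (DE s hv t hn ht hm hnm)).radical := by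
    intro i
    refine ideal_emb (DE_isDer s hv t hn ht hm hnm) (eix s t hn) (eix_deg s t hn ht) ?_ i (hell i)
    intro j
    rw [pr_DE]
    have h1 := D2_eE s hv t hn ht htd hm hnm (gen _ j)
    have h3 : eE s t hn ht (gen _ j) = gen _ (eix s t hn j) := emb_gen _ _ _
    rw [h3] at h1
    rw [h1]; rfl
  have key2 : ∀ (k : κ) (j : ℕ) (hj : n0 + j * cc s v ≤ t.deg (Sum.inr k))
      (he : Even (pE s v t n0 (Sum.inr ⟨(k, j), hj⟩))),
      (MvPolynomial.X ⟨Sum.inr ⟨(k, j), hj⟩, he⟩ : MvPolynomial (Ev (pE s v t n0)) ℚ)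
      ∈ (J (DE s hv t hn ht hm hnm)).radical := by
    intro k j
    induction j with
    | zero =>
      intro hj he
      have he' : Even (t.deg (Sum.inr k)) := by
        have := eix_deg s t hn ht (Sum.inr k)
        rw [← this]; exact he
      exact key ⟨Sum.inr k, he'⟩
    | succ j ih =>
      intro hj he
      have hcc := cc_even s hv
      have e1 : (j + 1) * cc s v = j * cc s v + cc s v := by ring
      have hj' : n0 + j * cc s v ≤ t.deg (Sum.inr k) := by omega
      have he' : Even (pE s v t n0 (Sum.inr ⟨(k, j), hj'⟩)) := by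
        have h4 : pE s v t n0 (Sum.inr ⟨(k, j), hj'⟩) = t.deg (Sum.inr k) - j * cc s v := rfl
        have h5 : pE s v t n0 (Sum.inr ⟨(k, j + 1), hj⟩)
          = t.deg (Sum.inr k) - (j + 1) * cc s v := rfl
        rw [h5, Nat.even_iff] at he
        rw [h4, Nat.even_iff]
        omega
      have h6 := radical_der (dl s hv t) _
        (fun q hq => dl_J s hv t hn ht h2 hm hnm hd hq) (ih hj' he')
      have h7 : dl s hv t (MvPolynomial.X ⟨Sum.inr ⟨(k, j), hj'⟩, he'⟩)
          = MvPolynomial.X ⟨Sum.inr ⟨(k, j + 1), hj⟩, he⟩ := by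
        rw [← pr_even he', ← dl_pr, ThE_gen, ← pr_even he]
        simp only [thE, yy]
        rw [dif_pos hj]
      rw [← h7]; exact h6
  rintro ⟨i | x, he⟩
  · by_cases h : i = v
    · subst h
      exact absurd he hv
    · have he' : Even (t.deg (Sum.inl ⟨i, h⟩)) := by rw [ht]; exact he
      exact key ⟨Sum.inl ⟨i, h⟩, he'⟩
  · exact key2 x.1.1 x.1.2 x.2 he

end diff

theorem KK_finite [Finite κ] (h3 : 3 ≤ s.deg v) : Finite (KK s v t n0) := by
  have := Fintype.ofFinite κ
  let B := ∑ k : κ, t.deg (Sum.inr k)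
  have : Finite (κ × Fin (B + 1)) := inferInstance
  refine Finite.of_injective (fun x : KK s v t n0 => ((x.1.1, ⟨x.1.2, ?_⟩) : κ × Fin (B + 1))) ?_
  · have h4 := x.2
    have h5 : t.deg (Sum.inr x.1.1) ≤ B :=
      Finset.single_le_sum (f := fun k => t.deg (Sum.inr k)) (fun _ _ => Nat.zero_le _)
        (Finset.mem_univ _)
    have h6 : 1 ≤ cc s v := by unfold cc; omega
    have h7 : x.1.2 * 1 ≤ x.1.2 * cc s v := Nat.mul_le_mul_left _ h6
    omega
  · rintro ⟨⟨k, j⟩, hx⟩ ⟨⟨k', j'⟩, hx'⟩ h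
    simp only [Prod.mk.injEq, Fin.mk.injEq] at h
    obtain ⟨rfl, rfl⟩ := h
    rfl

end P1

/-- If the quotient by a closed odd generator has elliptic extensions of high degree, then so has
the algebra. -/
theorem Sul.anick_of_quo {ι : Type} [Finite ι] (s : Sul ι) (v : ι) (hd : s.d v = 0)
    (hv : ¬ Even (s.deg v)) (h : ∀ n, (s.quo v hd).Anick n) (n : ℕ) : s.Anick n := by
  have := Fintype.ofFinite ι
  let m := ∑ i : ι, s.deg i
  have hm : ∀ i, s.deg i ≤ m := fun i =>
    Finset.single_le_sum (f := fun k => s.deg k) (fun _ _ => Nat.zero_le _) (Finset.mem_univ _)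
  obtain ⟨κ, hκ, t, ⟨ht, htd⟩, hdeg, hell⟩ := h ((n + 2) * (m + 1))
  have hn : ∀ k, n + 2 ≤ t.deg (Sum.inr k) := fun k =>
    le_trans (by nlinarith) (hdeg k)
  have hnm : ∀ k, (n + 2) * m ≤ t.deg (Sum.inr k) := fun k =>
    le_trans (by nlinarith) (hdeg k)
  have h3 : 3 ≤ s.deg v := by
    have := s.two_le v
    rw [Nat.even_iff] at hv
    omega
  refine ⟨P1.KK s v t (n + 2), P1.KK_finite s t h3,
    P1.ES s hv t hn ht htd (by omega) hm hnm hd, P1.ES_ext s hv t hn ht htd (by omega) hm hnm hd,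
    ?_, P1.ES_ell s hv t hn ht htd (by omega) hm hnm hd hell⟩
  intro x
  have := P1.pE_n0 s t (n0 := n + 2) x
  exact le_trans (by omega) this

end Run7.h985
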