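import Pool.Agent.Run7.h985.Nc

/-!
# Homogeneous polynomials in the even generators (MP_5f0082_gt, helper985)
-/

set_option autoImplicit false
set_option maxHeartbeats 400000

namespace Run7.h985

open Pool.H582SA

section pol

variable {ι : Type} {p : ι → ℕ}

/-- the grading of the polynomial ring by degree -/
noncomputable def dl (p : ι → ℕ) :
    MvPolynomial (Ev p) ℚ →ₐ[ℚ] Polynomial (MvPolynomial (Ev p) ℚ) :=
  MvPolynomial.aeval (fun i => Polynomial.C (MvPolynomial.X i) * Polynomial.X ^ (p i.1))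

theorem dl_X (i : Ev p) : dl p (MvPolynomial.X i)
    = Polynomial.C (MvPolynomial.X i) * Polynomial.X ^ (p i.1) := by
  unfold dl; rw [MvPolynomial.aeval_X]

theorem dl_C (a : ℚ) : dl p (MvPolynomial.C a) = Polynomial.C (MvPolynomial.C a) := by
  rw [← MvPolynomial.algebraMap_eq, AlgHom.commutes]
  rfl

/-- homogeneous polynomials with an offset -/
def Hd (p : ι → ℕ) (e N : ℕ) (f : MvPolynomial (Ev p) ℚ) : Prop :=
  dl p f * Polynomial.X ^ e = Polynomial.C f * Polynomial.X ^ N

theorem dl_eval (f : MvPolynomial (Ev p) ℚ) : (dl p f).eval 1 = f := by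
  induction f using MvPolynomial.induction_on with
  | C a => rw [dl_C, Polynomial.eval_C]
  | add q1 q2 h1 h2 => rw [map_add, Polynomial.eval_add, h1, h2]
  | mul_X q i h => rw [map_mul, Polynomial.eval_mul, h, dl_X]; simp

theorem dl_ne {f : MvPolynomial (Ev p) ℚ} (hf : f ≠ 0) : dl p f ≠ 0 := by
  intro h
  apply hf
  rw [← dl_eval f, h, Polynomial.eval_zero]

theorem dl_pr_mono (L : List ι) : dl p (pr p (mono _ L))
    = Polynomial.C (pr p (mono _ L)) * Polynomial.X ^ ((L.map p).sum) := by
  induction L with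
  | nil => simp
  | cons i L ih =>
    rw [mono_cons, map_mul, map_mul, ih]
    by_cases h : Even (p i)
    · rw [pr_even h, dl_X, Polynomial.C_mul, List.map_cons, List.sum_cons, pow_add]
      ring
    · rw [pr_odd h]; simp

theorem hd_zero' (e N : ℕ) : Hd p e N 0 := by unfold Hd; simp

theorem hd_add {e N : ℕ} {f g : MvPolynomial (Ev p) ℚ} (hf : Hd p e N f) (hg : Hd p e N g) :
    Hd p e N (f + g) := by
  unfold Hd at *
  rw [map_add, add_mul, hf, hg, Polynomial.C_add, add_mul]

theorem hd_smul {e N : ℕ} {f : MvPolynomial (Ev p) ℚ} (r : ℚ) (hf : Hd p e N f) :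
    Hd p e N (r • f) := by
  unfold Hd at *
  rw [map_smul, smul_mul_assoc, hf, Polynomial.C_mul', Polynomial.C_mul', smul_assoc]

theorem hd_pr {e N : ℕ} {a : FGC (sg p)} (ha : a ∈ DH p e N) : Hd p e N (pr p a) := by
  refine spanOf_induct (P := fun a => Hd p e N (pr p a)) ?_ ?_ ?_ ?_ ha
  · intro L hL
    unfold Hd
    rw [dl_pr_mono, mul_assoc, ← pow_add, hL]
  · rw [map_zero]; exact hd_zero' _ _
  · intro a b h1 h2; rw [map_add]; exact hd_add h1 h2
  · intro r a h1; rw [map_smul]; exact hd_smul r h1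

theorem hd_X (i : Ev p) : Hd p 0 (p i.1) (MvPolynomial.X i) := by
  unfold Hd
  rw [dl_X, pow_zero, mul_one]

theorem delta_ev (f : MvPolynomial (Ev p) ℚ) :
    delta (sg p) p (ev p f) = (dl p f).map (ev p).toRingHom := by
  induction f using MvPolynomial.induction_on with
  | C a =>
    rw [dl_C, Polynomial.map_C, ← MvPolynomial.algebraMap_eq, AlgHom.commutes, AlgHom.commutes]
    change _ = Polynomial.C (ev p (algebraMap ℚ _ a))
    rw [AlgHom.commutes]
    rfl
  | add q1 q2 h1 h2 => rw [map_add, map_add, h1, h2, map_add, Polynomial.map_add]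
  | mul_X q i h =>
    rw [map_mul, map_mul, h, map_mul, Polynomial.map_mul, dl_X, Polynomial.map_mul,
      Polynomial.map_C, Polynomial.map_pow, Polynomial.map_X, ev_X]
    congr 1
    have h1 : (ev p).toRingHom (MvPolynomial.X i) = gen (sg p) i.1 := ev_X i
    rw [h1, ← mono_single, delta_mono]
    simp

theorem hd_ev {e N : ℕ} {f : MvPolynomial (Ev p) ℚ} (hf : Hd p e N f) : ev p f ∈ DH p e N := by
  have h1 : delta (sg p) p (ev p f) * Polynomial.X ^ e
      = Polynomial.C (ev p f) * Polynomial.X ^ N := by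
    unfold Hd at hf
    have h2 := congrArg (Polynomial.map (ev p).toRingHom) hf
    rw [Polynomial.map_mul, Polynomial.map_mul, Polynomial.map_C, Polynomial.map_pow,
      Polynomial.map_pow, Polynomial.map_X, ← delta_ev] at h2
    exact h2
  have h3 : ∀ m, prj (sg p) p m (ev p f) = if m + e = N then ev p f else 0 := by
    intro m
    have h4 := congrArg (fun q => Polynomial.coeff q (m + e)) h1
    simp only [Polynomial.coeff_mul_X_pow, Polynomial.coeff_C_mul_X_pow] at h4
    exact h4
  obtain ⟨K, hK⟩ := prj_sum p (ev p f)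
  rw [hK K le_rfl]
  refine Submodule.sum_mem _ (fun m _ => ?_)
  by_cases hm : m + e = N
  · exact spanOf_mono (fun L hL => by omega) (prj_mem p m (mem_top_span (ev p f)))
  · rw [h3, if_neg hm]; exact zero_mem _

theorem hd_mul {e N e' N' : ℕ} {f g : MvPolynomial (Ev p) ℚ} (hf : Hd p e N f)
    (hg : Hd p e' N' g) : Hd p (e + e') (N + N') (f * g) := by
  unfold Hd at *
  calc dl p (f * g) * Polynomial.X ^ (e + e')
      = (dl p f * Polynomial.X ^ e) * (dl p g * Polynomial.X ^ e') := by rw [map_mul]; ring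
    _ = _ := by rw [hf, hg, Polynomial.C_mul]; ring

theorem hd_shift {e N : ℕ} (k : ℕ) {f : MvPolynomial (Ev p) ℚ} (hf : Hd p e N f) :
    Hd p (e + k) (N + k) f := by
  unfold Hd at *
  rw [pow_add, ← mul_assoc, hf, pow_add, mul_assoc]

theorem hd_le {e N : ℕ} {f : MvPolynomial (Ev p) ℚ} (h0 : f ≠ 0) (hf : Hd p e N f) : e ≤ N := by
  unfold Hd at hf
  have h1 := congrArg Polynomial.natDegree hf
  rw [Polynomial.natDegree_mul_X_pow _ (dl_ne h0), Polynomial.natDegree_C_mul_X_pow _ _ h0] at h1
  omega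

theorem hd_unshift {e N : ℕ} (k : ℕ) {f : MvPolynomial (Ev p) ℚ} (hf : Hd p (e + k) (N + k) f) :
    Hd p e N f := by
  unfold Hd at *
  rw [pow_add, pow_add, ← mul_assoc, ← mul_assoc] at hf
  exact mul_right_cancel₀ (pow_ne_zero k Polynomial.X_ne_zero) hf

theorem hd_norm {e N : ℕ} {f : MvPolynomial (Ev p) ℚ} (h0 : f ≠ 0) (hf : Hd p e N f) :
    Hd p 0 (N - e) f := by
  have h1 := hd_le h0 hf
  refine hd_unshift e ?_
  rwa [Nat.zero_add, Nat.sub_add_cancel h1]

theorem hd_cast {e N e' N' : ℕ} (h : N + e' = N' + e) {f : MvPolynomial (Ev p) ℚ}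
    (hf : Hd p e N f) : Hd p e' N' f := by
  have h1 := hd_shift e' hf
  rw [h, Nat.add_comm e e'] at h1
  exact hd_unshift e h1

theorem hd_unique {e N e' N' : ℕ} {f : MvPolynomial (Ev p) ℚ} (h0 : f ≠ 0) (hf : Hd p e N f)
    (hf' : Hd p e' N' f) : N + e' = N' + e := by
  have h1 := hd_norm h0 hf
  have h2 := hd_norm h0 hf'
  have h3 := hd_le h0 hf
  have h4 := hd_le h0 hf'
  unfold Hd at h1 h2
  rw [h1] at h2
  have h5 := congrArg Polynomial.natDegree h2
  rw [Polynomial.natDegree_C_mul_X_pow _ _ h0, Polynomial.natDegree_C_mul_X_pow _ _ h0] at h5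
  omega

theorem monomial_of {R : Type} [CommRing R] [IsDomain R] {a b : Polynomial R} {c : R} {n : ℕ}
    (hc : c ≠ 0) (h : a * b = Polynomial.C c * Polynomial.X ^ n) :
    ∃ i j, i + j = n ∧ a = Polynomial.C (a.eval 1) * Polynomial.X ^ i ∧
      b = Polynomial.C (b.eval 1) * Polynomial.X ^ j := by
  have h0 : a * b ≠ 0 := by
    rw [h]
    exact mul_ne_zero (by simpa using hc) (pow_ne_zero _ Polynomial.X_ne_zero)
  have ha : a ≠ 0 := left_ne_zero_of_mul h0
  have hb : b ≠ 0 := right_ne_zero_of_mul h0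
  have h1 : a.natDegree + b.natDegree = n := by
    rw [← Polynomial.natDegree_mul ha hb, h, Polynomial.natDegree_C_mul_X_pow _ _ hc]
  have h2 : a.natTrailingDegree + b.natTrailingDegree = n := by
    rw [← Polynomial.natTrailingDegree_mul ha hb, h, Polynomial.C_mul_X_pow_eq_monomial,
      Polynomial.natTrailingDegree_monomial hc]
  have h3 := Polynomial.natTrailingDegree_le_natDegree a
  have h4 := Polynomial.natTrailingDegree_le_natDegree b
  have key : ∀ q : Polynomial R, q.natTrailingDegree = q.natDegree →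
      q = Polynomial.C (q.eval 1) * Polynomial.X ^ q.natDegree := by
    intro q hq
    have h5 : q = Polynomial.C (q.coeff q.natDegree) * Polynomial.X ^ q.natDegree := by
      ext m
      rw [Polynomial.coeff_C_mul_X_pow]
      split_ifs with hm
      · rw [hm]
      · rcases Nat.lt_or_gt_of_ne hm with h6 | h6
        · exact Polynomial.coeff_eq_zero_of_lt_natTrailingDegree (by omega)
        · exact Polynomial.coeff_eq_zero_of_natDegree_lt h6
    have h6 : q.eval 1 = q.coeff q.natDegree := by
      conv_lhs => rw [h5]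
      simp
    rw [h6]
    exact h5
  exact ⟨a.natDegree, b.natDegree, h1, key a (by omega), key b (by omega)⟩

theorem hd_factor {e N : ℕ} {f g : MvPolynomial (Ev p) ℚ} (h0 : f * g ≠ 0)
    (h : Hd p e N (f * g)) : ∃ i j, i + j + e = N ∧ Hd p 0 i f ∧ Hd p 0 j g := by
  have h1 := hd_norm h0 h
  have h2 := hd_le h0 h
  unfold Hd at h1
  rw [pow_zero, mul_one, map_mul] at h1
  obtain ⟨i, j, h3, h4, h5⟩ := monomial_of h0 h1
  refine ⟨i, j, by omega, ?_, ?_⟩
  · unfold Hd
    rw [pow_zero, mul_one]
    conv_lhs => rw [h4, dl_eval]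
  · unfold Hd
    rw [pow_zero, mul_one]
    conv_lhs => rw [h5, dl_eval]

/-- division by a homogeneous polynomial -/
theorem hd_div {e N a : ℕ} {f g : MvPolynomial (Ev p) ℚ} (hg0 : g ≠ 0) (hg : Hd p 0 a g)
    (h : Hd p e N (f * g)) : Hd p (e + a) N f := by
  by_cases hf : f = 0
  · rw [hf]; exact hd_zero' _ _
  · obtain ⟨i, j, h1, h2, h3⟩ := hd_factor (mul_ne_zero hf hg0) h
    have h4 := hd_unique hg0 hg h3
    exact hd_cast (by omega) h2

/-- homogeneous polynomials with a constant term are constant -/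
theorem hd_const (hp : ∀ i : Ev p, p i.1 ≠ 0) {e N : ℕ} {f : MvPolynomial (Ev p) ℚ}
    (h : Hd p e N f) (h0 : MvPolynomial.constantCoeff f ≠ 0) :
    e = N ∧ f = MvPolynomial.C (MvPolynomial.constantCoeff f) := by
  have hf : f ≠ 0 := fun hf => h0 (by rw [hf, map_zero])
  have h1 : ∀ f : MvPolynomial (Ev p) ℚ, (dl p f).map (MvPolynomial.constantCoeff)
      = Polynomial.C (MvPolynomial.constantCoeff f) := by
    intro f
    induction f using MvPolynomial.induction_on with
    | C a => rw [dl_C, Polynomial.map_C, MvPolynomial.constantCoeff_C]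
    | add q1 q2 h1 h2 => rw [map_add, Polynomial.map_add, h1, h2, map_add, Polynomial.C_add]
    | mul_X q i h =>
      rw [map_mul, Polynomial.map_mul, dl_X, Polynomial.map_mul, Polynomial.map_C, map_mul,
        MvPolynomial.constantCoeff_X]
      simp
  have h2 : ∀ f : MvPolynomial (Ev p) ℚ, (dl p f).eval 0
      = MvPolynomial.C (MvPolynomial.constantCoeff f) := by
    intro f
    induction f using MvPolynomial.induction_on with
    | C a => rw [dl_C, Polynomial.eval_C, MvPolynomial.constantCoeff_C]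
    | add q1 q2 h1 h2 => rw [map_add, Polynomial.eval_add, h1, h2, map_add, map_add]
    | mul_X q i h =>
      rw [map_mul, Polynomial.eval_mul, dl_X, Polynomial.eval_mul, Polynomial.eval_C,
        Polynomial.eval_pow, Polynomial.eval_X, zero_pow (hp i), mul_zero, mul_zero, map_mul,
        MvPolynomial.constantCoeff_X, mul_zero, map_zero]
  have h3 : e = N := by
    have h4 := congrArg (Polynomial.map MvPolynomial.constantCoeff) h
    rw [Polynomial.map_mul, h1, Polynomial.map_pow, Polynomial.map_X, Polynomial.map_mul,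
      Polynomial.map_C, Polynomial.map_pow, Polynomial.map_X] at h4
    have h5 := congrArg Polynomial.natDegree h4
    rwa [Polynomial.natDegree_C_mul_X_pow _ _ h0, Polynomial.natDegree_C_mul_X_pow _ _ h0] at h5
  subst h3
  refine ⟨rfl, ?_⟩
  have h6 := hd_norm hf h
  rw [Nat.sub_self] at h6
  unfold Hd at h6
  rw [pow_zero, mul_one, mul_one] at h6
  have h7 := congrArg (fun q => Polynomial.eval 0 q) h6
  simp only [Polynomial.eval_C] at h7
  rw [h2] at h7
  exact h7.symm

end pol

end Run7.h985
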