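import Pool.Agent.Run7.h985.Base0

/-!
# Free differential algebras without minimality (MP_5f0082_gt, helper985)
-/

set_option autoImplicit false
set_option maxHeartbeats 400000

namespace Run7.h985

open Pool.H582SA

/-- A free graded commutative differential algebra with a basis indexed by `ι`. -/
structure Qul (ι : Type) where
  /-- degrees -/
  deg : ι → ℕ
  /-- degrees are at least two -/
  two_le : ∀ i, 2 ≤ deg i
  /-- differentials of the generators -/
  d : ι → FGC (sg deg)
  /-- the degree is `+1` -/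
  good : ∀ i, d i ∈ spanOf (sg deg) (fun L => (L.map deg).sum = deg i + 1)
  /-- the square is zero on generators -/
  sq : ∀ i, mkD d (fun j => spanOf_mono (fun _ hL => by rw [hL]) (good j)) (d i) = 0

namespace Qul

variable {ι : Type} (s : Qul ι)

theorem par (i : ι) : s.d i ∈ Par s.deg (s.deg i + 1) :=
  spanOf_mono (fun _ hL => by rw [hL]) (s.good i)

/-- the differential -/
noncomputable def D : FGC (sg s.deg) →ₗ[ℚ] FGC (sg s.deg) := mkD s.d s.par

theorem isDer : IsDer s.D := isDer_mkD _ _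

theorem D_gen (i : ι) : s.D (gen (sg s.deg) i) = s.d i := mkD_gen _ _ i

theorem D_D (a : FGC (sg s.deg)) : s.D (s.D a) = 0 :=
  s.isDer.sq (fun i => by rw [D_gen]; exact s.sq i) a

/-- `t` is an extension of `s` -/
def IsExt {κ : Type} (s : Qul ι) (t : Qul (ι ⊕ κ)) : Prop :=
  ∃ h : ∀ i, t.deg (Sum.inl i) = s.deg i, ∀ i, t.d (Sum.inl i) = emb Sum.inl h (s.d i)

section add

variable {κ : Type} (q : κ → ℕ)

/-- degrees of the extended algebra -/
abbrev ad : ι ⊕ κ → ℕ := Sum.elim s.deg q

/-- the embedding into the extended algebra -/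
noncomputable def aem : FGC (sg s.deg) →ₐ[ℚ] FGC (sg (s.ad q)) :=
  emb (p := s.deg) Sum.inl (fun _ => rfl)

theorem aem_gen (i : ι) : s.aem q (gen _ i) = gen _ (Sum.inl i) := emb_gen _ _ i

theorem aem_hom {l n : ℕ} {a : FGC (sg s.deg)} (ha : a ∈ Hom s.deg l n) :
    s.aem q a ∈ Hom (s.ad q) l n := hom_emb _ _ ha

theorem aem_par {n : ℕ} {a : FGC (sg s.deg)} (ha : a ∈ Par s.deg n) :
    s.aem q a ∈ Par (s.ad q) n := emb_par _ _ ha

variable (e : κ → FGC (sg (s.ad q)))

/-- differentials of the extended algebra -/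
noncomputable def adif : ι ⊕ κ → FGC (sg (s.ad q)) :=
  Sum.elim (fun i => s.aem q (s.d i)) e

variable {e} (hg : ∀ k, e k ∈ spanOf (sg (s.ad q)) (fun L => (L.map (s.ad q)).sum = q k + 1))

include hg in
theorem adif_good (x : ι ⊕ κ) : s.adif q e x ∈ spanOf (sg (s.ad q))
    (fun L => (L.map (s.ad q)).sum = s.ad q x + 1) := by
  rcases x with i | k
  · refine emb_mem (p := s.deg) _ _ ?_ (s.good i)
    intro L hL
    rw [map_deg_sum (p := s.deg) (p' := s.ad q) Sum.inl (fun _ => rfl), hL]
    rfl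
  · exact hg k

include hg in
theorem adif_par (x : ι ⊕ κ) : s.adif q e x ∈ Par (s.ad q) (s.ad q x + 1) :=
  spanOf_mono (fun _ hL => by rw [hL]) (s.adif_good q hg x)

/-- the differential of the extended algebra -/
noncomputable def AD : FGC (sg (s.ad q)) →ₗ[ℚ] FGC (sg (s.ad q)) :=
  mkD (s.adif q e) (s.adif_par q hg)

theorem AD_isDer : IsDer (s.AD q hg) := isDer_mkD _ _

theorem AD_inr (k : κ) : s.AD q hg (gen _ (Sum.inr k)) = e k := mkD_gen _ _ _

theorem AD_inl (a : FGC (sg s.deg)) :
    s.AD q hg (s.aem q a) = s.aem q (s.D a) := by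
  refine der_emb (p := s.deg) s.isDer (s.AD_isDer q hg) _ _ ?_ a
  intro i
  rw [s.D_gen]
  exact mkD_gen _ _ _

/-- the extended algebra -/
noncomputable def add (h2 : ∀ k, 2 ≤ q k) (hsq : ∀ k, s.AD q hg (e k) = 0) : Qul (ι ⊕ κ) where
  deg := s.ad q
  two_le := by
    rintro (i | k)
    · exact s.two_le i
    · exact h2 k
  d := s.adif q e
  good := s.adif_good q hg
  sq := by
    rintro (i | k)
    · change s.AD q hg (s.aem q (s.d i)) = 0
      rw [AD_inl, ← s.D_gen, s.D_D, map_zero]
    · exact hsq k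

theorem add_ext (h2 : ∀ k, 2 ≤ q k) (hsq : ∀ k, s.AD q hg (e k) = 0) :
    s.IsExt (s.add q hg h2 hsq) := ⟨fun _ => rfl, fun _ => rfl⟩

end add

end Qul

/-- the underlying algebra of a minimal Sullivan algebra -/
noncomputable def Sul.toQ {ι : Type} (s : Sul ι) : Qul ι where
  deg := s.deg
  two_le := s.two_le
  d := s.d
  good := fun i => spanOf_mono (fun _ hL => hL.2) (s.good i)
  sq := s.sq

theorem Sul.toQ_D {ι : Type} (s : Sul ι) : s.toQ.D = s.D := rfl

/-- an odd element moves past an element by the sign automorphism -/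
theorem odd_mul_tau {ι : Type} {p : ι → ℕ} {w : FGC (sg p)} (hw : w ∈ Par p 1)
    (a : FGC (sg p)) : w * a = tau p a * w := by
  refine mono_induct (P := fun a => w * a = tau p a * w) ?_ ?_ ?_ ?_ a
  · intro L
    rw [par_comm hw (par_mono L), tau_mono, smul_mul_assoc, one_mul]
  · simp
  · intro a b h1 h2; rw [mul_add, h1, h2, map_add, add_mul]
  · intro r a h1; rw [mul_smul_comm, h1, map_smul, smul_mul_assoc]

end Run7.h985
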