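import Pool.Agent.Run7.h985.Sul

/-!
# The quotient by a closed odd generator (MP_5f0082_gt, helper985)
-/

set_option autoImplicit false
set_option maxHeartbeats 400000

namespace Run7.h985

open Pool.H582SA

/-- degrees of the remaining generators -/
def qd {ι : Type} (p : ι → ℕ) (v : ι) (i : {i : ι // i ≠ v}) : ℕ := p i.1

open Classical in
/-- the quotient map killing the generator `v` -/
noncomputable def qmap {ι : Type} (p : ι → ℕ) (v : ι) :
    FGC (sg p) →ₐ[ℚ] FGC (sg (qd p v)) :=
  lift (fun i => if h : i ≠ v then gen _ ⟨i, h⟩ else 0) (by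
    intro i j
    by_cases hi : i ≠ v <;> by_cases hj : j ≠ v
    · rw [dif_pos hi, dif_pos hj, gen_comm]; rfl
    · rw [dif_neg hj]; simp
    · rw [dif_neg hi]; simp
    · rw [dif_neg hi]; simp)

section q

variable {ι : Type} {p : ι → ℕ} {v : ι}

theorem q_ne {i : ι} (h : i ≠ v) :
    qmap p v (gen (sg p) i) = gen (sg (qd p v)) ⟨i, h⟩ := by
  unfold qmap
  rw [lift_gen, dif_pos h]

theorem q_v : qmap p v (gen (sg p) v) = 0 := by
  unfold qmap
  rw [lift_gen, dif_neg (by simp)]

/-- the section of the quotient map -/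
noncomputable abbrev inc (p : ι → ℕ) (v : ι) :
    FGC (sg (qd p v)) →ₐ[ℚ] FGC (sg p) :=
  emb (Subtype.val : {i : ι // i ≠ v} → ι) (fun _ => rfl)

theorem q_inc (a : FGC (sg (qd p v))) :
    qmap p v (inc p v a) = a := by
  have : (qmap p v).comp (inc p v) = AlgHom.id ℚ _ := by
    apply alg_ext
    intro i
    rw [AlgHom.comp_apply, emb_gen, q_ne i.2]
    rfl
  exact DFunLike.congr_fun this a

theorem q_mono {L : List {i : ι // i ≠ v}} :
    qmap p v (mono (sg p) (L.map Subtype.val)) = mono _ L := by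
  have h := q_inc (p := p) (v := v) (mono (sg (qd p v)) L)
  rw [emb_mono] at h
  exact h

theorem q_mono_v {L : List ι} (h : v ∈ L) : qmap p v (mono (sg p) L) = 0 := by
  obtain ⟨A, B, rfl⟩ := List.append_of_mem h
  rw [mono_append, mono_cons, map_mul, map_mul, q_v, zero_mul, mul_zero]

theorem q_mem {S : List ι → Prop} {T : List {i : ι // i ≠ v} → Prop}
    (h : ∀ L : List {i : ι // i ≠ v}, S (L.map Subtype.val) → T L) {a : FGC (sg p)}
    (ha : a ∈ spanOf (sg p) S) : qmap p v a ∈ spanOf _ T := by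
  refine spanOf_induct (P := fun a => qmap p v a ∈ spanOf _ T) ?_ ?_ ?_ ?_ ha
  · intro L hL
    by_cases hv : v ∈ L
    · rw [q_mono_v hv]; exact zero_mem _
    · have : ∃ L' : List {i : ι // i ≠ v}, L'.map Subtype.val = L := by
        refine ⟨L.pmap (fun a ha => ⟨a, ha⟩) (fun a ha hav => hv (hav ▸ ha)), ?_⟩
        rw [List.map_pmap]; simp
      obtain ⟨L', rfl⟩ := this
      rw [q_mono]; exact mono_mem (h L' hL)
  · rw [map_zero]; exact zero_mem _
  · intro a b h1 h2; rw [map_add]; exact add_mem h1 h2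
  · intro r a h1; rw [map_smul]; exact Submodule.smul_mem _ _ h1

theorem q_tau (a : FGC (sg p)) :
    qmap p v (tau p a) = tau (qd p v) (qmap p v a) := by
  have : (qmap p v).comp (tau p)
      = (tau (qd p v)).comp (qmap p v) := by
    apply alg_ext
    intro i
    rw [AlgHom.comp_apply, AlgHom.comp_apply, tau_gen, map_smul]
    by_cases h : i ≠ v
    · rw [q_ne h, tau_gen]; rfl
    · push Not at h
      subst h
      rw [q_v, map_zero, smul_zero]
  exact DFunLike.congr_fun this a

/-- an odd generator moves past an element by the sign automorphism -/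
theorem odd_gen_mul (hv : ¬ Even (p v)) (a : FGC (sg p)) :
    gen (sg p) v * a = tau p a * gen (sg p) v := by
  refine mono_induct (P := fun a => gen (sg p) v * a = tau p a * gen (sg p) v) ?_ ?_ ?_ ?_ a
  · intro L
    rw [gen_mul_mono, tau_mono, smul_mul_assoc]
    congr 1
    apply neg_one_pow_mod
    rw [Nat.not_even_iff] at hv
    rw [Nat.mul_mod, hv]; simp
  · simp
  · intro a b h1 h2; rw [mul_add, h1, h2, map_add, add_mul]
  · intro r a h1; rw [mul_smul_comm, h1, map_smul, smul_mul_assoc]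

open Classical in
/-- the partial derivative with respect to the odd generator `v` -/
noncomputable def pd (hv : ¬ Even (p v)) : FGC (sg p) →ₗ[ℚ] FGC (sg p) :=
  mkD (fun i => if i = v then 1 else 0) (by
    intro i
    by_cases h : i = v
    · subst h
      rw [if_pos rfl]
      rw [Nat.not_even_iff] at hv
      exact par_cong (by omega) par_one
    · rw [if_neg h]; exact zero_mem _)

theorem pd_isDer (hv : ¬ Even (p v)) : IsDer (pd hv) := isDer_mkD _ _

theorem pd_v (hv : ¬ Even (p v)) : pd hv (gen (sg p) v) = 1 := by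
  unfold pd; rw [mkD_gen, if_pos rfl]

theorem pd_ne (hv : ¬ Even (p v)) {i : ι} (h : i ≠ v) : pd hv (gen (sg p) i) = 0 := by
  unfold pd; rw [mkD_gen, if_neg h]

theorem pd_inc (hv : ¬ Even (p v)) (a : FGC (sg (qd p v))) :
    pd hv (inc p v a) = 0 := by
  refine mono_induct (P := fun a => pd hv (inc p v a) = 0) ?_ ?_ ?_ ?_ a
  · intro L
    rw [emb_mono]
    induction L with
    | nil => simp [(pd_isDer hv).one]
    | cons i L ih =>
      rw [List.map_cons, mono_cons, (pd_isDer hv).mul, ih, pd_ne hv i.2, zero_mul, mul_zero,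
        add_zero]
  · simp
  · intro a b h1 h2; rw [map_add, map_add, h1, h2, add_zero]
  · intro r a h1; rw [map_smul, map_smul, h1, smul_zero]

theorem inc_tau (a : FGC (sg (qd p v))) :
    inc p v (tau _ a) = tau p (inc p v a) := emb_tau _ _ a

/-- decomposition with respect to the odd generator `v` -/
theorem decomp (hv : ¬ Even (p v)) (a : FGC (sg p)) :
    a = inc p v (qmap p v a) + gen (sg p) v * inc p v (qmap p v (pd hv a)) := by
  refine FGC.induct (P := fun a => a = inc p v (qmap p v a)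
    + gen (sg p) v * inc p v (qmap p v (pd hv a))) ?_ ?_ ?_ ?_ a
  · intro r
    rw [AlgHom.commutes, AlgHom.commutes, Algebra.algebraMap_eq_smul_one, map_smul,
      (pd_isDer hv).one]
    simp
  · intro i
    by_cases h : i ≠ v
    · rw [q_ne h, emb_gen, pd_ne hv h]; simp
    · push Not at h
      subst h
      rw [q_v, pd_v]; simp
  · intro a b h1 h2
    have hvv : ∀ x, gen (sg p) v * (x * gen (sg p) v) = 0 := by
      intro x
      have h1 : gen (sg p) v ∈ Par p 1 :=
        par_cong (by rw [Nat.even_iff] at hv; omega) (par_gen v)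
      rw [← mul_assoc, odd_gen_mul hv, mul_assoc, odd_sq h1, mul_zero]
    rw [(pd_isDer hv).mul, map_mul, map_mul, map_add, map_add, map_mul, map_mul, map_mul, map_mul,
      q_tau, inc_tau]
    nth_rw 1 [h1, h2]
    have h3 := odd_gen_mul hv (tau p (inc p v (qmap p v a)))
    rw [tau_tau] at h3
    rw [add_mul, mul_add, mul_add, ← mul_assoc _ (gen (sg p) v), ← h3, mul_assoc (gen (sg p) v) _
      (gen (sg p) v * _), ← mul_assoc _ (gen (sg p) v) _, ← mul_assoc (gen (sg p) v) (_ * _),
      hvv, zero_mul, add_zero, mul_add]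
    simp only [mul_assoc]
    abel
  · intro a b h1 h2
    rw [map_add, map_add, map_add, map_add, map_add, mul_add]
    nth_rw 1 [h1, h2]
    abel

end q

namespace Sul

variable {ι : Type} (s : Sul ι) (v : ι)

/-- the differential of the quotient, on generators -/
noncomputable def qdif (i : {i : ι // i ≠ v}) : FGC (sg (qd s.deg v)) := qmap s.deg v (s.d i.1)

theorem qdif_good (i : {i : ι // i ≠ v}) : s.qdif v i ∈ spanOf (sg (qd s.deg v))
    (fun L => 2 ≤ L.length ∧ (L.map (qd s.deg v)).sum = qd s.deg v i + 1) := by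
  refine q_mem ?_ (s.good i.1)
  rintro L ⟨h1, h2⟩
  rw [List.length_map] at h1
  rw [List.map_map] at h2
  exact ⟨h1, h2⟩

theorem qdif_par (i : {i : ι // i ≠ v}) :
    s.qdif v i ∈ Par (qd s.deg v) (qd s.deg v i + 1) :=
  spanOf_mono (fun _ hL => by rw [hL.2]) (s.qdif_good v i)

/-- the differential of the quotient -/
noncomputable def QD : FGC (sg (qd s.deg v)) →ₗ[ℚ] FGC (sg (qd s.deg v)) :=
  mkD (s.qdif v) (s.qdif_par v)

theorem QD_isDer : IsDer (s.QD v) := isDer_mkD _ _

theorem QD_gen (i : {i : ι // i ≠ v}) : s.QD v (gen _ i) = s.qdif v i := mkD_gen _ _ _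

theorem q_D (hd : s.d v = 0) (a : FGC (sg s.deg)) :
    s.QD v (qmap s.deg v a) = qmap s.deg v (s.D a) := by
  have : (s.QD v) ∘ₗ (qmap s.deg v).toLinearMap = (qmap s.deg v).toLinearMap ∘ₗ s.D := by
    refine der_ext _ _ (fun b => qmap s.deg v b) (fun a => tau _ (qmap s.deg v a)) ?_ ?_ ?_ ?_
    · intro a b
      simp only [LinearMap.comp_apply, AlgHom.toLinearMap_apply]
      rw [map_mul, (s.QD_isDer v).mul]
    · intro a b
      simp only [LinearMap.comp_apply, AlgHom.toLinearMap_apply]
      rw [s.isDer.mul, map_add, map_mul, map_mul, q_tau]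
    · simp only [LinearMap.comp_apply, AlgHom.toLinearMap_apply, map_one, s.isDer.one,
        (s.QD_isDer v).one, map_zero]
    · intro i
      simp only [LinearMap.comp_apply, AlgHom.toLinearMap_apply]
      by_cases hi : i ≠ v
      · rw [q_ne hi, QD_gen, s.D_gen]; rfl
      · push Not at hi
        subst hi
        rw [q_v, s.D_gen, hd, map_zero, map_zero]
  exact DFunLike.congr_fun this a

theorem QD_QD (hd : s.d v = 0) (a : FGC (sg (qd s.deg v))) : s.QD v (s.QD v a) = 0 := by
  have h := q_inc (p := s.deg) (v := v) a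
  rw [← h, q_D s v hd, q_D s v hd, s.D_D, map_zero]

/-- the quotient by a closed generator -/
noncomputable def quo (hd : s.d v = 0) : Sul {i : ι // i ≠ v} where
  deg := qd s.deg v
  two_le := fun i => s.two_le i.1
  d := s.qdif v
  good := s.qdif_good v
  sq := by
    intro i
    have h := s.QD_QD v hd (gen _ i)
    rw [QD_gen] at h
    exact h

variable {v} (hv : ¬ Even (s.deg v))

/-- the derivation `θ` with `D = D'' + v θ`, on generators -/
noncomputable def th (i : {i : ι // i ≠ v}) : FGC (sg (qd s.deg v)) :=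
  qmap s.deg v (pd hv (s.d i.1))

theorem pd_good (i : ι) : pd hv (s.d i) ∈ spanOf (sg s.deg)
    (fun L => 1 ≤ L.length ∧ (L.map s.deg).sum + s.deg v = s.deg i + 1) := by
  unfold pd
  refine mkD_mem (fun j M => j = v ∧ M = []) ?_ ?_ (s.good i)
  · intro j
    by_cases hj : j = v
    · subst hj
      rw [if_pos rfl, ← mono_nil]
      exact mono_mem ⟨rfl, rfl⟩
    · rw [if_neg hj]; exact zero_mem _
  · rintro L ⟨hL1, hL2⟩ W ⟨L1, j, L2, M, rfl, ⟨rfl, rfl⟩, rfl⟩
    simp only [List.length_append, List.length_cons, List.length_nil, List.map_append,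
      List.map_cons, List.sum_append, List.sum_cons, List.map_nil, List.sum_nil] at hL1 hL2 ⊢
    constructor <;> omega

theorem th_good (i : {i : ι // i ≠ v}) : s.th hv i ∈ spanOf (sg (qd s.deg v))
    (fun L => 1 ≤ L.length ∧ (L.map (qd s.deg v)).sum + s.deg v = qd s.deg v i + 1) := by
  refine q_mem ?_ (s.pd_good hv i.1)
  rintro L ⟨h1, h2⟩
  rw [List.length_map] at h1
  rw [List.map_map] at h2
  exact ⟨h1, h2⟩

theorem th_par (i : {i : ι // i ≠ v}) : s.th hv i ∈ Par (qd s.deg v) (qd s.deg v i) := by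
  refine spanOf_mono ?_ (s.th_good hv i)
  rintro L ⟨-, h2⟩
  rw [Nat.not_even_iff] at hv
  omega

/-- the even derivation `θ` -/
noncomputable def Th : FGC (sg (qd s.deg v)) →ₗ[ℚ] FGC (sg (qd s.deg v)) :=
  mkE (s.th hv) (s.th_par hv)

theorem Th_mul (a b : FGC (sg (qd s.deg v))) :
    s.Th hv (a * b) = s.Th hv a * b + a * s.Th hv b := mkE_mul _ _ a b

theorem Th_gen (i : {i : ι // i ≠ v}) : s.Th hv (gen _ i) = s.th hv i := mkE_gen _ _ i

theorem Th_one : s.Th hv 1 = 0 := mkE_one _ _

theorem D_inc (a : FGC (sg (qd s.deg v))) :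
    s.D (inc s.deg v a) = inc s.deg v (s.QD v a)
      + gen (sg s.deg) v * inc s.deg v (s.Th hv a) := by
  let G : FGC (sg (qd s.deg v)) →ₗ[ℚ] FGC (sg s.deg) :=
    (inc s.deg v).toLinearMap ∘ₗ (s.QD v)
      + (LinearMap.mulLeft ℚ (gen (sg s.deg) v)) ∘ₗ (inc s.deg v).toLinearMap ∘ₗ (s.Th hv)
  have hG : ∀ a, G a = inc s.deg v (s.QD v a)
      + gen (sg s.deg) v * inc s.deg v (s.Th hv a) := fun a => rfl
  have : s.D ∘ₗ (inc s.deg v).toLinearMap = G := by
    refine der_ext _ _ (fun b => inc s.deg v b) (fun a => tau s.deg (inc s.deg v a)) ?_ ?_ ?_ ?_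
    · intro a b
      simp only [LinearMap.comp_apply, AlgHom.toLinearMap_apply]
      rw [map_mul, s.isDer.mul]
    · intro a b
      rw [hG, hG, hG, (s.QD_isDer v).mul, map_add, map_mul, map_mul, Th_mul, map_add, map_mul,
        map_mul, inc_tau]
      have h1 := odd_gen_mul hv (inc s.deg v a)
      rw [mul_add, add_mul, mul_add, ← mul_assoc (gen (sg s.deg) v) (inc s.deg v a), h1]
      simp only [mul_assoc]
      abel
    · rw [hG, LinearMap.comp_apply, AlgHom.toLinearMap_apply, map_one, s.isDer.one,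
        (s.QD_isDer v).one, Th_one, map_zero, mul_zero, add_zero]
    · intro i
      rw [hG, LinearMap.comp_apply, AlgHom.toLinearMap_apply, emb_gen, D_gen, QD_gen, Th_gen]
      exact decomp hv (s.d i.1)
  have h2 := DFunLike.congr_fun this a
  exact h2

/-- `θ` commutes with `D''` on generators -/
theorem Th_comm (hd : s.d v = 0) (i : {i : ι // i ≠ v}) :
    s.Th hv (s.qdif v i) = s.QD v (s.th hv i) := by
  have h0 : s.D (s.D (inc s.deg v (gen _ i))) = 0 := s.D_D _
  rw [D_inc s hv, QD_gen, Th_gen, map_add, s.isDer.mul, s.D_gen, hd, zero_mul, zero_add,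
    D_inc s hv, D_inc s hv, ← QD_gen, QD_QD s v hd, map_zero, zero_add, tau_gen, smul_mul_assoc,
    mul_add, ← mul_assoc] at h0
  have h1 : gen (sg s.deg) v * gen (sg s.deg) v = 0 :=
    odd_sq (par_cong (by rw [Nat.even_iff] at hv; omega) (par_gen v))
  rw [h1, zero_mul, add_zero] at h0
  have hodd : ((-1 : ℚ) ^ s.deg v) = -1 := Odd.neg_one_pow (Nat.not_even_iff_odd.1 hv)
  rw [hodd, neg_smul, one_smul, ← sub_eq_add_neg, ← mul_sub, ← map_sub] at h0
  have h2 := congrArg (fun x => qmap s.deg v (pd hv x)) h0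
  simp only [map_zero] at h2
  rw [(pd_isDer hv).mul, pd_v, one_mul, pd_inc, mul_zero, add_zero, q_inc, QD_gen] at h2
  exact sub_eq_zero.1 h2

end Sul

end Run7.h985
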