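import Pool.Agent.Run7.h985.Qul

/-!
# Killing one generator of the base (MP_5f0082_gt, helper985)
-/

set_option autoImplicit false
set_option maxHeartbeats 400000

namespace Run7.h985

open Pool.H582SA

section red

variable {ι κ : Type} {p : ι ⊕ κ → ℕ} {u : ι}

/-- degrees without the generator `u` -/
def rd (p : ι ⊕ κ → ℕ) (u : ι) : {i : ι // i ≠ u} ⊕ κ → ℕ :=
  fun x => p (Sum.map Subtype.val id x)

open Classical in
/-- the map killing the generator `u` -/
noncomputable def rq (p : ι ⊕ κ → ℕ) (u : ι) : FGC (sg p) →ₐ[ℚ] FGC (sg (rd p u)) :=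
  lift (fun x => match x with
    | Sum.inl i => if h : i ≠ u then gen _ (Sum.inl ⟨i, h⟩) else 0
    | Sum.inr k => gen _ (Sum.inr k)) (by
    intro x y
    rcases x with i | k <;> rcases y with j | l
    · by_cases hi : i ≠ u <;> by_cases hj : j ≠ u
      · simp only [dif_pos hi, dif_pos hj]; rw [gen_comm]; rfl
      · simp only [dif_neg hj]; simp
      · simp only [dif_neg hi]; simp
      · simp only [dif_neg hi]; simp
    · by_cases hi : i ≠ u
      · simp only [dif_pos hi]; rw [gen_comm]; rfl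
      · simp only [dif_neg hi]; simp
    · by_cases hj : j ≠ u
      · simp only [dif_pos hj]; rw [gen_comm]; rfl
      · simp only [dif_neg hj]; simp
    · simp only; rw [gen_comm]; rfl)

theorem rq_inl {i : ι} (h : i ≠ u) :
    rq p u (gen (sg p) (Sum.inl i)) = gen _ (Sum.inl ⟨i, h⟩) := by
  unfold rq
  rw [lift_gen]
  simp only [dif_pos h]

theorem rq_u : rq p u (gen (sg p) (Sum.inl u)) = 0 := by
  unfold rq
  rw [lift_gen]
  simp

theorem rq_inr (k : κ) : rq p u (gen (sg p) (Sum.inr k)) = gen _ (Sum.inr k) := by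
  unfold rq
  rw [lift_gen]

/-- the section of the quotient map -/
noncomputable def ri (p : ι ⊕ κ → ℕ) (u : ι) : FGC (sg (rd p u)) →ₐ[ℚ] FGC (sg p) :=
  emb (Sum.map Subtype.val id) (fun _ => rfl)

theorem rq_ri (a : FGC (sg (rd p u))) : rq p u (ri p u a) = a := by
  have : (rq p u).comp (ri p u) = AlgHom.id ℚ _ := by
    apply alg_ext
    rintro (i | k)
    · rw [AlgHom.comp_apply, ri, emb_gen]
      exact rq_inl i.2
    · rw [AlgHom.comp_apply, ri, emb_gen]
      exact rq_inr k
  exact DFunLike.congr_fun this a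

theorem rq_mono (L : List ({i : ι // i ≠ u} ⊕ κ)) :
    rq p u (mono (sg p) (L.map (Sum.map Subtype.val id))) = mono _ L := by
  have h := rq_ri (p := p) (u := u) (mono (sg (rd p u)) L)
  rw [ri, emb_mono] at h
  exact h

theorem rq_mono_u {L : List (ι ⊕ κ)} (h : Sum.inl u ∈ L) : rq p u (mono (sg p) L) = 0 := by
  obtain ⟨A, B, rfl⟩ := List.append_of_mem h
  rw [mono_append, mono_cons, map_mul, map_mul, rq_u, zero_mul, mul_zero]

theorem rq_exists {L : List (ι ⊕ κ)} (h : Sum.inl u ∉ L) :
    ∃ L' : List ({i : ι // i ≠ u} ⊕ κ), L'.map (Sum.map Subtype.val id) = L := by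
  induction L with
  | nil => exact ⟨[], rfl⟩
  | cons x L ih =>
    obtain ⟨L', hL'⟩ := ih (fun h' => h (List.mem_cons_of_mem _ h'))
    rcases x with i | k
    · have hi : i ≠ u := fun h' => h (by rw [h']; simp)
      exact ⟨Sum.inl ⟨i, hi⟩ :: L', by rw [List.map_cons, hL']; rfl⟩
    · exact ⟨Sum.inr k :: L', by rw [List.map_cons, hL']; rfl⟩

theorem rq_mem {S : List (ι ⊕ κ) → Prop} {T : List ({i : ι // i ≠ u} ⊕ κ) → Prop}
    (h : ∀ L : List ({i : ι // i ≠ u} ⊕ κ), S (L.map (Sum.map Subtype.val id)) → T L)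
    {a : FGC (sg p)} (ha : a ∈ spanOf (sg p) S) : rq p u a ∈ spanOf _ T := by
  refine spanOf_induct (P := fun a => rq p u a ∈ spanOf _ T) ?_ ?_ ?_ ?_ ha
  · intro L hL
    by_cases hv : Sum.inl u ∈ L
    · rw [rq_mono_u hv]; exact zero_mem _
    · obtain ⟨L', rfl⟩ := rq_exists hv
      rw [rq_mono]; exact mono_mem (h L' hL)
  · rw [map_zero]; exact zero_mem _
  · intro a b h1 h2; rw [map_add]; exact add_mem h1 h2
  · intro r a h1; rw [map_smul]; exact Submodule.smul_mem _ _ h1

theorem rd_sum (L : List ({i : ι // i ≠ u} ⊕ κ)) :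
    ((L.map (Sum.map Subtype.val id)).map p).sum = (L.map (rd p u)).sum := by
  rw [List.map_map]; rfl

theorem rq_tau (a : FGC (sg p)) : rq p u (tau p a) = tau (rd p u) (rq p u a) := by
  have : (rq p u).comp (tau p) = (tau (rd p u)).comp (rq p u) := by
    apply alg_ext
    rintro (i | k)
    · rw [AlgHom.comp_apply, AlgHom.comp_apply, tau_gen, map_smul]
      by_cases h : i ≠ u
      · rw [rq_inl h, tau_gen]; rfl
      · push Not at h
        subst h
        rw [rq_u, map_zero, smul_zero]
    · rw [AlgHom.comp_apply, AlgHom.comp_apply, tau_gen, map_smul, rq_inr, tau_gen]; rfl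
  exact DFunLike.congr_fun this a

/-- compatibility of the derivations with the map killing `u` -/
theorem rq_D {D : FGC (sg p) →ₗ[ℚ] FGC (sg p)}
    {D' : FGC (sg (rd p u)) →ₗ[ℚ] FGC (sg (rd p u))} (h : IsDer D) (h' : IsDer D')
    (hu : rq p u (D (gen _ (Sum.inl u))) = 0)
    (hg : ∀ x, D' (gen _ x) = rq p u (D (gen _ (Sum.map Subtype.val id x))))
    (a : FGC (sg p)) : D' (rq p u a) = rq p u (D a) := by
  have : D' ∘ₗ (rq p u).toLinearMap = (rq p u).toLinearMap ∘ₗ D := by
    refine der_ext _ _ (fun b => rq p u b) (fun a => tau _ (rq p u a)) ?_ ?_ ?_ ?_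
    · intro a b
      simp only [LinearMap.comp_apply, AlgHom.toLinearMap_apply]
      rw [map_mul, h'.mul]
    · intro a b
      simp only [LinearMap.comp_apply, AlgHom.toLinearMap_apply]
      rw [h.mul, map_add, map_mul, map_mul, rq_tau]
    · simp only [LinearMap.comp_apply, AlgHom.toLinearMap_apply, map_one, h.one, h'.one, map_zero]
    · rintro (i | k)
      · simp only [LinearMap.comp_apply, AlgHom.toLinearMap_apply]
        by_cases hi : i ≠ u
        · rw [rq_inl hi, hg]; rfl
        · push Not at hi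
          subst hi
          rw [rq_u, hu, map_zero]
      · simp only [LinearMap.comp_apply, AlgHom.toLinearMap_apply]
        rw [rq_inr, hg]; rfl
  exact DFunLike.congr_fun this a

end red

end Run7.h985
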