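import Pool.Agent.Run7.h985.OddTwo

/-!
# Cocycles in algebras with pure odd generators (MP_5f0082_gt, helper985)
-/

set_option autoImplicit false
set_option maxHeartbeats 400000

namespace Run7.h985

open Pool.H582SA

section comm

variable {ι : Type} {p : ι → ℕ}

theorem IsDer.tau_comm {D : FGC (sg p) →ₗ[ℚ] FGC (sg p)} (h : IsDer D) (a : FGC (sg p)) :
    D (tau p a) = - tau p (D a) := by
  refine mono_induct (P := fun a => D (tau p a) = - tau p (D a)) ?_ ?_ ?_ ?_ a
  · intro L
    rw [tau_mono, map_smul, tau_par (h.par _ _ (par_mono L)), ← neg_smul, pow_succ]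
    congr 1
    ring
  · simp
  · intro a b h1 h2; rw [map_add, map_add, h1, h2, map_add, map_add, neg_add]
  · intro r a h1; rw [map_smul, map_smul, h1, map_smul, map_smul, smul_neg]

/-- the anticommutator of two odd derivations is a derivation -/
theorem anti_mul {F G : FGC (sg p) →ₗ[ℚ] FGC (sg p)} (hF : IsDer F) (hG : IsDer G)
    (a b : FGC (sg p)) : F (G (a * b)) + G (F (a * b))
      = (F (G a) + G (F a)) * b + a * (F (G b) + G (F b)) := by
  rw [hG.mul, hF.mul, map_add, map_add, hF.mul, hF.mul, hG.mul, hG.mul, hF.tau_comm, hG.tau_comm,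
    tau_tau]
  noncomm_ring

/-- the anticommutator with a partial derivative vanishes on words with letters in `T` -/
theorem anti_pd {D : FGC (sg p) →ₗ[ℚ] FGC (sg p)} (hD : IsDer D) {v : ι} (hv : ¬ Even (p v))
    {T : ι → Prop} (hT : ∀ j, T j → pd hv (D (gen _ j)) = 0) {a : FGC (sg p)}
    (ha : a ∈ spanOf (sg p) (fun L => ∀ j ∈ L, T j)) : D (pd hv a) = - pd hv (D a) := by
  have h0 : D 1 = 0 := hD.one
  have key : D (pd hv a) + pd hv (D a) = 0 := by
    refine spanOf_induct (P := fun a => D (pd hv a) + pd hv (D a) = 0) ?_ ?_ ?_ ?_ ha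
    · intro L hL
      induction L with
      | nil => rw [mono_nil, (pd_isDer hv).one, h0, map_zero, map_zero, add_zero]
      | cons j L ih =>
        rw [mono_cons, anti_mul hD (pd_isDer hv), ih (fun i hi => hL i (List.mem_cons_of_mem _ hi)),
          mul_zero, add_zero, hT j (hL j (by simp)), add_zero]
        by_cases hj : j = v
        · subst hj
          rw [pd_v, h0, zero_mul]
        · rw [pd_ne hv hj, map_zero, zero_mul]
    · simp
    · intro a b h1 h2
      rw [map_add, map_add, map_add, map_add]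
      calc D (pd hv a) + D (pd hv b) + (pd hv (D a) + pd hv (D b))
          = (D (pd hv a) + pd hv (D a)) + (D (pd hv b) + pd hv (D b)) := by abel
        _ = 0 := by rw [h1, h2, add_zero]
    · intro r a h1
      rw [map_smul, map_smul, map_smul, map_smul, ← smul_add, h1, smul_zero]
  exact eq_neg_of_add_eq_zero_left key

theorem kill_tau (T : ι → Prop) (a : FGC (sg p)) : kill p T (tau p a) = tau p (kill p T a) := by
  have : (kill p T).comp (tau p) = (tau p).comp (kill p T) := by
    apply alg_ext
    intro i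
    rw [AlgHom.comp_apply, AlgHom.comp_apply, tau_gen, map_smul]
    by_cases h : T i
    · rw [kill_T h, map_zero, smul_zero]
    · rw [kill_nT h, tau_gen]
  exact DFunLike.congr_fun this a

theorem kill_pd (T : ι → Prop) {v : ι} (hv : ¬ Even (p v)) (hT : ¬ T v) (a : FGC (sg p)) :
    kill p T (pd hv a) = pd hv (kill p T a) := by
  have : (kill p T).toLinearMap ∘ₗ (pd hv) = (pd hv) ∘ₗ (kill p T).toLinearMap := by
    refine der_ext _ _ (fun b => kill p T b) (fun a => tau p (kill p T a)) ?_ ?_ ?_ ?_
    · intro a b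
      simp only [LinearMap.comp_apply, AlgHom.toLinearMap_apply]
      rw [(pd_isDer hv).mul, map_add, map_mul, map_mul, kill_tau]
    · intro a b
      simp only [LinearMap.comp_apply, AlgHom.toLinearMap_apply]
      rw [map_mul, (pd_isDer hv).mul]
    · simp only [LinearMap.comp_apply, AlgHom.toLinearMap_apply, map_one, (pd_isDer hv).one,
        map_zero]
    · intro i
      simp only [LinearMap.comp_apply, AlgHom.toLinearMap_apply]
      by_cases hi : i = v
      · subst hi
        rw [kill_nT hT, pd_v, map_one]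
      · rw [pd_ne hv hi, map_zero]
        by_cases h : T i
        · rw [kill_T h, map_zero]
        · rw [kill_nT h, pd_ne hv hi]
  exact DFunLike.congr_fun this a

/-- an element with vanishing partial derivative does not involve the letter -/
theorem no_letter {v : ι} (hv : ¬ Even (p v)) {S : List ι → Prop} {a : FGC (sg p)}
    (ha : a ∈ spanOf (sg p) S) (h : pd hv a = 0) :
    a ∈ spanOf (sg p) (fun L => S L ∧ v ∉ L) := by
  classical
  have h1 : a = inc p v (qmap p v a) := by
    have h2 := decomp hv a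
    rwa [h, map_zero, map_zero, mul_zero, add_zero] at h2
  have h3 : a ∈ spanOf (sg p) (fun L => v ∉ L) := by
    rw [h1]
    refine emb_mem _ _ ?_ (mem_top_span _)
    rintro L - hL
    obtain ⟨i, -, hi⟩ := List.mem_map.1 hL
    exact i.2 hi
  have h4 : ∀ L : List ι, v ∉ L ↔ (L.map (fun i => if i = v then 1 else 0)).sum = 0 := by
    intro L
    induction L with
    | nil => simp
    | cons i L ih =>
      rw [List.mem_cons, List.map_cons, List.sum_cons]
      by_cases hi : i = v
      · subst hi; simp
      · rw [if_neg hi, zero_add, ← ih]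
        constructor
        · intro h h'; exact h (Or.inr h')
        · rintro h (h' | h')
          · exact hi h'.symm
          · exact h h'
  refine spanOf_mono (fun L hL => ⟨hL.1, (h4 L).2 hL.2⟩)
    (spanOf_inter (fun i => if i = v then 1 else 0) (fun m => m = 0) ha
      (spanOf_mono (fun L hL => (h4 L).1 hL) h3))

theorem no_letters [Finite ι] {S : List ι → Prop} {O : ι → Prop}
    (hO : ∀ v, O v → ¬ Even (p v)) {a : FGC (sg p)} (ha : a ∈ spanOf (sg p) S)
    (h : ∀ v (hv : O v), pd (hO v hv) a = 0) :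
    a ∈ spanOf (sg p) (fun L => S L ∧ ∀ v ∈ L, ¬ O v) := by
  classical
  have := Fintype.ofFinite ι
  have key : ∀ F : Finset ι, a ∈ spanOf (sg p) (fun L => S L ∧ ∀ v ∈ F, O v → v ∉ L) := by
    intro F
    induction F using Finset.induction_on with
    | empty => exact spanOf_mono (fun L hL => ⟨hL, by simp⟩) ha
    | insert w F hw ih =>
      by_cases hOw : O w
      · refine spanOf_mono ?_ (no_letter (hO w hOw) ih (h w hOw))
        rintro L ⟨⟨h1, h2⟩, h3⟩
        refine ⟨h1, ?_⟩
        intro v hv hOv
        rcases Finset.mem_insert.1 hv with rfl | hv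
        · exact h3
        · exact h2 v hv hOv
      · refine spanOf_mono ?_ ih
        rintro L ⟨h1, h2⟩
        refine ⟨h1, ?_⟩
        intro v hv hOv
        rcases Finset.mem_insert.1 hv with rfl | hv
        · exact absurd hOv hOw
        · exact h2 v hv hOv
  refine spanOf_mono ?_ (key Finset.univ)
  rintro L ⟨h1, h2⟩
  exact ⟨h1, fun v hv hOv => h2 v (Finset.mem_univ _) hOv hv⟩

theorem kill_mem {T : ι → Prop} {S : List ι → Prop} {a : FGC (sg p)}
    (ha : a ∈ spanOf (sg p) S) : kill p T a ∈ spanOf (sg p) (fun L => S L ∧ ∀ j ∈ L, ¬ T j) := by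
  refine spanOf_induct (P := fun a => kill p T a ∈ spanOf (sg p)
    (fun L => S L ∧ ∀ j ∈ L, ¬ T j)) ?_ ?_ ?_ ?_ ha
  · intro L hL
    rcases kill_mono (p := p) T L with ⟨-, h2⟩ | ⟨h1, h2⟩
    · rw [h2]; exact zero_mem _
    · rw [h2]
      exact mono_mem ⟨hL, fun j hj hT => h1 ⟨j, hj, hT⟩⟩
  · rw [map_zero]; exact zero_mem _
  · intro a b h1 h2; rw [map_add]; exact add_mem h1 h2
  · intro r a h1; rw [map_smul]; exact Submodule.smul_mem _ _ h1

theorem pd_span {v : ι} (hv : ¬ Even (p v)) {T : ι → Prop} {N : ℕ} {a : FGC (sg p)}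
    (ha : a ∈ spanOf (sg p) (fun L => (∀ j ∈ L, T j) ∧ (L.map p).sum = N)) :
    pd hv a ∈ spanOf (sg p) (fun L => (∀ j ∈ L, T j) ∧ (L.map p).sum + p v = N) := by
  unfold pd
  refine mkD_mem (fun j M => j = v ∧ M = []) ?_ ?_ ha
  · intro j
    by_cases hj : j = v
    · subst hj
      rw [if_pos rfl, ← mono_nil]
      exact mono_mem ⟨rfl, rfl⟩
    · rw [if_neg hj]; exact zero_mem _
  · rintro L ⟨hT, hL⟩ W ⟨L1, j, L2, M, rfl, ⟨rfl, rfl⟩, rfl⟩
    simp only [List.map_append, List.map_cons, List.sum_append, List.sum_cons, List.map_nil,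
      List.sum_nil] at hL ⊢
    refine ⟨?_, by omega⟩
    intro i hi
    refine hT i ?_
    simp only [List.mem_append, List.mem_cons, List.not_mem_nil, or_false] at hi ⊢
    tauto

theorem pd_free {v : ι} (hv : ¬ Even (p v)) {a : FGC (sg p)}
    (ha : a ∈ spanOf (sg p) (fun L => v ∉ L)) : pd hv a = 0 := by
  refine spanOf_induct (P := fun a => pd hv a = 0) ?_ ?_ ?_ ?_ ha
  · intro L hL
    induction L with
    | nil => rw [mono_nil, (pd_isDer hv).one]
    | cons j L ih =>
      rw [mono_cons, (pd_isDer hv).mul, ih (fun h => hL (List.mem_cons_of_mem _ h)),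
        pd_ne hv (fun h => hL (by rw [h]; simp)), zero_mul, mul_zero, add_zero]
  · rw [map_zero]
  · intro a b h1 h2; rw [map_add, h1, h2, add_zero]
  · intro r a h1; rw [map_smul, h1, smul_zero]

theorem span_deg_zero (hp : ∀ i, p i ≠ 0) {a : FGC (sg p)}
    (ha : a ∈ spanOf (sg p) (fun L => (L.map p).sum = 0)) : ∃ c : ℚ, a = c • 1 := by
  refine spanOf_induct (P := fun a => ∃ c : ℚ, a = c • 1) ?_ ?_ ?_ ?_ ha
  · intro L hL
    rcases L with _ | ⟨j, L⟩
    · exact ⟨1, by simp⟩
    · exfalso
      rw [List.map_cons, List.sum_cons] at hL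
      have := hp j
      omega
  · exact ⟨0, by simp⟩
  · rintro a b ⟨c, h1⟩ ⟨c', h2⟩
    exact ⟨c + c', by rw [h1, h2, add_smul]⟩
  · rintro r a ⟨c, h1⟩
    exact ⟨r * c, by rw [h1, smul_smul]⟩

end comm

section key

variable {ι : Type} [Finite ι] (s : Sul ι) (Q : ι → Prop) (M : ℕ)

/-- the letters of the core -/
def Lt (j : ι) : Prop := Q j ∨ (¬ Even (s.deg j) ∧ s.deg j < M)

/-- no closed odd element of the core has a linear part -/
def NCQ : Prop := ∀ v, ¬ Even (s.deg v) → s.deg v < M →
  ∀ z ∈ spanOf (sg s.deg) (fun L => Aw s.deg v L ∧ ∀ j ∈ L, Q j ∨ ¬ Even (s.deg j)),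
    s.D (gen _ v + z) ≠ 0

variable {s Q M}

theorem core_cocycle (hQ : ∀ i, Q i → Even (s.deg i)) (hQd : ∀ i, Q i → s.d i = 0)
    (hO : ∀ v, ¬ Even (s.deg v) → s.deg v < M → s.d v ∈ spanOf (sg s.deg) (fun L => ∀ j ∈ L, Q j))
    (hnc : NCQ s Q M) (N : ℕ) : ∀ b ∈ spanOf (sg s.deg)
      (fun L => (∀ j ∈ L, Lt s Q M j) ∧ (L.map s.deg).sum = N), 1 ≤ N → s.D b = 0 →
      b ∈ spanOf (sg s.deg) (Has Q) := by
  induction N using Nat.strong_induction_on with
  | _ N ih =>
    intro b hb hN hD
    have hOe : ∀ v, (¬ Even (s.deg v) ∧ s.deg v < M) → ¬ Even (s.deg v) := fun v h => h.1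
    have hnQ : ∀ v, ¬ Even (s.deg v) → ¬ Q v := fun v h1 h2 => h1 (hQ v h2)
    have key : ∀ v (hv : ¬ Even (s.deg v) ∧ s.deg v < M),
        pd (hOe v hv) (kill s.deg Q b) = 0 := by
      intro v hv
      rw [← kill_pd Q (hOe v hv) (hnQ v hv.1)]
      have h1 := pd_span (hOe v hv) hb
      have h2 : s.D (pd (hOe v hv) b) = 0 := by
        rw [anti_pd s.isDer (hOe v hv) (T := Lt s Q M) ?_ (spanOf_mono (fun L hL => hL.1) hb), hD,
          map_zero, neg_zero]
        rintro j (hj | hj)
        · rw [s.D_gen, hQd j hj, map_zero]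
        · rw [s.D_gen]
          refine pd_free (hOe v hv) (spanOf_mono ?_ (hO j hj.1 hj.2))
          intro L hL hvL
          exact hnQ v hv.1 (hL v hvL)
      have hv2 := s.two_le v
      rcases Nat.lt_trichotomy N (s.deg v) with h3 | h3 | h3
      · have h4 : pd (hOe v hv) b = 0 := by
          refine spanOf_false ?_ h1
          rintro L ⟨-, h5⟩
          omega
        rw [h4, map_zero]
      · obtain ⟨c, hc⟩ := span_deg_zero (p := s.deg) (fun i => by have := s.two_le i; omega)
          (spanOf_mono (fun L hL => by omega) h1)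
        by_cases hc0 : c = 0
        · rw [hc, hc0, zero_smul, map_zero]
        · exfalso
          have h5 : pd (hOe v hv) (b - c • gen _ v) = 0 := by
            rw [map_sub, map_smul, pd_v, hc, sub_self]
          have h6 : b - c • gen _ v ∈ spanOf (sg s.deg)
              (fun L => (∀ j ∈ L, Lt s Q M j) ∧ (L.map s.deg).sum = N) := by
            refine sub_mem hb (Submodule.smul_mem _ _ ?_)
            rw [← mono_single]
            refine mono_mem ⟨?_, by simp [h3]⟩
            intro j hj
            rw [List.mem_singleton] at hj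
            subst hj
            exact Or.inr hv
          have h7 := no_letter (hOe v hv) h6 h5
          refine hnc v hv.1 hv.2 (c⁻¹ • (b - c • gen _ v)) (Submodule.smul_mem _ _ ?_) ?_
          · refine spanOf_mono ?_ h7
            rintro L ⟨⟨h8, h9⟩, h10⟩
            refine ⟨⟨h10, ?_, by omega⟩, fun j hj => ?_⟩
            · rcases L with _ | ⟨a, L⟩
              · simp at h9; omega
              · simp
            · rcases h8 j hj with h | h
              · exact Or.inl h
              · exact Or.inr h.1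
          · rw [smul_sub, smul_smul, inv_mul_cancel₀ hc0, one_smul, add_sub_cancel, map_smul, hD,
              smul_zero]
      · refine kill_zero (ih (N - s.deg v) (by omega) _ ?_ (by omega) h2)
        exact spanOf_mono (fun L hL => ⟨hL.1, by omega⟩) h1
    refine has_of_kill ?_
    have h1 := no_letters hOe (kill_mem (T := Q) hb) key
    refine spanOf_false ?_ h1
    rintro L ⟨⟨⟨h2, h3⟩, h4⟩, h5⟩
    rcases L with _ | ⟨a, L⟩
    · simp at h3; omega
    · rcases h2 a (by simp) with h | h
      · exact h4 a (by simp) h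
      · exact h5 a (by simp) h

end key

end Run7.h985
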