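import Pool.Agent.Run7.h985.Stg

/-!
# Three-stage algebras with at most three closed even generators (MP_5f0082_gt, helper985)
-/

set_option autoImplicit false
set_option maxHeartbeats 400000

namespace Run7.h985

open Pool.H582SA

/-- closed even generators `Q`, odd generators of degree less than `M` with differentials in
`ΛQ`, other even generators of degree at most `M` with differentials in `Λ(Q ⊕ odd)` -/
structure Cc {ι : Type} (s : Sul ι) (Q : ι → Prop) (M : ℕ) : Prop where
  /-- parity -/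
  q_even : ∀ i, Q i → Even (s.deg i)
  /-- closed -/
  q_d : ∀ i, Q i → s.d i = 0
  /-- pure -/
  o_d : ∀ v, ¬ Even (s.deg v) → s.deg v < M → s.d v ∈ spanOf (sg s.deg) (fun L => ∀ j ∈ L, Q j)
  /-- the other even generators -/
  z_d : ∀ z, Even (s.deg z) → ¬ Q z →
    s.d z ∈ spanOf (sg s.deg) (fun L => ∀ j ∈ L, Q j ∨ ¬ Even (s.deg j))
  /-- degrees -/
  top : ∀ z, Even (s.deg z) → s.deg z ≤ M

section cc

variable {ι : Type}

theorem tz_span {p : ι → ℕ} (i : ι) (z : FGC (sg p)) (hz : z ∈ spanOf (sg p) (Aw p i))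
    {T : ι → Prop} (hi : T i) (hz' : z ∈ spanOf (sg p) (fun L => ∀ j ∈ L, T j))
    {a : FGC (sg p)} (ha : a ∈ spanOf (sg p) (fun L => ∀ j ∈ L, T j)) :
    tz i z hz a ∈ spanOf (sg p) (fun L => ∀ j ∈ L, T j) := by
  have hg : ∀ j, T j → tz i z hz (gen _ j) ∈ spanOf (sg p) (fun L => ∀ j ∈ L, T j) := by
    intro j hj
    have h1 : gen (sg p) j ∈ spanOf (sg p) (fun L => ∀ j ∈ L, T j) := by
      rw [← mono_single]
      refine mono_mem ?_
      intro k hk
      rw [List.mem_singleton] at hk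
      rw [hk]; exact hj
    by_cases hji : j = i
    · subst hji
      rw [tz_i]
      exact add_mem h1 hz'
    · rw [tz_j i z hz hji]; exact h1
  refine spanOf_induct (P := fun a => tz i z hz a ∈ spanOf (sg p) (fun L => ∀ j ∈ L, T j))
    ?_ ?_ ?_ ?_ ha
  · intro L hL
    induction L with
    | nil => rw [mono_nil, map_one, ← mono_nil]; exact mono_mem (by simp)
    | cons j L ih =>
      rw [mono_cons, map_mul]
      refine spanOf_mul ?_ (hg j (hL j (by simp))) (ih (fun k hk => hL k (List.mem_cons_of_mem _ hk)))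
      intro A B hA hB k hk
      rcases List.mem_append.1 hk with h | h
      · exact hA k h
      · exact hB k h
  · rw [map_zero]; exact zero_mem _
  · intro a b h1 h2; rw [map_add]; exact add_mem h1 h2
  · intro r a h1; rw [map_smul]; exact Submodule.smul_mem _ _ h1

theorem q_span {p : ι → ℕ} {v : ι} {T : ι → Prop} {a : FGC (sg p)}
    (ha : a ∈ spanOf (sg p) (fun L => ∀ j ∈ L, T j)) :
    qmap p v a ∈ spanOf (sg (qd p v)) (fun L => ∀ j ∈ L, T j.1) := by
  refine q_mem ?_ ha
  intro L hL j hj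
  exact hL j.1 (List.mem_map_of_mem hj)

variable {s : Sul ι} {Q : ι → Prop} {M : ℕ}

theorem Cc.base [Finite ι] (h : Cc s Q M) (hc : Nat.card {i // Q i} ≤ 3) (hnc : NCQ s Q M)
    (n : ℕ) : s.Anick n := by
  classical
  have := Fintype.ofFinite ι
  refine base3 ι s ?_ n
  intro x hx
  by_cases hQx : Q x
  · refine ⟨∅, by simp, by simp, by simp, ?_⟩
    rw [h.q_d x hQx]; exact zero_mem _
  refine ⟨Finset.univ.filter Q, ?_, fun i hi => h.q_even i (Finset.mem_filter.1 hi).2,
    fun i hi => h.q_d i (Finset.mem_filter.1 hi).2, ?_⟩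
  · rw [← Fintype.card_subtype, ← Nat.card_eq_fintype_card]; exact hc
  · have h1 : s.d x ∈ spanOf (sg s.deg) (fun L => (∀ j ∈ L, Lt s Q M j) ∧
        (L.map s.deg).sum = s.deg x + 1) := by
      have h2 := d_letters s x (fun j => s.deg j < M) (fun j hj => by
        have := h.top x hx; omega)
      have h3 := spanOf_inter (S := fun L => (∀ j ∈ L, s.deg j < M) ∧
        (L.map s.deg).sum = s.deg x + 1)
        (fun j => if Q j ∨ ¬ Even (s.deg j) then 0 else 1) (fun m => m = 0) h2
        (spanOf_mono (by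
          intro L hL
          rw [List.sum_eq_zero_iff]
          intro a ha
          obtain ⟨j, hj, rfl⟩ := List.mem_map.1 ha
          rw [if_pos (hL j hj)]) (h.z_d x hx hQx))
      refine spanOf_mono ?_ h3
      rintro L ⟨⟨h4, h5⟩, h6⟩
      refine ⟨?_, h5⟩
      intro j hj
      rw [List.sum_eq_zero_iff] at h6
      have h7 := h6 _ (List.mem_map_of_mem hj)
      by_cases h8 : Q j ∨ ¬ Even (s.deg j)
      · rcases h8 with h8 | h8
        · exact Or.inl h8
        · exact Or.inr ⟨h8, h4 j hj⟩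
      · rw [if_neg h8] at h7; omega
    have h2 : s.D (s.d x) = 0 := by rw [← s.D_gen, s.D_D]
    refine spanOf_mono ?_ (core_cocycle h.q_even h.q_d h.o_d hnc _ _ h1 (by omega) h2)
    rintro L ⟨j, hj, hj'⟩
    exact ⟨j, hj, Finset.mem_filter.2 ⟨Finset.mem_univ _, hj'⟩⟩

theorem Cc.tw (h : Cc s Q M) (i : ι) (hi : ¬ Even (s.deg i)) (z : FGC (sg s.deg))
    (hz : z ∈ spanOf (sg s.deg) (Aw s.deg i))
    (hz' : z ∈ spanOf (sg s.deg) (fun L => ∀ j ∈ L, Q j ∨ ¬ Even (s.deg j)))
    (hD : s.D (gen _ i + z) = 0) : Cc (s.tw i z hz) Q M ∧ (s.tw i z hz).d i = 0 := by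
  have hd : s.twd i z hz i = 0 := by
    unfold Sul.twd
    rw [tz_i, hD, map_zero]
  have hj : ∀ j, j ≠ i → s.twd i z hz j = tz i (-z) (aw_neg hz) (s.d j) := by
    intro j hj
    unfold Sul.twd
    rw [tz_j i z hz hj, s.D_gen]
  refine ⟨⟨h.q_even, ?_, ?_, ?_, h.top⟩, hd⟩
  · intro j hQ
    change s.twd i z hz j = 0
    rw [hj j (fun hji => hi (hji ▸ h.q_even j hQ)), h.q_d j hQ, map_zero]
  · intro v hv hvM
    have hv' : ¬ Even (s.deg v) := hv
    have hvM' : s.deg v < M := hvM
    change s.twd i z hz v ∈ spanOf (sg s.deg) (fun L => ∀ j ∈ L, Q j)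
    by_cases hvi : v = i
    · subst hvi
      rw [hd]; exact zero_mem _
    · have h1 : s.d v ∈ spanOf (sg s.deg) (fun L => ∀ j ∈ L, Q j) := h.o_d v hv' hvM'
      have h2 : s.d v ∈ spanOf (sg s.deg) (fun L => i ∉ L) := by
        refine spanOf_mono ?_ h1
        intro L hL hiL
        exact hi (h.q_even i (hL i hiL))
      rw [hj v hvi, tz_fix i (-z) (aw_neg hz) h2]
      exact h1
  · intro x hx hQx
    have hx' : Even (s.deg x) := hx
    have hxi : x ≠ i := fun hxi => hi (hxi ▸ hx')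
    change s.twd i z hz x ∈ spanOf (sg s.deg) (fun L => ∀ j ∈ L, Q j ∨ ¬ Even (s.deg j))
    rw [hj x hxi]
    exact tz_span (T := fun j => Q j ∨ ¬ Even (s.deg j)) i (-z) (aw_neg hz) (Or.inr hi)
      (neg_mem hz') (h.z_d x hx' hQx)

theorem Cc.quo (h : Cc s Q M) (i : ι) (hd : s.d i = 0) :
    Cc (s.quo i hd) (fun j => Q j.1) M := by
  refine ⟨fun j hj => h.q_even j.1 hj, ?_, ?_, ?_, fun z hz => h.top z.1 hz⟩
  · intro j hj
    change qmap s.deg i (s.d j.1) = 0
    rw [h.q_d j.1 hj, map_zero]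
  · intro v hv hvM
    exact q_span (T := Q) (h.o_d v.1 hv hvM)
  · intro x hx hQx
    exact q_span (T := fun j => Q j ∨ ¬ Even (s.deg j)) (h.z_d x.1 hx hQx)

theorem anick_cc (N : ℕ) : ∀ (ι : Type) [Finite ι] (s : Sul ι) (Q : ι → Prop) (M : ℕ),
    Cc s Q M → Nat.card {i // Q i} ≤ 3 → Nat.card ι ≤ N → ∀ n, s.Anick n := by
  induction N with
  | zero =>
    intro ι _ s Q M h hc hN n
    refine h.base hc ?_ n
    intro i
    have : Nonempty ι := ⟨i⟩
    have := Finite.card_pos (α := ι)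
    omega
  | succ N ih =>
    intro ι _ s Q M h hc hN n
    by_cases hnc : NCQ s Q M
    · exact h.base hc hnc n
    · unfold NCQ at hnc
      push Not at hnc
      obtain ⟨i, hi, hiM, z, hz, hD⟩ := hnc
      have hz1 : z ∈ spanOf (sg s.deg) (Aw s.deg i) := spanOf_mono (fun L hL => hL.1) hz
      have hz2 : z ∈ spanOf (sg s.deg) (fun L => ∀ j ∈ L, Q j ∨ ¬ Even (s.deg j)) :=
        spanOf_mono (fun L hL => hL.2) hz
      obtain ⟨h1, h2⟩ := h.tw i hi z hz1 hz2 hD
      refine s.anick_of_tw i z hz1 hi ?_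
      refine (s.tw i z hz1).anick_of_quo i h2 hi ?_ n
      refine ih {j : ι // j ≠ i} _ _ M (h1.quo i h2) ?_ ?_
      · refine le_trans (Nat.card_le_card_of_injective
          (fun j : {j : {j : ι // j ≠ i} // Q j.1} => (⟨j.1.1, j.2⟩ : {j // Q j})) ?_) hc
        intro a b hab
        apply Subtype.ext
        apply Subtype.ext
        exact congrArg (fun x : {j // Q j} => x.1) hab
      · have h1 : Nat.card {j : ι // j ≠ i} < Nat.card ι :=
          Finite.card_subtype_lt (x := i) (by simp)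
        omega

end cc

end Run7.h985
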