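import Pool.Agent.Run7.h985.Stg2

/-!
# Three even and three odd generators (MP_5f0082_gt, helper985)
-/

set_option autoImplicit false
set_option maxHeartbeats 400000

namespace Run7.h985

open Pool.H582SA

section rank

variable {ι : Type} [Finite ι] {s : Sul ι}

/-- even generators of minimal degree are closed -/
theorem min_closed (h : NC s) (x : ι) (hx : Even (s.deg x))
    (hmin : ∀ z, Even (s.deg z) → s.deg x ≤ s.deg z) : s.d x = 0 := by
  have hodd := odd_gt h x hmin
  refine spanOf_false (S := fun L => 2 ≤ L.length ∧ (L.map s.deg).sum = s.deg x + 1) ?_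
    (s.good x)
  rintro L ⟨h3, h4⟩
  obtain ⟨j, hj⟩ : ∃ j, j ∈ L := by
    cases L with
    | nil => simp at h3
    | cons a L => exact ⟨a, by simp⟩
  have h5 := letter_lt s hj h3 h4
  by_cases hje : Even (s.deg j)
  · have := hmin j hje; omega
  · have := hodd j hje; omega

/-- an even generator with at most one even generator of smaller degree is closed -/
theorem second_closed (h : NC s) (x : ι) (hx : Even (s.deg x)) (y : ι) (hy : Even (s.deg y))
    (hxy : s.deg y < s.deg x) (hall : ∀ z, Even (s.deg z) → s.deg z < s.deg x → z = y) :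
    s.d x = 0 := by
  classical
  have hmin' : ∀ z, Even (s.deg z) → s.deg y ≤ s.deg z := by
    intro z hz
    by_cases hzx : s.deg z < s.deg x
    · rw [hall z hz hzx]
    · omega
  have hodd := odd_gt h y hmin'
  have hyc : s.d y = 0 := min_closed h y hy hmin'
  have hy0 : 0 < s.deg y := by have := s.two_le y; omega
  have hyD : s.D (gen _ y) = 0 := by rw [s.D_gen, hyc]
  have hyk : ∀ k, s.D (gen _ y ^ k) = 0 := s.isDer.pow_closed (par_gen_even hy) hyD
  by_cases hO : Nonempty {v // ¬ Even (s.deg v) ∧ s.deg v < s.deg x}
  · obtain ⟨⟨v, hv, hvx⟩, hvmin⟩ := Finite.exists_min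
      (fun i : {v // ¬ Even (s.deg v) ∧ s.deg v < s.deg x} => s.deg i.1)
    have hvmin' : ∀ w, ¬ Even (s.deg w) → s.deg w < s.deg x → s.deg v ≤ s.deg w :=
      fun w h1 h2 => hvmin ⟨w, h1, h2⟩
    have hve : Even (s.deg v + 1) := by
      rw [Nat.even_iff] at hv ⊢; omega
    obtain ⟨c, k, hcv, hck⟩ := span_even hy hy0 hv hve (d_letters s v (fun i => i = y ∨ i = v) (by
      intro j hj
      by_cases hje : Even (s.deg j)
      · exact Or.inl (hall j hje (by omega))
      · have := hvmin' j hje (by omega); omega))
    have hc0 : c ≠ 0 := by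
      intro hc0
      have h3 := h v hv 0 (zero_mem _)
      rw [add_zero, s.D_gen, hcv, hc0, zero_smul] at h3
      exact h3 rfl
    have hkv := hck hc0
    -- no other odd generator below `x`
    have huniq : ∀ w, ¬ Even (s.deg w) → s.deg w < s.deg x → w = v := by
      by_contra hcon
      push Not at hcon
      obtain ⟨w0, hw01, hw02, hw03⟩ := hcon
      have hne2 : Nonempty {w // ¬ Even (s.deg w) ∧ s.deg w < s.deg x ∧ w ≠ v} :=
        ⟨⟨w0, hw01, hw02, hw03⟩⟩
      obtain ⟨⟨w, hw, hwx, hwv⟩, hwmin⟩ := Finite.exists_min
        (fun i : {w // ¬ Even (s.deg w) ∧ s.deg w < s.deg x ∧ w ≠ v} => s.deg i.1)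
      have hwe : Even (s.deg w + 1) := by
        rw [Nat.even_iff] at hw ⊢; omega
      obtain ⟨c', k', hcw, hck'⟩ := span_even hy hy0 hv hwe
        (d_letters s w (fun i => i = y ∨ i = v) (by
          intro j hj
          by_cases hje : Even (s.deg j)
          · exact Or.inl (hall j hje (by omega))
          · by_cases hjv : j = v
            · exact Or.inr hjv
            · have h5 : s.deg w ≤ s.deg j := hwmin ⟨j, hje, by omega, hjv⟩
              omega))
      by_cases hc'0 : c' = 0
      · have h3 := h w hw 0 (zero_mem _)
        rw [add_zero, s.D_gen, hcw, hc'0, zero_smul] at h3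
        exact h3 rfl
      · have hkw := hck' hc'0
        have hvw : s.deg v ≤ s.deg w := hvmin' w hw hwx
        have hkk : k ≤ k' := by
          by_contra hcon2
          push Not at hcon2
          have h6 : k' * s.deg y < k * s.deg y := Nat.mul_lt_mul_of_pos_right hcon2 hy0
          omega
        refine h w hw (-((c' / c) • (gen _ y ^ (k' - k) * gen _ v))) ?_ ?_
        · refine neg_mem (Submodule.smul_mem _ _ ?_)
          have h7 : gen (sg s.deg) y ^ (k' - k) * gen _ v
              = mono _ (List.replicate (k' - k) y ++ [v]) := by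
            rw [mono_append, mono_single]
            congr 1
            simp [mono]
          rw [h7]
          refine mono_mem ⟨?_, ?_, ?_⟩
          · intro hm
            rcases List.mem_append.1 hm with hm | hm
            · have := (List.mem_replicate.1 hm).2
              rw [this] at hw
              exact hw hy
            · rw [List.mem_singleton] at hm
              exact hwv hm
          · simp
          · have h8 : (k' - k) * s.deg y = k' * s.deg y - k * s.deg y := Nat.sub_mul _ _ _
            simp only [List.map_append, List.map_replicate, List.sum_append,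
              List.sum_replicate, List.map_cons, List.map_nil, List.sum_cons, List.sum_nil,
              smul_eq_mul, add_zero]
            omega
        · have h9 : s.D (gen (sg s.deg) y ^ (k' - k) * gen _ v)
              = c • gen _ y ^ k' := by
            rw [s.isDer.mul, hyk, zero_mul, zero_add,
              tau_even (par_pow0 (par_gen_even hy) _), s.D_gen, hcv, mul_smul_comm, ← pow_add,
              Nat.sub_add_cancel hkk]
          rw [map_add, map_neg, map_smul, h9, s.D_gen, hcw, smul_smul, div_mul_cancel₀ _ hc0,
            add_neg_cancel]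
    have hxo : ¬ Even (s.deg x + 1) := by
      rw [Nat.even_iff] at hx ⊢; omega
    obtain ⟨c'', j, hcx⟩ := span_odd hy hy0 hv hxo (d_letters s x (fun i => i = y ∨ i = v) (by
      intro j hj
      by_cases hje : Even (s.deg j)
      · exact Or.inl (hall j hje (by omega))
      · exact Or.inr (huniq j hje (by omega))))
    have h10 : s.D (s.d x) = 0 := by rw [← s.D_gen, s.D_D]
    rw [hcx, map_smul, s.isDer.mul, hyk, zero_mul, zero_add,
      tau_even (par_pow0 (par_gen_even hy) _), s.D_gen, hcv, mul_smul_comm, ← pow_add,
      smul_smul] at h10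
    have h11 : ∀ m, gen (sg s.deg) y ^ m ≠ 0 := by
      intro m hm
      have h12 := congrArg (pr s.deg) hm
      rw [map_pow, pr_even hy, map_zero] at h12
      exact pow_ne_zero m (MvPolynomial.X_ne_zero _) h12
    rcases smul_eq_zero.1 h10 with h12 | h12
    · rcases mul_eq_zero.1 h12 with h13 | h13
      · rw [hcx, h13, zero_smul]
      · exact absurd h13 hc0
    · exact absurd h12 (h11 _)
  · refine none_odd (spanOf_mono (fun L hL => hL.1)
      (d_letters s x (fun j => Even (s.deg j)) ?_)) ?_
    · intro j hj
      by_contra hje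
      exact hO ⟨⟨j, hje, by omega⟩⟩
    · rw [Nat.even_iff] at hx
      exact par_cong (by omega) (s.par x)

omit [Finite ι] in
theorem even_span {p : ι → ℕ} {T : ι → Prop} {a : FGC (sg p)}
    (ha : a ∈ spanOf (sg p) (fun L => ∀ j ∈ L, T j)) (h : a = ev p (pr p a)) :
    a ∈ spanOf (sg p) (fun L => ∀ j ∈ L, T j ∧ Even (p j)) := by
  have h1 : ∀ f : MvPolynomial (Ev p) ℚ, ev p f ∈ spanOf (sg p) (fun L => (L.map (ow p)).sum = 0) := by
    intro f
    induction f using MvPolynomial.induction_on with
    | C c =>
      rw [← MvPolynomial.algebraMap_eq, AlgHom.commutes, Algebra.algebraMap_eq_smul_one, ← mono_nil]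
      exact Submodule.smul_mem _ _ (mono_mem (by simp))
    | add q1 q2 h1 h2 => rw [map_add]; exact add_mem h1 h2
    | mul_X q i h =>
      rw [map_mul, ev_X, ← mono_single]
      refine spanOf_mul (T := fun L => L = [i.1]) ?_ h (mono_mem rfl)
      rintro L M hL rfl
      simp only [List.map_append, List.sum_append, hL, List.map_cons, List.map_nil, List.sum_cons,
        List.sum_nil]
      simp [ow, i.2]
  have h2 : a ∈ spanOf (sg p) (fun L => (L.map (ow p)).sum = 0) := by
    rw [h]; exact h1 _
  refine spanOf_mono ?_ (spanOf_inter (ow p) (fun m => m = 0) ha h2)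
  rintro L ⟨h3, h4⟩ j hj
  refine ⟨h3 j hj, ?_⟩
  by_contra hc
  have h5 := hasOdd_ow (p := p) ⟨j, hj, hc⟩
  omega

end rank

end Run7.h985
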