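import Pool.Agent.Run7.h985.Stg3

/-!
# Three even and three odd generators, conclusion (MP_5f0082_gt, helper985)
-/

set_option autoImplicit false
set_option maxHeartbeats 400000

namespace Run7.h985

open Pool.H582SA

section count

theorem card_three {α : Type} [Finite α] (h : Nat.card α ≤ 3) (a b c d : α) (h1 : a ≠ b)
    (h2 : a ≠ c) (h3 : a ≠ d) (h4 : b ≠ c) (h5 : b ≠ d) (h6 : c ≠ d) : False := by
  classical
  have := Fintype.ofFinite α
  have h7 : ({a, b, c, d} : Finset α).card = 4 := by
    rw [Finset.card_insert_of_notMem (by simp [h1, h2, h3]),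
      Finset.card_insert_of_notMem (by simp [h4, h5]),
      Finset.card_insert_of_notMem (by simp [h6]), Finset.card_singleton]
  have h8 := Finset.card_le_univ ({a, b, c, d} : Finset α)
  rw [h7, ← Nat.card_eq_fintype_card] at h8
  omega

end count

section base

variable {ι : Type} [Finite ι] {s : Sul ι}

theorem two_even' {p : ι → ℕ} {v w : ι} (hv : ¬ Even (p v)) (hw : ¬ Even (p w)) {a : FGC (sg p)}
    (ha : a ∈ spanOf (sg p) (fun L => ∀ i ∈ L, ¬ Even (p i) → i = v ∨ i = w))
    (h1 : a ∈ Par p 0) :
    ∃ a0 a3 : MvPolynomial (Ev p) ℚ, a = ev p a0 + ev p a3 * (gen _ v * gen _ w) := by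
  obtain ⟨a0, a1, a2, a3, h⟩ := two_dec hv hw ha
  refine ⟨a0, a3, sub_eq_zero.1 ?_⟩
  refine par_zero_one ?_ ?_
  · exact sub_mem h1 (add_mem (ev_par _)
      (par_mul0 (ev_par _) (par_mul_odd_odd (par_odd_gen hv) (par_odd_gen hw))))
  · have h2 : a - (ev p a0 + ev p a3 * (gen _ v * gen _ w))
        = ev p a1 * gen _ v + ev p a2 * gen _ w := by rw [h]; abel
    rw [h2]
    exact add_mem (par_mul_even_odd (ev_par _) (par_odd_gen hv))
      (par_mul_even_odd (ev_par _) (par_odd_gen hw))

/-- with at most three odd generators below `m` and closed even generators, the odd generators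
are pure -/
theorem pure_three (h : NC s) (m : ℕ) (hcl : ∀ y, Even (s.deg y) → s.deg y < m → s.d y = 0)
    (hO : Nat.card {i // ¬ Even (s.deg i) ∧ s.deg i < m} ≤ 3) (N : ℕ) :
    ∀ v, ¬ Even (s.deg v) → s.deg v < m → s.deg v = N → s.d v = ev _ (pr _ (s.d v)) := by
  induction N using Nat.strong_induction_on with
  | _ N ih =>
    intro v hv hvm hN
    have hpar : s.d v ∈ Par s.deg 0 := by
      rw [Nat.even_iff] at hv
      exact par_cong (by omega) (s.par v)
    by_cases hne : ∃ w1, ¬ Even (s.deg w1) ∧ s.deg w1 < s.deg v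
    · obtain ⟨w1, hw1, hw1v⟩ := hne
      by_cases hne2 : ∃ w2, ¬ Even (s.deg w2) ∧ s.deg w2 < s.deg v ∧ w2 ≠ w1
      · obtain ⟨w2, hw2, hw2v, hw21⟩ := hne2
        have hall : ∀ j, ¬ Even (s.deg j) → s.deg j < s.deg v → j = w1 ∨ j = w2 := by
          intro j hj hjv
          by_contra hc
          push Not at hc
          refine card_three hO ⟨j, hj, by omega⟩ ⟨w1, hw1, by omega⟩ ⟨w2, hw2, by omega⟩
            ⟨v, hv, hvm⟩ ?_ ?_ ?_ ?_ ?_ ?_
          · intro h; exact hc.1 (congrArg Subtype.val h)
          · intro h; exact hc.2 (congrArg Subtype.val h)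
          · intro h
            have h' : j = v := congrArg Subtype.val h
            rw [h'] at hjv; omega
          · intro h; exact hw21 (congrArg Subtype.val h).symm
          · intro h
            have h' : w1 = v := congrArg Subtype.val h
            rw [h'] at hw1v; omega
          · intro h
            have h' : w2 = v := congrArg Subtype.val h
            rw [h'] at hw2v; omega
        have hp1 := ih (s.deg w1) (by omega) w1 hw1 (by omega) rfl
        have hp2 := ih (s.deg w2) (by omega) w2 hw2 (by omega) rfl
        obtain ⟨a0, a3, ha⟩ := two_even' hw1 hw2 (spanOf_mono (fun L hL => hL.1)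
          (d_letters s v (fun j => ¬ Even (s.deg j) → j = w1 ∨ j = w2)
            (fun j hj hc => hall j hc (by omega)))) hpar
        have hT : s.d v ∈ spanOf (sg s.deg) (fun L => (∀ j ∈ L, s.deg j < s.deg v) ∧
            (L.map s.deg).sum = s.deg v + 1) :=
          d_letters s v (fun j => s.deg j < s.deg v) (fun j hj => by omega)
        have hcomm : ∀ w (hw : ¬ Even (s.deg w)), (w = w1 ∨ w = w2) → ∀ j,
            s.deg j < s.deg v → pd hw (s.D (gen _ j)) = 0 := by
          intro w hw _ j hj
          rw [s.D_gen]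
          by_cases hje : Even (s.deg j)
          · rw [hcl j hje (by omega), map_zero]
          · rcases hall j hje hj with rfl | rfl
            · rw [hp1, pd_ev]
            · rw [hp2, pd_ev]
        have hb : pd hw2 (s.d v) = - (ev _ a3 * gen _ w1) := by
          rw [ha, map_add, pd_ev, pd_ev_mul, (pd_isDer hw2).mul, pd_ne hw2 (Ne.symm hw21), pd_v,
            tau_odd (par_odd_gen hw1)]
          simp
        have hDb : s.D (pd hw2 (s.d v)) = 0 := by
          rw [anti_pd s.isDer hw2 (hcomm w2 hw2 (Or.inr rfl)) (spanOf_mono (fun L hL => hL.1) hT),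
            ← s.D_gen, s.D_D, map_zero, neg_zero]
        have hDc : s.D (pd hw1 (pd hw2 (s.d v))) = 0 := by
          rw [anti_pd s.isDer hw1 (hcomm w1 hw1 (Or.inl rfl))
            (spanOf_mono (fun L hL => hL.1) (pd_span (T := fun j => s.deg j < s.deg v) hw2 hT)),
            hDb, map_zero, neg_zero]
        rw [hb, map_neg, pd_ev_mul, pd_v, mul_one, map_neg, neg_eq_zero] at hDc
        rw [hb, map_neg, neg_eq_zero, s.isDer.even_mul (ev_par _), hDc, zero_mul, zero_add,
          s.D_gen, hp1, ← map_mul] at hDb
        have hn1 : pr _ (s.d w1) ≠ 0 := by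
          intro h2
          have h3 := h w1 hw1 0 (zero_mem _)
          rw [add_zero, s.D_gen, hp1, h2, map_zero] at h3
          exact h3 rfl
        have h3 := (mul_eq_zero.1 (ev_inj hDb)).resolve_right hn1
        rw [ha, h3, map_zero, zero_mul, add_zero, pr_ev]
      · push Not at hne2
        exact one_even hw1 (spanOf_mono (fun L hL => hL.1)
          (d_letters s v (fun j => ¬ Even (s.deg j) → j = w1)
            (fun j hj hc => hne2 j hc (by omega)))) hpar
    · push Not at hne
      refine none_even (spanOf_mono (fun L hL => hL.1)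
        (d_letters s v (fun j => Even (s.deg j)) ?_))
      intro j hj
      by_contra hc
      have := hne j hc
      omega

theorem base_three (ι : Type) [Finite ι] (s : Sul ι) (M : ℕ)
    (hM : ∀ i, Even (s.deg i) → s.deg i ≤ M)
    (hE : Nat.card {i // Even (s.deg i)} ≤ 3)
    (hO : Nat.card {i // ¬ Even (s.deg i) ∧ s.deg i < M} ≤ 3) (h : NC s) (n : ℕ) :
    s.Anick n := by
  classical
  by_cases hne : Nonempty {i // Even (s.deg i)}
  · obtain ⟨⟨x, hx⟩, hmax⟩ := Finite.exists_max (fun i : {i // Even (s.deg i)} => s.deg i.1)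
    have hmax' : ∀ z, Even (s.deg z) → s.deg z ≤ s.deg x := fun z hz => hmax ⟨z, hz⟩
    have hxM := hM x hx
    have hcl : ∀ y, Even (s.deg y) → y ≠ x → s.d y = 0 := by
      intro y hy hyx
      by_cases hmin : ∀ z, Even (s.deg z) → s.deg y ≤ s.deg z
      · exact min_closed h y hy hmin
      · push Not at hmin
        obtain ⟨z, hz, hzy⟩ := hmin
        refine second_closed h y hy z hz hzy ?_
        intro w hw hwy
        by_contra hwz
        have hyx' := hmax' y hy
        refine card_three hE ⟨w, hw⟩ ⟨z, hz⟩ ⟨y, hy⟩ ⟨x, hx⟩ ?_ ?_ ?_ ?_ ?_ ?_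
        · intro h; exact hwz (congrArg Subtype.val h)
        · intro h
          have h' : w = y := congrArg Subtype.val h
          rw [h'] at hwy; omega
        · intro h
          have h' : w = x := congrArg Subtype.val h
          rw [h'] at hwy; omega
        · intro h
          have h' : z = y := congrArg Subtype.val h
          rw [h'] at hzy; omega
        · intro h
          have h' : z = x := congrArg Subtype.val h
          rw [h'] at hzy; omega
        · intro h; exact hyx (congrArg Subtype.val h)
    have hO' : Nat.card {i // ¬ Even (s.deg i) ∧ s.deg i < s.deg x} ≤ 3 := by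
      refine le_trans (Nat.card_le_card_of_injective
        (fun i : {i // ¬ Even (s.deg i) ∧ s.deg i < s.deg x} =>
          (⟨i.1, i.2.1, lt_of_lt_of_le i.2.2 hxM⟩ : {i // ¬ Even (s.deg i) ∧ s.deg i < M})) ?_) hO
      intro a b hab
      apply Subtype.ext
      exact congrArg (fun x : {i // ¬ Even (s.deg i) ∧ s.deg i < M} => x.1) hab
    have hcl' : ∀ y, Even (s.deg y) → s.deg y < s.deg x → s.d y = 0 := by
      intro y hy hyx
      exact hcl y hy (fun h => by rw [h] at hyx; omega)
    have hcc : Cc s (fun y => Even (s.deg y) ∧ y ≠ x) (s.deg x) := by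
      refine ⟨fun i hi => hi.1, fun i hi => hcl i hi.1 hi.2, ?_, ?_, hmax'⟩
      · intro v hv hvx
        have h1 := pure_three h (s.deg x) hcl' hO' _ v hv hvx rfl
        refine spanOf_mono ?_ (even_span (T := fun j => s.deg j < s.deg v)
          (spanOf_mono (fun L hL => hL.1) (d_letters s v (fun j => s.deg j < s.deg v)
            (fun j hj => by omega))) h1)
        intro L hL j hj
        refine ⟨(hL j hj).2, ?_⟩
        intro hjx
        have := (hL j hj).1
        rw [hjx] at this
        omega
      · intro z hz hQz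
        have hzx : z = x := by
          by_contra hc
          exact hQz ⟨hz, hc⟩
        subst hzx
        refine spanOf_mono ?_ (d_letters s z (fun j => s.deg j < s.deg z)
          (fun j hj => by omega))
        rintro L ⟨hL, -⟩ j hj
        by_cases hje : Even (s.deg j)
        · refine Or.inl ⟨hje, ?_⟩
          intro hjz
          have := hL j hj
          rw [hjz] at this
          omega
        · exact Or.inr hje
    refine hcc.base ?_ ?_ n
    · refine le_trans (Nat.card_le_card_of_injective
        (fun i : {i // Even (s.deg i) ∧ i ≠ x} => (⟨i.1, i.2.1⟩ : {i // Even (s.deg i)})) ?_) hE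
      intro a b hab
      apply Subtype.ext
      exact congrArg (fun x : {i // Even (s.deg i)} => x.1) hab
    · intro v hv _ z hz
      exact h v hv z (spanOf_mono (fun L hL => hL.1) hz)
  · exact base0 ι s (fun i hi => absurd ⟨⟨i, hi⟩⟩ hne) n

/-- at most three even generators and at most three odd generators below them -/
def TT (ι : Type) (p : ι → ℕ) : Prop :=
  Finite ι ∧ Nat.card {i // Even (p i)} ≤ 3 ∧
    ∃ M, (∀ i, Even (p i) → p i ≤ M) ∧ Nat.card {i // ¬ Even (p i) ∧ p i < M} ≤ 3

theorem anick_three (ι : Type) [Finite ι] (s : Sul ι) (h : TT ι s.deg) (n : ℕ) :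
    s.Anick n := by
  refine anick_of_nc TT ?_ ?_ _ ι s h le_rfl n
  · rintro ι p v hv ⟨h1, h0, M, h2, h3⟩
    refine ⟨inferInstance, ?_, M, fun i hi => h2 i.1 hi, le_trans ?_ h3⟩
    · refine le_trans (Nat.card_le_card_of_injective
        (fun i : {i : {i : ι // i ≠ v} // Even (qd p v i)} =>
          (⟨i.1.1, i.2⟩ : {i // Even (p i)})) ?_) h0
      intro a b hab
      apply Subtype.ext
      apply Subtype.ext
      exact congrArg (fun x : {i // Even (p i)} => x.1) hab
    · refine Nat.card_le_card_of_injective
        (fun i : {i : {i : ι // i ≠ v} // ¬ Even (qd p v i) ∧ qd p v i < M} =>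
          (⟨i.1.1, i.2⟩ : {i // ¬ Even (p i) ∧ p i < M})) ?_
      intro a b hab
      apply Subtype.ext
      apply Subtype.ext
      exact congrArg (fun x : {i // ¬ Even (p i) ∧ p i < M} => x.1) hab
  · rintro ι _ s ⟨h1, h0, M, h2, h3⟩ h4 n
    exact base_three ι s M h2 h0 h3 h4 n

end base

end Run7.h985
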