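import Pool.Agent.Run7.h985.Stg4

/-!
# Stable sets of odd generators (MP_5f0082_gt, helper985)
-/

set_option autoImplicit false
set_option maxHeartbeats 400000

namespace Run7.h985

open Pool.H582SA

theorem stable_closed {ι : Type} {s : Sul ι} {V : ι → Prop}
    (h : ∀ i, V i → s.d i ∈ spanOf (sg s.deg) (Has V)) {v : ι} (hv : V v)
    (hmin : ∀ w, V w → s.deg v ≤ s.deg w) : s.d v = 0 := by
  have h1 := spanOf_inter s.deg (fun m => m = s.deg v + 1) (h v hv)
    (spanOf_mono (fun L hL => hL.2) (s.good v))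
  have h2 := spanOf_inter (fun _ => 1) (fun m => 2 ≤ m) h1
    (spanOf_mono (fun L hL => by simpa using hL.1) (s.good v))
  refine spanOf_false ?_ h2
  rintro L ⟨⟨⟨w, hw, hVw⟩, hs⟩, hl⟩
  obtain ⟨A, B, rfl⟩ := List.append_of_mem hw
  have h3 := two_le_sum s A
  have h4 := two_le_sum s B
  have h5 := hmin w hVw
  simp only [List.map_const', List.sum_replicate,
    List.map_append, List.map_cons, List.sum_append, List.sum_cons, smul_eq_mul, mul_one]
    at hs hl
  omega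

/-- elimination of a stable set of odd generators -/
theorem elim_v (Pr : ∀ (ι : Type), Sul ι → (ι → Prop) → Prop)
    (hst : ∀ (ι : Type) (s : Sul ι) (V : ι → Prop), Pr ι s V →
      (∀ i, V i → ¬ Even (s.deg i)) ∧ ∀ i, V i → s.d i ∈ spanOf (sg s.deg) (Has V))
    (hquo : ∀ (ι : Type) (s : Sul ι) (V : ι → Prop) (v : ι) (hd : s.d v = 0), V v →
      Pr ι s V → Pr {i : ι // i ≠ v} (s.quo v hd) (fun i => V i.1))
    (base : ∀ (ι : Type) [Finite ι] (s : Sul ι) (V : ι → Prop), Pr ι s V → (∀ i, ¬ V i) →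
      ∀ n, s.Anick n) (N : ℕ) :
    ∀ (ι : Type) [Finite ι] (s : Sul ι) (V : ι → Prop), Pr ι s V →
      Nat.card {i // V i} ≤ N → ∀ n, s.Anick n := by
  induction N with
  | zero =>
    intro ι _ s V h hV n
    refine base ι s V h ?_ n
    intro i hi
    have h1 := Finite.card_pos_iff.2 (⟨⟨i, hi⟩⟩ : Nonempty {i // V i})
    omega
  | succ N ih =>
    intro ι _ s V h hV n
    classical
    by_cases hne : Nonempty {i // V i}
    · obtain ⟨⟨v, hv⟩, hmin⟩ := Finite.exists_min (fun i : {i // V i} => s.deg i.1)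
      obtain ⟨h1, h2⟩ := hst ι s V h
      have hd : s.d v = 0 := stable_closed h2 hv (fun w hw => hmin ⟨w, hw⟩)
      refine s.anick_of_quo v hd (h1 v hv) ?_ n
      refine ih {i : ι // i ≠ v} (s.quo v hd) (fun i => V i.1) (hquo ι s V v hd hv h) ?_
      have h1 : Nat.card {j : {i // V i} // j ≠ ⟨v, hv⟩} < Nat.card {i // V i} :=
        Finite.card_subtype_lt (x := ⟨v, hv⟩) (by simp)
      have h2 : Nat.card {i : {i : ι // i ≠ v} // V i.1}
          ≤ Nat.card {j : {i // V i} // j ≠ ⟨v, hv⟩} := by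
        refine Nat.card_le_card_of_injective
          (fun i => ⟨⟨i.1.1, i.2⟩, fun hc => i.1.2 (congrArg Subtype.val hc)⟩) ?_
        intro a b hab
        apply Subtype.ext
        apply Subtype.ext
        exact congrArg (fun x => x.1.1) hab
      omega
    · exact base ι s V h (fun i hi => hne ⟨⟨i, hi⟩⟩) n

/-- the three classes, modulo a stable set of odd generators -/
structure Low {ι : Type} (s : Sul ι) (V : ι → Prop) : Prop where
  /-- finitely many generators -/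
  fin : Finite ι
  /-- `V` consists of odd generators -/
  v_odd : ∀ i, V i → ¬ Even (s.deg i)
  /-- the ideal of `V` is stable -/
  v_d : ∀ i, V i → s.d i ∈ spanOf (sg s.deg) (Has V)
  /-- the cases -/
  cases : ∃ M, (∀ i, Even (s.deg i) → s.deg i ≤ M) ∧
    (Nat.card {i // ¬ Even (s.deg i) ∧ s.deg i < M ∧ ¬ V i} ≤ 2 ∨
    (Nat.card {i // Even (s.deg i)} ≤ 3 ∧
      Nat.card {i // ¬ Even (s.deg i) ∧ s.deg i < M ∧ ¬ V i} ≤ 3) ∨
    ∃ Q : ι → Prop, Nat.card {i // Q i} ≤ 3 ∧ (∀ i, Q i → Even (s.deg i)) ∧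
      (∀ i, Q i → s.d i ∈ spanOf (sg s.deg) (Has V)) ∧
      (∀ i, ¬ Even (s.deg i) → s.deg i < M → ¬ V i →
        s.d i ∈ spanOf (sg s.deg) (fun L => Has V L ∨ ∀ j ∈ L, Q j)) ∧
      (∀ i, Even (s.deg i) → ¬ Q i →
        s.d i ∈ spanOf (sg s.deg) (fun L => Has V L ∨ ∀ j ∈ L, Q j ∨ ¬ Even (s.deg j))))

theorem has_or_q {ι : Type} {p : ι → ℕ} {V T : ι → Prop} {v : ι} {a : FGC (sg p)}
    (ha : a ∈ spanOf (sg p) (fun L => Has V L ∨ ∀ j ∈ L, T j)) :
    qmap p v a ∈ spanOf (sg (qd p v)) (fun L => Has (fun i => V i.1) L ∨ ∀ j ∈ L, T j.1) := by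
  refine q_mem ?_ ha
  rintro L (⟨i, hi, hT⟩ | hL)
  · obtain ⟨j, hj, rfl⟩ := List.mem_map.1 hi
    exact Or.inl ⟨j, hj, hT⟩
  · exact Or.inr (fun j hj => hL j.1 (List.mem_map_of_mem hj))

theorem Low.quo {ι : Type} {s : Sul ι} {V : ι → Prop} (h : Low s V) (v : ι) (hd : s.d v = 0) :
    Low (s.quo v hd) (fun i => V i.1) := by
  have hfin := h.fin
  have cardle : ∀ (R : ι → Prop), Nat.card {i : {i : ι // i ≠ v} // R i.1}
      ≤ Nat.card {i // R i} := by
    intro R
    refine Nat.card_le_card_of_injective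
      (fun i : {i : {i : ι // i ≠ v} // R i.1} => (⟨i.1.1, i.2⟩ : {i // R i})) ?_
    intro a b hab
    apply Subtype.ext
    apply Subtype.ext
    exact congrArg (fun x : {i // R i} => x.1) hab
  refine ⟨inferInstance, fun i hi => h.v_odd i.1 hi, ?_, ?_⟩
  · intro i hi
    change qmap s.deg v (s.d i.1) ∈ spanOf (sg (qd s.deg v)) (Has (fun i => V i.1))
    exact has_q (T := V) (h.v_d i.1 hi)
  · obtain ⟨M, hM, hc⟩ := h.cases
    refine ⟨M, fun i hi => hM i.1 hi, ?_⟩
    rcases hc with hc | ⟨hc1, hc2⟩ | ⟨Q, hc1, hc2, hc3, hc4, hc5⟩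
    · exact Or.inl (le_trans (cardle (fun i => ¬ Even (s.deg i) ∧ s.deg i < M ∧ ¬ V i)) hc)
    · exact Or.inr (Or.inl ⟨le_trans (cardle (fun i => Even (s.deg i))) hc1,
        le_trans (cardle (fun i => ¬ Even (s.deg i) ∧ s.deg i < M ∧ ¬ V i)) hc2⟩)
    · refine Or.inr (Or.inr ⟨fun i => Q i.1, le_trans (cardle Q) hc1, fun i hi => hc2 i.1 hi,
        ?_, ?_, ?_⟩)
      · intro i hi
        change qmap s.deg v (s.d i.1) ∈ spanOf (sg (qd s.deg v)) (Has (fun i => V i.1))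
        exact has_q (T := V) (hc3 i.1 hi)
      · intro i hi hiM hiV
        exact has_or_q (hc4 i.1 hi hiM hiV)
      · intro i hi hQi
        exact has_or_q (T := fun j => Q j ∨ ¬ Even (s.deg j)) (hc5 i.1 hi hQi)

theorem anick_low (ι : Type) [Finite ι] (s : Sul ι) (V : ι → Prop) (h : Low s V) (n : ℕ) :
    s.Anick n := by
  refine elim_v (fun ι s V => Low s V) (fun ι s V h => ⟨h.v_odd, h.v_d⟩)
    (fun ι s V v hd _ h => h.quo v hd) ?_ _ ι s V h le_rfl n
  intro ι _ s V h hV n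
  obtain ⟨M, hM, hc⟩ := h.cases
  have hcard : Nat.card {i // ¬ Even (s.deg i) ∧ s.deg i < M}
      ≤ Nat.card {i // ¬ Even (s.deg i) ∧ s.deg i < M ∧ ¬ V i} := by
    refine Nat.card_le_card_of_injective
      (fun i : {i // ¬ Even (s.deg i) ∧ s.deg i < M} =>
        (⟨i.1, i.2.1, i.2.2, hV i.1⟩ : {i // ¬ Even (s.deg i) ∧ s.deg i < M ∧ ¬ V i})) ?_
    intro a b hab
    apply Subtype.ext
    exact congrArg (fun x : {i // ¬ Even (s.deg i) ∧ s.deg i < M ∧ ¬ V i} => x.1) hab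
  rcases hc with hc | ⟨hc1, hc2⟩ | ⟨Q, hc1, hc2, hc3, hc4, hc5⟩
  · exact anick_odd_two ι s ⟨inferInstance, M, hM, hcard.trans hc⟩ n
  · exact anick_three ι s ⟨inferInstance, hc1, M, hM, hcard.trans hc2⟩ n
  · refine anick_cc _ ι s Q M ⟨hc2, ?_, ?_, ?_, hM⟩ hc1 le_rfl n
    · intro i hi
      exact spanOf_false (fun L ⟨j, _, hj⟩ => hV j hj) (hc3 i hi)
    · intro v hv hvM
      refine spanOf_mono ?_ (hc4 v hv hvM (hV v))
      rintro L (⟨j, _, hj⟩ | hL)
      · exact absurd hj (hV j)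
      · exact hL
    · intro z hz hQz
      refine spanOf_mono ?_ (hc5 z hz hQz)
      rintro L (⟨j, _, hj⟩ | hL)
      · exact absurd hj (hV j)
      · exact hL

/-- at most six generators -/
theorem anick_six (ι : Type) [Finite ι] (s : Sul ι) (h : Nat.card ι ≤ 6) (n : ℕ) :
    s.Anick n := by
  classical
  have := Fintype.ofFinite ι
  obtain ⟨M, hM⟩ : ∃ M, ∀ i, s.deg i ≤ M := by
    obtain ⟨M, hM⟩ := (Set.finite_range s.deg).bddAbove
    exact ⟨M, fun i => hM ⟨i, rfl⟩⟩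
  have h1 : Nat.card {i // Even (s.deg i)} + Nat.card {i // ¬ Even (s.deg i)} = Nat.card ι := by
    rw [Nat.card_eq_fintype_card, Nat.card_eq_fintype_card, Nat.card_eq_fintype_card]
    have h5 := Fintype.card_subtype_compl (fun i => Even (s.deg i))
    have h6 := Fintype.card_subtype_le (fun i => Even (s.deg i))
    omega
  have h2 : Nat.card {i // ¬ Even (s.deg i) ∧ s.deg i < M}
      ≤ Nat.card {i // ¬ Even (s.deg i)} := by
    refine Nat.card_le_card_of_injective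
      (fun i : {i // ¬ Even (s.deg i) ∧ s.deg i < M} =>
        (⟨i.1, i.2.1⟩ : {i // ¬ Even (s.deg i)})) ?_
    intro a b hab
    apply Subtype.ext
    exact congrArg (fun x : {i // ¬ Even (s.deg i)} => x.1) hab
  by_cases h3 : Nat.card {i // Even (s.deg i)} ≤ 2
  · exact anick_even_two ι s h3 n
  by_cases h4 : Nat.card {i // ¬ Even (s.deg i)} ≤ 2
  · exact anick_odd_two ι s ⟨inferInstance, M, fun i _ => hM i, h2.trans h4⟩ n
  · exact anick_three ι s ⟨inferInstance, by omega, M, fun i _ => hM i, by omega⟩ n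

end Run7.h985
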