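import Pool.Agent.Run7.h985.FinCoh

/-!
# Minimal Sullivan algebras given by a basis (MP_5f0082_gt, helper985)
-/

set_option autoImplicit false
set_option maxHeartbeats 400000

namespace Run7.h985

open Pool.H582SA

section embs

variable {ι ι' ι'' : Type} {p : ι → ℕ} {p' : ι' → ℕ} {p'' : ι'' → ℕ}

/-- the map induced by a map of indices which preserves degrees -/
noncomputable def emb (e : ι → ι') (he : ∀ i, p' (e i) = p i) : FGC (sg p) →ₐ[ℚ] FGC (sg p') :=
  lift (fun i => gen (sg p') (e i)) (by
    intro i j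
    rw [gen_comm]
    congr 1
    simp [sg, he])

theorem emb_gen (e : ι → ι') (he : ∀ i, p' (e i) = p i) (i : ι) :
    emb e he (gen (sg p) i) = gen (sg p') (e i) := by
  simp [emb]

theorem emb_mono (e : ι → ι') (he : ∀ i, p' (e i) = p i) (L : List ι) :
    emb e he (mono (sg p) L) = mono (sg p') (L.map e) := by
  induction L with
  | nil => simp
  | cons i L ih => rw [mono_cons, map_mul, ih, emb_gen, List.map_cons, mono_cons]

theorem emb_mem (e : ι → ι') (he : ∀ i, p' (e i) = p i) {S : List ι → Prop}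
    {T : List ι' → Prop} (h : ∀ L, S L → T (L.map e)) {a : FGC (sg p)}
    (ha : a ∈ spanOf (sg p) S) : emb e he a ∈ spanOf (sg p') T := by
  refine spanOf_induct (P := fun a => emb e he a ∈ spanOf (sg p') T) ?_ ?_ ?_ ?_ ha
  · intro L hL; rw [emb_mono]; exact mono_mem (h L hL)
  · rw [map_zero]; exact zero_mem _
  · intro a b h1 h2; rw [map_add]; exact add_mem h1 h2
  · intro r a h1; rw [map_smul]; exact Submodule.smul_mem _ _ h1

theorem map_deg_sum (e : ι → ι') (he : ∀ i, p' (e i) = p i) (L : List ι) :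
    ((L.map e).map p').sum = (L.map p).sum := by
  rw [List.map_map]
  congr 1
  apply List.map_congr_left
  intro i _
  exact he i

theorem emb_par (e : ι → ι') (he : ∀ i, p' (e i) = p i) {n : ℕ} {a : FGC (sg p)}
    (ha : a ∈ Par p n) : emb e he a ∈ Par p' n :=
  emb_mem e he (fun L hL => by rw [map_deg_sum e he]; exact hL) ha

theorem emb_tau (e : ι → ι') (he : ∀ i, p' (e i) = p i) (a : FGC (sg p)) :
    emb e he (tau p a) = tau p' (emb e he a) := by
  have : (emb e he).comp (tau p) = (tau p').comp (emb e he) := by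
    apply alg_ext
    intro i
    rw [AlgHom.comp_apply, AlgHom.comp_apply, tau_gen, map_smul, emb_gen, tau_gen, he]
  exact DFunLike.congr_fun this a

theorem emb_emb (e : ι → ι') (he : ∀ i, p' (e i) = p i) (f : ι' → ι'')
    (hf : ∀ i, p'' (f i) = p' i) (a : FGC (sg p)) :
    emb f hf (emb e he a) = emb (fun i => f (e i)) (fun i => (hf _).trans (he i)) a := by
  have : (emb f hf).comp (emb e he) = emb (fun i => f (e i)) (fun i => (hf _).trans (he i)) := by
    apply alg_ext
    intro i
    rw [AlgHom.comp_apply, emb_gen, emb_gen, emb_gen]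
  exact DFunLike.congr_fun this a

/-- two derivations commute with an embedding when they do so on generators -/
theorem der_emb {D : FGC (sg p) →ₗ[ℚ] FGC (sg p)} {D' : FGC (sg p') →ₗ[ℚ] FGC (sg p')}
    (h : IsDer D) (h' : IsDer D') (e : ι → ι') (he : ∀ i, p' (e i) = p i)
    (hg : ∀ i, D' (gen (sg p') (e i)) = emb e he (D (gen (sg p) i))) (a : FGC (sg p)) :
    D' (emb e he a) = emb e he (D a) := by
  have : D' ∘ₗ (emb e he).toLinearMap = (emb e he).toLinearMap ∘ₗ D := by
    refine der_ext _ _ (fun b => emb e he b) (fun a => tau p' (emb e he a)) ?_ ?_ ?_ ?_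
    · intro a b
      simp only [LinearMap.comp_apply, AlgHom.toLinearMap_apply]
      rw [map_mul, h'.mul]
    · intro a b
      simp only [LinearMap.comp_apply, AlgHom.toLinearMap_apply]
      rw [h.mul, map_add, map_mul, map_mul, emb_tau]
    · simp only [LinearMap.comp_apply, AlgHom.toLinearMap_apply, map_one, h.one, h'.one, map_zero]
    · intro i
      simp only [LinearMap.comp_apply, AlgHom.toLinearMap_apply]
      rw [emb_gen, hg]
  exact DFunLike.congr_fun this a

/-- a derivation squares to zero when it does so on generators -/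
theorem IsDer.sq {D : FGC (sg p) →ₗ[ℚ] FGC (sg p)} (h : IsDer D)
    (hg : ∀ i, D (D (gen (sg p) i)) = 0) (a : FGC (sg p)) : D (D a) = 0 := by
  have hDt : ∀ a, D (tau p a) = - tau p (D a) := by
    intro a
    refine mono_induct (P := fun a => D (tau p a) = - tau p (D a)) ?_ ?_ ?_ ?_ a
    · intro L
      rw [tau_mono, map_smul, tau_par (h.par _ _ (par_mono L)), ← neg_smul, pow_succ]
      congr 1
      ring
    · simp
    · intro a b h1 h2; rw [map_add, map_add, h1, h2, map_add, map_add, neg_add]
    · intro r a h1; rw [map_smul, map_smul, h1, map_smul, map_smul, smul_neg]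
  have : D ∘ₗ D = 0 := by
    refine der_ext _ _ id id ?_ ?_ ?_ ?_
    · intro a b
      simp only [LinearMap.comp_apply, id]
      rw [h.mul, map_add, h.mul, h.mul, hDt, tau_tau, neg_mul]
      abel
    · intro a b; simp
    · simp [h.one]
    · intro i; simp [hg]
  exact DFunLike.congr_fun this a

theorem ideal_emb {D : FGC (sg p) →ₗ[ℚ] FGC (sg p)} {D' : FGC (sg p') →ₗ[ℚ] FGC (sg p')}
    (h' : IsDer D') (e : ι → ι') (he : ∀ i, p' (e i) = p i)
    (hg : ∀ i, pr p' (D' (gen (sg p') (e i))) = pr p' (emb e he (D (gen (sg p) i))))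
    (i : Ev p) (hi : (MvPolynomial.X i : MvPolynomial (Ev p) ℚ) ∈ (J D).radical) :
    (MvPolynomial.X ⟨e i.1, by rw [he]; exact i.2⟩ : MvPolynomial (Ev p') ℚ) ∈ (J D').radical := by
  let ρ : MvPolynomial (Ev p) ℚ →ₐ[ℚ] MvPolynomial (Ev p') ℚ :=
    MvPolynomial.aeval (fun i => MvPolynomial.X ⟨e i.1, by rw [he]; exact i.2⟩)
  have hρ : ∀ a, ρ (pr p a) = pr p' (emb e he a) := by
    intro a
    have : ρ.comp (pr p) = (pr p').comp (emb e he) := by
      apply alg_ext
      intro j
      rw [AlgHom.comp_apply, AlgHom.comp_apply, emb_gen]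
      by_cases hj : Even (p j)
      · rw [pr_even hj, pr_even (by rw [he]; exact hj)]
        simp [ρ]
      · rw [pr_odd hj, pr_odd (by rw [he]; exact hj), map_zero]
    exact DFunLike.congr_fun this a
  have hJ : ∀ q ∈ J D, ρ q ∈ J D' := by
    intro q hq
    unfold J at hq
    induction hq using Submodule.span_induction with
    | mem x hx =>
      obtain ⟨j, hj, rfl⟩ := hx
      rw [hρ, ← hg]; exact pr_D_mem h' _
    | zero => rw [map_zero]; exact zero_mem _
    | add x y _ _ hx hy => rw [map_add]; exact add_mem hx hy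
    | smul r x _ hx => rw [smul_eq_mul, map_mul]; exact Ideal.mul_mem_left _ _ hx
  obtain ⟨N, hN⟩ := hi
  refine ⟨N, ?_⟩
  have := hJ _ hN
  rw [map_pow] at this
  simpa [ρ] using this

end embs

/-- A minimal Sullivan algebra with a basis indexed by `ι`: degrees and differentials of the
generators. -/
structure Sul (ι : Type) where
  /-- degrees -/
  deg : ι → ℕ
  /-- degrees are at least two -/
  two_le : ∀ i, 2 ≤ deg i
  /-- differentials of the generators -/
  d : ι → FGC (sg deg)
  /-- degree and minimality -/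
  good : ∀ i, d i ∈ spanOf (sg deg) (fun L => 2 ≤ L.length ∧ (L.map deg).sum = deg i + 1)
  /-- the square is zero on generators -/
  sq : ∀ i, mkD d (fun j => spanOf_mono (fun _ hL => by rw [hL.2]) (good j)) (d i) = 0

namespace Sul

variable {ι : Type} (s : Sul ι)

theorem par (i : ι) : s.d i ∈ Par s.deg (s.deg i + 1) :=
  spanOf_mono (fun _ hL => by rw [hL.2]) (s.good i)

/-- the differential -/
noncomputable def D : FGC (sg s.deg) →ₗ[ℚ] FGC (sg s.deg) := mkD s.d s.par

theorem isDer : IsDer s.D := isDer_mkD _ _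

theorem D_gen (i : ι) : s.D (gen (sg s.deg) i) = s.d i := mkD_gen _ _ i

theorem D_D (a : FGC (sg s.deg)) : s.D (s.D a) = 0 :=
  s.isDer.sq (fun i => by rw [D_gen]; exact s.sq i) a

/-- all even generators are nilpotent modulo the pure ideal -/
def Elliptic : Prop :=
  ∀ i : Ev s.deg, (MvPolynomial.X i : MvPolynomial (Ev s.deg) ℚ) ∈ (J s.D).radical

/-- `t` is an extension of `s` -/
def IsExt {κ : Type} (s : Sul ι) (t : Sul (ι ⊕ κ)) : Prop :=
  ∃ h : ∀ i, t.deg (Sum.inl i) = s.deg i, ∀ i, t.d (Sum.inl i) = emb Sum.inl h (s.d i)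

/-- existence of an elliptic extension by finitely many generators of degree at least `n` -/
def Anick (s : Sul ι) (n : ℕ) : Prop :=
  ∃ (κ : Type) (_ : Finite κ) (t : Sul (ι ⊕ κ)), IsExt s t ∧ (∀ k, n ≤ t.deg (Sum.inr k)) ∧
    t.Elliptic

end Sul

section radical

theorem radical_der {R : Type} [CommRing R] [Algebra ℚ R] (δ : Derivation ℚ R R) (I : Ideal R)
    (hI : ∀ a ∈ I, δ a ∈ I) {a : R} (ha : a ∈ I.radical) : δ a ∈ I.radical := by
  obtain ⟨n, hn⟩ := ha
  have key : ∀ k, k ≤ n → a ^ (n - k) * (δ a) ^ (2 * k) ∈ I := by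
    intro k
    induction k with
    | zero => intro _; simpa using hn
    | succ k ih =>
      intro hk
      have h1 := ih (by omega)
      obtain ⟨m, hm⟩ : ∃ m, n - k = m + 1 := ⟨n - k - 1, by omega⟩
      have h2 : n - (k + 1) = m := by omega
      rw [hm] at h1
      rw [h2]
      have h3 := Ideal.mul_mem_right (δ a) _ (hI _ h1)
      have h4 : δ (a ^ (m + 1) * (δ a) ^ (2 * k)) * δ a
          = ((m : R) + 1) * (a ^ m * (δ a) ^ (2 * (k + 1)))
            + (a ^ (m + 1) * (δ a) ^ (2 * k)) * ((2 * k : R) * δ (δ a)) := by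
        rw [Derivation.leibniz, Derivation.leibniz_pow, Derivation.leibniz_pow]
        rcases Nat.eq_zero_or_pos k with rfl | hk0
        · simp
          ring
        · obtain ⟨l, rfl⟩ : ∃ l, k = l + 1 := ⟨k - 1, by omega⟩
          simp only [smul_eq_mul, nsmul_eq_mul]
          have e1 : 2 * (l + 1) - 1 = 2 * l + 1 := by omega
          rw [e1]
          push_cast
          try simp only [Nat.add_sub_cancel]
          ring
      rw [h4] at h3
      have h5 := (Submodule.add_mem_iff_left I (Ideal.mul_mem_right _ _ h1)).1 h3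
      have h6 : a ^ m * (δ a) ^ (2 * (k + 1))
          = algebraMap ℚ R (1 / ((m : ℚ) + 1)) * (((m : R) + 1) * (a ^ m * (δ a) ^ (2 * (k + 1)))) := by
        have : algebraMap ℚ R (1 / ((m : ℚ) + 1)) * ((m : R) + 1) = 1 := by
          have e : ((m : R) + 1) = algebraMap ℚ R ((m : ℚ) + 1) := by simp
          rw [e, ← map_mul, one_div, inv_mul_cancel₀ (by positivity), map_one]
        rw [← mul_assoc, this, one_mul]
      rw [h6]
      exact Ideal.mul_mem_left _ _ h5
  exact ⟨2 * n, by simpa using key n le_rfl⟩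

end radical

end Run7.h985
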