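import Pool.Agent.Run7.h985.Dix

/-!
# Algebras whose even generators have differentials in the ideal of one closed odd element
(MP_5f0082_gt, helper985)
-/

set_option autoImplicit false
set_option maxHeartbeats 400000

namespace Run7.h985

open Pool.H582SA

/-- two odd generators `v`, `w` with differentials `G p1`, `G p2`, and even generators with
differentials multiples of `p2 v - p1 w` -/
structure TD {ι : Type} (s : Sul ι) where
  /-- the first odd generator -/
  v : ι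
  /-- the second odd generator -/
  w : ι
  /-- parity -/
  hv : ¬ Even (s.deg v)
  /-- parity -/
  hw : ¬ Even (s.deg w)
  /-- the generators differ -/
  hvw : v ≠ w
  /-- first reduced polynomial -/
  p1 : MvPolynomial (Ev s.deg) ℚ
  /-- second reduced polynomial -/
  p2 : MvPolynomial (Ev s.deg) ℚ
  /-- common factor -/
  G : MvPolynomial (Ev s.deg) ℚ
  /-- coefficients -/
  h : Ev s.deg → MvPolynomial (Ev s.deg) ℚ
  /-- nonzero -/
  n1 : p1 ≠ 0
  /-- nonzero -/
  n2 : p2 ≠ 0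
  /-- nonzero -/
  nG : G ≠ 0
  /-- relatively prime -/
  rel : IsRelPrime p1 p2
  /-- differential -/
  dv : s.d v = ev _ (G * p1)
  /-- differential -/
  dw : s.d w = ev _ (G * p2)
  /-- differential -/
  dx : ∀ x : Ev s.deg, s.d x.1 = ev _ (h x) * (ev _ p2 * gen _ v - ev _ p1 * gen _ w)

namespace TD

variable {ι : Type} {s : Sul ι} (t : TD s)

/-- the closed odd element -/
noncomputable def al : FGC (sg s.deg) := ev _ t.p2 * gen _ t.v - ev _ t.p1 * gen _ t.w

/-- the derivation -/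
noncomputable def th : Derivation ℚ (MvPolynomial (Ev s.deg) ℚ) (MvPolynomial (Ev s.deg) ℚ) :=
  MvPolynomial.mkDerivation ℚ t.h

theorem th_X (x : Ev s.deg) : t.th (MvPolynomial.X x) = t.h x := by
  unfold th; rw [MvPolynomial.mkDerivation_X]

theorem al_odd : t.al ∈ Par s.deg 1 :=
  sub_mem (par_mul_even_odd (ev_par _) (par_odd_gen t.hv))
    (par_mul_even_odd (ev_par _) (par_odd_gen t.hw))

theorem D_ev (f : MvPolynomial (Ev s.deg) ℚ) : s.D (ev _ f) = ev _ (t.th f) * t.al := by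
  induction f using MvPolynomial.induction_on with
  | C a =>
    rw [MvPolynomial.derivation_C, map_zero, zero_mul, ← MvPolynomial.algebraMap_eq,
      AlgHom.commutes, Algebra.algebraMap_eq_smul_one, map_smul, s.isDer.one, smul_zero]
  | add q1 q2 h1 h2 => rw [map_add, map_add, h1, h2, map_add, map_add, add_mul]
  | mul_X q i h =>
    rw [map_mul, s.isDer.even_mul (ev_par q), h, ev_X, s.D_gen, t.dx, Derivation.leibniz, t.th_X,
      map_add, smul_eq_mul, smul_eq_mul, map_mul, map_mul, ev_X, add_mul, add_comm]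
    congr 1
    · rw [mul_assoc]; rfl
    · rw [mul_assoc, ← even_comm (par_gen_even i.2), ← mul_assoc, even_comm (par_gen_even i.2)]

theorem pd_v_al : pd t.hv t.al = ev _ t.p2 := by
  unfold al
  rw [map_sub, pd_ev_mul, pd_ev_mul, pd_v, pd_ne t.hv (Ne.symm t.hvw), mul_one, mul_zero, sub_zero]

theorem pd_w_al : pd t.hw t.al = - ev _ t.p1 := by
  unfold al
  rw [map_sub, pd_ev_mul, pd_ev_mul, pd_v, pd_ne t.hw t.hvw, mul_one, mul_zero, zero_sub]

theorem ev_al {f : MvPolynomial (Ev s.deg) ℚ} (h : ev _ f * t.al = 0) : f = 0 := by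
  have h1 := congrArg (pd t.hv) h
  rw [pd_ev_mul, t.pd_v_al, map_zero, ← map_mul] at h1
  exact (mul_eq_zero.1 (ev_inj h1)).resolve_right t.n2

theorem th_v : t.th (t.G * t.p1) = 0 := by
  refine t.ev_al ?_
  rw [← t.D_ev, ← t.dv, ← s.D_gen, s.D_D]

theorem th_w : t.th (t.G * t.p2) = 0 := by
  refine t.ev_al ?_
  rw [← t.D_ev, ← t.dw, ← s.D_gen, s.D_D]

theorem th_rel : t.p2 * t.th t.p1 = t.p1 * t.th t.p2 := by
  have h1 := t.th_v
  have h2 := t.th_w
  rw [Derivation.leibniz, smul_eq_mul, smul_eq_mul] at h1 h2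
  refine mul_left_cancel₀ t.nG ?_
  linear_combination t.p2 * h1 - t.p1 * h2

theorem D_al : s.D t.al = 0 := by
  have h1 : t.al * gen _ t.v = ev _ t.p1 * (gen _ t.v * gen _ t.w) := by
    unfold al
    rw [sub_mul, mul_assoc, mul_assoc, odd_sq (par_odd_gen t.hv),
      odd_comm (par_odd_gen t.hw) (par_odd_gen t.hv)]
    simp
  have h2 : t.al * gen _ t.w = ev _ t.p2 * (gen _ t.v * gen _ t.w) := by
    unfold al
    rw [sub_mul, mul_assoc, mul_assoc, odd_sq (par_odd_gen t.hw)]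
    simp
  have e1 : ev _ (t.th t.p2) * t.al * gen _ t.v
      = ev _ (t.th t.p2 * t.p1) * (gen _ t.v * gen _ t.w) := by
    rw [mul_assoc, h1, ← mul_assoc, ← map_mul]
  have e2 : ev _ (t.th t.p1) * t.al * gen _ t.w
      = ev _ (t.th t.p1 * t.p2) * (gen _ t.v * gen _ t.w) := by
    rw [mul_assoc, h2, ← mul_assoc, ← map_mul]
  conv_lhs => unfold al
  rw [map_sub, s.isDer.even_mul (ev_par _), s.isDer.even_mul (ev_par _), t.D_ev, t.D_ev, s.D_gen,
    s.D_gen, t.dv, t.dw, e1, e2, ← map_mul, ← map_mul, mul_comm (t.th t.p1), t.th_rel,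
    mul_comm (t.th t.p2)]
  have h3 : t.p2 * (t.G * t.p1) = t.p1 * (t.G * t.p2) := by ring
  rw [h3, sub_self]

/-- degrees of the polynomials -/
theorem degs : ∃ γ a b, γ + a = s.deg t.v + 1 ∧ γ + b = s.deg t.w + 1 ∧ Hd s.deg 0 γ t.G ∧
    Hd s.deg 0 a t.p1 ∧ Hd s.deg 0 b t.p2 := by
  have h1 : Hd s.deg 0 (s.deg t.v + 1) (t.G * t.p1) := by
    have h2 := hd_pr (d_dh s t.v)
    rwa [t.dv, pr_ev] at h2
  have h1' : Hd s.deg 0 (s.deg t.w + 1) (t.G * t.p2) := by
    have h2 := hd_pr (d_dh s t.w)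
    rwa [t.dw, pr_ev] at h2
  obtain ⟨γ, a, h3, h4, h5⟩ := hd_factor (mul_ne_zero t.nG t.n1) h1
  obtain ⟨γ', b, h6, h7, h8⟩ := hd_factor (mul_ne_zero t.nG t.n2) h1'
  have h9 := hd_unique t.nG h4 h7
  exact ⟨γ, a, b, by omega, by omega, h4, h5, h8⟩

/-- the homogeneity data -/
structure Dg (γ a b A : ℕ) : Prop where
  /-- degrees -/
  e1 : γ + a = s.deg t.v + 1
  /-- degrees -/
  e2 : γ + b = s.deg t.w + 1
  /-- degrees -/
  e3 : A = b + s.deg t.v
  /-- homogeneous -/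
  hG : Hd s.deg 0 γ t.G
  /-- homogeneous -/
  h1 : Hd s.deg 0 a t.p1
  /-- homogeneous -/
  h2 : Hd s.deg 0 b t.p2

theorem exists_dg : ∃ γ a b A, t.Dg γ a b A := by
  obtain ⟨γ, a, b, h1, h2, h3, h4, h5⟩ := t.degs
  exact ⟨γ, a, b, _, ⟨h1, h2, rfl, h3, h4, h5⟩⟩

variable {t} {γ a b A : ℕ} (g : t.Dg γ a b A)

include g

theorem Dg.three : 3 ≤ A := by
  have h1 := g.e3
  have h2 := s.two_le t.v
  have h3 := t.hv
  rw [Nat.even_iff] at h3
  omega

theorem Dg.odd : A % 2 = 1 := by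
  have h1 := g.e3
  have h2 := hd_even t.n2 g.h2
  have h3 := t.hv
  rw [Nat.even_iff] at h3
  omega

theorem Dg.al_mem : t.al ∈ spanOf (sg s.deg) (fun L => (L.map s.deg).sum = A) := by
  have key : ∀ (f : MvPolynomial (Ev s.deg) ℚ) (c : ℕ) (j : ι), Hd s.deg 0 c f →
      c + s.deg j = A → ev _ f * gen _ j ∈ spanOf (sg s.deg) (fun L => (L.map s.deg).sum = A) := by
    intro f c j hf hc
    rw [← mono_single]
    refine spanOf_mul (T := fun L => L = [j]) ?_ (hd_ev hf) (mono_mem rfl)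
    rintro L M hL rfl
    simp only [List.map_append, List.map_cons, List.map_nil, List.sum_append, List.sum_cons,
      List.sum_nil]
    omega
  have h1 := g.e1
  have h2 := g.e2
  have h3 := g.e3
  exact sub_mem (key _ b _ g.h2 (by omega)) (key _ a _ g.h1 (by omega))

/-- the derivation is homogeneous -/
theorem Dg.th_hd {e N : ℕ} {f : MvPolynomial (Ev s.deg) ℚ} (hf : Hd s.deg e N f) :
    Hd s.deg (e + A) (N + 1) (t.th f) := by
  have h1 := D_dh s (hd_ev hf)
  rw [t.D_ev] at h1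
  have h2 := hd_pr (pd_dh t.hv h1)
  rw [pd_ev_mul, t.pd_v_al, ← map_mul, pr_ev] at h2
  have h3 := hd_div t.n2 g.h2 h2
  have h4 := g.e3
  rwa [show e + s.deg t.v + b = e + A by omega] at h3

theorem Dg.iter {e N : ℕ} {f : MvPolynomial (Ev s.deg) ℚ} (hf : Hd s.deg e N f) (k : ℕ) :
    Hd s.deg (e + k * A) (N + k) (t.th^[k] f) := by
  induction k with
  | zero => simpa using hf
  | succ k ih =>
    rw [Function.iterate_succ_apply']
    have h1 := g.th_hd ih
    rwa [show e + (k + 1) * A = e + k * A + A by ring]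

theorem Dg.nil {N : ℕ} {f : MvPolynomial (Ev s.deg) ℚ} (hf : Hd s.deg 0 N f) {k : ℕ}
    (hk : N < k) : t.th^[k] f = 0 := by
  by_contra hc
  have h1 := hd_le hc (g.iter hf k)
  have h2 := g.three
  have h3 : k * 3 ≤ k * A := Nat.mul_le_mul_left _ h2
  omega

theorem Dg.th_dvd {f : MvPolynomial (Ev s.deg) ℚ} {N : ℕ} (hf0 : f ≠ 0) (hf : Hd s.deg 0 N f)
    (h : f ∣ t.th f) : t.th f = 0 := by
  obtain ⟨q, hq⟩ := h
  by_contra hc
  have h1 := g.th_hd hf
  rw [hq] at h1 hc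
  obtain ⟨i, j, h2, h3, -⟩ := hd_factor hc h1
  have h4 := hd_unique hf0 hf h3
  have h5 := g.three
  omega

theorem Dg.th_p1 : t.th t.p1 = 0 := by
  refine g.th_dvd t.n1 g.h1 ?_
  refine t.rel.dvd_of_dvd_mul_left ?_
  exact ⟨_, t.th_rel⟩

theorem Dg.th_p2 : t.th t.p2 = 0 := by
  refine g.th_dvd t.n2 g.h2 ?_
  refine t.rel.symm.dvd_of_dvd_mul_left ?_
  exact ⟨_, t.th_rel.symm⟩

theorem Dg.th_G : t.th t.G = 0 := by
  have h1 := t.th_v
  rw [Derivation.leibniz, smul_eq_mul, smul_eq_mul, g.th_p1, mul_zero, zero_add] at h1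
  exact (mul_eq_zero.1 h1).resolve_left t.n1

end TD

end Run7.h985
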