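import Pool.Agent.Run7.h985.Td

/-!
# Elliptic extensions for algebras with two odd generators below the even ones
(MP_5f0082_gt, helper985)
-/

set_option autoImplicit false
set_option maxHeartbeats 400000

namespace Run7.h985

open Pool.H582SA

theorem kos_closed {ι : Type} (s : Sul ι) (Z : FGC (sg s.deg)) (m : ℕ) (hm : 1 ≤ m)
    (me : Even m) (hZ : Z ∈ spanOf (sg s.deg) (fun L => (L.map s.deg).sum = m))
    (hD : s.D Z = 0) : ∃ K : Kos s, zv _ K.T.X = Z := by
  have hZe : Z ∈ Par s.deg 0 := by
    rw [Nat.even_iff] at me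
    exact spanOf_mono (fun L hL => by omega) hZ
  let Φ : Fin 3 → Zc s.deg := fun _ => 0
  let T : Tup (gd s.isDer) Φ :=
    { X := zm Z hZe
      M := fun _ => 0
      n := fun _ => 0
      C := 0
      hM := fun _ => zero_mem _
      hC := zero_mem _
      dX := by
        rw [gd_D, zsmul_one, zv_zm, hD]
        simp
      dM := by intro k; simp
      dn := by intro k; simp
      dC := map_zero _ }
  refine ⟨{ φ := Φ, d := fun _ => 0, de := fun _ => Even.zero,
            hφ := fun _ => by
              change zv _ (0 : Zc s.deg) ∈ _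
              rw [map_zero]; exact zero_mem _,
            cφ := fun _ => by
              change s.D (zv _ (0 : Zc s.deg)) = 0
              rw [map_zero, map_zero],
            T := T, m := m, me := me, hm := hm,
            hT := ⟨?_, ?_, ?_, ?_⟩ }, rfl⟩
  · change Z ∈ _
    refine spanOf_mono ?_ hZ
    intro L hL
    refine ⟨?_, by omega⟩
    rcases L with _ | ⟨a, L⟩
    · simp at hL; omega
    · simp
  · exact fun k => zero_mem _
  · intro k
    change zv _ (0 : Zc s.deg) ∈ _
    rw [map_zero]; exact zero_mem _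
  · exact zero_mem _

namespace TD

variable {ι : Type} {s : Sul ι} {t : TD s} {γ a b A : ℕ} (g : t.Dg γ a b A)

include g

/-- closed elements in the case of a generator with differential `c α` -/
theorem Dg.caseB [Finite ι] (x : Ev s.deg) (hc : MvPolynomial.constantCoeff (t.h x) ≠ 0)
    (n : ℕ) : s.Anick n := by
  have hpos : ∀ i : Ev s.deg, s.deg i.1 ≠ 0 := fun i => by have := s.two_le i.1; omega
  have h1 : Hd s.deg (0 + A) (s.deg x.1 + 1) (t.h x) := by
    have h2 := g.th_hd (hd_X x)
    rwa [t.th_X] at h2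
  obtain ⟨h2, h3⟩ := hd_const hpos h1 hc
  generalize MvPolynomial.constantCoeff (t.h x) = c at hc h3
  have hx1 : s.d x.1 = c • t.al := by
    rw [t.dx, h3, ← MvPolynomial.algebraMap_eq, AlgHom.commutes, Algebra.algebraMap_eq_smul_one,
      smul_mul_assoc, one_mul]
    rfl
  have hA := g.three
  have e1 := g.e1
  have e2 := g.e2
  have e3 := g.e3
  -- the generator `x`
  have hKx : ∃ K : Kos s, zv _ K.T.X = gen _ x.1 := by
    have hb := hd_even t.n2 g.h2
    have ha := hd_even t.n1 g.h1
    have q1 : c • ev _ t.p2 ∈ Hom s.deg 1 b := by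
      have h4 := s.pd_good t.hv x.1
      rw [hx1, map_smul, t.pd_v_al] at h4
      exact spanOf_mono (fun L hL => ⟨hL.1, by omega⟩) h4
    have q2 : -(c • ev _ t.p1) ∈ Hom s.deg 1 a := by
      have h4 := s.pd_good t.hw x.1
      rw [hx1, map_smul, t.pd_w_al, smul_neg] at h4
      exact spanOf_mono (fun L hL => ⟨hL.1, by omega⟩) h4
    refine kos_of s x.1 x.2 ![c • ev _ t.p2, -(c • ev _ t.p1), 0] ![b, a, 0] ?_ ?_ ?_
      ![gen _ t.v, gen _ t.w, 0] ![0, 0, (1 / c) • ev _ t.G] 0 ?_ ?_ ?_ (zero_mem _) ?_ ?_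
      (map_zero _)
    · intro k; fin_cases k
      · change Even b
        rw [Nat.even_iff]; omega
      · change Even a
        rw [Nat.even_iff]; omega
      · exact Even.zero
    · intro k; fin_cases k
      · exact q1
      · exact q2
      · exact zero_mem _
    · intro k; fin_cases k
      · change s.D (c • ev _ t.p2) = 0
        rw [map_smul, t.D_ev, g.th_p2, map_zero, zero_mul, smul_zero]
      · change s.D (-(c • ev _ t.p1)) = 0
        rw [map_neg, map_smul, t.D_ev, g.th_p1, map_zero, zero_mul, smul_zero, neg_zero]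
      · exact map_zero _
    · rw [hx1, Fin.sum_univ_three]
      change c • (ev _ t.p2 * gen _ t.v - ev _ t.p1 * gen _ t.w)
        = c • ev _ t.p2 * gen _ t.v + -(c • ev _ t.p1) * gen _ t.w + 0 * 0
      rw [smul_sub, smul_mul_assoc, neg_mul, smul_mul_assoc, mul_zero, add_zero, sub_eq_add_neg]
    · intro k; fin_cases k
      · change gen _ t.v ∈ DH s.deg b (s.deg x.1 + 1)
        rw [← mono_single]
        refine mono_mem ?_
        simp only [List.map_cons, List.map_nil, List.sum_cons, List.sum_nil]
        omega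
      · change gen _ t.w ∈ DH s.deg a (s.deg x.1 + 1)
        rw [← mono_single]
        refine mono_mem ?_
        simp only [List.map_cons, List.map_nil, List.sum_cons, List.sum_nil]
        omega
      · exact zero_mem _
    · intro k; fin_cases k
      · exact zero_mem _
      · exact zero_mem _
      · change (1 / c) • ev _ t.G ∈ DH s.deg (b + a) (s.deg x.1 + 2)
        refine Submodule.smul_mem _ _ ?_
        exact hd_ev (hd_cast (by omega) g.hG)
    · intro k; fin_cases k
      · change s.D (gen _ t.v) = 0 * 0 - (1 / c) • ev _ t.G * -(c • ev _ t.p1)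
        rw [s.D_gen, t.dv, mul_neg, smul_mul_smul_comm, one_div, inv_mul_cancel₀ hc, one_smul,
          map_mul]
        simp
      · change s.D (gen _ t.w) = (1 / c) • ev _ t.G * (c • ev _ t.p2) - 0 * 0
        rw [s.D_gen, t.dw, smul_mul_smul_comm, one_div, inv_mul_cancel₀ hc, one_smul,
          map_mul]
        simp
      · change s.D 0 = 0 * -(c • ev _ t.p1) - 0 * (c • ev _ t.p2)
        simp
    · intro k; fin_cases k
      · simp
      · simp
      · change s.D ((1 / c) • ev _ t.G) = 0 * 0
        rw [map_smul, t.D_ev, g.th_G, map_zero, zero_mul, smul_zero, zero_mul]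
  -- the other generators
  have hDt : s.D ((1 / c) • gen _ x.1) = t.al := by
    rw [map_smul, s.D_gen, hx1, smul_smul, one_div, inv_mul_cancel₀ hc, one_smul]
  have hte : (1 / c) • gen (sg s.deg) x.1 ∈ Par s.deg 0 := par_smul _ (par_gen_even x.2)
  have hKz : ∀ z : Ev s.deg, ∃ K : Kos s, ∃ q, pr s.deg (zv _ K.T.X)
      = MvPolynomial.X z + MvPolynomial.X x * q := by
    intro z
    have hz := s.two_le z.1
    obtain ⟨q, hq⟩ := xs_pr ((1 / c) • gen (sg s.deg) x.1)
      (fun k => ev s.deg (t.th^[k] (MvPolynomial.X z))) (s.deg z.1)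
    obtain ⟨K, hK⟩ := kos_closed s (xs ((1 / c) • gen (sg s.deg) x.1)
      (fun k => ev s.deg (t.th^[k] (MvPolynomial.X z))) (s.deg z.1)) (s.deg z.1) (by omega) z.2
      (xs_mem _ (by
        intro k
        have h4 : ((1 / c) • gen (sg s.deg) x.1) ^ k ∈ DH s.deg 0 (k * s.deg x.1) := by
          rw [smul_pow]
          refine Submodule.smul_mem _ _ ?_
          exact spanOf_mono (fun L hL => by rw [hL.2, Nat.add_zero])
            (hom_pow (hom_gen (p := s.deg) x.1) k)
        refine spanOf_mul ?_ h4 (hd_ev (g.iter (hd_X z) k))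
        intro L M hL hM
        simp only [List.map_append, List.sum_append]
        have h5 : k * A = k * s.deg x.1 + k := by
          rw [show A = s.deg x.1 + 1 by omega]; ring
        omega))
      (by
        rw [xs_D s.isDer hte hDt (fun k => ev_par _) (fun k => by
          rw [t.D_ev, Function.iterate_succ_apply']) (s.deg z.1)]
        rw [g.nil (hd_X z) (Nat.lt_succ_self _), map_zero, mul_zero, zero_mul, smul_zero])
    refine ⟨K, (MvPolynomial.C (1 / c)) * q, ?_⟩
    rw [hK, hq]
    simp only [Function.iterate_zero, id_eq, pr_ev, map_smul, pr_even x.2]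
    rw [MvPolynomial.smul_eq_C_mul]
    ring
  obtain ⟨Kx, hKx⟩ := hKx
  choose Kz qz hKz using hKz
  refine anick_kos (η := Option (Ev s.deg)) s (fun o => o.elim Kx Kz) ?_ n
  intro z
  refine Ideal.le_radical ?_
  have m1 : MvPolynomial.X x ∈ Ideal.span {q : MvPolynomial (Ev s.deg) ℚ |
      ∃ j : Option (Ev s.deg), q = pr s.deg (zv _ (j.elim Kx Kz).T.X)} := by
    refine Ideal.subset_span ⟨none, ?_⟩
    change _ = pr s.deg (zv _ Kx.T.X)
    rw [hKx, pr_even x.2]
  have m2 : MvPolynomial.X z + MvPolynomial.X x * qz z ∈ Ideal.span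
      {q : MvPolynomial (Ev s.deg) ℚ |
      ∃ j : Option (Ev s.deg), q = pr s.deg (zv _ (j.elim Kx Kz).T.X)} := by
    refine Ideal.subset_span ⟨some z, ?_⟩
    exact (hKz z).symm
  have m3 := sub_mem m2 (Ideal.mul_mem_right (qz z) _ m1)
  rwa [add_sub_cancel_right] at m3

/-- no generator with differential `c α` -/
theorem Dg.caseA [Finite ι] (hc : ∀ x : Ev s.deg, MvPolynomial.constantCoeff (t.h x) = 0)
    (n : ℕ) : s.Anick n := by
  have hA := g.three
  have hAo := g.odd
  -- constant terms
  have hcc : ∀ f, MvPolynomial.constantCoeff (t.th f) = 0 := by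
    intro f
    induction f using MvPolynomial.induction_on with
    | C a => rw [MvPolynomial.derivation_C, map_zero]
    | add q1 q2 h1 h2 => rw [map_add, map_add, h1, h2, add_zero]
    | mul_X q i h =>
      rw [Derivation.leibniz, t.th_X, smul_eq_mul, smul_eq_mul, map_add, map_mul, map_mul, h, hc,
        mul_zero, mul_zero, add_zero]
  have hcz : ∀ (z : Ev s.deg) (k : ℕ),
      MvPolynomial.constantCoeff (t.th^[k] (MvPolynomial.X z)) = 0 := by
    intro z k
    rcases k with _ | k
    · simp
    · rw [Function.iterate_succ_apply']; exact hcc _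
  let q : Unit → ℕ := fun _ => A - 1
  let pB : ι ⊕ Unit → ℕ := Sum.elim s.deg q
  let em : FGC (sg s.deg) →ₐ[ℚ] FGC (sg pB) := emb (p := s.deg) (p' := pB) Sum.inl (fun _ => rfl)
  let e : Unit → FGC (sg pB) := fun _ => em t.al
  have he : ∀ k, e k ∈ spanOf (sg pB) (fun L => (L.map pB).sum = q k + 1) := by
    intro k
    refine emb_mem (p := s.deg) _ _ ?_ g.al_mem
    intro L hL
    rw [map_deg_sum (p := s.deg) (p' := pB) Sum.inl (fun _ => rfl), hL]
    change A = A - 1 + 1
    omega
  let DB : FGC (sg pB) →ₗ[ℚ] FGC (sg pB) := s.toQ.AD q he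
  have hDB : IsDer DB := s.toQ.AD_isDer q he
  have hem : ∀ a, DB (em a) = em (s.D a) := fun a => s.toQ.AD_inl q he a
  have hsq : ∀ k, DB (e k) = 0 := by
    intro k
    change DB (em t.al) = 0
    rw [hem, t.D_al, map_zero]
  let B : Qul (ι ⊕ Unit) := s.toQ.add q he (fun _ => by change 2 ≤ A - 1; omega) hsq
  let u : FGC (sg pB) := gen (sg pB) (Sum.inr ())
  have hu0 : Even (pB (Sum.inr ())) := by
    change Even (A - 1)
    rw [Nat.even_iff]; omega
  have hue : u ∈ Par pB 0 := par_gen_even hu0
  have huD : DB u = em t.al := s.toQ.AD_inr q he ()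
  let y : Ev s.deg → ℕ → FGC (sg pB) := fun z k => em (ev s.deg (t.th^[k] (MvPolynomial.X z)))
  have hy0 : ∀ z k, y z k ∈ Par pB 0 := fun z k => emb_par _ _ (ev_par _)
  have hyD : ∀ z k, DB (y z k) = y z (k + 1) * em t.al := by
    intro z k
    change DB (em (ev s.deg (t.th^[k] (MvPolynomial.X z))))
      = em (ev s.deg (t.th^[k + 1] (MvPolynomial.X z))) * em t.al
    rw [hem, t.D_ev, map_mul, Function.iterate_succ_apply' t.th]
  refine (Sul.anick_crit s B (Sum.elim (fun _ => False) (fun _ => True)) Sum.inl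
    Sum.inl_injective ?_ (fun _ => rfl) (fun _ => rfl) ?_
    (fun z : Ev s.deg => xs u (y z) (s.deg z.1)) (fun z => s.deg z.1)
    (fun z => by have := s.two_le z.1; omega) (fun z => z.2) ?_ ?_ ?_ n).anick
  · rintro (i | j)
    · simp
    · simp
  · rintro (i | j) h
    · exact absurd h (by simp)
    · exact hu0
  · intro z
    refine xs_mem (p := pB) _ ?_
    intro k
    have h4 : u ^ k ∈ DH pB 0 (k * (A - 1)) := by
      exact spanOf_mono (fun L hL => by rw [hL.2, Nat.add_zero]; rfl)
        (hom_pow (hom_gen (p := pB) (Sum.inr ())) k)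
    have h5 : y z k ∈ spanOf (sg pB) (fun L => (L.map pB).sum + (0 + k * A) = s.deg z.1 + k
        ∧ 1 ≤ (L.map (ind (Sum.elim (fun _ => False) (fun _ => True) : ι ⊕ Unit → Prop))).sum) := by
      refine emb_mem (p := s.deg) (p' := pB) _ _ ?_
        (ev_dh_len (hcz z k) (g.iter (hd_X z) k))
      rintro L ⟨h6, h7⟩
      refine ⟨?_, ?_⟩
      · rw [map_deg_sum (p := s.deg) (p' := pB) Sum.inl (fun _ => rfl)]
        exact h6
      · rw [List.map_map]
        have h8 : (ind (Sum.elim (fun _ => False) (fun _ => True) : ι ⊕ Unit → Prop)) ∘ Sum.inl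
            = fun _ : ι => 1 := by
          funext i
          simp [ind]
        rw [h8]
        simpa using h7
    refine spanOf_mul ?_ h4 h5
    rintro L M hL ⟨h6, h7⟩
    change (((L ++ M).map pB).sum = s.deg z.1) ∧ _
    simp only [List.map_append, List.sum_append]
    have h8 : k * A = k * (A - 1) + k := by
      obtain ⟨A', rfl⟩ : ∃ A', A = A' + 1 := ⟨A - 1, by omega⟩
      rw [Nat.add_sub_cancel]; ring
    omega
  · intro z
    change DB (xs u (y z) (s.deg z.1)) = 0
    rw [xs_D hDB hue huD (hy0 z) (hyD z) (s.deg z.1)]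
    change _ • (u ^ _ * em (ev s.deg (t.th^[s.deg z.1 + 1] (MvPolynomial.X z))) * _) = 0
    rw [g.nil (hd_X z) (Nat.lt_succ_self _), map_zero, map_zero, mul_zero, zero_mul, smul_zero]
  · rintro (i | j) h
    · by_cases hi : Even (s.deg i)
      · refine Ideal.le_radical ?_
        obtain ⟨r, hr⟩ := xs_pr u (y ⟨i, hi⟩) (s.deg i)
        have h1 : y ⟨i, hi⟩ 0 = gen (sg pB) (Sum.inl i) := by
          change em (ev s.deg (MvPolynomial.X ⟨i, hi⟩)) = _
          rw [ev_X]
          exact emb_gen _ _ i
        rw [h1] at hr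
        have m1 : pr pB (xs u (y ⟨i, hi⟩) (s.deg i)) ∈ Ideal.span
            {q : MvPolynomial (Ev pB) ℚ | (∃ z : Ev s.deg,
              q = pr pB (xs u (y z) (s.deg z.1))) ∨
              ∃ i, (Sum.elim (fun _ => False) (fun _ => True) : ι ⊕ Unit → Prop) i ∧
                q = pr pB (gen _ i)} := Ideal.subset_span (Or.inl ⟨⟨i, hi⟩, rfl⟩)
        have m2 : pr pB u ∈ Ideal.span
            {q : MvPolynomial (Ev pB) ℚ | (∃ z : Ev s.deg,
              q = pr pB (xs u (y z) (s.deg z.1))) ∨
              ∃ i, (Sum.elim (fun _ => False) (fun _ => True) : ι ⊕ Unit → Prop) i ∧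
                q = pr pB (gen _ i)} :=
          Ideal.subset_span (Or.inr ⟨Sum.inr (), trivial, rfl⟩)
        have m3 := sub_mem m1 (Ideal.mul_mem_right r _ m2)
        rwa [hr, add_sub_cancel_right] at m3
      · change pr pB (gen _ (Sum.inl i)) ∈ _
        rw [pr_odd (p := pB) (i := Sum.inl i) hi]
        exact zero_mem _
    · exact absurd trivial h

omit g in
/-- the conclusion -/
theorem anick [Finite ι] (t : TD s) (n : ℕ) : s.Anick n := by
  obtain ⟨γ, a, b, A, g⟩ := t.exists_dg
  by_cases h : ∃ x : Ev s.deg, MvPolynomial.constantCoeff (t.h x) ≠ 0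
  · obtain ⟨x, hx⟩ := h
    exact g.caseB x hx n
  · push Not at h
    exact g.caseA h n

end TD

end Run7.h985
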