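import Mathlib

/-!
# Koszul tuples (MP_5f0082_gt, helper985)
-/

set_option autoImplicit false
set_option maxHeartbeats 400000

namespace Run7.h985

/-- Graded commutative differential algebras, seen as algebras over a ring of even elements. -/
structure GD (Z R : Type) [CommRing Z] [Ring R] [Algebra Z R] where
  /-- odd elements -/
  O : Submodule Z R
  /-- the differential -/
  D : R →+ R
  /-- products of odd elements -/
  mm : R → R → Z
  /-- odd elements anticommute -/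
  anti : ∀ u ∈ O, ∀ v ∈ O, u * v = (-1 : Z) • (v * u)
  /-- squares of odd elements vanish -/
  sq : ∀ u ∈ O, u * u = 0
  /-- products of odd elements -/
  mm_eq : ∀ u ∈ O, ∀ v ∈ O, mm u v • (1 : R) = u * v
  /-- Leibniz rule -/
  DZ : ∀ (z : Z) (w : R), D (z • w) = D (z • (1 : R)) * w + z • D w
  /-- Leibniz rule -/
  DO : ∀ u ∈ O, ∀ w, D (u * w) = D u * w - u * D w
  /-- parity -/
  DZO : ∀ z : Z, D (z • (1 : R)) ∈ O
  /-- the unit -/
  D1 : D 1 = 0

theorem f3a (k : Fin 3) : k + 1 + 1 = k + 2 := by revert k; decide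
theorem f3b (k : Fin 3) : k + 1 + 2 = k := by revert k; decide
theorem f3c (k : Fin 3) : k + 2 + 1 = k := by revert k; decide
theorem f3d (k : Fin 3) : k + 2 + 2 = k + 1 := by revert k; decide

theorem sum3 {M : Type} [AddCommMonoid M] (f : Fin 3 → M) (k : Fin 3) :
    ∑ j, f j = f k + f (k + 1) + f (k + 2) := by
  fin_cases k
  · simp [Fin.sum_univ_three]
  · simp only [Fin.sum_univ_three]
    change f 0 + f 1 + f 2 = f 1 + f 2 + f 0
    abel
  · simp only [Fin.sum_univ_three]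
    change f 0 + f 1 + f 2 = f 2 + f 0 + f 1
    abel

section

variable {Z R : Type} [CommRing Z] [Ring R] [Algebra Z R] (G : GD Z R) (φ : Fin 3 → Z)

/-- Koszul tuples with respect to `φ` -/
structure Tup where
  /-- degree zero part -/
  X : Z
  /-- degree one part -/
  M : Fin 3 → R
  /-- degree two part -/
  n : Fin 3 → Z
  /-- degree three part -/
  C : R
  /-- parity -/
  hM : ∀ k, M k ∈ G.O
  /-- parity -/
  hC : C ∈ G.O
  /-- differential -/
  dX : G.D (X • (1 : R)) = ∑ k, φ k • M k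
  /-- differential -/
  dM : ∀ k, G.D (M k) = (n (k + 1) * φ (k + 2) - n (k + 2) * φ (k + 1)) • (1 : R)
  /-- differential -/
  dn : ∀ k, G.D (n k • (1 : R)) = φ k • C
  /-- differential -/
  dC : G.D C = 0

variable {G φ}

theorem GD.zz (G : GD Z R) (a b : Z) :
    G.D ((a * b) • (1 : R)) = b • G.D (a • (1 : R)) + a • G.D (b • (1 : R)) := by
  have h1 : (a * b) • (1 : R) = a • (b • (1 : R)) := mul_smul a b 1
  rw [h1, G.DZ, mul_smul_comm, mul_one]

theorem GD.sub_mem' {a b : Z} : (a - b) • (1 : R) = a • (1 : R) - b • (1 : R) := sub_smul a b 1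

/-- product of tuples -/
noncomputable def Tup.mul (S T : Tup G φ) : Tup G φ where
  X := S.X * T.X
  M := fun k => S.X • T.M k + T.X • S.M k
  n := fun k => S.X * T.n k + S.n k * T.X + G.mm (S.M (k + 1)) (T.M (k + 2))
    - G.mm (S.M (k + 2)) (T.M (k + 1))
  C := S.X • T.C + T.X • S.C + ∑ k, (T.n k • S.M k + S.n k • T.M k)
  hM := fun k => add_mem (G.O.smul_mem _ (T.hM k)) (G.O.smul_mem _ (S.hM k))
  hC := by
    refine add_mem (add_mem (G.O.smul_mem _ T.hC) (G.O.smul_mem _ S.hC)) ?_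
    exact Submodule.sum_mem _ (fun k _ =>
      add_mem (G.O.smul_mem _ (S.hM k)) (G.O.smul_mem _ (T.hM k)))
  dX := by
    rw [G.zz, S.dX, T.dX, sum3 _ 0, sum3 _ 0, sum3 _ 0]
    module
  dM := by
    intro k
    have a3 := G.anti _ (T.hM (k + 1)) _ (S.hM k)
    have a4 := G.anti _ (T.hM (k + 2)) _ (S.hM k)
    have a0 := G.anti _ (T.hM k) _ (S.hM k)
    rw [map_add, G.DZ S.X (T.M k), G.DZ T.X (S.M k), S.dX, T.dX, S.dM, T.dM, sum3 _ k, sum3 _ k]
    simp only [f3a, f3b, f3c, f3d, sub_smul, mul_smul, add_smul, add_mul,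
      mul_comm _ (φ _), smul_sub, smul_add]
    simp only [G.mm_eq _ (S.hM _) _ (T.hM _), smul_mul_assoc, a0, a3, a4]
    module
  dn := by
    intro k
    rw [sub_smul, add_smul, add_smul, G.mm_eq _ (S.hM _) _ (T.hM _),
      G.mm_eq _ (S.hM _) _ (T.hM _), map_sub, map_add, map_add, G.zz, G.zz, S.dX, T.dX, S.dn, T.dn,
      G.DO _ (S.hM _), G.DO _ (S.hM _), S.dM, S.dM, T.dM, T.dM, sum3 _ k, sum3 _ k, sum3 _ k]
    simp only [f3a, f3b, f3c, f3d, smul_mul_assoc, mul_smul_comm, one_mul, mul_one]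
    module
  dC := by
    have a : ∀ j, S.M j * T.C = (-1 : Z) • (T.C * S.M j) := fun j => G.anti _ (S.hM j) _ T.hC
    have b : ∀ j, T.M j * S.C = (-1 : Z) • (S.C * T.M j) := fun j => G.anti _ (T.hM j) _ S.hC
    have c : ∀ j, G.D (T.n j • S.M j) = φ j • (T.C * S.M j)
        + T.n j • (S.n (j + 1) * φ (j + 2) - S.n (j + 2) * φ (j + 1)) • (1 : R) := by
      intro j
      rw [G.DZ, T.dn, S.dM, smul_mul_assoc]
    have d : ∀ j, G.D (S.n j • T.M j) = φ j • (S.C * T.M j)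
        + S.n j • (T.n (j + 1) * φ (j + 2) - T.n (j + 2) * φ (j + 1)) • (1 : R) := by
      intro j
      rw [G.DZ, S.dn, T.dM, smul_mul_assoc]
    rw [map_add, map_add, G.DZ S.X T.C, G.DZ T.X S.C, S.dX, T.dX, S.dC, T.dC, map_sum]
    simp only [map_add, c, d]
    rw [sum3 _ 0, sum3 _ 0, sum3 _ 0]
    simp only [f3a, f3b, f3c, f3d, add_mul, smul_mul_assoc, a, b]
    module

/-- the element `γ` -/
noncomputable def Tup.ga (T : Tup G φ) : R := T.X • T.C + ∑ k, T.n k • T.M k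

/-- the elements `ν` -/
noncomputable def Tup.nu (T : Tup G φ) (k : Fin 3) : Z :=
  T.X * T.n k + G.mm (T.M (k + 1)) (T.M (k + 2))

theorem Tup.ga_O (T : Tup G φ) : T.ga ∈ G.O :=
  add_mem (G.O.smul_mem _ T.hC) (Submodule.sum_mem _ (fun k _ => G.O.smul_mem _ (T.hM k)))

theorem Tup.d_ga (T : Tup G φ) : G.D T.ga = 0 := by
  have a : ∀ j, T.M j * T.C = (-1 : Z) • (T.C * T.M j) := fun j => G.anti _ (T.hM j) _ T.hC
  have c : ∀ j, G.D (T.n j • T.M j) = φ j • (T.C * T.M j)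
      + T.n j • (T.n (j + 1) * φ (j + 2) - T.n (j + 2) * φ (j + 1)) • (1 : R) := by
    intro j
    rw [G.DZ, T.dn, T.dM, smul_mul_assoc]
  unfold Tup.ga
  rw [map_add, G.DZ T.X T.C, T.dX, T.dC, map_sum]
  simp only [c]
  rw [sum3 _ 0, sum3 _ 0]
  simp only [f3a, f3b, f3c, f3d, add_mul, smul_mul_assoc, a]
  module

theorem Tup.d_nu (T : Tup G φ) (k : Fin 3) : G.D (T.nu k • (1 : R)) = φ k • T.ga := by
  unfold Tup.nu Tup.ga
  rw [add_smul, G.mm_eq _ (T.hM _) _ (T.hM _), map_add, G.zz, T.dX, T.dn,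
    G.DO _ (T.hM _), T.dM, T.dM, sum3 _ k, sum3 _ k]
  simp only [f3a, f3b, f3c, f3d, smul_mul_assoc, mul_smul_comm, one_mul, mul_one]
  module

theorem Tup.d_XM (T : Tup G φ) (k : Fin 3) : G.D (T.X • T.M k)
    = (T.nu (k + 1) * φ (k + 2) - T.nu (k + 2) * φ (k + 1)) • (1 : R) := by
  have a1 := G.anti _ (T.hM (k + 1)) _ (T.hM k)
  have a0 := G.sq _ (T.hM k)
  unfold Tup.nu
  rw [G.DZ, T.dX, T.dM, sum3 _ k]
  simp only [f3a, f3b, f3c, f3d, sub_smul, mul_smul, add_smul, add_mul,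
    mul_comm _ (φ _), smul_sub, smul_add]
  simp only [G.mm_eq _ (T.hM _) _ (T.hM _), smul_mul_assoc, a0, a1]
  module

section block

variable (T : Tup G φ) (hφ : ∀ k, G.D (φ k • (1 : R)) = 0) (s : Z) (q : Fin 3 → R)
  (hq : ∀ k, q k ∈ G.O) (ds : G.D (s • (1 : R)) = T.ga)
  (dq : ∀ k, G.D (q k) = (T.nu k - s * φ k) • (1 : R))

/-- the elements `R` -/
noncomputable def Tup.rr (k : Fin 3) : R :=
  T.X • T.M k - (φ (k + 2) • q (k + 1) - φ (k + 1) • q (k + 2))

/-- the elements `m` -/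
noncomputable def Tup.m (k : Fin 3) : R :=
  s • T.M k + (T.n (k + 1) • q (k + 2) - T.n (k + 2) • q (k + 1))

include hq in
theorem Tup.rr_O (k : Fin 3) : T.rr q k ∈ G.O :=
  sub_mem (G.O.smul_mem _ (T.hM k))
    (sub_mem (G.O.smul_mem _ (hq _)) (G.O.smul_mem _ (hq _)))

include hq in
theorem Tup.m_O (k : Fin 3) : T.m s q k ∈ G.O :=
  add_mem (G.O.smul_mem _ (T.hM k))
    (sub_mem (G.O.smul_mem _ (hq _)) (G.O.smul_mem _ (hq _)))

include hφ dq in
theorem Tup.d_rr (k : Fin 3) : G.D (T.rr q k) = 0 := by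
  unfold Tup.rr
  rw [map_sub, map_sub, T.d_XM, G.DZ _ (q (k + 1)), G.DZ _ (q (k + 2)), hφ, hφ, dq, dq,
    zero_mul, zero_mul]
  module

include ds dq in
theorem Tup.d_m (k : Fin 3) : G.D (T.m s q k) = T.C * T.rr q k := by
  have a1 := G.anti _ (T.hM (k + 1)) _ (T.hM k)
  have a2 := G.anti _ (T.hM (k + 2)) _ (T.hM k)
  have a0 := G.sq _ (T.hM k)
  unfold Tup.m
  rw [map_add, map_sub, G.DZ s (T.M k), G.DZ _ (q (k + 2)), G.DZ _ (q (k + 1)), ds, T.dn, T.dn,
    dq, dq, T.dM]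
  unfold Tup.nu Tup.ga Tup.rr
  rw [sum3 _ k]
  simp only [f3a, f3b, f3c, f3d, add_mul, smul_mul_assoc, mul_sub, mul_smul_comm,
    sub_smul, mul_smul, add_smul, smul_sub, smul_add, G.mm_eq _ (T.hM _) _ (T.hM _), a0, a1, a2]
  module

variable (c : Z) (r μ : Fin 3 → Z) (dc : G.D (c • (1 : R)) = T.C)
  (dr : ∀ k, G.D (r k • (1 : R)) = T.rr q k)
  (dμ : ∀ k, G.D (μ k • (1 : R)) = T.m s q k - c • T.rr q k)

include hφ ds dq dc in
theorem Tup.d_mc (k : Fin 3) : G.D (T.m s q k - c • T.rr q k) = 0 := by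
  rw [map_sub, G.DZ c (T.rr q k), dc, T.d_m s q ds dq, T.d_rr hφ s q dq, smul_zero, add_zero, sub_self]

/-- the first cocycle -/
noncomputable def Tup.P1 (T : Tup G φ) (r : Fin 3 → Z) : Z := T.X * T.X - 2 * ∑ k, φ k * r k

/-- the second cocycle -/
noncomputable def Tup.P3 (T : Tup G φ) (s c : Z) (μ : Fin 3 → Z) : Z :=
  (s - c * T.X) * (s - c * T.X) - 2 * ∑ k, (T.n k - c * φ k) * μ k

include hφ dr in
theorem Tup.d_P1 : G.D (T.P1 r • (1 : R)) = 0 := by
  unfold Tup.P1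
  rw [sum3 _ 0, two_mul]
  simp only [sub_smul, add_smul, map_sub, map_add, G.zz, hφ, dr, T.dX]
  unfold Tup.rr
  rw [sum3 _ 0]
  simp only [f3a, f3b, f3c, f3d]
  module

include hφ ds dc dμ in
theorem Tup.d_P3 : G.D (T.P3 s c μ • (1 : R)) = 0 := by
  unfold Tup.P3
  rw [sum3 _ 0, two_mul]
  simp only [sub_smul, add_smul, map_sub, map_add, G.zz, hφ, dμ, dc, ds, T.dn, T.dX]
  unfold Tup.rr Tup.m Tup.ga
  rw [sum3 _ 0, sum3 _ 0]
  simp only [f3a, f3b, f3c, f3d]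
  module

end block

end

end Run7.h985
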