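import Pool.Agent.Run7.h985.Loc

/-!
# Change of an odd generator (MP_5f0082_gt, helper985)
-/

set_option autoImplicit false
set_option maxHeartbeats 400000

namespace Run7.h985

open Pool.H582SA

section tw

variable {ι : Type} {p : ι → ℕ}

/-- words which can be added to the generator `i` -/
def Aw (p : ι → ℕ) (i : ι) (L : List ι) : Prop := i ∉ L ∧ 1 ≤ L.length ∧ (L.map p).sum = p i

theorem aw_par {i : ι} {z : FGC (sg p)} (hz : z ∈ spanOf (sg p) (Aw p i)) : z ∈ Par p (p i) :=
  spanOf_mono (fun _ hL => by rw [hL.2.2]) hz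

open Classical in
/-- the substitution `v_i ↦ v_i + z` -/
noncomputable def tz (i : ι) (z : FGC (sg p)) (hz : z ∈ spanOf (sg p) (Aw p i)) :
    FGC (sg p) →ₐ[ℚ] FGC (sg p) :=
  lift (fun j => if j = i then gen _ i + z else gen _ j) (by
    have h1 : ∀ j, (if j = i then gen _ i + z else gen _ j) ∈ Par p (p j) := by
      intro j
      by_cases hj : j = i
      · subst hj
        rw [if_pos rfl]
        exact add_mem (par_gen j) (aw_par hz)
      · rw [if_neg hj]; exact par_gen j
    intro j k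
    exact par_comm (h1 j) (h1 k))

theorem tz_i (i : ι) (z : FGC (sg p)) (hz : z ∈ spanOf (sg p) (Aw p i)) :
    tz i z hz (gen _ i) = gen _ i + z := by
  unfold tz
  rw [lift_gen, if_pos rfl]

theorem tz_j (i : ι) (z : FGC (sg p)) (hz : z ∈ spanOf (sg p) (Aw p i)) {j : ι} (hj : j ≠ i) :
    tz i z hz (gen _ j) = gen _ j := by
  unfold tz
  rw [lift_gen, if_neg hj]

theorem tz_fix (i : ι) (z : FGC (sg p)) (hz : z ∈ spanOf (sg p) (Aw p i)) {a : FGC (sg p)}
    (ha : a ∈ spanOf (sg p) (fun L => i ∉ L)) : tz i z hz a = a := by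
  refine spanOf_induct (P := fun a => tz i z hz a = a) ?_ ?_ ?_ ?_ ha
  · intro L hL
    induction L with
    | nil => simp
    | cons j L ih =>
      rw [mono_cons, map_mul, ih (fun h => hL (List.mem_cons_of_mem _ h)),
        tz_j i z hz (fun h => hL (by rw [h]; simp))]
  · rw [map_zero]
  · intro a b h1 h2; rw [map_add, h1, h2]
  · intro r a h1; rw [map_smul, h1]

theorem aw_neg {i : ι} {z : FGC (sg p)} (hz : z ∈ spanOf (sg p) (Aw p i)) :
    -z ∈ spanOf (sg p) (Aw p i) := neg_mem hz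

theorem tz_inv (i : ι) (z w : FGC (sg p)) (hz : z ∈ spanOf (sg p) (Aw p i))
    (hw : w ∈ spanOf (sg p) (Aw p i)) (h : z + w = 0) (a : FGC (sg p)) :
    tz i w hw (tz i z hz a) = a := by
  have : (tz i w hw).comp (tz i z hz) = AlgHom.id ℚ _ := by
    apply alg_ext
    intro j
    rw [AlgHom.comp_apply]
    by_cases hj : j = i
    · subst hj
      rw [tz_i, map_add, tz_i, tz_fix j w hw (spanOf_mono (fun _ hL => hL.1) hz), add_assoc,
        add_comm w z, h, add_zero]
      rfl
    · rw [tz_j i z hz hj, tz_j i w hw hj]; rfl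
  exact DFunLike.congr_fun this a

theorem tz_tau (i : ι) (z : FGC (sg p)) (hz : z ∈ spanOf (sg p) (Aw p i)) (a : FGC (sg p)) :
    tz i z hz (tau p a) = tau p (tz i z hz a) := by
  have : (tz i z hz).comp (tau p) = (tau p).comp (tz i z hz) := by
    apply alg_ext
    intro j
    rw [AlgHom.comp_apply, AlgHom.comp_apply, tau_gen, map_smul]
    by_cases hj : j = i
    · subst hj
      rw [tz_i, map_add, tau_gen, tau_par (aw_par hz), smul_add]
    · rw [tz_j i z hz hj, tau_gen]
  exact DFunLike.congr_fun this a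

/-- substitutions preserve degrees and word lengths -/
theorem tz_hom (i : ι) (z : FGC (sg p)) (hz : z ∈ spanOf (sg p) (Aw p i)) {l n : ℕ}
    {a : FGC (sg p)} (ha : a ∈ Hom p l n) : tz i z hz a ∈ Hom p l n := by
  have hg : ∀ j, tz i z hz (gen _ j) ∈ Hom p 1 (p j) := by
    intro j
    by_cases hj : j = i
    · subst hj
      rw [tz_i]
      exact add_mem (hom_gen j) (spanOf_mono (fun _ hL => ⟨hL.2.1, hL.2.2⟩) hz)
    · rw [tz_j i z hz hj]; exact hom_gen j
  have hm : ∀ L : List ι, tz i z hz (mono _ L) ∈ Hom p L.length (L.map p).sum := by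
    intro L
    induction L with
    | nil => rw [mono_nil, map_one]; exact hom_one
    | cons j L ih =>
      rw [mono_cons, map_mul]
      have h1 := hom_mul (hg j) ih
      rw [List.length_cons, List.map_cons, List.sum_cons]
      exact hom_le (by omega) h1
  refine spanOf_induct (P := fun a => tz i z hz a ∈ Hom p l n) ?_ ?_ ?_ ?_ ha
  · rintro L ⟨h1, h2⟩
    exact hom_le h1 (hom_congr h2 (hm L))
  · rw [map_zero]; exact zero_mem _
  · intro a b h1 h2; rw [map_add]; exact add_mem h1 h2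
  · intro r a h1; rw [map_smul]; exact Submodule.smul_mem _ _ h1

theorem tz_par (i : ι) (z : FGC (sg p)) (hz : z ∈ spanOf (sg p) (Aw p i)) {n : ℕ}
    {a : FGC (sg p)} (ha : a ∈ Par p n) : tz i z hz a ∈ Par p n := by
  refine spanOf_induct (P := fun a => tz i z hz a ∈ Par p n) ?_ ?_ ?_ ?_ ha
  · intro L hL
    have h1 : tz i z hz (mono (sg p) L) ∈ Hom p 0 (L.map p).sum :=
      tz_hom i z hz (mono_mem ⟨by omega, rfl⟩)
    exact par_cong hL (hom_par h1)
  · rw [map_zero]; exact zero_mem _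
  · intro a b h1 h2; rw [map_add]; exact add_mem h1 h2
  · intro r a h1; rw [map_smul]; exact Submodule.smul_mem _ _ h1

end tw

namespace Sul

variable {ι : Type} (s : Sul ι) (i : ι) (z : FGC (sg s.deg))
  (hz : z ∈ spanOf (sg s.deg) (Aw s.deg i))

/-- the differentials after the change of the generator -/
noncomputable def twd (j : ι) : FGC (sg s.deg) :=
  tz i (-z) (aw_neg hz) (s.D (tz i z hz (gen _ j)))

theorem D_hom {l n : ℕ} {a : FGC (sg s.deg)} (ha : a ∈ Hom s.deg l n) (hl : 1 ≤ l) :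
    s.D a ∈ Hom s.deg (l + 1) (n + 1) := by
  refine mkD_mem (fun i M => 2 ≤ M.length ∧ (M.map s.deg).sum = s.deg i + 1) s.good ?_ ha
  rintro L ⟨hL1, hL2⟩ W ⟨L1, i, L2, M, rfl, ⟨hM1, hM2⟩, rfl⟩
  simp only [List.length_append, List.length_cons, List.map_append, List.map_cons,
    List.sum_append, List.sum_cons] at hL1 hL2 ⊢
  omega

theorem twd_good (j : ι) : s.twd i z hz j ∈ Hom s.deg 2 (s.deg j + 1) := by
  refine tz_hom i (-z) (aw_neg hz) ?_
  exact s.D_hom (l := 1) (tz_hom i z hz (hom_gen j)) le_rfl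

/-- the differential after the change of the generator -/
noncomputable def twD : FGC (sg s.deg) →ₗ[ℚ] FGC (sg s.deg) :=
  mkD (s.twd i z hz) (fun j => hom_par (s.twd_good i z hz j))

theorem twD_eq (a : FGC (sg s.deg)) :
    s.twD i z hz a = tz i (-z) (aw_neg hz) (s.D (tz i z hz a)) := by
  have : s.twD i z hz = (tz i (-z) (aw_neg hz)).toLinearMap ∘ₗ s.D ∘ₗ (tz i z hz).toLinearMap := by
    refine der_ext _ _ id (tau _) (mkD_mul _ _) ?_ ?_ ?_
    · intro a b
      simp only [LinearMap.comp_apply, AlgHom.toLinearMap_apply, id]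
      rw [map_mul, s.isDer.mul, map_add, map_mul, map_mul, ← tz_tau,
        tz_inv i z (-z) hz (aw_neg hz) (by simp), tz_inv i z (-z) hz (aw_neg hz) (by simp)]
    · simp only [LinearMap.comp_apply, AlgHom.toLinearMap_apply, map_one, s.isDer.one, map_zero]
      exact mkD_one _ _
    · intro j
      exact mkD_gen _ _ j
  rw [this]; rfl

/-- change of the generator `i` by `z` -/
noncomputable def tw : Sul ι where
  deg := s.deg
  two_le := s.two_le
  d := s.twd i z hz
  good := s.twd_good i z hz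
  sq := by
    intro j
    change s.twD i z hz (s.twd i z hz j) = 0
    rw [twD_eq]
    unfold twd
    rw [tz_inv i (-z) z (aw_neg hz) hz (by simp), s.D_D, map_zero]

theorem tw_D (a : FGC (sg s.deg)) :
    (s.tw i z hz).D a = tz i (-z) (aw_neg hz) (s.D (tz i z hz a)) := s.twD_eq i z hz a

theorem pr_tz (hi : ¬ Even (s.deg i)) (a : FGC (sg s.deg)) :
    pr s.deg (tz i z hz a) = pr s.deg a := by
  have : (pr s.deg).comp (tz i z hz) = pr s.deg := by
    apply alg_ext
    intro j
    rw [AlgHom.comp_apply]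
    by_cases hj : j = i
    · subst hj
      rw [tz_i, map_add, pr_par_odd (par_cong (by rw [Nat.even_iff] at hi; omega) (aw_par hz)),
        add_zero]
    · rw [tz_j i z hz hj]
  exact DFunLike.congr_fun this a

theorem tw_J (hi : ¬ Even (s.deg i)) {q : MvPolynomial (Ev s.deg) ℚ} (hq : q ∈ J s.D) :
    q ∈ J (s.tw i z hz).D := by
  unfold J at hq
  induction hq using Submodule.span_induction with
  | mem x hx =>
    obtain ⟨j, hj, rfl⟩ := hx
    have h1 : pr s.deg (s.D (gen _ j))
        = pr s.deg ((s.tw i z hz).D (tz i (-z) (aw_neg hz) (gen _ j))) := by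
      rw [tw_D, tz_inv i (-z) z (aw_neg hz) hz (by simp), s.pr_tz i (-z) (aw_neg hz) hi]
    rw [h1]
    exact pr_D_mem (s.tw i z hz).isDer _
  | zero => exact zero_mem _
  | add x y _ _ hx hy => exact add_mem hx hy
  | smul r x _ hx => exact Ideal.mul_mem_left _ _ hx

theorem tw_ell (hi : ¬ Even (s.deg i)) (h : s.Elliptic) : (s.tw i z hz).Elliptic := by
  intro x
  obtain ⟨N, hN⟩ := h x
  exact ⟨N, s.tw_J i z hz hi hN⟩

/-- the property passes back along a change of an odd generator -/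
theorem anick_of_tw (hi : ¬ Even (s.deg i)) {n : ℕ} (h : (s.tw i z hz).Anick n) :
    s.Anick n := by
  obtain ⟨κ, hκ, t, ⟨hdeg, hext⟩, hn, hell⟩ := h
  have hdeg' : ∀ j, t.deg (Sum.inl j) = s.deg j := hdeg
  have hz' : emb (p := s.deg) Sum.inl hdeg' z ∈ spanOf (sg t.deg) (Aw t.deg (Sum.inl i)) := by
    refine emb_mem _ _ ?_ hz
    rintro L ⟨h1, h2, h3⟩
    refine ⟨?_, by rw [List.length_map]; exact h2, ?_⟩
    · intro hm
      obtain ⟨j, hj, hji⟩ := List.mem_map.1 hm
      rw [Sum.inl_injective hji] at hj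
      exact h1 hj
    · rw [map_deg_sum (p := s.deg) Sum.inl hdeg', h3, hdeg']
  have key : ∀ (w : FGC (sg s.deg)) (hw : w ∈ spanOf (sg s.deg) (Aw s.deg i))
      (w' : FGC (sg t.deg)) (hw' : w' ∈ spanOf (sg t.deg) (Aw t.deg (Sum.inl i)))
      (_ : w' = emb (p := s.deg) Sum.inl hdeg' w) (a : FGC (sg s.deg)),
      tz (Sum.inl i) w' hw' (emb (p := s.deg) Sum.inl hdeg' a)
        = emb (p := s.deg) Sum.inl hdeg' (tz i w hw a) := by
    intro w hw w' hw' hww a
    have : (tz (Sum.inl i) w' hw').comp (emb (p := s.deg) Sum.inl hdeg')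
        = (emb (p := s.deg) Sum.inl hdeg').comp (tz i w hw) := by
      apply alg_ext
      intro j
      rw [AlgHom.comp_apply, AlgHom.comp_apply, emb_gen]
      by_cases hj : j = i
      · subst hj
        rw [tz_i, tz_i, map_add, emb_gen, hww]
      · rw [tz_j _ _ _ (fun h => hj (Sum.inl_injective h)), tz_j _ _ _ hj, emb_gen]
    exact DFunLike.congr_fun this a
  refine ⟨κ, hκ, t.tw (Sum.inl i) (-emb (p := s.deg) Sum.inl hdeg' z) (aw_neg hz'), ⟨hdeg', ?_⟩,
    hn, t.tw_ell _ _ _ (by rw [hdeg']; exact hi) hell⟩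
  intro j
  have h1 : (t.tw (Sum.inl i) (-emb (p := s.deg) Sum.inl hdeg' z) (aw_neg hz')).D
      (emb (p := s.deg) Sum.inl hdeg' (gen _ j)) = emb (p := s.deg) Sum.inl hdeg' (s.d j) := by
    rw [tw_D, key (-z) (aw_neg hz) _ _ (by rw [map_neg])]
    have h2 : ∀ a, t.D (emb (p := s.deg) Sum.inl hdeg' a)
        = emb (p := s.deg) Sum.inl hdeg' ((s.tw i z hz).D a) := by
      intro a
      refine der_emb (p := s.deg) (s.tw i z hz).isDer t.isDer _ _ ?_ a
      intro k
      rw [t.D_gen, hext]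
      congr 1
      exact ((s.tw i z hz).D_gen k).symm
    rw [h2, tw_D, tz_inv i (-z) z (aw_neg hz) hz (by simp), key z hz _ _ (by rw [neg_neg]),
      tz_inv i (-z) z (aw_neg hz) hz (by simp), s.D_gen]
  refine Eq.trans ?_ h1
  rw [emb_gen]
  exact ((t.tw (Sum.inl i) (-emb (p := s.deg) Sum.inl hdeg' z) (aw_neg hz')).D_gen _).symm

end Sul

end Run7.h985
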