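import Pool.Agent.Run7.h985.Crit
import Pool.Agent.Run7.h985.Tup

/-!
# The ring of even elements (MP_5f0082_gt, helper985)
-/

set_option autoImplicit false
set_option maxHeartbeats 400000

namespace Run7.h985

open Pool.H582SA

section zc

variable {ι : Type}

/-- the subalgebra of even elements -/
noncomputable def evs (p : ι → ℕ) : Subalgebra ℚ (FGC (sg p)) where
  carrier := {a | a ∈ Par p 0}
  mul_mem' ha hb := par_mul0 ha hb
  one_mem' := par_one
  add_mem' ha hb := (Par p 0).add_mem ha hb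
  zero_mem' := (Par p 0).zero_mem
  algebraMap_mem' r := par_algebraMap r

/-- the commutative ring of even elements -/
def Zc (p : ι → ℕ) : Type := evs p

noncomputable instance (p : ι → ℕ) : Ring (Zc p) := inferInstanceAs (Ring (evs p))

noncomputable instance (p : ι → ℕ) : CommRing (Zc p) :=
  { (inferInstance : Ring (Zc p)) with
    mul_comm := fun a b => Subtype.ext (even_comm a.2 b.1) }

/-- the inclusion of the even elements -/
noncomputable def zv (p : ι → ℕ) : Zc p →+* FGC (sg p) where
  toFun z := z.1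
  map_one' := rfl
  map_zero' := rfl
  map_mul' _ _ := rfl
  map_add' _ _ := rfl

variable {p : ι → ℕ}

theorem zv_par (z : Zc p) : zv p z ∈ Par p 0 := z.2

/-- an even element -/
def zm (a : FGC (sg p)) (h : a ∈ Par p 0) : Zc p := ⟨a, h⟩

@[simp] theorem zv_zm (a : FGC (sg p)) (h : a ∈ Par p 0) : zv p (zm a h) = a := rfl

theorem zv_inj {a b : Zc p} (h : zv p a = zv p b) : a = b := Subtype.ext h

noncomputable instance : Algebra (Zc p) (FGC (sg p)) :=
  RingHom.toAlgebra' (zv p) (fun z a => even_comm (zv_par z) a)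

theorem zsmul_def (z : Zc p) (a : FGC (sg p)) : z • a = zv p z * a := Algebra.smul_def z a

theorem zsmul_one (z : Zc p) : z • (1 : FGC (sg p)) = zv p z := by rw [zsmul_def, mul_one]

/-- odd elements -/
noncomputable def Od (p : ι → ℕ) : Submodule (Zc p) (FGC (sg p)) where
  carrier := {a | a ∈ Par p 1}
  add_mem' ha hb := (Par p 1).add_mem ha hb
  zero_mem' := (Par p 1).zero_mem
  smul_mem' z a ha := by
    change z • a ∈ Par p 1
    rw [zsmul_def]
    exact par_mul_even_odd (zv_par z) ha

theorem mem_Od {a : FGC (sg p)} : a ∈ Od p ↔ a ∈ Par p 1 := Iff.rfl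

open Classical in
/-- the structure attached to a derivation -/
noncomputable def gd {D : FGC (sg p) →ₗ[ℚ] FGC (sg p)} (hD : IsDer D) :
    GD (Zc p) (FGC (sg p)) where
  O := Od p
  D := D.toAddMonoidHom
  mm u v := if h : u * v ∈ Par p 0 then zm _ h else 0
  anti u hu v hv := by
    rw [odd_comm hu hv, neg_smul, one_smul]
  sq u hu := odd_sq hu
  mm_eq u hu v hv := by
    rw [dif_pos (par_mul_odd_odd hu hv), zsmul_one, zv_zm]
  DZ z w := by
    change D (z • w) = D (z • (1 : FGC (sg p))) * w + z • D w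
    rw [zsmul_def, zsmul_one, zsmul_def, hD.mul, tau_even (zv_par z)]
  DO u hu w := by
    change D (u * w) = D u * w - u * D w
    rw [hD.mul, tau_odd hu, neg_mul, sub_eq_add_neg]
  DZO z := by
    change D (z • (1 : FGC (sg p))) ∈ Par p 1
    rw [zsmul_one]
    exact hD.par 0 _ (zv_par z)
  D1 := hD.one

theorem gd_D {D : FGC (sg p) →ₗ[ℚ] FGC (sg p)} (hD : IsDer D) (a : FGC (sg p)) :
    (gd hD).D a = D a := rfl

theorem gd_mm {D : FGC (sg p) →ₗ[ℚ] FGC (sg p)} (hD : IsDer D) {u v : FGC (sg p)}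
    (hu : u ∈ Par p 1) (hv : v ∈ Par p 1) : zv p ((gd hD).mm u v) = u * v := by
  have h := (gd hD).mm_eq u hu v hv
  rw [zsmul_one] at h
  exact h

end zc

section zemb

variable {ι ι' : Type} {p : ι → ℕ} {p' : ι' → ℕ}

/-- the map on even elements -/
noncomputable def zemb (e : ι → ι') (he : ∀ i, p' (e i) = p i) : Zc p →+* Zc p' where
  toFun z := zm (emb e he (zv p z)) (emb_par e he (zv_par z))
  map_one' := zv_inj (by rw [zv_zm, map_one, map_one, map_one])
  map_zero' := zv_inj (by rw [zv_zm, map_zero, map_zero, map_zero])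
  map_mul' a b := zv_inj (by rw [zv_zm, map_mul, map_mul, map_mul, zv_zm, zv_zm])
  map_add' a b := zv_inj (by rw [zv_zm, map_add, map_add, map_add, zv_zm, zv_zm])

theorem zv_zemb (e : ι → ι') (he : ∀ i, p' (e i) = p i) (z : Zc p) :
    zv p' (zemb e he z) = emb e he (zv p z) := rfl

theorem emb_smul (e : ι → ι') (he : ∀ i, p' (e i) = p i) (z : Zc p) (a : FGC (sg p)) :
    emb e he (z • a) = zemb e he z • emb e he a := by
  rw [zsmul_def, map_mul, zsmul_def, zv_zemb]

variable {D : FGC (sg p) →ₗ[ℚ] FGC (sg p)} {D' : FGC (sg p') →ₗ[ℚ] FGC (sg p')}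
  (hD : IsDer D) (hD' : IsDer D') (e : ι → ι') (he : ∀ i, p' (e i) = p i)
  (hc : ∀ a, D' (emb e he a) = emb e he (D a))

/-- transport of tuples -/
noncomputable def tmap {φ : Fin 3 → Zc p} (T : Tup (gd hD) φ) :
    Tup (gd hD') (fun k => zemb e he (φ k)) where
  X := zemb e he T.X
  M := fun k => emb e he (T.M k)
  n := fun k => zemb e he (T.n k)
  C := emb e he T.C
  hM k := emb_par e he (T.hM k)
  hC := emb_par e he T.hC
  dX := by
    have h := T.dX
    rw [gd_D, zsmul_one] at h ⊢
    rw [zv_zemb, hc, h, map_sum]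
    simp only [emb_smul]
  dM k := by
    have h := T.dM k
    rw [gd_D, zsmul_one] at h ⊢
    rw [hc, h, ← zv_zemb, map_sub, map_mul, map_mul]
  dn k := by
    have h := T.dn k
    rw [gd_D, zsmul_one] at h ⊢
    rw [zv_zemb, hc, h, emb_smul]
  dC := by
    have h := T.dC
    rw [gd_D] at h ⊢
    rw [hc, h, map_zero]

end zemb

end Run7.h985
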